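import Mathlib

/-!
A quantitative two-constants lemma for power series with real coefficients, by Lagrange
interpolation.
-/

set_option autoImplicit false

namespace Pool.Agent.H30.PT.Two

open Finset Polynomial
open scoped Nat

/-- The coefficients of a product of linear factors with roots in `[0, 1]`. -/
theorem coeff_prod {ι : Type} [DecidableEq ι] (s : Finset ι) (x : ι → ℝ)
    (hx : ∀ i ∈ s, 0 ≤ x i ∧ x i ≤ 1) (k : ℕ) :
    |(∏ i ∈ s, (X - C (x i))).coeff k| ≤ 2 ^ s.card := by
  induction s using Finset.induction_on generalizing k with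
  | empty =>
    simp only [prod_empty, card_empty, pow_zero, coeff_one]
    split_ifs <;> simp
  | insert a s ha ih =>
    have hxs : ∀ i ∈ s, 0 ≤ x i ∧ x i ≤ 1 := fun i hi => hx i (mem_insert_of_mem hi)
    obtain ⟨a0, a1⟩ := hx a (mem_insert_self a s)
    rw [prod_insert ha, card_insert_of_notMem ha, sub_mul, coeff_sub, coeff_C_mul]
    have h1 : |(X * ∏ i ∈ s, (X - C (x i))).coeff k| ≤ 2 ^ s.card := by
      cases k with
      | zero => simp
      | succ k => rw [coeff_X_mul]; exact ih hxs k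
    have h2 : |x a * (∏ i ∈ s, (X - C (x i))).coeff k| ≤ 2 ^ s.card := by
      rw [abs_mul, abs_of_nonneg a0]
      have := ih hxs k
      have h3 := abs_nonneg ((∏ i ∈ s, (X - C (x i))).coeff k)
      nlinarith
    calc _ ≤ |(X * ∏ i ∈ s, (X - C (x i))).coeff k| + |x a * (∏ i ∈ s, (X - C (x i))).coeff k| :=
          abs_sub _ _
      _ ≤ 2 ^ s.card + 2 ^ s.card := add_le_add h1 h2
      _ = _ := by rw [pow_succ]; ring

/-- The product of the distances of `j` to the other natural numbers below `m`. -/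
theorem prod_dist {m j : ℕ} (hj : j < m) :
    ∏ i ∈ (range m).erase j, |(j:ℝ) - i| = (j ! : ℝ) * ((m - 1 - j)! : ℝ) := by
  have h1 : (range m).erase j = range j ∪ Finset.Ico (j + 1) m := by
    ext i
    simp only [mem_erase, mem_range, mem_union, Finset.mem_Ico]
    omega
  have hd : Disjoint (range j) (Finset.Ico (j + 1) m) := by
    rw [Finset.disjoint_left]
    intro i hi hi2
    rw [mem_range] at hi
    rw [Finset.mem_Ico] at hi2
    omega
  rw [h1, prod_union hd]
  congr 1
  · rw [← Finset.prod_range_reflect]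
    have : ∀ i ∈ range j, |(j:ℝ) - ((j - 1 - i : ℕ) : ℝ)| = ((i + 1 : ℕ) : ℝ) := by
      intro i hi
      rw [mem_range] at hi
      have h2 : ((j - 1 - i : ℕ) : ℝ) = (j:ℝ) - 1 - i := by
        rw [Nat.cast_sub (by omega), Nat.cast_sub (by omega)]; simp
      rw [h2]
      push_cast
      rw [show (j:ℝ) - ((j:ℝ) - 1 - i) = i + 1 by ring]
      exact abs_of_nonneg (by positivity)
    rw [prod_congr rfl this, ← Nat.cast_prod, Finset.prod_range_add_one_eq_factorial]
  · rw [Finset.prod_Ico_eq_prod_range]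
    have : ∀ i ∈ range (m - (j + 1)), |(j:ℝ) - ((j + 1 + i : ℕ) : ℝ)| = ((i + 1 : ℕ) : ℝ) := by
      intro i _
      push_cast
      rw [show (j:ℝ) - ((j:ℝ) + 1 + i) = -(i + 1) by ring, abs_neg]
      exact abs_of_nonneg (by positivity)
    rw [prod_congr rfl this, ← Nat.cast_prod, Finset.prod_range_add_one_eq_factorial]
    congr 2
    omega

/-- The coefficients of a polynomial which is bounded on `[0, 1]`. -/
theorem poly_coeff {m : ℕ} (hm : 1 ≤ m) {P : Polynomial ℝ} (hdeg : P.degree < m) {B : ℝ}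
    (hB : ∀ x : ℝ, 0 ≤ x → x ≤ 1 → |P.eval x| ≤ B) (k : ℕ) : |P.coeff k| ≤ B * 12 ^ m := by
  have hm0 : (0:ℝ) < m := by exact_mod_cast hm
  have hB0 : 0 ≤ B := (abs_nonneg _).trans (hB 0 le_rfl zero_le_one)
  obtain ⟨v, hv⟩ : ∃ v : ℕ → ℝ, v = fun j : ℕ => (j:ℝ) / m := ⟨_, rfl⟩
  have hinj : Set.InjOn v (range m : Set ℕ) := by
    intro a _ b _ h
    rw [hv] at h
    simp only at h
    rw [div_left_inj' hm0.ne'] at h
    exact_mod_cast h
  have hP := Lagrange.eq_interpolate (f := P) hinj (by rw [card_range]; exact hdeg)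
  have hval : P.coeff k = ∑ j ∈ range m, P.eval (v j) * (Lagrange.basis (range m) v j).coeff k := by
    conv_lhs => rw [hP]
    rw [Lagrange.interpolate_apply, finsetSum_coeff]
    apply sum_congr rfl
    intro j _
    rw [coeff_C_mul]
  have hv01 : ∀ j ∈ range m, 0 ≤ v j ∧ v j ≤ 1 := by
    intro j hj
    rw [mem_range] at hj
    rw [hv]
    refine ⟨by positivity, ?_⟩
    simp only
    rw [div_le_one hm0]
    exact_mod_cast hj.le
  have hbas : ∀ j ∈ range m, |(Lagrange.basis (range m) v j).coeff k| ≤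
      2 ^ (m - 1) * ((m:ℝ) ^ (m - 1) * ((j ! : ℝ) * ((m - 1 - j)! : ℝ))⁻¹) := by
    intro j hj
    have hj' := mem_range.1 hj
    have e1 : Lagrange.basis (range m) v j =
        C (∏ i ∈ (range m).erase j, (v j - v i)⁻¹) * ∏ i ∈ (range m).erase j, (X - C (v i)) := by
      unfold Lagrange.basis Lagrange.basisDivisor
      rw [prod_mul_distrib, map_prod]
    have hcard : ((range m).erase j).card = m - 1 := by
      rw [card_erase_of_mem hj, card_range]
    rw [e1, coeff_C_mul, abs_mul, abs_prod, mul_comm]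
    apply mul_le_mul
    · have := coeff_prod ((range m).erase j) v (fun i hi => hv01 i (mem_of_mem_erase hi)) k
      rwa [hcard] at this
    · apply le_of_eq
      have e2 : ∀ i ∈ (range m).erase j, |(v j - v i)⁻¹| = (m:ℝ) * (|(j:ℝ) - i|)⁻¹ := by
        intro i _
        rw [hv]
        simp only
        rw [← sub_div, abs_inv, abs_div, abs_of_pos hm0, inv_div, div_eq_mul_inv]
      rw [prod_congr rfl e2, prod_mul_distrib, prod_const, hcard, prod_inv_distrib, prod_dist hj']
    · exact prod_nonneg fun _ _ => abs_nonneg _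
    · positivity
  have hfac : (m:ℝ) ^ (m - 1) * ((m - 1)! : ℝ)⁻¹ ≤ 3 ^ m := by
    have h1 := Real.pow_div_factorial_le_exp (m:ℝ) hm0.le m
    have h2 : (m ! : ℝ) = m * ((m - 1)! : ℝ) := by
      rw [← Nat.mul_factorial_pred (by omega : m ≠ 0)]; push_cast; rfl
    have h3 : (m:ℝ) ^ m = m * (m:ℝ) ^ (m - 1) := by
      rw [← pow_succ']; congr 1; omega
    rw [h2, h3, mul_div_mul_left _ _ hm0.ne', div_eq_mul_inv] at h1
    refine h1.trans ?_
    calc Real.exp (m:ℝ) = Real.exp 1 ^ m := by rw [← Real.exp_nat_mul, mul_one]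
      _ ≤ 3 ^ m := pow_le_pow_left₀ (Real.exp_pos _).le Real.exp_one_lt_three.le m
  have hbin : ∑ j ∈ range m, ((j ! : ℝ) * ((m - 1 - j)! : ℝ))⁻¹ =
      2 ^ (m - 1) * ((m - 1)! : ℝ)⁻¹ := by
    have h1 : (2:ℝ) ^ (m - 1) = ∑ j ∈ range m, ((m - 1).choose j : ℝ) := by
      have h2 := Nat.sum_range_choose (m - 1)
      rw [show m - 1 + 1 = m by omega] at h2
      exact_mod_cast h2.symm
    rw [h1, sum_mul]
    apply sum_congr rfl
    intro j hj
    rw [mem_range] at hj
    have h3 := Nat.choose_mul_factorial_mul_factorial (show j ≤ m - 1 by omega)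
    have h4 : ((m - 1).choose j : ℝ) * (j ! : ℝ) * ((m - 1 - j)! : ℝ) = ((m - 1)! : ℝ) := by
      exact_mod_cast h3
    have h5 : ((m - 1).choose j : ℝ) ≠ 0 := by
      exact_mod_cast (Nat.choose_pos (show j ≤ m - 1 by omega)).ne'
    rw [← h4]
    field_simp
  rw [hval]
  calc |∑ j ∈ range m, P.eval (v j) * (Lagrange.basis (range m) v j).coeff k|
      ≤ ∑ j ∈ range m, |P.eval (v j) * (Lagrange.basis (range m) v j).coeff k| :=
        abs_sum_le_sum_abs _ _
    _ ≤ ∑ j ∈ range m, B * (2 ^ (m - 1) * ((m:ℝ) ^ (m - 1) *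
          ((j ! : ℝ) * ((m - 1 - j)! : ℝ))⁻¹)) := by
        apply sum_le_sum
        intro j hj
        rw [abs_mul]
        exact mul_le_mul (hB _ (hv01 j hj).1 (hv01 j hj).2) (hbas j hj) (abs_nonneg _) hB0
    _ = B * (2 ^ (m - 1) * 2 ^ (m - 1)) * ((m:ℝ) ^ (m - 1) * ((m - 1)! : ℝ)⁻¹) := by
        rw [← mul_sum, ← mul_sum, ← mul_sum, hbin]; ring
    _ ≤ B * (4 ^ m) * 3 ^ m := by
        apply mul_le_mul _ hfac (by positivity) (by positivity)
        apply mul_le_mul_of_nonneg_left _ hB0
        rw [← mul_pow]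
        norm_num
        exact pow_le_pow_right₀ (by norm_num) (by omega)
    _ = B * 12 ^ m := by rw [mul_assoc, ← mul_pow]; norm_num

/-- **Two constants.** A power series which is small on a real segment has small coefficients. -/
theorem two_const {a : ℕ → ℝ} {M L δ : ℝ} (hM : 0 ≤ M) (hL : 0 < L) (hδ : 0 < δ) (hδ1 : δ ≤ 1)
    (ha : ∀ k, |a k| ≤ M * L ^ k)
    (hs : ∀ x : ℝ, 0 ≤ x → x ≤ 1 / (144 * L) → |∑' k, a k * x ^ k| ≤ δ * M) (k : ℕ) :
    |a k| ≤ 36 * M * Real.sqrt δ * (144 * L) ^ k := by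
  obtain ⟨b, hb⟩ : ∃ b : ℕ → ℝ, b = fun k => a k * (1 / (144 * L)) ^ k := ⟨_, rfl⟩
  have hbk : ∀ k, |b k| ≤ M * (1 / 144) ^ k := by
    intro k
    rw [hb]
    simp only
    rw [abs_mul, abs_of_nonneg (by positivity : (0:ℝ) ≤ (1 / (144 * L)) ^ k)]
    calc |a k| * (1 / (144 * L)) ^ k ≤ (M * L ^ k) * (1 / (144 * L)) ^ k :=
          mul_le_mul_of_nonneg_right (ha k) (by positivity)
      _ = M * (1 / 144) ^ k := by
          rw [mul_assoc, ← mul_pow]
          congr 2
          field_simp
  have hsum : ∀ t : ℝ, 0 ≤ t → t ≤ 1 → |∑' k, b k * t ^ k| ≤ δ * M := by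
    intro t t0 t1
    have h1 := hs (1 / (144 * L) * t) (by positivity) (by
      have : 0 < 1 / (144 * L) := by positivity
      nlinarith)
    have e : ∀ k, b k * t ^ k = a k * (1 / (144 * L) * t) ^ k := by
      intro k; rw [hb]; simp only; rw [mul_pow]; ring
    simp only [e]
    exact h1
  obtain ⟨r, hr⟩ : ∃ r : ℝ, r = Real.sqrt δ := ⟨_, rfl⟩
  have hr0 : 0 < r := by rw [hr]; exact Real.sqrt_pos.2 hδ
  have hr2 : r ^ 2 = δ := by rw [hr]; exact Real.sq_sqrt hδ.le
  have hr1 : r ≤ 1 := by rw [hr]; exact Real.sqrt_le_one.2 hδ1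
  have main : ∀ k, |b k| ≤ 36 * M * r := by
    obtain ⟨m, hm1, hm2⟩ := exists_nat_pow_near (x := 1 / r) (y := 12)
      (by rw [le_div_iff₀ hr0]; linarith) (by norm_num)
    rw [le_div_iff₀ hr0] at hm1
    rw [div_lt_iff₀ hr0] at hm2
    have hq : (1/12 : ℝ) ^ m ≤ 12 * r := by
      rw [one_div, inv_pow, inv_le_iff_one_le_mul₀ (by positivity)]
      rw [pow_succ] at hm2
      linarith
    intro k
    by_cases hk : m ≤ k
    · calc |b k| ≤ M * (1 / 144) ^ k := hbk k
        _ ≤ M * (1/144) ^ m := by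
            apply mul_le_mul_of_nonneg_left _ hM
            exact pow_le_pow_of_le_one (by norm_num) (by norm_num) hk
        _ = M * ((1/12) ^ m * (1/12) ^ m) := by rw [← mul_pow]; norm_num
        _ ≤ M * (12 * r * 1) := by
            apply mul_le_mul_of_nonneg_left _ hM
            apply mul_le_mul hq (pow_le_one₀ (by norm_num) (by norm_num)) (by positivity)
              (by positivity)
        _ ≤ 36 * M * r := by nlinarith [mul_nonneg hM hr0.le]
    · have hm : 1 ≤ m := by omega
      obtain ⟨P, hP⟩ : ∃ P : Polynomial ℝ, P = ∑ i ∈ range m, C (b i) * X ^ i := ⟨_, rfl⟩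
      have hdeg : P.degree < m := by
        rw [hP]
        refine lt_of_le_of_lt (degree_sum_le _ _) ?_
        rw [Finset.sup_lt_iff (by exact_mod_cast WithBot.bot_lt_coe m)]
        intro i hi
        refine lt_of_le_of_lt (degree_C_mul_X_pow_le _ _) ?_
        exact_mod_cast mem_range.1 hi
      have hcoef : P.coeff k = b k := by
        rw [hP, finsetSum_coeff]
        simp only [coeff_C_mul, coeff_X_pow, mul_ite, mul_one, mul_zero]
        rw [Finset.sum_ite_eq]
        rw [if_pos (mem_range.2 (by omega))]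
      have hev : ∀ t : ℝ, 0 ≤ t → t ≤ 1 → |P.eval t| ≤ δ * M + 2 * M * (1/144) ^ m := by
        intro t t0 t1
        have hsm : Summable fun i => b i * t ^ i := by
          refine Summable.of_norm_bounded (g := fun i : ℕ => M * (1 / 144) ^ i)
            ((summable_geometric_of_lt_one (by norm_num) (by norm_num)).mul_left M) (fun i => ?_)
          rw [norm_mul, norm_pow, Real.norm_eq_abs, Real.norm_eq_abs, abs_of_nonneg t0]
          calc |b i| * t ^ i ≤ (M * (1/144) ^ i) * 1 :=
                mul_le_mul (hbk i) (pow_le_one₀ t0 t1) (by positivity) (by positivity)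
            _ = _ := mul_one _
        have e1 : P.eval t = ∑ i ∈ range m, b i * t ^ i := by
          rw [hP, eval_finsetSum]
          apply sum_congr rfl
          intro i _
          simp
        have e2 := hsm.sum_add_tsum_nat_add m
        have e3 : |∑' i, b (i + m) * t ^ (i + m)| ≤ 2 * M * (1/144) ^ m := by
          have hg : HasSum (fun i : ℕ => M * (1/144 : ℝ) ^ m * (1/144) ^ i)
              (M * (1/144) ^ m * (1 - 1/144)⁻¹) :=
            (hasSum_geometric_of_lt_one (by norm_num) (by norm_num)).mul_left _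
          have h3 := tsum_of_norm_bounded (f := fun i => b (i + m) * t ^ (i + m)) hg (by
            intro i
            rw [norm_mul, norm_pow, Real.norm_eq_abs, Real.norm_eq_abs, abs_of_nonneg t0]
            calc |b (i + m)| * t ^ (i + m) ≤ (M * (1/144) ^ (i + m)) * 1 :=
                  mul_le_mul (hbk _) (pow_le_one₀ t0 t1) (by positivity) (by positivity)
              _ = _ := by rw [pow_add]; ring)
          rw [Real.norm_eq_abs] at h3
          refine h3.trans ?_
          have h4 : (1 - 1/144 : ℝ)⁻¹ ≤ 2 := by norm_num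
          have h5 : 0 ≤ M * (1/144 : ℝ) ^ m := by positivity
          nlinarith
        rw [e1]
        have e4 : ∑ i ∈ range m, b i * t ^ i = ∑' i, b i * t ^ i -
            ∑' i, b (i + m) * t ^ (i + m) := by rw [← e2]; ring
        rw [e4]
        exact (abs_sub _ _).trans (add_le_add (hsum t t0 t1) e3)
      have h1 := poly_coeff hm hdeg hev k
      rw [hcoef] at h1
      refine h1.trans ?_
      have h2 : δ * 12 ^ m ≤ r := by
        rw [← hr2]
        nlinarith
      have h3 : (1/144 : ℝ) ^ m * 12 ^ m = (1/12) ^ m := by rw [← mul_pow]; norm_num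
      calc (δ * M + 2 * M * (1/144) ^ m) * 12 ^ m
          = M * (δ * 12 ^ m) + 2 * M * ((1/144) ^ m * 12 ^ m) := by ring
        _ ≤ M * r + 2 * M * (12 * r) := by
            rw [h3]
            apply add_le_add
            · exact mul_le_mul_of_nonneg_left h2 hM
            · exact mul_le_mul_of_nonneg_left hq (by positivity)
        _ ≤ 36 * M * r := by nlinarith [mul_nonneg hM hr0.le]
  have h1 := main k
  rw [hb] at h1
  simp only at h1
  rw [abs_mul, abs_of_nonneg (by positivity : (0:ℝ) ≤ (1 / (144 * L)) ^ k)] at h1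
  rw [← hr]
  have h2 : |a k| = |a k| * (1 / (144 * L)) ^ k * (144 * L) ^ k := by
    rw [mul_assoc, ← mul_pow, one_div, inv_mul_cancel₀ (by positivity), one_pow, mul_one]
  rw [h2]
  exact mul_le_mul_of_nonneg_right h1 (by positivity)

end Pool.Agent.H30.PT.Two
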