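import Pool.Agent.H30.PT.Tau
import Pool.Agent.H30.PT.Two
import Pool.Graph.R_pool_sql_team_seeded_3997aac3.Q291.TT.Su

/-! The derivatives of the connected two-point function, with exponential decay. -/

set_option autoImplicit false

namespace Pool.Agent.H30.PT

open Set Filter Topology
open H974 (Vtx theta sigma)
open Pool.Agent.H160R2.CV (nv)
open scoped ContDiff Nat

open Sect (K K_near K_real K_diff' G_near G_hol G_real sec sec_open sec_mono real_deriv co_all)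
open Pool.Agent.NH39.W.SecA (G co)

/-- Small values on a real segment improve the bounds of all derivatives. -/
theorem improve {f : ℝ → ℝ} {a b A : ℝ} {V : ℝ → ℝ} (H : Sect.Hyp f a b A V) {p : ℝ}
    (hp : p ∈ Ioo a b) {M δ σ : ℝ} (hM : V p ≤ M) (hδ : 0 < δ) (hδ1 : δ ≤ 1)
    (hσ : σ = 1 ∨ σ = -1)
    (hseg : ∀ t : ℝ, 0 ≤ t → t ≤ |p - 1/2| / (144 * A) → p + σ * t ∈ Ioo a b ∧
      |f (p + σ * t)| ≤ δ * M) (k : ℕ) :
    |iteratedDeriv k f p| ≤ (144 * A) ^ k * k ! * (|p - 1/2|⁻¹) ^ k * (36 * M * Real.sqrt δ) := by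
  have hA := H.cpos
  have hs := H.spos hp
  have hM0 : 0 ≤ M := (H.vnn hp).trans hM
  have hσ1 : |σ| = 1 := by rcases hσ with h | h <;> rw [h] <;> simp
  have hL : 0 < A / |p - 1/2| := div_pos hA hs
  have hco := co_all H hp
  have e0 : 1 / (144 * (A / |p - 1/2|)) = |p - 1/2| / (144 * A) := by
    rw [mul_div_assoc', one_div_div]
  have h := Two.two_const (a := fun k => co f p k * σ ^ k) (M := M) (L := A / |p - 1/2|) (δ := δ)
    hM0 hL hδ hδ1 (by
      intro k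
      rw [abs_mul, abs_pow, hσ1, one_pow, mul_one]
      exact (hco k).trans (mul_le_mul_of_nonneg_right hM (by positivity))) (by
      intro x x0 x1
      rw [e0] at x1
      obtain ⟨h1, h2⟩ := hseg x x0 x1
      have h3 : |p + σ * x - p| < |p - 1/2| / (4 * A) := by
        rw [add_sub_cancel_left, abs_mul, hσ1, one_mul, abs_of_nonneg x0]
        refine lt_of_le_of_lt x1 ?_
        rw [div_lt_div_iff₀ (by positivity) (by positivity)]
        have : 0 < |p - 1/2| * A := by positivity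
        nlinarith
      have h4 := G_real H hp h1 h3
      have h5 : ((∑' k : ℕ, co f p k * σ ^ k * x ^ k : ℝ) : ℂ) = G f p ((p + σ * x : ℝ) : ℂ) := by
        unfold G
        rw [Complex.ofReal_tsum]
        apply tsum_congr
        intro j
        push_cast
        rw [add_sub_cancel_left, mul_pow]
        ring
      rw [h4] at h5
      have h6 : (∑' k : ℕ, co f p k * σ ^ k * x ^ k : ℝ) = f (p + σ * x) := by exact_mod_cast h5
      show |∑' k : ℕ, co f p k * σ ^ k * x ^ k| ≤ δ * M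
      rw [h6]
      exact h2) k
  rw [abs_mul, abs_pow, hσ1, one_pow, mul_one] at h
  have hf : (0 : ℝ) < k ! := by exact_mod_cast Nat.factorial_pos k
  unfold Pool.Agent.NH39.W.SecA.co at h
  rw [abs_div, abs_of_pos hf, div_le_iff₀ hf] at h
  refine h.trans (le_of_eq ?_)
  rw [← mul_div_assoc, div_pow, inv_pow]
  field_simp

/-- The connected two-point function as a function of a real parameter. -/
noncomputable def gR (x : Vtx) (p : ℝ) : ℝ := tauR x p - thR p ^ 2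

theorem thR_low {p : ℝ} (p0 : 0 ≤ p) (p1 : p ≤ 1/2) : thR p = 0 := by
  rw [thR_eq p0 (by linarith)]
  exact H974.theta_half_le p1

/-- The derivatives of the square of the percolation probability, for all parameters. -/
theorem th_all : ∃ A : ℝ, 1 ≤ A ∧ ∀ p : ℝ, 0 < p → p < 1 → p ≠ 1/2 →
    ContDiffAt ℝ ∞ (fun y => thR y ^ 2) p ∧ ∀ k, |iteratedDeriv k (fun y => thR y ^ 2) p| ≤
      A ^ (k + 1) * k ! * (|p - 1/2|⁻¹) ^ k * |p - 1/2| ^ (5/18 : ℝ) := by
  obtain ⟨A, hA, h⟩ := th_der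
  refine ⟨A, hA, ?_⟩
  intro p p0 p1 ph
  have e2 : (|p - 1/2| ^ (5/36 : ℝ)) ^ 2 = |p - 1/2| ^ (5/18 : ℝ) := by
    rw [← Real.rpow_natCast, ← Real.rpow_mul (abs_nonneg _)]; norm_num
  rcases lt_or_gt_of_ne ph with hlt | hgt
  · have he : (fun y => thR y ^ 2) =ᶠ[𝓝 p] fun _ => (0:ℝ) := by
      filter_upwards [isOpen_Ioo.mem_nhds (⟨p0, hlt⟩ : p ∈ Ioo (0:ℝ) (1/2))] with y hy
      rw [thR_low hy.1.le hy.2.le]
      norm_num
    refine ⟨contDiffAt_const.congr_of_eventuallyEq he, ?_⟩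
    intro k
    rw [(he.iteratedDeriv k).eq_of_nhds, iteratedDeriv_const]
    have h0 : |(if k = 0 then (0:ℝ) else 0)| = 0 := by split_ifs <;> simp
    rw [h0]
    positivity
  · rw [← e2]
    exact h p hgt p1

theorem tauR_zero (p : ℝ) : tauR (0, 0) p = 1 := tau_zero _

/-- The derivatives of the two-point function for all vertices, coarse bound. -/
theorem tau_all : ∃ A : ℝ, 1 ≤ A ∧ ∀ x : Vtx, ∀ p : ℝ, 0 < p → p < 1 → p ≠ 1/2 →
    ContDiffAt ℝ ∞ (tauR x) p ∧ ∀ k, |iteratedDeriv k (tauR x) p| ≤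
      A ^ (k + 1) * k ! * (|p - 1/2|⁻¹) ^ k *
        (((nv x : ℝ) + 1) ^ (-(5/24) : ℝ) + |p - 1/2| ^ (5/18 : ℝ)) := by
  obtain ⟨A, hA, h⟩ := tau_der
  refine ⟨8 * A, by linarith, ?_⟩
  intro x p p0 p1 ph
  have hs : 0 < |p - 1/2| := abs_pos.2 (sub_ne_zero.2 ph)
  have hs1 : |p - 1/2| ≤ 1 := by rw [abs_le]; constructor <;> linarith
  have h18 : 0 ≤ |p - 1/2| ^ (5/18 : ℝ) := by positivity
  have hfac : ∀ k : ℕ, (1:ℝ) ≤ k ! := by
    intro k
    exact_mod_cast Nat.one_le_iff_ne_zero.2 (Nat.factorial_ne_zero k)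
  by_cases hx : x = (0, 0)
  · subst hx
    have e : tauR (0, 0) = fun _ => (1:ℝ) := by funext y; exact tauR_zero y
    rw [e]
    refine ⟨contDiffAt_const, ?_⟩
    intro k
    rw [iteratedDeriv_const]
    have h0 : |(if k = 0 then (1:ℝ) else 0)| ≤ 1 := by split_ifs <;> simp
    refine h0.trans ?_
    have h1 : (1:ℝ) ≤ (8 * A) ^ (k + 1) * k ! * (|p - 1/2|⁻¹) ^ k := by
      apply one_le_mul_of_one_le_of_one_le
      · exact one_le_mul_of_one_le_of_one_le (one_le_pow₀ (by linarith)) (hfac k)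
      · exact one_le_pow₀ ((one_le_inv₀ hs).2 hs1)
    have h2 : (((nv ((0, 0) : Vtx) : ℕ) : ℝ) + 1) ^ (-(5/24) : ℝ) = 1 := by
      have : nv ((0, 0) : Vtx) = 0 := by unfold nv; simp
      rw [this]; simp
    rw [h2]
    nlinarith
  · obtain ⟨h1, h2⟩ := h x hx p p0 p1 ph
    refine ⟨h1, ?_⟩
    intro k
    have hx1 := nv_pos hx
    have hn0 : (0:ℝ) < nv x := by exact_mod_cast hx1
    have hn1 : (1:ℝ) ≤ nv x := by exact_mod_cast hx1
    have h3 := vv_tb p0.le p1.le hx1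
    have h4 : tb p (nv x) ≤ (nv x : ℝ) ^ (-(5/24) : ℝ) + |p - 1/2| ^ (5/18 : ℝ) := by
      unfold tb
      split_ifs
      · have h5 : (nv x : ℝ) ^ (-(5/24) : ℝ) / (1 + nv x * |p - 1/2| ^ (4/3 : ℝ)) ^ 2 ≤
            (nv x : ℝ) ^ (-(5/24) : ℝ) := by
          apply div_le_self (by positivity)
          apply one_le_pow₀
          have : 0 ≤ (nv x : ℝ) * |p - 1/2| ^ (4/3 : ℝ) := by positivity
          linarith
        linarith
      · exact le_rfl
    have h6 : (nv x : ℝ) ^ (-(5/24) : ℝ) ≤ 2 * ((nv x : ℝ) + 1) ^ (-(5/24) : ℝ) := by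
      calc (nv x : ℝ) ^ (-(5/24) : ℝ) ≤ (((nv x : ℝ) + 1) / 2) ^ (-(5/24) : ℝ) :=
            Real.rpow_le_rpow_of_nonpos (by positivity) (by linarith) (by norm_num)
        _ = (2:ℝ) ^ (5/24 : ℝ) * ((nv x : ℝ) + 1) ^ (-(5/24) : ℝ) := by
            rw [Real.div_rpow (by positivity) (by norm_num),
              Real.rpow_neg (by norm_num : (0:ℝ) ≤ 2), div_inv_eq_mul]
            ring
        _ ≤ 2 * ((nv x : ℝ) + 1) ^ (-(5/24) : ℝ) := by
            apply mul_le_mul_of_nonneg_right _ (by positivity)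
            calc (2:ℝ) ^ (5/24 : ℝ) ≤ 2 ^ (1:ℝ) :=
                  Real.rpow_le_rpow_of_exponent_le (by norm_num) (by norm_num)
              _ = 2 := Real.rpow_one 2
    have h7 : (vv p (nv x)) ^ 2 ≤ 8 * (((nv x : ℝ) + 1) ^ (-(5/24) : ℝ) +
        |p - 1/2| ^ (5/18 : ℝ)) := by linarith
    refine (h2 k).trans ?_
    have h8 : 0 ≤ A ^ (k + 1) * (k ! : ℝ) * (|p - 1/2|⁻¹) ^ k := by positivity
    calc A ^ (k + 1) * (k ! : ℝ) * (|p - 1/2|⁻¹) ^ k * (vv p (nv x)) ^ 2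
        ≤ A ^ (k + 1) * (k ! : ℝ) * (|p - 1/2|⁻¹) ^ k *
          (8 * (((nv x : ℝ) + 1) ^ (-(5/24) : ℝ) + |p - 1/2| ^ (5/18 : ℝ))) :=
          mul_le_mul_of_nonneg_left h7 h8
      _ = (8 * A ^ (k + 1)) * (k ! : ℝ) * (|p - 1/2|⁻¹) ^ k *
          (((nv x : ℝ) + 1) ^ (-(5/24) : ℝ) + |p - 1/2| ^ (5/18 : ℝ)) := by ring
      _ ≤ (8 * A) ^ (k + 1) * (k ! : ℝ) * (|p - 1/2|⁻¹) ^ k *
          (((nv x : ℝ) + 1) ^ (-(5/24) : ℝ) + |p - 1/2| ^ (5/18 : ℝ)) := by
          apply mul_le_mul_of_nonneg_right _ (by positivity)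
          apply mul_le_mul_of_nonneg_right _ (by positivity)
          apply mul_le_mul_of_nonneg_right _ (by positivity)
          rw [mul_pow]
          apply mul_le_mul_of_nonneg_right _ (by positivity)
          calc (8:ℝ) = 8 ^ 1 := (pow_one _).symm
            _ ≤ 8 ^ (k + 1) := pow_le_pow_right₀ (by norm_num) (by omega)

/-- The coarse bound for the connected two-point function. -/
theorem g_coarse : ∃ A : ℝ, 1 ≤ A ∧ ∀ x : Vtx, ∀ p : ℝ, 0 < p → p < 1 → p ≠ 1/2 →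
    ContDiffAt ℝ ∞ (gR x) p ∧ ∀ k, |iteratedDeriv k (gR x) p| ≤
      A ^ k * k ! * (|p - 1/2|⁻¹) ^ k *
        (A * (((nv x : ℝ) + 1) ^ (-(5/24) : ℝ) + |p - 1/2| ^ (5/18 : ℝ))) := by
  obtain ⟨A1, hA1, h1⟩ := tau_all
  obtain ⟨A2, hA2, h2⟩ := th_all
  refine ⟨A1 + A2, by linarith, ?_⟩
  intro x p p0 p1 ph
  obtain ⟨a1, b1⟩ := h1 x p p0 p1 ph
  obtain ⟨a2, b2⟩ := h2 p p0 p1 ph
  have hs : 0 < |p - 1/2| := abs_pos.2 (sub_ne_zero.2 ph)
  refine ⟨a1.sub a2, ?_⟩
  intro k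
  have e : iteratedDeriv k (gR x) p = iteratedDeriv k (tauR x) p -
      iteratedDeriv k (fun y => thR y ^ 2) p := by
    have e1 : gR x = fun y => tauR x y - (fun y => thR y ^ 2) y := rfl
    rw [e1]
    exact iteratedDeriv_fun_sub (a1.of_le (by exact_mod_cast le_top))
      (a2.of_le (by exact_mod_cast le_top))
  rw [e]
  have h18 : 0 ≤ |p - 1/2| ^ (5/18 : ℝ) := by positivity
  have h24 : 0 ≤ ((nv x : ℝ) + 1) ^ (-(5/24) : ℝ) := by positivity
  obtain ⟨Q, hQ⟩ : ∃ Q : ℝ, Q = ((nv x : ℝ) + 1) ^ (-(5/24) : ℝ) + |p - 1/2| ^ (5/18 : ℝ) :=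
    ⟨_, rfl⟩
  have hQ0 : 0 ≤ Q := by rw [hQ]; positivity
  have b3 := b1 k
  have b4 := b2 k
  rw [← hQ] at b3 ⊢
  have b5 : |iteratedDeriv k (fun y => thR y ^ 2) p| ≤
      A2 ^ (k + 1) * k ! * (|p - 1/2|⁻¹) ^ k * Q := by
    refine b4.trans ?_
    apply mul_le_mul_of_nonneg_left _ (by positivity)
    rw [hQ]; linarith
  have h5 : A1 ^ (k + 1) + A2 ^ (k + 1) ≤ (A1 + A2) ^ (k + 1) := by
    rw [pow_succ, pow_succ, pow_succ]
    have c1 : A1 ^ k ≤ (A1 + A2) ^ k := pow_le_pow_left₀ (by linarith) (by linarith) k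
    have c2 : A2 ^ k ≤ (A1 + A2) ^ k := pow_le_pow_left₀ (by linarith) (by linarith) k
    nlinarith
  refine (abs_sub _ _).trans ((add_le_add b3 b5).trans ?_)
  have h6 : 0 ≤ (k ! : ℝ) * (|p - 1/2|⁻¹) ^ k * Q := by positivity
  calc A1 ^ (k + 1) * (k ! : ℝ) * (|p - 1/2|⁻¹) ^ k * Q +
        A2 ^ (k + 1) * (k ! : ℝ) * (|p - 1/2|⁻¹) ^ k * Q
      = (A1 ^ (k + 1) + A2 ^ (k + 1)) * ((k ! : ℝ) * (|p - 1/2|⁻¹) ^ k * Q) := by ring
    _ ≤ (A1 + A2) ^ (k + 1) * ((k ! : ℝ) * (|p - 1/2|⁻¹) ^ k * Q) :=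
        mul_le_mul_of_nonneg_right h5 h6
    _ = _ := by rw [pow_succ]; ring

/-- The values of the connected two-point function. -/
theorem g_val : ∃ c C : ℝ, 0 < c ∧ 0 < C ∧ ∀ x : Vtx, ∀ p : ℝ, 0 < p → p < 1 →
    0 ≤ gR x p ∧ gR x p ≤ C * (((nv x : ℝ) + 1) ^ (-(5/24) : ℝ) *
      Real.exp (-(c * (nv x * |p - 1/2| ^ (4/3 : ℝ))))) := by
  obtain ⟨c1, C1, hc1, hC1, h1⟩ := Pool.Agent.W424.NC.tau_upper
  obtain ⟨c2, C2, hc2, hC2, h2⟩ := Q291.TT.up_tau
  refine ⟨min c1 c2, C1 + C2, by positivity, by positivity, ?_⟩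
  intro x p p0 p1
  have hmono : ∀ c' : ℝ, min c1 c2 ≤ c' → Real.exp (-(c' * (nv x * |p - 1/2| ^ (4/3 : ℝ)))) ≤
      Real.exp (-(min c1 c2 * (nv x * |p - 1/2| ^ (4/3 : ℝ)))) := by
    intro c' hc
    apply Real.exp_le_exp.2
    have : 0 ≤ (nv x : ℝ) * |p - 1/2| ^ (4/3 : ℝ) := by positivity
    nlinarith
  have hfin : ∀ (C' c' : ℝ), 0 < C' → C' ≤ C1 + C2 → min c1 c2 ≤ c' →
      C' * ((nv x : ℝ) + 1) ^ (-(5/24) : ℝ) *
        Real.exp (-(c' * (nv x * |p - 1/2| ^ (4/3 : ℝ)))) ≤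
      (C1 + C2) * (((nv x : ℝ) + 1) ^ (-(5/24) : ℝ) *
        Real.exp (-(min c1 c2 * (nv x * |p - 1/2| ^ (4/3 : ℝ))))) := by
    intro C' c' hC' hC hc
    rw [mul_assoc]
    apply mul_le_mul hC _ (by positivity) (by positivity)
    exact mul_le_mul_of_nonneg_left (hmono c' hc) (by positivity)
  rcases le_total p (1/2) with hp | hp
  · have e1 : |p - 1/2| = 1/2 - p := by rw [abs_sub_comm, abs_of_nonneg (by linarith)]
    unfold gR
    rw [thR_low p0.le hp, tauR_eq x p0.le p1.le]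
    have h3 := h1 ⟨p, p0.le, p1.le⟩ hp x
    have h4 : (0:ℝ) ≤ H31K.tau ⟨p, p0.le, p1.le⟩ x := tau_nonneg _ _
    constructor
    · linarith
    · have h5 : H31K.tau ⟨p, p0.le, p1.le⟩ x ≤ C1 * ((nv x : ℝ) + 1) ^ (-(5/24) : ℝ) *
          Real.exp (-(c1 * (nv x * |p - 1/2| ^ (4/3 : ℝ)))) := by
        rw [e1]; exact h3
      have h6 := hfin C1 c1 hC1 (by linarith) (min_le_left _ _)
      linarith
  · have e1 : |p - 1/2| = p - 1/2 := abs_of_nonneg (by linarith)
    unfold gR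
    rw [thR_eq p0.le p1.le, tauR_eq x p0.le p1.le]
    have h3 := h2 ⟨p, p0.le, p1.le⟩ hp x
    have a1 := Q291.TT.theta_sq_le ⟨p, p0.le, p1.le⟩ hp x
    have a2 := Q291.TT.tau_split ⟨p, p0.le, p1.le⟩ x
    have a3 : 0 ≤ Q291.TT.tauf ⟨p, p0.le, p1.le⟩ x := MeasureTheory.measureReal_nonneg
    constructor
    · linarith
    · have h5 : H31K.tau ⟨p, p0.le, p1.le⟩ x - theta ⟨p, p0.le, p1.le⟩ ^ 2 ≤
          C2 * ((nv x : ℝ) + 1) ^ (-(5/24) : ℝ) *
          Real.exp (-(c2 * (nv x * |p - 1/2| ^ (4/3 : ℝ)))) := by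
        rw [e1]; exact h3
      exact h5.trans (hfin C2 c2 hC2 (by linarith) (min_le_right _ _))

/-- The weight of the vertex `x`. -/
noncomputable def wx (c : ℝ) (x : Vtx) (p : ℝ) : ℝ :=
  ((nv x : ℝ) + 1) ^ (-(5/24) : ℝ) * Real.exp (-(c * (nv x * |p - 1/2| ^ (4/3 : ℝ))))

theorem wx_pos (c : ℝ) (x : Vtx) (p : ℝ) : 0 < wx c x p := by
  unfold wx; positivity

theorem wx_le_one {c : ℝ} (hc : 0 ≤ c) (x : Vtx) (p : ℝ) : wx c x p ≤ 1 := by
  unfold wx
  have h1 : ((nv x : ℝ) + 1) ^ (-(5/24) : ℝ) ≤ 1 := by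
    apply Real.rpow_le_one_of_one_le_of_nonpos _ (by norm_num)
    have : (0:ℝ) ≤ nv x := Nat.cast_nonneg _
    linarith
  have h2 : Real.exp (-(c * (nv x * |p - 1/2| ^ (4/3 : ℝ)))) ≤ 1 := by
    apply Real.exp_le_one_iff.2
    have : 0 ≤ c * ((nv x : ℝ) * |p - 1/2| ^ (4/3 : ℝ)) := by positivity
    linarith
  exact mul_le_one₀ h1 (Real.exp_pos _).le h2

/-- **The derivatives of the connected two-point function.** -/
theorem g_hyp : ∃ c A : ℝ, 0 < c ∧ 0 < A ∧ ∀ x : Vtx,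
    Sect.Hyp (gR x) 0 (1/2) A (fun p => A * wx c x p) ∧
    Sect.Hyp (gR x) (1/2) 1 A (fun p => A * wx c x p) := by
  obtain ⟨B, hB, hco⟩ := g_coarse
  obtain ⟨c, C, hc, hC, hval⟩ := g_val
  obtain ⟨Kc, hKc⟩ : ∃ Kc : ℝ, Kc = 3 + 12 / c := ⟨_, rfl⟩
  have hKc0 : 0 < Kc := by rw [hKc]; positivity
  obtain ⟨A, hA⟩ : ∃ A : ℝ, A = 144 * B + 36 * (B + C) * Kc := ⟨_, rfl⟩
  have hA1 : 144 * B ≤ A := by rw [hA]; have : 0 < 36 * (B + C) * Kc := by positivity
                               linarith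
  have hA2 : 36 * (B + C) * Kc ≤ A := by rw [hA]; linarith
  have hA0 : 0 < A := by linarith
  refine ⟨c / 12, A, by positivity, hA0, ?_⟩
  intro x
  -- the coarse hypotheses
  have H1 : Sect.Hyp (gR x) 0 (1/2) B (fun p => B * (((nv x : ℝ) + 1) ^ (-(5/24) : ℝ) +
      |p - 1/2| ^ (5/18 : ℝ))) := by
    refine ⟨hB, le_rfl, by norm_num, fun p hp => hp.2.ne,
      fun p hp => (hco x p hp.1 (by linarith [hp.2]) hp.2.ne).1,
      fun p hp k => (hco x p hp.1 (by linarith [hp.2]) hp.2.ne).2 k, ?_⟩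
    intro δ _
    refine ⟨B * (1 + 1), by positivity, ?_⟩
    intro p hp _
    apply mul_le_mul_of_nonneg_left _ (by linarith)
    apply add_le_add
    · apply Real.rpow_le_one_of_one_le_of_nonpos _ (by norm_num)
      have : (0:ℝ) ≤ nv x := Nat.cast_nonneg _
      linarith
    · exact Real.rpow_le_one (abs_nonneg _)
        (by rw [abs_le]; constructor <;> linarith [hp.1, hp.2]) (by norm_num)
  have H2 : Sect.Hyp (gR x) (1/2) 1 B (fun p => B * (((nv x : ℝ) + 1) ^ (-(5/24) : ℝ) +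
      |p - 1/2| ^ (5/18 : ℝ))) := by
    refine ⟨hB, by norm_num, le_rfl, fun p hp => hp.1.ne',
      fun p hp => (hco x p (by linarith [hp.1]) hp.2 hp.1.ne').1,
      fun p hp k => (hco x p (by linarith [hp.1]) hp.2 hp.1.ne').2 k, ?_⟩
    intro δ _
    refine ⟨B * (1 + 1), by positivity, ?_⟩
    intro p hp _
    apply mul_le_mul_of_nonneg_left _ (by linarith)
    apply add_le_add
    · apply Real.rpow_le_one_of_one_le_of_nonpos _ (by norm_num)
      have : (0:ℝ) ≤ nv x := Nat.cast_nonneg _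
      linarith
    · exact Real.rpow_le_one (abs_nonneg _)
        (by rw [abs_le]; constructor <;> linarith [hp.1, hp.2]) (by norm_num)
  -- the improved bound
  have main : ∀ (a b σ : ℝ), 0 ≤ a → b ≤ 1 → (σ = 1 ∨ σ = -1) →
      Sect.Hyp (gR x) a b B (fun p => B * (((nv x : ℝ) + 1) ^ (-(5/24) : ℝ) +
        |p - 1/2| ^ (5/18 : ℝ))) →
      (∀ p ∈ Ioo a b, ∀ t : ℝ, 0 ≤ t → t ≤ |p - 1/2| / 144 → p + σ * t ∈ Ioo a b ∧
        |p - 1/2| / 2 ≤ |p + σ * t - 1/2|) →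
      ∀ p ∈ Ioo a b, ∀ k, |iteratedDeriv k (gR x) p| ≤
        A ^ k * k ! * (|p - 1/2|⁻¹) ^ k * (A * wx (c / 12) x p) := by
    intro a b σ ha hb hσ H hst p hp k
    have hs := H.spos hp
    have hp0 : 0 < p := lt_of_le_of_lt ha hp.1
    have hp1 : p < 1 := lt_of_lt_of_le hp.2 hb
    obtain ⟨s, hsdef⟩ : ∃ s : ℝ, s = |p - 1/2| := ⟨_, rfl⟩
    have hs' : 0 < s := by rw [hsdef]; exact hs
    have hs1 : s ≤ 1 := by rw [hsdef, abs_le]; constructor <;> linarith
    obtain ⟨l, hl⟩ : ∃ l : ℝ, l = s ^ (4/3 : ℝ) := ⟨_, rfl⟩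
    have hl0 : 0 < l := by rw [hl]; positivity
    have hl1 : l ≤ 1 := by rw [hl]; exact Real.rpow_le_one hs'.le hs1 (by norm_num)
    have hn0 : (0:ℝ) ≤ nv x := Nat.cast_nonneg _
    obtain ⟨y, hy⟩ : ∃ y : ℝ, y = nv x * l := ⟨_, rfl⟩
    have hy0 : 0 ≤ y := by rw [hy]; positivity
    obtain ⟨N, hN⟩ : ∃ N : ℝ, N = ((nv x : ℝ) + 1) ^ (-(5/24) : ℝ) := ⟨_, rfl⟩
    have hN0 : 0 < N := by rw [hN]; positivity
    obtain ⟨δ, hδ⟩ : ∃ δ : ℝ, δ = Real.exp (-(c / 3 * y)) := ⟨_, rfl⟩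
    have hδ0 : 0 < δ := by rw [hδ]; exact Real.exp_pos _
    have hδ1 : δ ≤ 1 := by
      rw [hδ]
      apply Real.exp_le_one_iff.2
      have : 0 ≤ c / 3 * y := by positivity
      linarith
    have hsq : Real.sqrt δ = Real.exp (-(c / 6 * y)) := by
      rw [hδ, ← Real.exp_half]
      congr 1
      ring
    have h := improve H hp (M := (B + C) * (N + s ^ (5/18 : ℝ))) (δ := δ) (σ := σ) (by
        rw [← hN, ← hsdef]
        apply mul_le_mul_of_nonneg_right (by linarith) (by positivity)) hδ0 hδ1 hσ (by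
      intro t t0 t1
      have t2 : t ≤ |p - 1/2| / 144 := by
        refine t1.trans ?_
        rw [div_le_div_iff₀ (by positivity) (by norm_num)]
        nlinarith
      obtain ⟨h1, h2⟩ := hst p hp t t0 t2
      refine ⟨h1, ?_⟩
      have hq0 : 0 < p + σ * t := lt_of_le_of_lt ha h1.1
      have hq1 : p + σ * t < 1 := lt_of_lt_of_le h1.2 hb
      obtain ⟨h3, h4⟩ := hval x (p + σ * t) hq0 hq1
      rw [abs_of_nonneg h3]
      refine h4.trans ?_
      rw [← hN]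
      have h5 : Real.exp (-(c * (nv x * |p + σ * t - 1/2| ^ (4/3 : ℝ)))) ≤ δ := by
        rw [hδ]
        apply Real.exp_le_exp.2
        have h6 : l / 3 ≤ |p + σ * t - 1/2| ^ (4/3 : ℝ) := by
          calc l / 3 ≤ l / (2:ℝ) ^ (4/3 : ℝ) := by
                apply div_le_div_of_nonneg_left hl0.le (by positivity)
                have e1 : ((2:ℝ) ^ (4/3 : ℝ)) ^ 3 = 16 := by
                  rw [← Real.rpow_natCast, ← Real.rpow_mul (by norm_num)]
                  norm_num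
                have e2 : (0:ℝ) < (2:ℝ) ^ (4/3 : ℝ) := by positivity
                by_contra hcon
                push Not at hcon
                have : (3:ℝ) ^ 3 < ((2:ℝ) ^ (4/3 : ℝ)) ^ 3 :=
                  pow_lt_pow_left₀ hcon (by norm_num) (by norm_num)
                rw [e1] at this
                norm_num at this
            _ = (s / 2) ^ (4/3 : ℝ) := by rw [hl, Real.div_rpow hs'.le (by norm_num)]
            _ ≤ _ := Real.rpow_le_rpow (by positivity) (by rw [hsdef]; exact h2) (by norm_num)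
        have h7 : (nv x : ℝ) * (l / 3) ≤ nv x * |p + σ * t - 1/2| ^ (4/3 : ℝ) :=
          mul_le_mul_of_nonneg_left h6 hn0
        have h8 : c / 3 * y = c * (nv x * (l / 3)) := by rw [hy]; ring
        rw [h8]
        have := mul_le_mul_of_nonneg_left h7 hc.le
        linarith
      have h6 : 0 < s ^ (5/18 : ℝ) := by positivity
      calc C * (N * Real.exp (-(c * (nv x * |p + σ * t - 1/2| ^ (4/3 : ℝ))))) ≤ C * (N * δ) := by
            apply mul_le_mul_of_nonneg_left _ hC.le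
            exact mul_le_mul_of_nonneg_left h5 hN0.le
        _ = δ * (C * N) := by ring
        _ ≤ δ * ((B + C) * (N + s ^ (5/18 : ℝ))) := by
            apply mul_le_mul_of_nonneg_left _ hδ0.le
            apply mul_le_mul (by linarith) (by linarith) hN0.le (by positivity)) k
    refine h.trans ?_
    rw [hsq, ← hsdef]
    -- the final comparison
    have hcmp : (N + s ^ (5/18 : ℝ)) * Real.exp (-(c / 6 * y)) ≤
        Kc * (N * Real.exp (-(c / 12 * y))) := by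
      have e1 : s ^ (5/18 : ℝ) = N * (((nv x : ℝ) + 1) * l) ^ (5/24 : ℝ) := by
        rw [hN, hl, Real.mul_rpow (by positivity) (by positivity), ← Real.rpow_mul hs'.le,
          Real.rpow_neg (by positivity)]
        have : (((nv x : ℝ) + 1) ^ (5/24 : ℝ)) ≠ 0 := by positivity
        field_simp
        norm_num
      have e2 : (((nv x : ℝ) + 1) * l) ^ (5/24 : ℝ) ≤ 2 + y := by
        have h1 : ((nv x : ℝ) + 1) * l ≤ 1 + y := by rw [hy]; nlinarith
        calc (((nv x : ℝ) + 1) * l) ^ (5/24 : ℝ) ≤ (1 + y) ^ (5/24 : ℝ) :=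
              Real.rpow_le_rpow (by positivity) h1 (by norm_num)
          _ ≤ (1 + y) ^ (1 : ℝ) :=
              Real.rpow_le_rpow_of_exponent_le (by linarith) (by norm_num)
          _ = 1 + y := Real.rpow_one _
          _ ≤ 2 + y := by linarith
      have e3 : N + s ^ (5/18 : ℝ) ≤ N * (3 + y) := by
        rw [e1]
        have := mul_le_mul_of_nonneg_left e2 hN0.le
        linarith
      have e4 : Real.exp (-(c / 6 * y)) = Real.exp (-(c / 12 * y)) * Real.exp (-(c / 12 * y)) := by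
        rw [← Real.exp_add]; congr 1; ring
      have e5 : (3 + y) * Real.exp (-(c / 12 * y)) ≤ Kc := by
        have h1 : y * Real.exp (-(c / 12 * y)) ≤ 12 / c := by
          have h2 : c / 12 * y ≤ Real.exp (c / 12 * y) := by
            have := Real.add_one_le_exp (c / 12 * y); linarith
          rw [Real.exp_neg, ← div_eq_mul_inv, div_le_iff₀ (Real.exp_pos _)]
          calc y = 12 / c * (c / 12 * y) := by field_simp
            _ ≤ _ := mul_le_mul_of_nonneg_left h2 (by positivity)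
        have h3 : Real.exp (-(c / 12 * y)) ≤ 1 := by
          apply Real.exp_le_one_iff.2
          have : 0 ≤ c / 12 * y := by positivity
          linarith
        rw [hKc]; linarith
      have e6 : 0 < Real.exp (-(c / 12 * y)) := Real.exp_pos _
      calc (N + s ^ (5/18 : ℝ)) * Real.exp (-(c / 6 * y))
          ≤ (N * (3 + y)) * (Real.exp (-(c / 12 * y)) * Real.exp (-(c / 12 * y))) := by
            rw [e4]
            exact mul_le_mul_of_nonneg_right e3 (by positivity)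
        _ = ((3 + y) * Real.exp (-(c / 12 * y))) * (N * Real.exp (-(c / 12 * y))) := by ring
        _ ≤ Kc * (N * Real.exp (-(c / 12 * y))) :=
            mul_le_mul_of_nonneg_right e5 (by positivity)
    have hwx : wx (c / 12) x p = N * Real.exp (-(c / 12 * y)) := by
      unfold wx
      rw [← hN, hy, ← hsdef, ← hl]
    rw [hwx]
    have hwp : 0 < N * Real.exp (-(c / 12 * y)) := by positivity
    have hf0 : (0:ℝ) ≤ k ! := by positivity
    have hsi : 0 ≤ (s⁻¹) ^ k := by positivity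
    calc (144 * B) ^ k * (k ! : ℝ) * (s⁻¹) ^ k * (36 * ((B + C) * (N + s ^ (5/18 : ℝ))) *
          Real.exp (-(c / 6 * y)))
        = (144 * B) ^ k * (k ! : ℝ) * (s⁻¹) ^ k * (36 * (B + C) *
          ((N + s ^ (5/18 : ℝ)) * Real.exp (-(c / 6 * y)))) := by ring
      _ ≤ (144 * B) ^ k * (k ! : ℝ) * (s⁻¹) ^ k * (36 * (B + C) *
          (Kc * (N * Real.exp (-(c / 12 * y))))) := by
          apply mul_le_mul_of_nonneg_left _ (by positivity)
          exact mul_le_mul_of_nonneg_left hcmp (by positivity)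
      _ = (144 * B) ^ k * (k ! : ℝ) * (s⁻¹) ^ k * ((36 * (B + C) * Kc) *
          (N * Real.exp (-(c / 12 * y)))) := by ring
      _ ≤ A ^ k * (k ! : ℝ) * (s⁻¹) ^ k * (A * (N * Real.exp (-(c / 12 * y)))) := by
          apply mul_le_mul
          · apply mul_le_mul_of_nonneg_right _ hsi
            apply mul_le_mul_of_nonneg_right _ hf0
            exact pow_le_pow_left₀ (by positivity) hA1 k
          · exact mul_le_mul_of_nonneg_right hA2 hwp.le
          · positivity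
          · positivity
  have hloc : ∀ (a b δ : ℝ), 0 < δ → ∃ M : ℝ, 0 ≤ M ∧ ∀ p ∈ Ioo a b, δ ≤ |p - 1/2| →
      A * wx (c / 12) x p ≤ M := by
    intro a b δ _
    refine ⟨A, hA0.le, ?_⟩
    intro p _ _
    have := wx_le_one (by positivity : 0 ≤ c / 12) x p
    nlinarith
  constructor
  · refine ⟨by linarith, le_rfl, by norm_num, H1.hh, H1.smooth,
      main 0 (1/2) 1 le_rfl (by norm_num) (Or.inl rfl) H1 ?_, hloc 0 (1/2)⟩
    intro p hp t t0 t1
    have e1 : |p - 1/2| = 1/2 - p := by rw [abs_sub_comm, abs_of_pos (by linarith [hp.2])]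
    rw [e1] at t1 ⊢
    have e2 : |p + 1 * t - 1/2| = 1/2 - (p + 1 * t) := by
      rw [abs_sub_comm, abs_of_pos (by linarith [hp.2])]
    rw [e2]
    refine ⟨⟨?_, ?_⟩, ?_⟩ <;> linarith [hp.1, hp.2]
  · refine ⟨by linarith, by norm_num, le_rfl, H2.hh, H2.smooth,
      main (1/2) 1 (-1) (by norm_num) le_rfl (Or.inr rfl) H2 ?_, hloc (1/2) 1⟩
    intro p hp t t0 t1
    have e1 : |p - 1/2| = p - 1/2 := abs_of_pos (by linarith [hp.1])
    rw [e1] at t1 ⊢
    have e2 : |p + -1 * t - 1/2| = (p + -1 * t) - 1/2 := abs_of_pos (by linarith [hp.1])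
    rw [e2]
    refine ⟨⟨?_, ?_⟩, ?_⟩ <;> linarith [hp.1, hp.2]

end Pool.Agent.H30.PT
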