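import Pool.Agent.H30.PT.Tor
import Pool.Graph.R_pool_sql_team_seeded_3dad9d7b.NH39.W.Tay

/-! The derivatives of all orders of the two-point function of the torus. -/

set_option autoImplicit false

namespace Pool.Agent.H30.PT

open H974 Finset Pool.Agent.NH39 Pool.Agent.NH39.GC Pool.Agent.NH39.W

/-- The two-point function of the torus. -/
noncomputable def T2 (n : ℕ) [NeZero n] (u v : ZMod n × ZMod n) (p : ℝ) : ℝ :=
  Ex (fun _ => p) (Finset.univ : Finset (TE n)) (cn u v)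

theorem cn_nonneg {n : ℕ} (u v : ZMod n × ZMod n) (F : Finset (TE n)) : 0 ≤ cn u v F :=
  ind_nonneg _

theorem cn_le_one {n : ℕ} (u v : ZMod n × ZMod n) (F : Finset (TE n)) : cn u v F ≤ 1 :=
  ind_le_one _

/-- The size of the mixed differences. -/
theorem Dl_le {n : ℕ} (u v : ZMod n × ZMod n) (G F : Finset (TE n)) :
    |Dl (cn u v) G F| ≤ 2 ^ G.card := by
  rcases G.eq_empty_or_nonempty with h | h
  · subst h
    unfold Dl
    simp only [powerset_empty, sum_singleton, sdiff_empty, card_empty, pow_zero, one_mul,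
      union_empty]
    rw [abs_of_nonneg (cn_nonneg _ _ _)]
    exact cn_le_one _ _ _
  · apply dl_bound_h76 _ _ _ _ h
    intro e F
    have h1 := cn_nonneg u v (insert e F)
    have h2 := cn_le_one u v (insert e F)
    have h3 := cn_nonneg u v F
    have h4 := cn_le_one u v F
    rw [abs_le]
    constructor <;> linarith

/-- The expectation of the mixed difference. -/
theorem Ex_Dl_le {n : ℕ} [NeZero n] {p : ℝ} (p0 : 0 ≤ p) (p1 : p ≤ 1) (u v : ZMod n × ZMod n)
    (G : Finset (TE n)) : |Ex (fun _ => p) (Finset.univ : Finset (TE n)) (Dl (cn u v) G)| ≤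
      2 ^ G.card * Pr (fun _ => p) (Finset.univ : Finset (TE n)) (fun F => Dl (cn u v) G F ≠ 0) := by
  have hok : Ok (fun _ : TE n => p) := fun _ => ⟨p0, p1⟩
  have h1 : ∀ F, |Dl (cn u v) G F| ≤ 2 ^ G.card * ind (Dl (cn u v) G F ≠ 0) := by
    intro F
    by_cases h : Dl (cn u v) G F ≠ 0
    · rw [ind_of h, mul_one]
      exact Dl_le u v G F
    · have h0 : Dl (cn u v) G F = 0 := not_not.mp h
      rw [h0, ind_not_of (by simp)]
      simp
  unfold Pr
  rw [abs_le]
  constructor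
  · have h2 := Ex_mono hok (S := (Finset.univ : Finset (TE n)))
      (f := fun F => (-(2 ^ G.card : ℝ)) * ind (Dl (cn u v) G F ≠ 0)) (g := Dl (cn u v) G)
      (fun F _ => by have := (abs_le.mp (h1 F)).1; linarith)
    rw [Ex_mul_left] at h2
    linarith
  · have h2 := Ex_mono hok (S := (Finset.univ : Finset (TE n)))
      (f := Dl (cn u v) G) (g := fun F => (2 ^ G.card : ℝ) * ind (Dl (cn u v) G F ≠ 0))
      (fun F _ => (abs_le.mp (h1 F)).2)
    rw [Ex_mul_left] at h2
    exact h2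

/-- Sum over the sets `G` of a function of `G \ {α, β}`. -/
theorem sum_strip {E : Type} [DecidableEq E] [Fintype E] (α β : E) (k : ℕ) (f : Finset E → ℝ)
    (hf : ∀ G, 0 ≤ f G) :
    ∑ G ∈ (Finset.univ : Finset E).powersetCard k, f (G \ {α, β}) ≤
      4 * ∑ G ∈ ((Finset.univ : Finset E) \ {α, β}).powerset.filter (fun G => G.card ≤ k), f G := by
  classical
  have hmaps : ∀ G ∈ (Finset.univ : Finset E).powersetCard k, G \ {α, β} ∈
      ((Finset.univ : Finset E) \ {α, β}).powerset.filter (fun G => G.card ≤ k) := by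
    intro G hG
    rw [mem_powersetCard] at hG
    rw [mem_filter, mem_powerset]
    exact ⟨sdiff_subset_sdiff (subset_univ _) (Subset.refl _),
      (card_le_card sdiff_subset).trans hG.2.le⟩
  rw [← Finset.sum_fiberwise_of_maps_to hmaps, Finset.mul_sum]
  apply Finset.sum_le_sum
  intro G' _
  have h1 : ∑ G ∈ ((Finset.univ : Finset E).powersetCard k).filter (fun G => G \ {α, β} = G'),
      f (G \ {α, β}) = ∑ G ∈ ((Finset.univ : Finset E).powersetCard k).filter
        (fun G => G \ {α, β} = G'), f G' := by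
    apply Finset.sum_congr rfl
    intro G hG
    rw [(mem_filter.1 hG).2]
  rw [h1, Finset.sum_const, nsmul_eq_mul]
  apply mul_le_mul_of_nonneg_right _ (hf G')
  have h2 : (((Finset.univ : Finset E).powersetCard k).filter (fun G => G \ {α, β} = G')).card ≤
      (({α, β} : Finset E).powerset).card := by
    apply Finset.card_le_card_of_injOn (fun G => G ∩ {α, β})
    · intro G _
      simp only [Finset.coe_powerset, Set.mem_preimage, Set.mem_powerset_iff]
      exact_mod_cast inter_subset_right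
    · intro G hG G2 hG2 h
      have e1 := (mem_filter.1 (Finset.mem_coe.1 hG)).2
      have e2 := (mem_filter.1 (Finset.mem_coe.1 hG2)).2
      simp only at h
      rw [← sdiff_union_inter G {α, β}, ← sdiff_union_inter G2 {α, β}, e1, e2, h]
  have h3 : (({α, β} : Finset E).powerset).card ≤ 4 := by
    rw [card_powerset]
    calc 2 ^ ({α, β} : Finset E).card ≤ 2 ^ 2 :=
          Nat.pow_le_pow_right (by norm_num) Finset.card_le_two
      _ = 4 := by norm_num
  exact_mod_cast h2.trans h3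

/-- The sum of the kernel over the whole torus. -/
theorem kern_all : ∃ C : ℝ, 1 ≤ C ∧ ∀ (N n : ℕ) [NeZero n], n = 2 * N + 1 → 1 ≤ N → ∀ q : ℝ,
    0 ≤ q → q ≤ 1 → ∀ z : TE n, ∑ y : TE n, psi (wt q) N (tds y z) ≤ C * (xs n q)⁻¹ := by
  obtain ⟨C, hC, h⟩ := kern_sum
  refine ⟨C, hC, ?_⟩
  intro N n _ hn hN q q0 q1 z
  have h1 := h n (by omega) q q0 q1 z n
  have e : (n - 1) / 2 = N := by omega
  rw [e] at h1
  have h2 : ∑ y : TE n, (if tds y z < 2 ^ (n + 1) then psi (wt q) N (tds y z) else 0) =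
      ∑ y : TE n, psi (wt q) N (tds y z) := by
    apply Finset.sum_congr rfl
    intro y _
    rw [if_pos]
    have h3 := tds_le y z
    have h4 : n < 2 ^ n := Nat.lt_two_pow_self
    have h5 : 2 ^ n ≤ 2 ^ (n + 1) := Nat.pow_le_pow_right (by norm_num) (by omega)
    omega
  rw [h2] at h1
  exact h1.trans (mul_le_mul_of_nonneg_left (min_le_right _ _) (by linarith))

theorem xs_pos (n : ℕ) [NeZero n] (q : ℝ) : 0 < xs n q := by
  have : (0:ℝ) < n := by exact_mod_cast Nat.pos_of_ne_zero (NeZero.ne n)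
  exact lt_of_lt_of_le (by positivity) (le_max_left _ _)

theorem xs_le_one (n : ℕ) [NeZero n] {q : ℝ} (q0 : 0 ≤ q) (q1 : q ≤ 1) : xs n q ≤ 1 := by
  have h1 : (1:ℝ) ≤ n := by exact_mod_cast Nat.pos_of_ne_zero (NeZero.ne n)
  unfold xs
  apply max_le
  · exact Real.rpow_le_one_of_one_le_of_nonpos h1 (by norm_num)
  · rw [abs_le]; constructor <;> linarith

/-- **The derivatives of all orders of the two-point function of the torus.** -/
theorem T2_der : ∃ A : ℝ, 1 ≤ A ∧ ∀ (N n : ℕ) [NeZero n], n = 2 * N + 1 → 1 ≤ N → ∀ p : ℝ,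
    0 ≤ p → p ≤ 1 → ∀ u v : ZMod n × ZMod n, u ≠ v → ∀ k : ℕ,
      |iteratedDeriv k (T2 n u v) p| ≤ A ^ (k + 1) * k.factorial * ((xs n p)⁻¹) ^ k *
        (psi (vv p) N (tds (me u) (me v))) ^ 2 := by
  obtain ⟨C, hC, hKS⟩ := torKS
  obtain ⟨CM, hCM, hkern⟩ := kern_all
  have hW := WV_one
  obtain ⟨B, hB⟩ : ∃ B : ℝ, B = C * WV ^ 3 := ⟨_, rfl⟩
  have hB1 : 1 ≤ B := by rw [hB]; nlinarith [one_le_pow₀ hW (n := 3)]
  obtain ⟨B4, hB4⟩ : ∃ B4 : ℝ, B4 = B ^ 4 * WV ^ 2 := ⟨_, rfl⟩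
  have hB41 : 1 ≤ B4 := by
    rw [hB4]
    exact one_le_mul_of_one_le_of_one_le (one_le_pow₀ hB1) (one_le_pow₀ hW)
  -- the constant
  refine ⟨2 * B4 * (3 * CM) + B4 ^ 2 * WV ^ 2 * 4 * 9, ?_, ?_⟩
  · have h1 : 0 ≤ 2 * B4 * (3 * CM) := by positivity
    have h2 : 1 ≤ B4 ^ 2 * WV ^ 2 :=
      one_le_mul_of_one_le_of_one_le (one_le_pow₀ hB41) (one_le_pow₀ hW)
    linarith
  intro N n _ hn hN p p0 p1 u v huv k
  have H := hKS N n hn hN p p0 p1 u v huv
  have hok : Ok (fun _ : TE n => p) := fun _ => ⟨p0, p1⟩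
  obtain ⟨α, hα⟩ : ∃ α : TE n, α = me u := ⟨_, rfl⟩
  obtain ⟨β, hβ⟩ : ∃ β : TE n, β = me v := ⟨_, rfl⟩
  rw [← hα, ← hβ] at H ⊢
  obtain ⟨P, hP⟩ : ∃ P : ℝ, P = psi (vv p) N (tds α β) := ⟨_, rfl⟩
  rw [← hP]
  have hP0 : 0 < P := by rw [hP]; exact H.hv.ppos _
  have hx := xs_pos n p
  have hx1 := xs_le_one n p0 p1
  obtain ⟨X, hX⟩ : ∃ X : ℝ, X = (xs n p)⁻¹ := ⟨_, rfl⟩
  have hX1 : 1 ≤ X := by rw [hX]; exact (one_le_inv₀ hx).2 hx1
  have hX0 : 0 < X := lt_of_lt_of_le one_pos hX1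
  rw [← hX]
  obtain ⟨kap, hkap⟩ : ∃ kap : TE n → TE n → ℝ, kap = fun y z => psi (wt p) N (tds y z) := ⟨_, rfl⟩
  have hkap0 : ∀ y z, 0 ≤ kap y z := by
    intro y z; rw [hkap]; exact (H.hw.ppos _).le
  obtain ⟨M, hM⟩ : ∃ M : ℝ, M = CM * X := ⟨_, rfl⟩
  have hM1 : 1 ≤ M := by rw [hM]; exact one_le_mul_of_one_le_of_one_le hCM hX1
  have hMsum : ∀ z ∈ (Finset.univ : Finset (TE n)), ∑ y ∈ (Finset.univ : Finset (TE n)),
      kap y z ≤ M := by
    intro z _
    rw [hM, hX, hkap]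
    exact hkern N n hn hN p p0 p1 z
  obtain ⟨K, hK⟩ : ∃ K : ℕ, K = Fintype.card (TE n) := ⟨_, rfl⟩
  obtain ⟨f, hf⟩ : ∃ f : Finset (TE n) → ℝ, f = fun G => Pool.Agent.Y21.NE.FA kap K {α, β} G :=
    ⟨_, rfl⟩
  have hf0 : ∀ G, 0 ≤ f G := by
    intro G; rw [hf]; exact Pool.Agent.Y21.NE.FA_nonneg kap hkap0 _ _ _
  -- one set
  have one : ∀ G : Finset (TE n), G.card = k →
      Pr (fun _ => p) (Finset.univ : Finset (TE n)) (fun F => Dl (cn u v) G F ≠ 0) ≤
        B4 ^ (k + 2) * WV ^ 2 * P ^ 2 * f (G \ {α, β}) := by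
    intro G hG
    obtain ⟨S, hS⟩ : ∃ S : Finset (TE n), S = G ∪ {α, β} := ⟨_, rfl⟩
    have hαS : α ∈ S := by rw [hS]; simp
    have hβS : β ∈ S := by rw [hS]; simp
    have hSG : S \ {α, β} = G \ {α, β} := by rw [hS, union_sdiff_right]
    have hds : ∀ a b : TE n, tds a b ≤ N := by
      intro a b
      have := tds_le a b
      omega
    obtain ⟨par, rk, h1, h2⟩ := key H hds hαS hβS
    have h3 : Pr (fun _ => p) (Finset.univ : Finset (TE n)) (fun F => Dl (cn u v) G F ≠ 0) ≤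
        Pr (fun _ => p) (Finset.univ : Finset (TE n)) (Dt u v S) := by
      apply Pr_mono hok
      intro F _ hF
      exact ⟨G, by rw [hS, hα, hβ], hF⟩
    refine h3.trans (h2.trans ?_)
    have hScard : S.card ≤ k + 2 := by
      rw [hS, ← hG]
      exact (card_union_le _ _).trans (Nat.add_le_add_left Finset.card_le_two _)
    have h4 : ∏ y ∈ S \ {α, β}, psi (wt p) N (tds y (par y)) ≤ f (G \ {α, β}) := by
      rw [← hSG, hf]
      have := Pool.Agent.Y21.NE.FA_lower kap hkap0 K {α, β} (S \ {α, β}) par rk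
        (by rw [hK]; exact card_le_univ _) sdiff_disjoint (by
          intro y hy
          rw [mem_sdiff] at hy
          obtain ⟨h5, h6⟩ := h1 y hy.1 hy.2
          by_cases h7 : par y ∈ ({α, β} : Finset (TE n))
          · exact Or.inr h7
          · exact Or.inl ⟨mem_sdiff.2 ⟨h5, h7⟩, h6⟩)
      simp only [hkap] at this ⊢
      exact this
    have h5 : (C * WV ^ 3) ^ (4 * S.card) * (WV ^ (2 * S.card + 2)) ≤ B4 ^ (k + 2) * WV ^ 2 := by
      rw [← hB, hB4]
      calc B ^ (4 * S.card) * WV ^ (2 * S.card + 2) = (B ^ 4 * WV ^ 2) ^ S.card * WV ^ 2 := by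
            rw [mul_pow, ← pow_mul, ← pow_mul, pow_add]; ring
        _ ≤ (B ^ 4 * WV ^ 2) ^ (k + 2) * WV ^ 2 := by
            apply mul_le_mul_of_nonneg_right _ (by positivity)
            apply pow_le_pow_right₀ _ hScard
            rw [← hB4]; exact hB41
    have h6 : 0 ≤ ∏ y ∈ S \ {α, β}, psi (wt p) N (tds y (par y)) :=
      Finset.prod_nonneg fun _ _ => (H.hw.ppos _).le
    calc (C * WV ^ 3) ^ (4 * S.card) * (∏ y ∈ S \ {α, β}, psi (wt p) N (tds y (par y))) *
          (WV ^ (2 * S.card + 2) * (psi (vv p) N (tds α β) * psi (vv p) N (tds α β)))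
        = ((C * WV ^ 3) ^ (4 * S.card) * (WV ^ (2 * S.card + 2))) * P ^ 2 *
          (∏ y ∈ S \ {α, β}, psi (wt p) N (tds y (par y))) := by rw [← hP]; ring
      _ ≤ (B4 ^ (k + 2) * WV ^ 2) * P ^ 2 * f (G \ {α, β}) := by
          apply mul_le_mul _ h4 h6 (by positivity)
          exact mul_le_mul_of_nonneg_right h5 (by positivity)
  -- the sum over the forests
  have hsum : ∑ G ∈ ((Finset.univ : Finset (TE n)) \ {α, β}).powerset.filter
      (fun G => G.card ≤ k), f G ≤ (3 * M) ^ k * 9 := by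
    obtain ⟨Y, hY⟩ : ∃ Y : ℝ, Y = (3 * M)⁻¹ := ⟨_, rfl⟩
    have hY0 : 0 < Y := by rw [hY]; positivity
    have hY1 : Y ≤ 1 := by rw [hY]; exact inv_le_one_of_one_le₀ (by linarith)
    have hYM : (3 * M) * Y = 1 := by rw [hY]; exact mul_inv_cancel₀ (by positivity)
    have h1 := Pool.Agent.Y21.NE.FA_upper (Finset.univ : Finset (TE n)) kap M Y hkap0 hMsum hY0.le
      (by rw [hYM]) K {α, β} ((Finset.univ : Finset (TE n)) \ {α, β}) (subset_univ _)
      (subset_univ _)
    have h2 : Real.exp (({α, β} : Finset (TE n)).card : ℝ) ≤ 9 := by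
      have h3 : (({α, β} : Finset (TE n)).card : ℝ) ≤ 2 := by
        exact_mod_cast Finset.card_le_two
      calc Real.exp (({α, β} : Finset (TE n)).card : ℝ) ≤ Real.exp 2 := Real.exp_le_exp.2 h3
        _ = Real.exp 1 * Real.exp 1 := by rw [← Real.exp_add]; norm_num
        _ ≤ 3 * 3 := by
            have := Real.exp_one_lt_three.le
            exact mul_le_mul this this (Real.exp_pos _).le (by norm_num)
        _ = 9 := by norm_num
    have h4 : ∀ G ∈ ((Finset.univ : Finset (TE n)) \ {α, β}).powerset.filter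
        (fun G => G.card ≤ k), f G ≤ (3 * M) ^ k * (Y ^ G.card * f G) := by
      intro G hG
      have h5 := (mem_filter.1 hG).2
      have h6 : 1 ≤ (3 * M) ^ k * Y ^ G.card := by
        calc (1:ℝ) = (3 * M * Y) ^ G.card := by rw [hYM, one_pow]
          _ = (3 * M) ^ G.card * Y ^ G.card := mul_pow _ _ _
          _ ≤ _ := mul_le_mul_of_nonneg_right (pow_le_pow_right₀ (by linarith) h5)
              (by positivity)
      have h7 := hf0 G
      nlinarith
    calc ∑ G ∈ ((Finset.univ : Finset (TE n)) \ {α, β}).powerset.filter (fun G => G.card ≤ k), f G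
        ≤ ∑ G ∈ ((Finset.univ : Finset (TE n)) \ {α, β}).powerset.filter (fun G => G.card ≤ k),
          (3 * M) ^ k * (Y ^ G.card * f G) := Finset.sum_le_sum h4
      _ ≤ ∑ G ∈ ((Finset.univ : Finset (TE n)) \ {α, β}).powerset,
          (3 * M) ^ k * (Y ^ G.card * f G) := by
          apply Finset.sum_le_sum_of_subset_of_nonneg (filter_subset _ _)
          intro G _ _
          have := hf0 G
          positivity
      _ = (3 * M) ^ k * ∑ G ∈ ((Finset.univ : Finset (TE n)) \ {α, β}).powerset,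
          Y ^ G.card * f G := by rw [Finset.mul_sum]
      _ ≤ (3 * M) ^ k * 9 := by
          apply mul_le_mul_of_nonneg_left _ (by positivity)
          rw [hf]
          exact h1.trans h2
  -- the derivative
  have hder := der (TE n) (Finset.univ : Finset (TE n)) (cn u v) p k
  have e : T2 n u v = fun p => Ex (fun _ => p) (Finset.univ : Finset (TE n)) (cn u v) := rfl
  rw [e, hder, abs_mul, abs_of_nonneg (by positivity : (0:ℝ) ≤ (k.factorial : ℝ))]
  have main : |∑ G ∈ (Finset.univ : Finset (TE n)).powersetCard k,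
      Ex (fun _ => p) (Finset.univ : Finset (TE n)) (Dl (cn u v) G)| ≤
      2 ^ k * (B4 ^ (k + 2) * WV ^ 2 * P ^ 2) * (4 * ((3 * M) ^ k * 9)) := by
    refine (Finset.abs_sum_le_sum_abs _ _).trans ?_
    calc ∑ G ∈ (Finset.univ : Finset (TE n)).powersetCard k,
          |Ex (fun _ => p) (Finset.univ : Finset (TE n)) (Dl (cn u v) G)|
        ≤ ∑ G ∈ (Finset.univ : Finset (TE n)).powersetCard k,
          2 ^ k * (B4 ^ (k + 2) * WV ^ 2 * P ^ 2) * f (G \ {α, β}) := by
          apply Finset.sum_le_sum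
          intro G hG
          have hG2 := (mem_powersetCard.1 hG).2
          refine (Ex_Dl_le p0 p1 u v G).trans ?_
          rw [hG2]
          have := one G hG2
          calc (2:ℝ) ^ k * Pr (fun _ => p) (Finset.univ : Finset (TE n))
                (fun F => Dl (cn u v) G F ≠ 0) ≤
                2 ^ k * (B4 ^ (k + 2) * WV ^ 2 * P ^ 2 * f (G \ {α, β})) :=
                mul_le_mul_of_nonneg_left this (by positivity)
            _ = _ := by ring
      _ = 2 ^ k * (B4 ^ (k + 2) * WV ^ 2 * P ^ 2) *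
          ∑ G ∈ (Finset.univ : Finset (TE n)).powersetCard k, f (G \ {α, β}) := by
          rw [Finset.mul_sum]
      _ ≤ _ := by
          apply mul_le_mul_of_nonneg_left _ (by positivity)
          exact (sum_strip α β k f hf0).trans (mul_le_mul_of_nonneg_left hsum (by norm_num))
  have fin : 2 ^ k * (B4 ^ (k + 2) * WV ^ 2 * P ^ 2) * (4 * ((3 * M) ^ k * 9)) ≤
      (2 * B4 * (3 * CM) + B4 ^ 2 * WV ^ 2 * 4 * 9) ^ (k + 1) * X ^ k * P ^ 2 := by
    have a1 : 0 ≤ 2 * B4 * (3 * CM) := by positivity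
    have a2 : 0 ≤ B4 ^ 2 * WV ^ 2 * 4 * 9 := by positivity
    have h1 : (2 * B4 * (3 * CM)) ^ k * (B4 ^ 2 * WV ^ 2 * 4 * 9) ≤
        (2 * B4 * (3 * CM) + B4 ^ 2 * WV ^ 2 * 4 * 9) ^ (k + 1) := by
      rw [pow_succ]
      apply mul_le_mul _ (by linarith) a2 (pow_nonneg (by linarith) _)
      exact pow_le_pow_left₀ a1 (by linarith) k
    calc 2 ^ k * (B4 ^ (k + 2) * WV ^ 2 * P ^ 2) * (4 * ((3 * M) ^ k * 9))
        = ((2 * B4 * (3 * CM)) ^ k * (B4 ^ 2 * WV ^ 2 * 4 * 9)) * (X ^ k * P ^ 2) := by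
          rw [hM]
          simp only [mul_pow, pow_add]
          ring
      _ ≤ (2 * B4 * (3 * CM) + B4 ^ 2 * WV ^ 2 * 4 * 9) ^ (k + 1) * (X ^ k * P ^ 2) :=
          mul_le_mul_of_nonneg_right h1 (by positivity)
      _ = _ := by ring
  calc (k.factorial : ℝ) * |∑ G ∈ (Finset.univ : Finset (TE n)).powersetCard k,
      Ex (fun _ => p) (Finset.univ : Finset (TE n)) (Dl (cn u v) G)|
      ≤ k.factorial * ((2 * B4 * (3 * CM) + B4 ^ 2 * WV ^ 2 * 4 * 9) ^ (k + 1) * X ^ k * P ^ 2) :=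
        mul_le_mul_of_nonneg_left (main.trans fin) (by positivity)
    _ = _ := by ring

end Pool.Agent.H30.PT
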