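import Pool.Agent.H30.PT.Mom

/-! The connected two-point function and its moments in a double sector: final forms. -/

set_option autoImplicit false

namespace Pool.Agent.H30.PT

open Set Filter Topology
open H974 (Vtx theta sigma)
open Pool.Agent.H160R2.CV (nv)
open scoped ContDiff Nat

open Sect (K K_near K_real K_diff' sec sec_open sec_mono real_deriv)

/-- The double sector. -/
def dsec (c : ℝ) : Set ℂ := sec 0 (1/2) c ∪ sec (1/2) 1 c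

theorem dsec_open (c : ℝ) : IsOpen (dsec c) := (sec_open _ _ _).union (sec_open _ _ _)

/-- The continuation of a function with bounds on both sides. -/
theorem two_sides {f : ℝ → ℝ} {A : ℝ} {V : ℝ → ℝ} (H1 : Sect.Hyp f 0 (1/2) A V)
    (H2 : Sect.Hyp f (1/2) 1 A V) {ε : ℝ} (hε : 0 < ε) (hε1 : ε ≤ 1/8) :
    DifferentiableOn ℂ (K f) (dsec (ε / A)) ∧
    (∀ p : ℝ, 0 < p → p < 1 → p ≠ 1/2 → K f p = f p) ∧
    (∀ z ∈ dsec (ε / A), ‖K f z - f z.re‖ ≤ 2 * ε * V z.re ∧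
      |z.re - 1/2| ≤ ‖z - 1/2‖ ∧ ‖z - 1/2‖ ≤ 2 * |z.re - 1/2| ∧
      0 < z.re ∧ z.re < 1 ∧ z.re ≠ 1/2) ∧
    (∀ p : ℝ, 0 < p → p < 1 → p ≠ 1/2 → AnalyticAt ℝ f p) ∧
    (∀ p : ℝ, 0 < p → p < 1 → p ≠ 1/2 → ∀ k : ℕ,
      |iteratedDeriv k f p| ≤ A ^ k * k ! * (|p - 1/2|⁻¹) ^ k * V p) := by
  have hA := H1.cpos
  have hεA : ε / A ≤ 1 := by
    rw [div_le_one hA]
    have := H1.hC
    linarith
  have hdiff : DifferentiableOn ℂ (K f) (dsec (ε / A)) :=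
    (K_diff' H1 hε1).union_of_isOpen (K_diff' H2 hε1) (sec_open _ _ _) (sec_open _ _ _)
  have hreal : ∀ p : ℝ, 0 < p → p < 1 → p ≠ 1/2 → K f p = f p := by
    intro p p0 p1 ph
    rcases lt_or_gt_of_ne ph with h | h
    · exact K_real H1 ⟨p0, h⟩
    · exact K_real H2 ⟨h, p1⟩
  refine ⟨hdiff, hreal, ?_, ?_, ?_⟩
  · rintro z (hz | hz)
    · obtain ⟨h3, h4⟩ := sec_dist hεA hz
      refine ⟨K_near H1 hε hε1 hz, h3, h4, hz.2.1, ?_, hz.2.2.ne⟩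
      linarith [hz.2.2]
    · obtain ⟨h3, h4⟩ := sec_dist hεA hz
      refine ⟨K_near H2 hε hε1 hz, h3, h4, ?_, hz.2.2, hz.2.1.ne'⟩
      linarith [hz.2.1]
  · intro p p0 p1 ph
    have hI : IsOpen (Ioo (0:ℝ) (1/2) ∪ Ioo (1/2 : ℝ) 1) := isOpen_Ioo.union isOpen_Ioo
    refine Sect.real_smooth (dsec_open (ε / A)) hdiff hI ?_ ?_ (x := p) ?_
    · intro y hy
      have hmem : ∀ a b : ℝ, y ∈ Ioo a b → y ≠ 1/2 → (y : ℂ) ∈ sec a b (ε / A) := by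
        intro a b h h2
        refine ⟨?_, ?_, ?_⟩
        · rw [Complex.ofReal_im, Complex.ofReal_re, abs_zero]
          have : 0 < |y - 1/2| := abs_pos.2 (sub_ne_zero.2 h2)
          positivity
        · rw [Complex.ofReal_re]; exact h.1
        · rw [Complex.ofReal_re]; exact h.2
      rcases hy with h | h
      · exact Or.inl (hmem 0 (1/2) h h.2.ne)
      · exact Or.inr (hmem (1/2) 1 h h.1.ne')
    · rintro y (h | h)
      · exact hreal y h.1 (by linarith [h.2]) h.2.ne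
      · exact hreal y (by linarith [h.1]) h.2 h.1.ne'
    · rcases lt_or_gt_of_ne ph with h | h
      · exact Or.inl ⟨p0, h⟩
      · exact Or.inr ⟨h, p1⟩
  · intro p p0 p1 ph k
    rcases lt_or_gt_of_ne ph with h | h
    · exact H1.bd p ⟨p0, h⟩ k
    · exact H2.bd p ⟨h, p1⟩ k

/-- The norm of a number close to a nonnegative real number. -/
theorem near_norm {w : ℂ} {t e : ℝ} (ht : 0 ≤ t) (h : ‖w - (t : ℂ)‖ ≤ e) :
    ‖w‖ ≤ t + e ∧ t - e ≤ ‖w‖ := by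
  have hn : ‖(t : ℂ)‖ = t := by rw [Complex.norm_real, Real.norm_eq_abs, abs_of_nonneg ht]
  constructor
  · calc ‖w‖ = ‖(w - (t : ℂ)) + (t : ℂ)‖ := by rw [sub_add_cancel]
      _ ≤ ‖w - (t : ℂ)‖ + ‖(t : ℂ)‖ := norm_add_le _ _
      _ ≤ t + e := by rw [hn]; linarith
  · have h1 : ‖(t : ℂ)‖ ≤ ‖w‖ + ‖w - (t : ℂ)‖ := by
      calc ‖(t : ℂ)‖ = ‖w - (w - (t : ℂ))‖ := by rw [sub_sub_cancel]
        _ ≤ _ := norm_sub_le _ _
    rw [hn] at h1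
    linarith

/-- The values from below. -/
theorem g_low : ∃ c C : ℝ, 0 < c ∧ 0 < C ∧ ∀ x : Vtx, ∀ p : ℝ, 1/4 ≤ p → p ≤ 3/4 →
    c * ((nv x : ℝ) + 1) ^ (-(5/24) : ℝ) *
      Real.exp (-(C * (nv x * |p - 1/2| ^ (4/3 : ℝ)))) ≤ gR x p := by
  obtain ⟨c1, C1, hc1, hC1, h1⟩ := Pool.Agent.W424.NC.tau_lower
  obtain ⟨c2, C2, hc2, hC2, h2⟩ := Q291.TT.low_tauf
  refine ⟨min c1 c2, C1 + C2, by positivity, by positivity, ?_⟩
  intro x p hp hp3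
  have p0 : 0 ≤ p := by linarith
  have p1 : p ≤ 1 := by linarith
  have hfin : ∀ (C' c' : ℝ), C' ≤ C1 + C2 → min c1 c2 ≤ c' →
      min c1 c2 * ((nv x : ℝ) + 1) ^ (-(5/24) : ℝ) *
        Real.exp (-((C1 + C2) * (nv x * |p - 1/2| ^ (4/3 : ℝ)))) ≤
      c' * ((nv x : ℝ) + 1) ^ (-(5/24) : ℝ) *
        Real.exp (-(C' * (nv x * |p - 1/2| ^ (4/3 : ℝ)))) := by
    intro C' c' hC hc
    have hm : 0 < min c1 c2 := by positivity
    have hc0 : 0 < c' := lt_of_lt_of_le hm hc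
    apply mul_le_mul _ _ (Real.exp_pos _).le (by positivity)
    · exact mul_le_mul_of_nonneg_right hc (by positivity)
    · apply Real.exp_le_exp.2
      have : 0 ≤ (nv x : ℝ) * |p - 1/2| ^ (4/3 : ℝ) := by positivity
      nlinarith
  rcases le_total p (1/2) with hp2 | hp2
  · have e1 : |p - 1/2| = 1/2 - p := by rw [abs_sub_comm, abs_of_nonneg (by linarith)]
    have h3 := h1 ⟨p, p0, p1⟩ hp hp2 x
    have h5 : c1 * ((nv x : ℝ) + 1) ^ (-(5/24) : ℝ) *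
        Real.exp (-(C1 * (nv x * |p - 1/2| ^ (4/3 : ℝ)))) ≤ gR x p := by
      unfold gR
      rw [thR_low p0 hp2, tauR_eq x p0 p1, e1]
      have e2 : H31K.tau ⟨p, p0, p1⟩ x - 0 ^ 2 = H31K.tau ⟨p, p0, p1⟩ x := by ring
      rw [e2]
      exact h3
    exact (hfin C1 c1 (by linarith) (min_le_left _ _)).trans h5
  · have e1 : |p - 1/2| = p - 1/2 := abs_of_nonneg (by linarith)
    have h3 := h2 ⟨p, p0, p1⟩ hp2 hp3 x
    have a1 := Q291.TT.theta_sq_le ⟨p, p0, p1⟩ hp2 x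
    have a2 := Q291.TT.tau_split ⟨p, p0, p1⟩ x
    have h5 : c2 * ((nv x : ℝ) + 1) ^ (-(5/24) : ℝ) *
        Real.exp (-(C2 * (nv x * |p - 1/2| ^ (4/3 : ℝ)))) ≤ gR x p := by
      unfold gR
      rw [thR_eq p0 p1, tauR_eq x p0 p1, e1]
      have h6 : c2 * ((nv x : ℝ) + 1) ^ (-(5/24) : ℝ) *
        Real.exp (-(C2 * (nv x * (p - 1/2) ^ (4/3 : ℝ)))) ≤
          Q291.TT.tauf ⟨p, p0, p1⟩ x := h3
      linarith
    exact (hfin C2 c2 (by linarith) (min_le_right _ _)).trans h5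

/-- **The connected two-point function in a double sector.** -/
theorem g_main : ∃ c C : ℝ, 0 < c ∧ 0 < C ∧ ∀ x : Vtx,
    (∃ F : ℂ → ℂ, DifferentiableOn ℂ F (dsec c) ∧
      (∀ p : ℝ, 0 < p → p < 1 → p ≠ 1/2 → F p = gR x p) ∧
      (∀ z ∈ dsec c, ‖F z‖ ≤ C * (((nv x : ℝ) + 1) ^ (-(5/24) : ℝ) *
        Real.exp (-(c * (nv x * ‖z - 1/2‖ ^ (4/3 : ℝ)))))) ∧
      (∀ z ∈ dsec c, 1/4 ≤ z.re → z.re ≤ 3/4 → (nv x : ℝ) * ‖z - 1/2‖ ^ (4/3 : ℝ) ≤ 1 →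
        C⁻¹ * ((nv x : ℝ) + 1) ^ (-(5/24) : ℝ) ≤ ‖F z‖)) ∧
    ∀ p : ℝ, 0 < p → p < 1 → p ≠ 1/2 → AnalyticAt ℝ (gR x) p ∧ ∀ k : ℕ,
      |iteratedDeriv k (gR x) p| ≤ C ^ (k + 1) * k ! * (|p - 1/2| ^ k)⁻¹ *
        (((nv x : ℝ) + 1) ^ (-(5/24) : ℝ) *
          Real.exp (-(c * (nv x * |p - 1/2| ^ (4/3 : ℝ))))) := by
  obtain ⟨c0, A, hc0, hA, H⟩ := g_hyp
  obtain ⟨c1, C1, hc1, hC1, hval⟩ := g_val
  obtain ⟨c2, C2, hc2, hC2, hlow⟩ := g_low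
  obtain ⟨m, hm⟩ : ∃ m : ℝ, m = c2 * Real.exp (-C2) := ⟨_, rfl⟩
  have hm0 : 0 < m := by rw [hm]; positivity
  obtain ⟨ε, hε⟩ : ∃ ε : ℝ, ε = min (1/8) (m / (4 * A)) := ⟨_, rfl⟩
  have hε0 : 0 < ε := by rw [hε]; positivity
  have hε1 : ε ≤ 1/8 := by rw [hε]; exact min_le_left _ _
  have hε2 : ε * (4 * A) ≤ m := by
    rw [← le_div_iff₀ (by positivity), hε]; exact min_le_right _ _
  obtain ⟨cc, hcc⟩ : ∃ cc : ℝ, cc = min (ε / A) (min c0 c1 / 3) := ⟨_, rfl⟩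
  have hcc0 : 0 < cc := by rw [hcc]; positivity
  have hcc1 : cc ≤ ε / A := by rw [hcc]; exact min_le_left _ _
  have hcc2 : 3 * cc ≤ c0 := by
    have h1 : cc ≤ min c0 c1 / 3 := by rw [hcc]; exact min_le_right _ _
    have h2 := min_le_left c0 c1
    linarith
  have hcc3 : 3 * cc ≤ c1 := by
    have h1 : cc ≤ min c0 c1 / 3 := by rw [hcc]; exact min_le_right _ _
    have h2 := min_le_right c0 c1
    linarith
  have hsub : dsec cc ⊆ dsec (ε / A) := by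
    rintro z (hz | hz)
    · exact Or.inl (sec_mono hcc1 hz)
    · exact Or.inr (sec_mono hcc1 hz)
  have hA1 : 1 ≤ A := (H (0, 0)).1.hC
  refine ⟨cc, 1 + A + C1 + 2 * m⁻¹, hcc0, by positivity, ?_⟩
  have hmi : 0 < m⁻¹ := by positivity
  intro x
  obtain ⟨h1, h2, h3, h4, h5⟩ := two_sides (H x).1 (H x).2 hε0 hε1
  have hn0 : (0:ℝ) ≤ nv x := Nat.cast_nonneg _
  have hN : 0 < ((nv x : ℝ) + 1) ^ (-(5/24) : ℝ) := by positivity
  refine ⟨⟨K (gR x), h1.mono hsub, h2, ?_, ?_⟩, ?_⟩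
  · intro z hz
    obtain ⟨k1, k2, k3, k4, k5, k6⟩ := h3 z (hsub hz)
    obtain ⟨v1, v2⟩ := hval x z.re k4 k5
    obtain ⟨n1, -⟩ := near_norm v1 k1
    have hs : 0 < |z.re - 1/2| := abs_pos.2 (sub_ne_zero.2 k6)
    have hcmp : ‖z - 1/2‖ ^ (4/3 : ℝ) ≤ 3 * |z.re - 1/2| ^ (4/3 : ℝ) := by
      calc ‖z - 1/2‖ ^ (4/3 : ℝ) ≤ (2 * |z.re - 1/2|) ^ (4/3 : ℝ) :=
            Real.rpow_le_rpow (norm_nonneg _) k3 (by norm_num)
        _ = (2:ℝ) ^ (4/3 : ℝ) * |z.re - 1/2| ^ (4/3 : ℝ) := Real.mul_rpow (by norm_num) hs.le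
        _ ≤ 3 * |z.re - 1/2| ^ (4/3 : ℝ) := by
            apply mul_le_mul_of_nonneg_right _ (by positivity)
            have e1 : ((2:ℝ) ^ (4/3 : ℝ)) ^ 3 = 16 := by
              rw [← Real.rpow_natCast, ← Real.rpow_mul (by norm_num)]
              norm_num
            by_contra hcon
            push Not at hcon
            have : (3:ℝ) ^ 3 < ((2:ℝ) ^ (4/3 : ℝ)) ^ 3 :=
              pow_lt_pow_left₀ hcon (by norm_num) (by norm_num)
            rw [e1] at this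
            norm_num at this
    have hexp : ∀ c' : ℝ, 3 * cc ≤ c' →
        Real.exp (-(c' * (nv x * |z.re - 1/2| ^ (4/3 : ℝ)))) ≤
          Real.exp (-(cc * (nv x * ‖z - 1/2‖ ^ (4/3 : ℝ)))) := by
      intro c' hc'
      apply Real.exp_le_exp.2
      have g1 : (nv x : ℝ) * ‖z - 1/2‖ ^ (4/3 : ℝ) ≤ nv x * (3 * |z.re - 1/2| ^ (4/3 : ℝ)) :=
        mul_le_mul_of_nonneg_left hcmp hn0
      have g2 : 0 ≤ (nv x : ℝ) * |z.re - 1/2| ^ (4/3 : ℝ) := by positivity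
      have g3 := mul_le_mul_of_nonneg_left g1 hcc0.le
      have g4 := mul_le_mul_of_nonneg_right hc' g2
      linarith
    obtain ⟨E, hE⟩ : ∃ E : ℝ, E = Real.exp (-(cc * (nv x * ‖z - 1/2‖ ^ (4/3 : ℝ)))) := ⟨_, rfl⟩
    have hE0 : 0 < E := by rw [hE]; exact Real.exp_pos _
    have b1 : gR x z.re ≤ C1 * (((nv x : ℝ) + 1) ^ (-(5/24) : ℝ) * E) := by
      refine v2.trans ?_
      apply mul_le_mul_of_nonneg_left _ hC1.le
      apply mul_le_mul_of_nonneg_left _ hN.le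
      rw [hE]; exact hexp c1 hcc3
    have b2 : 2 * ε * (A * wx c0 x z.re) ≤ A * (((nv x : ℝ) + 1) ^ (-(5/24) : ℝ) * E) := by
      have b3 : wx c0 x z.re ≤ ((nv x : ℝ) + 1) ^ (-(5/24) : ℝ) * E := by
        unfold wx
        apply mul_le_mul_of_nonneg_left _ hN.le
        rw [hE]; exact hexp c0 hcc2
      have b4 : 0 < A * wx c0 x z.re := mul_pos hA (wx_pos _ _ _)
      have b5 := mul_le_mul_of_nonneg_left b3 hA.le
      nlinarith
    rw [← hE]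
    have b6 : 0 < ((nv x : ℝ) + 1) ^ (-(5/24) : ℝ) * E := by positivity
    have b7 : 0 < m⁻¹ * (((nv x : ℝ) + 1) ^ (-(5/24) : ℝ) * E) := by positivity
    calc ‖K (gR x) z‖ ≤ gR x z.re + 2 * ε * (A * wx c0 x z.re) := n1
      _ ≤ C1 * (((nv x : ℝ) + 1) ^ (-(5/24) : ℝ) * E) +
          A * (((nv x : ℝ) + 1) ^ (-(5/24) : ℝ) * E) := add_le_add b1 b2
      _ ≤ (1 + A + C1 + 2 * m⁻¹) * (((nv x : ℝ) + 1) ^ (-(5/24) : ℝ) * E) := by linarith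
  · intro z hz z1 z3 hw
    obtain ⟨k1, k2, k3, k4, k5, k6⟩ := h3 z (hsub hz)
    obtain ⟨v1, -⟩ := hval x z.re k4 k5
    obtain ⟨-, n2⟩ := near_norm v1 k1
    have hs : 0 < |z.re - 1/2| := abs_pos.2 (sub_ne_zero.2 k6)
    have hw' : (nv x : ℝ) * |z.re - 1/2| ^ (4/3 : ℝ) ≤ 1 := by
      refine le_trans ?_ hw
      apply mul_le_mul_of_nonneg_left _ hn0
      exact Real.rpow_le_rpow hs.le k2 (by norm_num)
    have b1 := hlow x z.re z1 z3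
    have b2 : m * ((nv x : ℝ) + 1) ^ (-(5/24) : ℝ) ≤ gR x z.re := by
      refine le_trans ?_ b1
      have : Real.exp (-C2) ≤ Real.exp (-(C2 * (nv x * |z.re - 1/2| ^ (4/3 : ℝ)))) := by
        apply Real.exp_le_exp.2
        have := mul_le_mul_of_nonneg_left hw' hC2.le
        linarith
      calc m * ((nv x : ℝ) + 1) ^ (-(5/24) : ℝ) =
            c2 * ((nv x : ℝ) + 1) ^ (-(5/24) : ℝ) * Real.exp (-C2) := by rw [hm]; ring
        _ ≤ _ := mul_le_mul_of_nonneg_left this (by positivity)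
    have b3 : 2 * ε * (A * wx c0 x z.re) ≤ m / 2 * ((nv x : ℝ) + 1) ^ (-(5/24) : ℝ) := by
      have b4 : wx c0 x z.re ≤ ((nv x : ℝ) + 1) ^ (-(5/24) : ℝ) := by
        unfold wx
        have : Real.exp (-(c0 * (nv x * |z.re - 1/2| ^ (4/3 : ℝ)))) ≤ 1 := by
          apply Real.exp_le_one_iff.2
          have : 0 ≤ c0 * ((nv x : ℝ) * |z.re - 1/2| ^ (4/3 : ℝ)) := by positivity
          linarith
        nlinarith
      have b5 : 2 * ε * A ≤ m / 2 := by linarith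
      calc 2 * ε * (A * wx c0 x z.re) = 2 * ε * A * wx c0 x z.re := by ring
        _ ≤ m / 2 * ((nv x : ℝ) + 1) ^ (-(5/24) : ℝ) :=
            mul_le_mul b5 b4 (wx_pos _ _ _).le (by positivity)
    have b6 : (1 + A + C1 + 2 * m⁻¹)⁻¹ ≤ m / 2 := by
      rw [inv_le_comm₀ (by positivity) (by positivity)]
      have e : (m / 2)⁻¹ = 2 * m⁻¹ := by field_simp
      rw [e]; linarith
    have b7 := mul_le_mul_of_nonneg_right b6 hN.le
    linarith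
  · intro p p0 p1 ph
    refine ⟨h4 p p0 p1 ph, ?_⟩
    intro k
    refine (h5 p p0 p1 ph k).trans ?_
    have hs : 0 < |p - 1/2| := abs_pos.2 (sub_ne_zero.2 ph)
    have b1 : wx c0 x p ≤ ((nv x : ℝ) + 1) ^ (-(5/24) : ℝ) *
        Real.exp (-(cc * (nv x * |p - 1/2| ^ (4/3 : ℝ)))) := by
      unfold wx
      apply mul_le_mul_of_nonneg_left _ hN.le
      apply Real.exp_le_exp.2
      have g2 : 0 ≤ (nv x : ℝ) * |p - 1/2| ^ (4/3 : ℝ) := by positivity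
      nlinarith
    obtain ⟨E, hE⟩ : ∃ E : ℝ, E = ((nv x : ℝ) + 1) ^ (-(5/24) : ℝ) *
        Real.exp (-(cc * (nv x * |p - 1/2| ^ (4/3 : ℝ)))) := ⟨_, rfl⟩
    have hE0 : 0 < E := by rw [hE]; positivity
    rw [← hE] at b1 ⊢
    rw [inv_pow]
    have hAC : A ≤ 1 + A + C1 + 2 * m⁻¹ := by linarith
    calc A ^ k * (k ! : ℝ) * (|p - 1/2| ^ k)⁻¹ * (A * wx c0 x p)
        ≤ A ^ k * (k ! : ℝ) * (|p - 1/2| ^ k)⁻¹ * (A * E) := by
          apply mul_le_mul_of_nonneg_left _ (by positivity)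
          exact mul_le_mul_of_nonneg_left b1 hA.le
      _ = (A ^ k * A) * ((k ! : ℝ) * (|p - 1/2| ^ k)⁻¹ * E) := by ring
      _ ≤ ((1 + A + C1 + 2 * m⁻¹) ^ k * (1 + A + C1 + 2 * m⁻¹)) *
          ((k ! : ℝ) * (|p - 1/2| ^ k)⁻¹ * E) := by
          apply mul_le_mul_of_nonneg_right _ (by positivity)
          apply mul_le_mul _ hAC hA.le (by positivity)
          exact pow_le_pow_left₀ hA.le hAC k
      _ = _ := by rw [pow_succ]; ring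

/-- The moments from below. -/
theorem m_low (j : ℕ) : ∃ d : ℝ, 0 < d ∧ ∀ p : ℝ, 1/4 ≤ p → p ≤ 3/4 → p ≠ 1/2 →
    d * |p - 1/2| ^ (-(43/18 + 4/3 * j) : ℝ) ≤ mR j p := by
  obtain ⟨c, C, hc, hC, h⟩ := g_low
  obtain ⟨c1, C1, hc1, hC1, hval⟩ := g_val
  obtain ⟨D1, hD1, hsum⟩ := wx_sum j hc1
  obtain ⟨D, hD, hl⟩ := Q291.TT.sum_low j (a := 5/24) (c := c) (C := C) (by norm_num)
    (by norm_num) hc hC
  refine ⟨D, hD, ?_⟩
  intro p p0 p1 ph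
  have hs : 0 < |p - 1/2| := abs_pos.2 (sub_ne_zero.2 ph)
  have hs1 : |p - 1/2| ≤ 1 := by rw [abs_le]; constructor <;> linarith
  obtain ⟨t, ht⟩ : ∃ t : ℝ, t = |p - 1/2| ^ (4/3 : ℝ) := ⟨_, rfl⟩
  have ht0 : 0 < t := by rw [ht]; positivity
  have ht1 : t ≤ 1 := by rw [ht]; exact Real.rpow_le_one hs.le hs1 (by norm_num)
  have hg0 : ∀ x, 0 ≤ gR x p := fun x => (hval x p (by linarith) (by linarith)).1
  have h1 := hl t ht0 ht1 (fun x => gR x p) hg0 (by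
    intro x
    have := h x p p0 p1
    rw [← ht] at this
    exact this)
  have e : t ^ (-(2 + (j:ℝ) - 5/24)) = |p - 1/2| ^ (-(43/18 + 4/3 * j) : ℝ) := by
    rw [ht, ← Real.rpow_mul hs.le]
    congr 1
    ring
  rw [e] at h1
  have hs2 := (hsum p ph hs1).1
  have hsm : Summable fun x : Vtx => (nv x : ℝ) ^ j * gR x p := by
    refine Summable.of_nonneg_of_le (fun x => mul_nonneg (by positivity) (hg0 x)) (fun x => ?_)
      (hs2.mul_left C1)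
    have h3 := (hval x p (by linarith) (by linarith)).2
    calc (nv x : ℝ) ^ j * gR x p ≤ (nv x : ℝ) ^ j * (C1 * wx c1 x p) :=
          mul_le_mul_of_nonneg_left h3 (by positivity)
      _ = _ := by ring
  rw [← ENNReal.ofReal_tsum_of_nonneg (fun x => mul_nonneg (by positivity) (hg0 x)) hsm] at h1
  have hnn : 0 ≤ ∑' x : Vtx, (nv x : ℝ) ^ j * gR x p :=
    tsum_nonneg fun x => mul_nonneg (by positivity) (hg0 x)
  exact (ENNReal.ofReal_le_ofReal_iff hnn).1 h1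

/-- **The moments of the connected two-point function in a double sector.** -/
theorem m_main (j : ℕ) : ∃ c C : ℝ, 0 < c ∧ 0 < C ∧
    (∀ p : ℝ, 0 < p → p < 1 → p ≠ 1/2 → Summable fun x : Vtx => (nv x : ℝ) ^ j * gR x p) ∧
    (∃ F : ℂ → ℂ, DifferentiableOn ℂ F (dsec c) ∧
      (∀ p : ℝ, 0 < p → p < 1 → p ≠ 1/2 → F p = mR j p) ∧
      (∀ z ∈ dsec c, ‖F z‖ ≤ C * ‖z - 1/2‖ ^ (-(43/18 + 4/3 * j) : ℝ)) ∧
      (∀ z ∈ dsec c, 1/4 ≤ z.re → z.re ≤ 3/4 →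
        C⁻¹ * ‖z - 1/2‖ ^ (-(43/18 + 4/3 * j) : ℝ) ≤ ‖F z‖)) ∧
    ∀ p : ℝ, 0 < p → p < 1 → p ≠ 1/2 → AnalyticAt ℝ (mR j) p ∧ ∀ k : ℕ,
      |iteratedDeriv k (mR j) p| ≤
        C ^ (k + 1) * k ! * |p - 1/2| ^ (-(43/18 + 4/3 * j) - k : ℝ) := by
  obtain ⟨D, A, hD, hA, H1, H2⟩ := m_hyp j
  obtain ⟨d, hd, hlow⟩ := m_low j
  obtain ⟨c1, C1, hc1, hC1, hval⟩ := g_val
  obtain ⟨D1, hD1, hsum⟩ := wx_sum j hc1
  have hA1 := H1.hC
  obtain ⟨e, he⟩ : ∃ e : ℝ, 43/18 + 4/3 * (j:ℝ) = e := ⟨_, rfl⟩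
  have he0 : 0 ≤ e := by rw [← he]; positivity
  simp only [he] at H1 H2 hlow hsum ⊢
  obtain ⟨ε, hε⟩ : ∃ ε : ℝ, ε = min (1/8) (d / (4 * D)) := ⟨_, rfl⟩
  have hε0 : 0 < ε := by rw [hε]; positivity
  have hε1 : ε ≤ 1/8 := by rw [hε]; exact min_le_left _ _
  have hε2 : ε * (4 * D) ≤ d := by
    rw [← le_div_iff₀ (by positivity), hε]; exact min_le_right _ _
  obtain ⟨h1, h2, h3, h4, h5⟩ := two_sides H1 H2 hε0 hε1
  have hdi : 0 < d⁻¹ := by positivity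
  obtain ⟨P, hP⟩ : ∃ P : ℝ, P = (2:ℝ) ^ e := ⟨_, rfl⟩
  have hP0 : 0 < P := by rw [hP]; positivity
  have hnn : ∀ p : ℝ, 0 < p → p < 1 → 0 ≤ mR j p := fun p p0 p1 =>
    tsum_nonneg fun x => mul_nonneg (by positivity) (hval x p p0 p1).1
  refine ⟨ε / A, 1 + A + D + 2 * D * P + 2 * d⁻¹, by positivity, by positivity, ?_,
    ⟨K (mR j), h1, h2, ?_, ?_⟩, ?_⟩
  · intro p p0 p1 ph
    have hs1 : |p - 1/2| ≤ 1 := by rw [abs_le]; constructor <;> linarith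
    have hs2 := (hsum p ph hs1).1
    refine Summable.of_nonneg_of_le (fun x => mul_nonneg (by positivity) (hval x p p0 p1).1)
      (fun x => ?_) (hs2.mul_left C1)
    have h3 := (hval x p p0 p1).2
    calc (nv x : ℝ) ^ j * gR x p ≤ (nv x : ℝ) ^ j * (C1 * wx c1 x p) :=
          mul_le_mul_of_nonneg_left h3 (by positivity)
      _ = _ := by ring
  · intro z hz
    obtain ⟨k1, k2, k3, k4, k5, k6⟩ := h3 z hz
    obtain ⟨n1, -⟩ := near_norm (hnn z.re k4 k5) k1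
    have hs : 0 < |z.re - 1/2| := abs_pos.2 (sub_ne_zero.2 k6)
    have hz0 : 0 < ‖z - 1/2‖ := lt_of_lt_of_le hs k2
    have b0 : mR j z.re ≤ D * |z.re - 1/2| ^ (-e) := by
      have := h5 z.re k4 k5 k6 0
      simp only [iteratedDeriv_zero, pow_zero, Nat.factorial_zero, Nat.cast_one, one_mul] at this
      exact (le_abs_self _).trans this
    have b1 : |z.re - 1/2| ^ (-e) ≤ P * ‖z - 1/2‖ ^ (-e) := by
      calc |z.re - 1/2| ^ (-e) ≤ (‖z - 1/2‖ / 2) ^ (-e) :=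
            Real.rpow_le_rpow_of_nonpos (by positivity) (by linarith) (by linarith)
        _ = P * ‖z - 1/2‖ ^ (-e) := by
            rw [Real.div_rpow hz0.le (by norm_num), Real.rpow_neg (by norm_num : (0:ℝ) ≤ 2),
              div_inv_eq_mul, ← hP]
            ring
    have b2 : 2 * ε * (D * |z.re - 1/2| ^ (-e)) ≤ D * |z.re - 1/2| ^ (-e) := by
      have : 0 < D * |z.re - 1/2| ^ (-e) := by positivity
      nlinarith
    have b3 := mul_le_mul_of_nonneg_left b1 hD.le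
    have b4 : 0 < ‖z - 1/2‖ ^ (-e) := by positivity
    have b5 : 0 ≤ (1 + A + D + 2 * d⁻¹) * ‖z - 1/2‖ ^ (-e) := by positivity
    calc ‖K (mR j) z‖ ≤ mR j z.re + 2 * ε * (D * |z.re - 1/2| ^ (-e)) := n1
      _ ≤ 2 * (D * (P * ‖z - 1/2‖ ^ (-e))) := by linarith
      _ ≤ (1 + A + D + 2 * D * P + 2 * d⁻¹) * ‖z - 1/2‖ ^ (-e) := by nlinarith
  · intro z hz z1 z3
    obtain ⟨k1, k2, k3, k4, k5, k6⟩ := h3 z hz
    obtain ⟨-, n2⟩ := near_norm (hnn z.re k4 k5) k1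
    have hs : 0 < |z.re - 1/2| := abs_pos.2 (sub_ne_zero.2 k6)
    have hz0 : 0 < ‖z - 1/2‖ := lt_of_lt_of_le hs k2
    have b1 := hlow z.re z1 z3 k6
    have b2 : 0 < |z.re - 1/2| ^ (-e) := by positivity
    have b3 : 2 * ε * (D * |z.re - 1/2| ^ (-e)) ≤ d / 2 * |z.re - 1/2| ^ (-e) := by
      have : 2 * ε * D ≤ d / 2 := by linarith
      calc 2 * ε * (D * |z.re - 1/2| ^ (-e)) = 2 * ε * D * |z.re - 1/2| ^ (-e) := by ring
        _ ≤ _ := mul_le_mul_of_nonneg_right this b2.le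
    have b4 : ‖z - 1/2‖ ^ (-e) ≤ |z.re - 1/2| ^ (-e) :=
      Real.rpow_le_rpow_of_nonpos hs k2 (by linarith)
    have b6 : (1 + A + D + 2 * D * P + 2 * d⁻¹)⁻¹ ≤ d / 2 := by
      rw [inv_le_comm₀ (by positivity) (by positivity)]
      have e : (d / 2)⁻¹ = 2 * d⁻¹ := by field_simp
      rw [e]
      have : 0 < 2 * D * P := by positivity
      linarith
    have b7 : (1 + A + D + 2 * D * P + 2 * d⁻¹)⁻¹ * ‖z - 1/2‖ ^ (-e) ≤
        d / 2 * |z.re - 1/2| ^ (-e) := mul_le_mul b6 b4 (by positivity) (by positivity)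
    linarith
  · intro p p0 p1 ph
    refine ⟨h4 p p0 p1 ph, ?_⟩
    intro k
    refine (h5 p p0 p1 ph k).trans ?_
    have hs : 0 < |p - 1/2| := abs_pos.2 (sub_ne_zero.2 ph)
    rw [Real.rpow_sub_natCast hs.ne', inv_pow, div_eq_mul_inv]
    have hX : 0 < 2 * D * P := by positivity
    calc A ^ k * (k ! : ℝ) * (|p - 1/2| ^ k)⁻¹ * (D * |p - 1/2| ^ (-e))
        = (A ^ k * D) * ((k ! : ℝ) * (|p - 1/2| ^ (-e) * (|p - 1/2| ^ k)⁻¹)) := by ring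
      _ ≤ ((1 + A + D + 2 * D * P + 2 * d⁻¹) ^ k * (1 + A + D + 2 * D * P + 2 * d⁻¹)) *
          ((k ! : ℝ) * (|p - 1/2| ^ (-e) * (|p - 1/2| ^ k)⁻¹)) := by
          apply mul_le_mul_of_nonneg_right _ (by positivity)
          apply mul_le_mul _ (by linarith) hD.le (by positivity)
          exact pow_le_pow_left₀ hA.le (by linarith) k
      _ = _ := by rw [pow_succ]; ring

end Pool.Agent.H30.PT
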