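import Pool.Agent.H30.PT.Ser

/-! Limits of the derivatives. -/

set_option autoImplicit false

namespace Pool.Agent.H30.PT

open H974 Finset Pool.Agent.NH39 Pool.Agent.NH39.GC Pool.Agent.NH39.W Pool.Agent.H160R2.CV
open MeasureTheory Filter Topology
open scoped ContDiff Nat

theorem T2_smooth (n : ℕ) [NeZero n] (u v : ZMod n × ZMod n) : ContDiff ℝ ∞ (T2 n u v) := by
  unfold T2 Ex
  apply ContDiff.sum
  intro F _
  apply ContDiff.mul _ contDiff_const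
  apply ContDiff.mul
  · apply contDiff_prod
    intro e _
    exact contDiff_id
  · apply contDiff_prod
    intro e _
    exact contDiff_const.sub contDiff_id

/-- The distance on the torus. -/
theorem tds_me {N n : ℕ} [NeZero n] (hn : n = 2 * N + 1) {x : Vtx} (hx : nv x ≤ N) :
    tds (me ((0, 0) : ZMod n × ZMod n)) (me (rv n 0 0 x)) = nv x := by
  obtain ⟨a, b⟩ := x
  unfold nv at hx ⊢
  simp only at hx ⊢
  have ha : |(-a)| ≤ (N:ℤ) := by rw [abs_neg, Int.abs_eq_natAbs]; omega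
  have hb : |(-b)| ≤ (N:ℤ) := by rw [abs_neg, Int.abs_eq_natAbs]; omega
  have h1 := zd_cast (n := n) (N := N) (by omega) ha
  have h2 := zd_cast (n := n) (N := N) (by omega) hb
  have e1 : (0 : ZMod n) - (((0 + a : ℤ)) : ZMod n) = ((-a : ℤ) : ZMod n) := by push_cast; ring
  have e2 : (0 : ZMod n) - (((0 + b : ℤ)) : ZMod n) = ((-b : ℤ) : ZMod n) := by push_cast; ring
  unfold tds me rv
  simp only
  rw [e1, e2, h1, h2, Int.natAbs_neg, Int.natAbs_neg]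

/-- Distinct vertices. -/
theorem rv_ne {N n : ℕ} [NeZero n] (hn : n = 2 * N + 1) {x : Vtx} (hx : nv x ≤ N)
    (h0 : x ≠ (0, 0)) : ((0, 0) : ZMod n × ZMod n) ≠ rv n 0 0 x := by
  intro h
  have h1 := tds_me hn hx
  rw [← h, tds_self] at h1
  apply h0
  obtain ⟨a, b⟩ := x
  unfold nv at h1
  simp only at h1
  apply Prod.ext <;> simp only <;> omega

theorem nv_pos {x : Vtx} (h0 : x ≠ (0, 0)) : 1 ≤ nv x := by
  by_contra hc
  apply h0
  obtain ⟨a, b⟩ := x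
  unfold nv at hc
  simp only at hc
  apply Prod.ext <;> simp only <;> omega

/-- The derivatives of the two-point function of the torus, from the origin. -/
theorem T2_bd : ∃ A : ℝ, 1 ≤ A ∧ ∀ (N n : ℕ) [NeZero n], n = 2 * N + 1 → ∀ p : ℝ,
    0 ≤ p → p ≤ 1 → p ≠ 1/2 → ∀ x : Vtx, x ≠ (0, 0) → nv x ≤ N → ∀ k : ℕ,
      |iteratedDeriv k (T2 n (0, 0) (rv n 0 0 x)) p| ≤ A ^ (k + 1) * k ! *
        (|p - 1/2|⁻¹) ^ k * (vv p (nv x)) ^ 2 := by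
  obtain ⟨A, hA, h⟩ := T2_der
  refine ⟨A, hA, ?_⟩
  intro N n _ hn p p0 p1 ph x hx0 hx k
  have hx1 := nv_pos hx0
  have h1 := h N n hn (hx1.trans hx) p p0 p1 (0, 0) (rv n 0 0 x) (rv_ne hn hx hx0) k
  rw [tds_me hn hx] at h1
  have e1 : psi (vv p) N (nv x) = vv p (nv x) := by
    unfold psi
    rw [min_eq_left hx, max_eq_right hx1]
  rw [e1] at h1
  refine h1.trans ?_
  apply mul_le_mul_of_nonneg_right _ (sq_nonneg _)
  apply mul_le_mul_of_nonneg_left _ (by positivity)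
  have hs : 0 < |p - 1/2| := abs_pos.2 (sub_ne_zero.2 ph)
  apply pow_le_pow_left₀ (inv_nonneg.2 (xs_pos n p).le)
  exact inv_anti₀ hs (le_max_right _ _)

/-- Limits of functions with bounds for the derivatives of all orders. -/
theorem gen {f : ℕ → ℝ → ℝ} {g : ℝ → ℝ} {a b A : ℝ} (hA : 1 ≤ A)
    (hh : ∀ x ∈ Set.Ioo a b, x ≠ 1/2) {B : ℕ → ℝ → ℝ} {B' : ℝ → ℝ}
    (hf : ∀ m, ContDiff ℝ ∞ (f m))
    (hlim : ∀ x ∈ Set.Ioo a b, Tendsto (fun m => f m x) atTop (𝓝 (g x)))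
    (hbd : ∀ m, ∀ x ∈ Set.Ioo a b, ∀ k, |iteratedDeriv k (f m) x| ≤
      A ^ (k + 1) * k ! * (|x - 1/2|⁻¹) ^ k * B m x)
    (hB : ∀ x ∈ Set.Ioo a b, Tendsto (fun m => B m x) atTop (𝓝 (B' x)))
    (hBb : ∀ δ : ℝ, 0 < δ → ∃ M : ℝ, 0 ≤ M ∧ ∀ m, ∀ y ∈ Set.Ioo a b, δ ≤ |y - 1/2| → B m y ≤ M)
    {x : ℝ} (hx : x ∈ Set.Ioo a b) :
    ContDiffAt ℝ ∞ g x ∧ ∀ k, |iteratedDeriv k g x| ≤
      A ^ (k + 1) * k ! * (|x - 1/2|⁻¹) ^ k * B' x := by
  have hx12 := hh x hx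
  obtain ⟨δ, hδ⟩ : ∃ δ : ℝ, δ = |x - 1/2| / 2 := ⟨_, rfl⟩
  have hs : 0 < |x - 1/2| := abs_pos.2 (sub_ne_zero.2 hx12)
  have hδ0 : 0 < δ := by rw [hδ]; positivity
  obtain ⟨M, hM0, hM⟩ := hBb δ hδ0
  obtain ⟨a', ha'⟩ : ∃ a' : ℝ, a' = max a (x - δ) := ⟨_, rfl⟩
  obtain ⟨b', hb'⟩ : ∃ b' : ℝ, b' = min b (x + δ) := ⟨_, rfl⟩
  have hx' : x ∈ Set.Ioo a' b' := by
    rw [ha', hb']
    exact ⟨max_lt hx.1 (by linarith), lt_min hx.2 (by linarith)⟩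
  have hsub : Set.Ioo a' b' ⊆ Set.Ioo a b := by
    rw [ha', hb']
    exact Set.Ioo_subset_Ioo (le_max_left _ _) (min_le_left _ _)
  have hfar : ∀ y ∈ Set.Ioo a' b', δ ≤ |y - 1/2| := by
    intro y hy
    have h1 : x - δ < y := lt_of_le_of_lt (by rw [ha']; exact le_max_right _ _) hy.1
    have h2 : y < x + δ := lt_of_lt_of_le hy.2 (by rw [hb']; exact min_le_right _ _)
    have h3 : |x - y| < δ := by rw [abs_lt]; constructor <;> linarith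
    have h4 : |x - 1/2| ≤ |x - y| + |y - 1/2| := abs_sub_le _ _ _
    linarith
  have hl := lim f g a' b' (fun k => A ^ (k + 1) * k ! * (δ⁻¹) ^ k * M)
    (lt_trans hx'.1 hx'.2) hf (fun y hy => hlim y (hsub hy)) (by
      intro k _ m y hy
      refine (hbd m y (hsub hy) k).trans ?_
      have h1 := hfar y hy
      have h2 := hM m y (hsub hy) h1
      have h3 : (|y - 1/2|⁻¹) ^ k ≤ (δ⁻¹) ^ k :=
        pow_le_pow_left₀ (inv_nonneg.2 (abs_nonneg _)) (inv_anti₀ hδ0 h1) k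
      have h4 : 0 ≤ A ^ (k + 1) * (k ! : ℝ) := by positivity
      calc A ^ (k + 1) * k ! * (|y - 1/2|⁻¹) ^ k * B m y ≤
            A ^ (k + 1) * k ! * (|y - 1/2|⁻¹) ^ k * M := by
              apply mul_le_mul_of_nonneg_left h2 (by positivity)
        _ ≤ _ := by
              apply mul_le_mul_of_nonneg_right _ hM0
              exact mul_le_mul_of_nonneg_left h3 h4)
  obtain ⟨h1, h2⟩ := hl
  refine ⟨h1.contDiffAt (isOpen_Ioo.mem_nhds hx'), ?_⟩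
  intro k
  refine le_of_tendsto_of_tendsto' (h2 k x hx').abs ((hB x hx).const_mul _) (fun m => ?_)
  exact hbd m x hx k

/-! ### the two-point function -/

/-- The two-point function as a function of a real parameter. -/
noncomputable def tauR (x : Vtx) (p : ℝ) : ℝ :=
  H31K.tau (Set.projIcc 0 1 zero_le_one p) x

theorem tauR_eq (x : Vtx) {p : ℝ} (p0 : 0 ≤ p) (p1 : p ≤ 1) : tauR x p = H31K.tau ⟨p, p0, p1⟩ x := by
  unfold tauR
  rw [Set.projIcc_of_mem zero_le_one (⟨p0, p1⟩ : p ∈ Set.Icc (0:ℝ) 1)]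

theorem InB_nv (x : Vtx) : InB (0, 0) (nv x) x := by
  obtain ⟨a, b⟩ := x
  unfold InB nv
  simp only [sub_zero]
  rw [Int.abs_eq_natAbs, Int.abs_eq_natAbs]
  omega

theorem InB_mono {x : Vtx} {m m' : ℕ} (h : m ≤ m') (hx : InB (0, 0) m x) : InB (0, 0) m' x := by
  have : (m:ℤ) ≤ m' := by exact_mod_cast h
  exact ⟨hx.1.trans this, hx.2.trans this⟩

theorem vv_le_one {q : ℝ} (q0 : 0 ≤ q) (q1 : q ≤ 1) {s : ℕ} (hs : 1 ≤ s) : vv q s ≤ 1 := by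
  have h := vv_wgt q0 q1
  rw [← h.one]
  exact h.anti 1 s le_rfl hs

theorem vv_pos {q : ℝ} (q0 : 0 ≤ q) (q1 : q ≤ 1) {s : ℕ} (hs : 1 ≤ s) : 0 < vv q s :=
  (vv_wgt q0 q1).pos s hs

theorem rat_tendsto (r : ℕ) (C : ℝ) :
    Tendsto (fun m : ℕ => C * ((r:ℝ) / ((m + r : ℕ) : ℝ)) ^ (5/4 : ℝ)) atTop (𝓝 0) := by
  have h1 : Tendsto (fun m : ℕ => (r:ℝ) / ((m + r : ℕ) : ℝ)) atTop (𝓝 0) :=
    (tendsto_const_div_atTop_nhds_zero_nat (r:ℝ)).comp (tendsto_add_atTop_nat r)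
  have h2 := (h1.rpow_const (p := (5/4 : ℝ)) (Or.inr (by norm_num))).const_mul C
  rw [Real.zero_rpow (by norm_num), mul_zero] at h2
  exact h2

/-- **The derivatives of the two-point function.** -/
theorem tau_der : ∃ A : ℝ, 1 ≤ A ∧ ∀ x : Vtx, x ≠ (0, 0) → ∀ p : ℝ, 0 < p → p < 1 → p ≠ 1/2 →
    ContDiffAt ℝ ∞ (tauR x) p ∧ ∀ k, |iteratedDeriv k (tauR x) p| ≤
      A ^ (k + 1) * k ! * (|p - 1/2|⁻¹) ^ k * (vv p (nv x)) ^ 2 := by
  obtain ⟨A, hA, h⟩ := T2_bd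
  obtain ⟨C, hC, hinf⟩ := tor_inf
  refine ⟨A, hA, ?_⟩
  intro x hx0 p p0 p1 ph
  have hx1 := nv_pos hx0
  have main : ∀ a b : ℝ, 0 ≤ a → b ≤ 1 → (∀ y ∈ Set.Ioo a b, y ≠ 1/2) → p ∈ Set.Ioo a b →
      ContDiffAt ℝ ∞ (tauR x) p ∧ ∀ k, |iteratedDeriv k (tauR x) p| ≤
      A ^ (k + 1) * k ! * (|p - 1/2|⁻¹) ^ k * (vv p (nv x)) ^ 2 := by
    intro a b ha hb hab hp
    refine gen (f := fun m => T2 (2 * (m + nv x) + 1) (0, 0) (rv (2 * (m + nv x) + 1) 0 0 x))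
      (B := fun _ y => (vv y (nv x)) ^ 2) (B' := fun y => (vv y (nv x)) ^ 2) hA hab
      (fun m => T2_smooth _ _ _) ?_ ?_ (fun y _ => tendsto_const_nhds) ?_ hp
    · intro y hy
      have y0 : 0 ≤ y := ha.trans hy.1.le
      have y1 : y ≤ 1 := hy.2.le.trans hb
      rw [tauR_eq x y0 y1, ← tendsto_sub_nhds_zero_iff]
      apply squeeze_zero_norm _ (rat_tendsto (nv x) C)
      intro m
      rw [Real.norm_eq_abs]
      exact hinf ⟨y, y0, y1⟩ (nv x) (m + nv x) (2 * (m + nv x) + 1) rfl hx1 (by omega) x (InB_nv x)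
    · intro m y hy k
      exact h (m + nv x) (2 * (m + nv x) + 1) rfl y (ha.trans hy.1.le) (hy.2.le.trans hb)
        (hab y hy) x hx0 (by omega) k
    · intro δ _
      refine ⟨1, zero_le_one, ?_⟩
      intro m y hy _
      have y0 : 0 ≤ y := ha.trans hy.1.le
      have y1 : y ≤ 1 := hy.2.le.trans hb
      exact pow_le_one₀ (vv_pos y0 y1 hx1).le (vv_le_one y0 y1 hx1)
  rcases lt_or_gt_of_ne ph with h1 | h1
  · exact main 0 (1/2) le_rfl (by norm_num) (fun y hy => hy.2.ne) ⟨p0, h1⟩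
  · exact main (1/2) 1 (by norm_num) le_rfl (fun y hy => hy.1.ne') ⟨h1, p1⟩

end Pool.Agent.H30.PT
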