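import Pool.Agent.H30.PT.Der
import Pool.Graph.R_seed8.W424.NC.Corr

/-! From the torus to the plane. -/

set_option autoImplicit false

namespace Pool.Agent.H30.PT

open H974 H12S H389NS Finset Pool.Agent.NH39 Pool.Agent.NH39.GC Pool.Agent.NH39.W
open Pool.Agent.NH39.NC (hQ hQ_nonneg hQ_le_one le_hQ hQ_anti)
open MeasureTheory Filter Topology

/-- A path which starts in the box stays in the interior or visits the boundary. -/
theorem stayP {F : Set Edg} {N : ℕ} {u v : Vtx} (hu : InB (0, 0) N u) (h : Reach F u v) :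
    (∃ w ∈ bdB (0, 0) N, Reach (F ∩ ↑(boxE N)) u w) ∨ Reach (F ∩ ↑(boxE N)) u v := by
  have bd : ∀ w : Vtx, |w.1| ≤ (N:ℤ) → |w.2| ≤ (N:ℤ) → ¬ (|w.1| < (N:ℤ) ∧ |w.2| < (N:ℤ)) →
      w ∈ bdB (0, 0) N := by
    intro w h1 h2 h3
    refine ⟨by simpa using h1, by simpa using h2, ?_⟩
    simp only [sub_zero]
    by_cases h4 : |w.1| = (N:ℤ)
    · exact Or.inl h4
    · right
      have h5 : |w.1| < (N:ℤ) := lt_of_le_of_ne h1 h4
      have h6 : ¬ |w.2| < (N:ℤ) := fun h => h3 ⟨h5, h⟩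
      exact le_antisymm h2 (not_lt.1 h6)
  have key : (∃ w ∈ bdB (0, 0) N, Reach (F ∩ ↑(boxE N)) u w) ∨
      (Reach (F ∩ ↑(boxE N)) u v ∧ |v.1| < (N:ℤ) ∧ |v.2| < (N:ℤ)) := by
    induction h with
    | refl =>
      obtain ⟨h1, h2⟩ := hu
      simp only [sub_zero] at h1 h2
      by_cases h3 : |u.1| < (N:ℤ) ∧ |u.2| < (N:ℤ)
      · exact Or.inr ⟨Reach.refl _ _, h3⟩
      · exact Or.inl ⟨u, bd u h1 h2 h3, Reach.refl _ _⟩
    | @tail w w' _ hs ih =>
      rcases ih with ih | ⟨hr, hw1, hw2⟩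
      · exact Or.inl ih
      · rw [abs_lt] at hw1 hw2
        obtain ⟨⟨x0, y0, bo⟩, heG, hcase⟩ := hs
        have hmem : ((x0, y0, bo) : Edg) ∈ boxE N := by
          unfold boxE
          cases bo
          · simp only [src_mk, tgt_false] at hcase
            rw [mem_RE_false]
            rcases hcase with ⟨h3, h4⟩ | ⟨h3, h4⟩
            · rw [← h3] at hw1 hw2; simp only at hw1 hw2; omega
            · rw [← h4] at hw1 hw2; simp only at hw1 hw2; omega
          · simp only [src_mk, tgt_true] at hcase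
            rw [mem_RE_true]
            rcases hcase with ⟨h3, h4⟩ | ⟨h3, h4⟩
            · rw [← h3] at hw1 hw2; simp only at hw1 hw2; omega
            · rw [← h4] at hw1 hw2; simp only at hw1 hw2; omega
        have hadj : Adj (F ∩ ↑(boxE N)) w w' := ⟨_, ⟨heG, hmem⟩, hcase⟩
        have hr' := hr.trans hadj.reach
        have hin : |w'.1| ≤ (N:ℤ) ∧ |w'.2| ≤ (N:ℤ) := by
          have h1 := blk_ends (c := (0, 0)) (d := N) (e := (x0, y0, bo)) (by rw [S4C_blk0]; exact hmem)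
          unfold InB at h1
          simp only [sub_zero] at h1
          rcases hcase with ⟨-, h2⟩ | ⟨h2, -⟩
          · rw [← h2]; exact h1.2
          · rw [← h2]; exact h1.1
        by_cases h3 : |w'.1| < (N:ℤ) ∧ |w'.2| < (N:ℤ)
        · exact Or.inr ⟨hr', h3⟩
        · exact Or.inl ⟨w', bd w' hin.1 hin.2 h3, hr'⟩
  rcases key with h | h
  · exact Or.inl h
  · exact Or.inr h.1

/-- Two vertices of the small box, both joined to the boundary of the large box but not joined to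
each other. -/
theorem a4_of {F : Set Edg} {m N : ℕ} (hmN : m ≤ N) (hF : F ⊆ ↑(boxE N)) {x y : Vtx}
    (hx : InB (0, 0) m x) (hy : InB (0, 0) m y) {w w' : Vtx} (hw : w ∈ bdB (0, 0) N)
    (hw' : w' ∈ bdB (0, 0) N) (h1 : Reach F x w) (h2 : Reach F y w') (hn : ¬ Reach F x y) :
    A4a (0, 0) m N F := by
  have hF' : F ⊆ ↑(blk (0, 0) N) := by rw [S4C_blk0]; exact hF
  obtain ⟨u, hu, r1⟩ := inner_exit hmN hF' hw h1.symm hx
  obtain ⟨u', hu', r2⟩ := inner_exit hmN hF' hw' h2.symm hy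
  have e : F \ ↑(blk (0, 0) m) = F ∩ ↑(blk (0, 0) N \ blk (0, 0) m) := by
    ext e
    simp only [Set.mem_sdiff, Set.mem_inter_iff, Finset.mem_coe, Finset.mem_sdiff]
    constructor
    · rintro ⟨h3, h4⟩
      exact ⟨h3, hF' h3, h4⟩
    · rintro ⟨h3, -, h4⟩
      exact ⟨h3, h4⟩
  rw [e] at r1 r2
  refine ⟨u, hu, u', hu', ⟨w, hw, r1.symm⟩, ⟨w', hw', r2.symm⟩, ?_⟩
  intro h3
  apply hn
  have m1 := r1.mono (Set.inter_subset_left (s := F) (t := ↑(blk (0, 0) N \ blk (0, 0) m)))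
  have m2 := r2.mono (Set.inter_subset_left (s := F) (t := ↑(blk (0, 0) N \ blk (0, 0) m)))
  have m3 := h3.mono (Set.inter_subset_left (s := F) (t := ↑(blk (0, 0) N \ blk (0, 0) m)))
  exact h1.trans (m1.trans (m3.trans (m2.symm.trans h2.symm)))

/-- The box and a larger box. -/
theorem box_box {q : ℝ} (q0 : 0 ≤ q) (q1 : q ≤ 1) {m N M : ℕ} (hmN : m ≤ N) (hNM : N ≤ M) {x : Vtx}
    (hx : InB (0, 0) m x) :
    |Pr (fun _ => q) (boxE M) (TP x) - Pr (fun _ => q) (boxE N) (TP x)| ≤ hQ q m N := by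
  have ok := okq q0 q1
  have hsub : boxE N ⊆ boxE M := boxE_mono hNM
  have e1 : Pr (fun _ => q) (boxE N) (TP x) =
      Pr (fun _ => q) (boxE M) (fun F => TP x (F ∩ boxE N)) := by
    rw [Pr_local (A := fun F => TP x (F ∩ boxE N)) hsub (fun F _ => by
      simp only [Finset.inter_assoc, Finset.inter_self])]
    apply Pr_congr
    intro F hF
    rw [Finset.inter_eq_left.2 hF]
  have e2 : hQ q m N =
      Pr (fun _ => q) (boxE M) (fun F => A4a (0, 0) m N (↑(F ∩ boxE N) : Set Edg)) := by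
    unfold hQ
    rw [Pr_local (A := fun F => A4a (0, 0) m N (↑(F ∩ boxE N) : Set Edg)) hsub (fun F _ => by
      simp only [Finset.inter_assoc, Finset.inter_self])]
    apply Pr_congr
    intro F hF
    rw [Finset.inter_eq_left.2 hF]
  have h0 : InB (0, 0) m ((0, 0) : Vtx) := by unfold InB; simp
  have hle : Pr (fun _ => q) (boxE N) (TP x) ≤ Pr (fun _ => q) (boxE M) (TP x) := by
    rw [e1]
    apply Pr_mono ok
    intro F _ h
    exact Reach.mono (by exact_mod_cast Finset.inter_subset_left) h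
  rw [abs_of_nonneg (by linarith), sub_le_iff_le_add, e1, e2]
  refine le_trans (Pr_mono ok ?_) (Pr_or_le ok _ _ _)
  intro F _ h
  by_cases h3 : TP x (F ∩ boxE N)
  · exact Or.inr h3
  · left
    have hcast : (↑(F ∩ boxE N) : Set Edg) = (↑F : Set Edg) ∩ ↑(boxE N) := by push_cast; rfl
    unfold H974.TP at h h3
    rw [hcast] at h3 ⊢
    have hmN' : (m:ℤ) ≤ N := by exact_mod_cast hmN
    rcases stayP (N := N) ⟨h0.1.trans hmN', h0.2.trans hmN'⟩ h with ⟨w, hw, hr⟩ | hr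
    · rcases stayP (N := N) ⟨hx.1.trans hmN', hx.2.trans hmN'⟩ h.symm with ⟨w', hw', hr'⟩ | hr'
      · exact a4_of hmN Set.inter_subset_right h0 hx hw hw' hr hr' h3
      · exact absurd hr'.symm h3
    · exact absurd hr h3

/-- The box and the plane. -/
theorem box_inf (p : unitInterval) {m N : ℕ} (hmN : m ≤ N) {x : Vtx} (hx : InB (0, 0) m x) :
    |H31K.tau p x - Pr (fun _ => (p:ℝ)) (boxE N) (TP x)| ≤ hQ (p:ℝ) m N := by
  have h1 := (Pool.Agent.W424.NC.tau_tendsto p x).sub_const (Pr (fun _ => (p:ℝ)) (boxE N) (TP x))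
  refine le_of_tendsto h1.abs ?_
  filter_upwards [eventually_ge_atTop N] with M hM
  exact box_box p.2.1 p.2.2 hmN hM hx

/-- The torus and the box. -/
theorem tor_box {q : ℝ} (q0 : 0 ≤ q) (q1 : q ≤ 1) {m N n : ℕ} [NeZero n] (hn : n = 2 * N + 1)
    (hmN : m ≤ N) {x : Vtx} (hx : InB (0, 0) m x) :
    |T2 n (0, 0) (rv n 0 0 x) q - Pr (fun _ => q) (boxE N) (TP x)| ≤ hQ q m N := by
  have hok : Ok (fun _ : TE n => q) := fun _ => ⟨q0, q1⟩
  have hpull : ∀ A : Finset Edg → Prop,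
      Pr (fun _ => q) (Finset.univ : Finset (TE n))
        (fun F => A ((boxE N).filter (fun e => rd n 0 0 e ∈ F))) =
      Pr (fun _ => q) (boxE N) A := by
    intro A
    exact Pr_pull (q := q) (rd_inj (by omega)) (S := (Finset.univ : Finset (TE n)))
      (Finset.subset_univ _) A
  have e0 : T2 n (0, 0) (rv n 0 0 x) q = Pr (fun _ => q) (Finset.univ : Finset (TE n))
      (fun F => GC.GR tsrc ttgt (↑F : Set (TE n)) (0, 0) (rv n 0 0 x)) := rfl
  have e1 := hpull (TP x)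
  have e2 := hpull (fun F => A4a (0, 0) m N (↑F : Set Edg))
  have e3 : hQ q m N = Pr (fun _ => q) (boxE N) (fun F => A4a (0, 0) m N (↑F : Set Edg)) := rfl
  have h00 : rv n 0 0 (0, 0) = (0, 0) := by unfold rv; simp
  have up : ∀ F : Finset (TE n), TP x ((boxE N).filter (fun e => rd n 0 0 e ∈ F)) →
      GC.GR tsrc ttgt (↑F : Set (TE n)) (0, 0) (rv n 0 0 x) := by
    intro F h
    rw [← h00]
    refine reach_rd ?_ h
    intro e he
    rw [Finset.mem_coe, Finset.mem_filter] at he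
    exact Finset.mem_coe.2 he.2
  have hle : Pr (fun _ => q) (boxE N) (TP x) ≤ T2 n (0, 0) (rv n 0 0 x) q := by
    rw [e0, ← e1]
    exact Pr_mono hok (fun F _ h => up F h)
  rw [abs_of_nonneg (by linarith), sub_le_iff_le_add, e0, ← e1, e3, ← e2]
  refine le_trans (Pr_mono hok ?_) (Pr_or_le hok _ _ _)
  intro F _ h
  by_cases h3 : TP x ((boxE N).filter (fun e => rd n 0 0 e ∈ F))
  · exact Or.inr h3
  · left
    obtain ⟨o, ho⟩ : ∃ o : TE n, o = me ((0, 0) : ZMod n × ZMod n) := ⟨_, rfl⟩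
    have hcx : cX o = 0 := by rw [ho]; unfold cX me; simp
    have hcy : cY o = 0 := by rw [ho]; unfold cY me; simp
    have hpu : pu o N F = (boxE N).filter (fun e => rd n 0 0 e ∈ F) := by
      unfold pu; rw [hcx, hcy]
    have h0 : InB (0, 0) m ((0, 0) : Vtx) := by unfold InB; simp
    have hmN' : (m:ℤ) ≤ N := by exact_mod_cast hmN
    have h0N : InB (0, 0) N ((0, 0) : Vtx) := ⟨h0.1.trans hmN', h0.2.trans hmN'⟩
    have hxN : InB (0, 0) N x := ⟨hx.1.trans hmN', hx.2.trans hmN'⟩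
    have inj : ∀ w z : Vtx, |w.1| < (N:ℤ) → |w.2| < (N:ℤ) → InB (0, 0) N z →
        rv n 0 0 w = rv n 0 0 z → w = z := by
      intro w z h4 h5 h6 h7
      unfold InB at h6
      simp only [sub_zero] at h6
      rw [abs_lt] at h4 h5
      rw [abs_le, abs_le] at h6
      exact rv_inj (N := N) (by omega) (by unfold inR; omega) (by unfold inR; omega) h7
    rw [← hpu] at h3 ⊢
    have hsub : (↑(pu o N F) : Set Edg) ⊆ ↑(boxE N) := by
      unfold pu
      intro e he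
      rw [Finset.mem_coe, Finset.mem_filter] at he
      exact Finset.mem_coe.2 he.1
    have g1 : GC.GR tsrc ttgt (↑F : Set (TE n)) (rv n (cX o) (cY o) (0, 0)) (rv n 0 0 x) := by
      rw [hcx, hcy, h00]; exact h
    have g2 : GC.GR tsrc ttgt (↑F : Set (TE n)) (rv n (cX o) (cY o) x) (rv n 0 0 (0, 0)) := by
      rw [hcx, hcy, h00]; exact h.symm
    rcases stay2 h0N g1 with ⟨w, hw, hr⟩ | ⟨w, k1, k2, k3, k4⟩
    · rcases stay2 hxN g2 with ⟨w', hw', hr'⟩ | ⟨w', k1, k2, k3, k4⟩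
      · exact a4_of hmN hsub h0 hx hw hw' hr hr' h3
      · rw [hcx, hcy] at k4
        have := inj w' (0, 0) k1 k2 h0N k4
        rw [this] at k3
        exact absurd k3.symm h3
    · rw [hcx, hcy] at k4
      have := inj w x k1 k2 hxN k4
      rw [this] at k3
      exact absurd k3 h3

/-- The decay of the four-arm probability. -/
theorem hQ_dec : ∃ C : ℝ, 1 ≤ C ∧ ∀ q : ℝ, 0 ≤ q → q ≤ 1 → ∀ r D : ℕ, 1 ≤ r → r ≤ D →
    hQ q r D ≤ C * ((r:ℝ) / D) ^ (5/4 : ℝ) := by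
  obtain ⟨C, hC, h⟩ := pl
  refine ⟨C, hC, ?_⟩
  intro q q0 q1 r D hr hrD
  have h1 := h q q0 q1 r D hr hrD
  rw [wt_ratio hr hrD] at h1
  have hr0 : (0:ℝ) < r := by exact_mod_cast hr
  have hrD' : (r:ℝ) ≤ D := by exact_mod_cast hrD
  have hD0 : (0:ℝ) < D := by linarith
  obtain ⟨l, hl⟩ : ∃ l : ℝ, l = |q - 1/2| ^ (4/3 : ℝ) := ⟨_, rfl⟩
  have hl0 : 0 ≤ l := by rw [hl]; positivity
  rw [← hl] at h1
  have h2 : (1 + l * r) / (1 + l * D) ≤ 1 := by
    rw [div_le_one (by positivity)]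
    nlinarith
  have h3 : 0 ≤ ((r:ℝ) / D) ^ (5/4 : ℝ) := by positivity
  calc hQ q r D ≤ _ := h1
    _ ≤ C * (((r:ℝ) / D) ^ (5/4 : ℝ) * 1) := by
        apply mul_le_mul_of_nonneg_left _ (by linarith)
        exact mul_le_mul_of_nonneg_left h2 h3
    _ = _ := by rw [mul_one]

/-- The torus and the plane. -/
theorem tor_inf : ∃ C : ℝ, 1 ≤ C ∧ ∀ (p : unitInterval) (m N n : ℕ) [NeZero n], n = 2 * N + 1 →
    1 ≤ m → m ≤ N → ∀ x : Vtx, InB (0, 0) m x →
    |T2 n (0, 0) (rv n 0 0 x) p - H31K.tau p x| ≤ C * ((m:ℝ) / N) ^ (5/4 : ℝ) := by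
  obtain ⟨C, hC, h⟩ := hQ_dec
  refine ⟨2 * C, by linarith, ?_⟩
  intro p m N n _ hn hm hmN x hx
  have h1 := tor_box p.2.1 p.2.2 hn hmN hx
  have h2 := box_inf p hmN hx
  have h3 := h p p.2.1 p.2.2 m N hm hmN
  rw [abs_le] at h1 h2 ⊢
  constructor <;> linarith

end Pool.Agent.H30.PT
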