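import Pool.Graph.R_pool_sql_team_seeded_3dad9d7b.NH39.W.Sum2
import Pool.Graph.R_pool_sql_team_seeded_3dad9d7b.NH39.W.Key

/-!
Abstract induction over the scales for a function of the configuration which depends on two marked
places `α`, `β` (a two-point function): the probability that all the elements of a finite set matter
together. It follows the induction of the library (`NH39.W.Key`), with two weights: `w` for a group
of elements without marked place (four arms), `v` for a group with exactly one marked place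
(one arm); no gain is used for a group with both marked places.
-/

set_option autoImplicit false
set_option linter.unusedSectionVars false

namespace Pool.Agent.H30.PT

open H974 Finset Pool.Agent.NH39.W

/-! ### weights -/

/-- A positive decreasing weight with the doubling property. -/
structure Wgt (u : ℕ → ℝ) (W : ℝ) : Prop where
  one : u 1 = 1
  pos : ∀ r, 1 ≤ r → 0 < u r
  anti : ∀ r s, 1 ≤ r → r ≤ s → u s ≤ u r
  dbl : ∀ r s, 1 ≤ r → r ≤ s → s ≤ 8 * r → u r ≤ W * u s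

section
variable {u : ℕ → ℝ} {W : ℝ} {N : ℕ}

theorem Wgt.ppos (H : Wgt u W) (s : ℕ) : 0 < psi u N s := H.pos _ (le_max_left _ _)

theorem Wgt.panti (H : Wgt u W) {s s' : ℕ} (h : s ≤ s') : psi u N s' ≤ psi u N s := by
  unfold psi
  exact H.anti _ _ (le_max_left _ _) (max_le_max le_rfl (min_le_min h le_rfl))

theorem Wgt.pdbl (H : Wgt u W) (hN : 1 ≤ N) {s s' : ℕ} (h : s ≤ s') (h2 : s' ≤ 8 * max 1 s) :
    psi u N s ≤ W * psi u N s' := by
  unfold psi
  exact H.dbl _ _ (le_max_left _ _) (max_le_max le_rfl (min_le_min h le_rfl)) (by omega)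

theorem Wgt.pzero (H : Wgt u W) : psi u N 0 = 1 := by
  unfold psi
  simp [H.one]

theorem Wgt.pone (H : Wgt u W) (hN : 1 ≤ N) : psi u N 1 = 1 := by
  unfold psi
  rw [min_eq_left hN, max_self, H.one]

theorem Wgt.pmid {s : ℕ} (h1 : 1 ≤ s) (h2 : s ≤ N) : psi u N s = u s := by
  unfold psi
  rw [min_eq_left h2, max_eq_right h1]

/-- iterated doubling -/
theorem Wgt.piter (H : Wgt u W) (hW : 1 ≤ W) (hN : 1 ≤ N) (j : ℕ) : ∀ s s' : ℕ, 1 ≤ s →
    s' ≤ 8 ^ j * s → psi u N s ≤ W ^ j * psi u N s' := by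
  induction j with
  | zero =>
    intro s s' hs h
    rw [pow_zero, one_mul] at h ⊢
    exact H.panti h
  | succ j ih =>
    intro s s' hs h
    have h1 : psi u N s ≤ W * psi u N (8 * s) :=
      H.pdbl hN (by omega) (by omega)
    have h2 := ih (8 * s) s' (by omega) (by rw [pow_succ] at h; linarith)
    calc psi u N s ≤ W * psi u N (8 * s) := h1
      _ ≤ W * (W ^ j * psi u N s') := mul_le_mul_of_nonneg_left h2 (by linarith)
      _ = _ := by rw [pow_succ]; ring

end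

/-! ### the setup -/

/-- The hypotheses. -/
structure KS {E : Type} [DecidableEq E] [Fintype E] (ds : E → E → ℕ) (N : ℕ) (q : ℝ)
    (w v : ℕ → ℝ) (α β : E) (Ds : Finset E → Finset E → Prop) (C W : ℝ) : Prop where
  d0 : ∀ a, ds a a = 0
  dc : ∀ a b, ds a b = ds b a
  dt : ∀ a b c, ds a c ≤ ds a b + ds b c
  hN : 1 ≤ N
  q0 : 0 ≤ q
  q1 : q ≤ 1
  hw : Wgt w W
  hv : Wgt v W
  wv : ∀ r s, 1 ≤ r → r ≤ s → w s * v r ≤ W * (w r * v s)
  ab : 1 ≤ ds α β
  ann0 : ∀ (x : E) (r D : ℕ), 1 ≤ r → r ≤ D → D ≤ N → ∃ Ch : Finset E → Prop,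
      (∀ F F' : Finset E, (∀ e, r ≤ ds e x → ds e x ≤ D → (e ∈ F ↔ e ∈ F')) → (Ch F ↔ Ch F')) ∧
      (∀ S F : Finset E, x ∈ S → (∀ y ∈ S, ds y x < r ∨ D < ds y x) → D < ds α x → D < ds β x →
        Ds S F → Ch F) ∧
      Pr (fun _ => q) Finset.univ Ch ≤ C * (w D / w r)
  ann1 : ∀ (x : E) (r D : ℕ), 1 ≤ r → r ≤ D → D ≤ N → ∃ Ch : Finset E → Prop,
      (∀ F F' : Finset E, (∀ e, r ≤ ds e x → ds e x ≤ D → (e ∈ F ↔ e ∈ F')) → (Ch F ↔ Ch F')) ∧
      (∀ S F : Finset E, x ∈ S → (∀ y ∈ S, ds y x < r ∨ D < ds y x) →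
        (ds α x < r ∧ D < ds β x) ∨ (ds β x < r ∧ D < ds α x) → Ds S F → Ch F) ∧
      Pr (fun _ => q) Finset.univ Ch ≤ C * (v D / v r)
  hC : 1 ≤ C
  hW : 1 ≤ W

/-- The last factor of the bound: four arms, one arm, or nothing. -/
noncomputable def lf {E : Type} [DecidableEq E] (N : ℕ) (w v : ℕ → ℝ) (α β : E) (Q : ℝ)
    (S : Finset E) (s : ℕ) : ℝ :=
  if α ∈ S then (if β ∈ S then Q else psi v N s) else (if β ∈ S then psi v N s else psi w N s)

/-- The roots: the marked places in `S`, or else `x`. -/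
def rts {E : Type} [DecidableEq E] (α β : E) (S : Finset E) (x : E) : Finset E :=
  if (S ∩ {α, β}).Nonempty then S ∩ {α, β} else {x}

/-- There are an event and a forest on `S` with the roots `R`. -/
def Gd {E : Type} [DecidableEq E] [Fintype E] (ds : E → E → ℕ) (N : ℕ) (q : ℝ)
    (w : ℕ → ℝ) (α β : E) (Ds : Finset E → Finset E → Prop) (a : ℝ) (t k : ℕ) (z : ℝ)
    (S R : Finset E) : Prop :=
  ∃ (Ev : Finset E → Prop) (par : E → E) (rk : E → ℕ),
    (∀ F F' : Finset E, (∀ e, (∃ v ∈ S, ds e v ≤ t / 2) → (e ∈ F ↔ e ∈ F')) → (Ev F ↔ Ev F')) ∧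
    (∀ S' : Finset E, S ⊆ S' → α ∈ S' → β ∈ S' → (∀ v ∈ S, ∀ w ∈ S' \ S, t < ds v w) →
      ∀ F : Finset E, Ds S' F → Ev F) ∧
    (∀ y ∈ S, y ∉ R → par y ∈ S ∧ rk (par y) < rk y) ∧
    Pr (fun _ => q) Finset.univ Ev ≤ a ^ k * (∏ y ∈ S \ R, psi w N (ds y (par y))) * z

section
variable {E : Type} [DecidableEq E] [Fintype E] {ds : E → E → ℕ} {N : ℕ} {q : ℝ}
  {w v : ℕ → ℝ} {α β : E} {Ds : Finset E → Finset E → Prop} {C W a Q : ℝ}

theorem KS.ok (H : KS ds N q w v α β Ds C W) : Ok (fun _ : E => q) := fun _ => ⟨H.q0, H.q1⟩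

theorem KS.ne (H : KS ds N q w v α β Ds C W) : α ≠ β := by
  rintro rfl
  have := H.ab
  rw [H.d0] at this
  omega

theorem dm_union (H : KS ds N q w v α β Ds C W) {U R : Finset E} {b u : E} {t : ℕ} (hu : u ∈ U)
    (hb : b ∈ R) (hbu : ds b u ≤ t + 1) : dm ds (U ∪ R) ≤ dm ds U + (t + 1) + dm ds R := by
  have key : ∀ v ∈ U, ∀ w ∈ R, ds v w ≤ dm ds U + (t + 1) + dm ds R := by
    intro v hv w hw
    have h1 := H.dt v u w
    have h2 := H.dt u b w
    have h3 := ds_le_dm' (ds := ds) hv hu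
    have h4 := ds_le_dm' (ds := ds) hb hw
    rw [H.dc u b] at h2
    omega
  apply dm_le_of'
  intro v hv w hw
  rw [mem_union] at hv hw
  rcases hv with hv | hv <;> rcases hw with hw | hw
  · exact (ds_le_dm' hv hw).trans (by omega)
  · exact key v hv w hw
  · rw [H.dc]
    exact key w hw v hv
  · exact (ds_le_dm' hv hw).trans (by omega)

theorem KS.prod_nn (H : KS ds N q w v α β Ds C W) (ha : 1 ≤ a) (k : ℕ) (S : Finset E)
    (f : E → ℕ) : 0 ≤ a ^ k * ∏ y ∈ S, psi w N (f y) :=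
  mul_nonneg (pow_nonneg (by linarith) _) (Finset.prod_nonneg fun y _ => (H.hw.ppos _).le)

theorem lf_pos (H : KS ds N q w v α β Ds C W) (hQ : 0 < Q) (S : Finset E) (s : ℕ) :
    0 < lf N w v α β Q S s := by
  unfold lf
  have h1 := H.hw.ppos (N := N) s
  have h2 := H.hv.ppos (N := N) s
  split_ifs <;> assumption

/-- monotonicity -/
theorem gd_mono (H : KS ds N q w v α β Ds C W) {t k k' : ℕ} {z z' : ℝ} {S R : Finset E}
    (h : Gd ds N q w α β Ds a t k z S R) (hz : z ≤ z') (hz0 : 0 ≤ z) (hk : k ≤ k') (ha : 1 ≤ a) :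
    Gd ds N q w α β Ds a t k' z' S R := by
  obtain ⟨Ev, par, rk, h1, h2, h3, h4⟩ := h
  refine ⟨Ev, par, rk, h1, h2, h3, h4.trans ?_⟩
  refine mul_le_mul ?_ hz hz0 (H.prod_nn ha _ _ _)
  refine mul_le_mul_of_nonneg_right ?_ (Finset.prod_nonneg fun _ _ => (H.hw.ppos _).le)
  exact pow_le_pow_right₀ ha hk

/-- one factor more -/
theorem gd_step (H : KS ds N q w v α β Ds C W) {t k : ℕ} {z z' : ℝ} {S R : Finset E} (ha : 1 ≤ a)
    (h : Gd ds N q w α β Ds a t k z S R) (h2 : z ≤ a * z') :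
    Gd ds N q w α β Ds a t (k + 1) z' S R := by
  obtain ⟨Ev, par, rk, h1, h2', h3, h4⟩ := h
  refine ⟨Ev, par, rk, h1, h2', h3, h4.trans ?_⟩
  calc a ^ k * (∏ y ∈ S \ R, psi w N (ds y (par y))) * z
      ≤ a ^ k * (∏ y ∈ S \ R, psi w N (ds y (par y))) * (a * z') :=
        mul_le_mul_of_nonneg_left h2 (H.prod_nn ha _ _ _)
    _ = _ := by rw [pow_succ]; ring

/-- The annulus around a group of elements which does not contain both marked places. -/
theorem hann (H : KS ds N q w v α β Ds C W) {S : Finset E} {x : E} (hx : x ∈ S)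
    (hnb : ¬ (α ∈ S ∧ β ∈ S)) : ∃ u : ℕ → ℝ, Wgt u W ∧ (∀ s, lf N w v α β Q S s = psi u N s) ∧
    ∀ t' r D : ℕ, dm ds S < r → 1 ≤ r → r ≤ D → D ≤ t' → D ≤ N → ∃ Ch : Finset E → Prop,
      (∀ F F' : Finset E, (∀ e, r ≤ ds e x → ds e x ≤ D → (e ∈ F ↔ e ∈ F')) → (Ch F ↔ Ch F')) ∧
      (∀ S' F : Finset E, S ⊆ S' → α ∈ S' → β ∈ S' → (∀ v ∈ S, ∀ w ∈ S' \ S, t' < ds v w) →
        Ds S' F → Ch F) ∧
      Pr (fun _ => q) Finset.univ Ch ≤ C * (u D / u r) := by
  have hcase : ∀ (t' r D : ℕ) (S' : Finset E), dm ds S < r → D ≤ t' →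
      (∀ v ∈ S, ∀ w ∈ S' \ S, t' < ds v w) → ∀ y ∈ S', (y ∈ S → ds y x < r) ∧
        (y ∉ S → D < ds y x) := by
    intro t' r D S' hr hD hfar y hy
    constructor
    · intro hyS
      have := ds_le_dm' (ds := ds) hyS hx
      omega
    · intro hyS
      have := hfar x hx y (mem_sdiff.mpr ⟨hy, hyS⟩)
      rw [H.dc]
      omega
  by_cases hα : α ∈ S
  · have hβ : β ∉ S := fun h => hnb ⟨hα, h⟩
    refine ⟨v, H.hv, fun s => by unfold lf; rw [if_pos hα, if_neg hβ], ?_⟩
    intro t' r D h1 h2 h3 h4 h5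
    obtain ⟨Ch, c1, c2, c3⟩ := H.ann1 x r D h2 h3 h5
    refine ⟨Ch, c1, ?_, c3⟩
    intro S' F hSS' hα' hβ' hfar hF
    have hc := hcase t' r D S' h1 h4 hfar
    refine c2 S' F (hSS' hx) (fun y hy => ?_) (Or.inl ⟨(hc α hα').1 hα, (hc β hβ').2 hβ⟩) hF
    by_cases hyS : y ∈ S
    · exact Or.inl ((hc y hy).1 hyS)
    · exact Or.inr ((hc y hy).2 hyS)
  · by_cases hβ : β ∈ S
    · refine ⟨v, H.hv, fun s => by unfold lf; rw [if_neg hα, if_pos hβ], ?_⟩
      intro t' r D h1 h2 h3 h4 h5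
      obtain ⟨Ch, c1, c2, c3⟩ := H.ann1 x r D h2 h3 h5
      refine ⟨Ch, c1, ?_, c3⟩
      intro S' F hSS' hα' hβ' hfar hF
      have hc := hcase t' r D S' h1 h4 hfar
      refine c2 S' F (hSS' hx) (fun y hy => ?_) (Or.inr ⟨(hc β hβ').1 hβ, (hc α hα').2 hα⟩) hF
      by_cases hyS : y ∈ S
      · exact Or.inl ((hc y hy).1 hyS)
      · exact Or.inr ((hc y hy).2 hyS)
    · refine ⟨w, H.hw, fun s => by unfold lf; rw [if_neg hα, if_neg hβ], ?_⟩
      intro t' r D h1 h2 h3 h4 h5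
      obtain ⟨Ch, c1, c2, c3⟩ := H.ann0 x r D h2 h3 h5
      refine ⟨Ch, c1, ?_, c3⟩
      intro S' F hSS' hα' hβ' hfar hF
      have hc := hcase t' r D S' h1 h4 hfar
      refine c2 S' F (hSS' hx) (fun y hy => ?_) ((hc α hα').2 hα) ((hc β hβ').2 hβ) hF
      by_cases hyS : y ∈ S
      · exact Or.inl ((hc y hy).1 hyS)
      · exact Or.inr ((hc y hy).2 hyS)

theorem rts_ne {S : Finset E} {x : E} : (rts α β S x).Nonempty := by
  unfold rts
  split_ifs with h
  · exact h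
  · exact ⟨x, mem_singleton_self x⟩

theorem rts_sub {S : Finset E} {x : E} (hx : x ∈ S) : rts α β S x ⊆ S := by
  unfold rts
  split_ifs with h
  · exact inter_subset_left
  · exact singleton_subset_iff.2 hx

/-- BASE -/
theorem gd_base (H : KS ds N q w v α β Ds C W) (ha : C * W ^ 3 ≤ a) {t' : ℕ} {S : Finset E} {x : E}
    (ht' : t' ≤ N) (hx : x ∈ S) (hall : ∀ y ∈ S, ds y x = 0) :
    Gd ds N q w α β Ds a t' 1 (lf N w v α β Q S (max t' (dm ds S))) S (rts α β S x) := by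
  have hC := H.hC
  have hW := H.hW
  have hW3 : W ≤ W ^ 3 := by
    have : W ^ 1 ≤ W ^ 3 := pow_le_pow_right₀ hW (by norm_num)
    simpa using this
  have hCW : C * W ≤ a := (mul_le_mul_of_nonneg_left hW3 (by linarith)).trans ha
  have hdm : dm ds S = 0 := by
    apply Nat.le_zero.mp
    apply dm_le_of'
    intro u hu v hv
    have h1 := H.dt u x v
    rw [H.dc x v, hall u hu, hall v hv] at h1
    exact h1
  have hnb : ¬ (α ∈ S ∧ β ∈ S) := by
    rintro ⟨h1, h2⟩
    have := ds_le_dm' (ds := ds) h1 h2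
    have := H.ab
    omega
  obtain ⟨u, hu, hlf, hCh⟩ := hann (Q := Q) H hx hnb
  rw [hlf, hdm, max_eq_left (Nat.zero_le _)]
  obtain ⟨ρ, hρ⟩ := rts_ne (α := α) (β := β) (S := S) (x := x)
  have hρS := rts_sub (α := α) (β := β) hx hρ
  have hall2 : ∀ y ∈ S, ds y ρ = 0 := by
    intro y hy
    have := ds_le_dm' (ds := ds) hy hρS
    omega
  have hprod : ∏ y ∈ S \ rts α β S x, psi w N (ds y ((fun _ => ρ) y)) = 1 := by
    refine Finset.prod_eq_one fun y hy => ?_
    simp only [hall2 y (mem_sdiff.1 hy).1]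
    exact H.hw.pzero
  have htree : ∀ y ∈ S, y ∉ rts α β S x → (fun _ => ρ) y ∈ S ∧
      (fun y => if y ∈ rts α β S x then 0 else 1) ((fun _ => ρ) y) <
        (fun y => if y ∈ rts α β S x then 0 else 1) y := by
    intro y hy hyx
    refine ⟨hρS, ?_⟩
    simp [hyx, hρ]
  by_cases hD : 1 ≤ t' / 2
  · obtain ⟨Ch, hloc, himp, hpr⟩ := hCh t' 1 (t' / 2) (by omega) le_rfl hD (by omega) (by omega)
    refine ⟨Ch, fun _ => ρ, fun y => if y ∈ rts α β S x then 0 else 1, ?_, ?_, htree, ?_⟩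
    · intro F F' hFF
      exact hloc F F' fun e he he' => hFF e ⟨x, hx, he'⟩
    · intro S' hSS' hα' hβ' hfar F hF
      exact himp S' F hSS' hα' hβ' hfar hF
    · rw [hprod, pow_one, mul_one, Wgt.pmid (by omega) ht']
      rw [hu.one, div_one] at hpr
      have h1 : u (t' / 2) ≤ W * u t' := hu.dbl _ _ hD (by omega) (by omega)
      have h2 := hu.pos t' (by omega)
      calc Pr (fun _ => q) Finset.univ Ch ≤ C * u (t' / 2) := hpr
        _ ≤ C * (W * u t') := mul_le_mul_of_nonneg_left h1 (by linarith)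
        _ = (C * W) * u t' := by ring
        _ ≤ a * u t' := mul_le_mul_of_nonneg_right hCW h2.le
  · refine ⟨fun _ => True, fun _ => ρ, fun y => if y ∈ rts α β S x then 0 else 1,
      fun _ _ _ => Iff.rfl, fun _ _ _ _ _ _ _ => trivial, htree, ?_⟩
    rw [hprod, pow_one, mul_one]
    have h1 : psi u N t' = 1 := by
      unfold psi
      rw [show max 1 (min t' N) = 1 by omega]
      exact hu.one
    rw [h1, mul_one]
    refine (Pr_le_one H.ok _ _).trans (le_trans ?_ hCW)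
    nlinarith

/-- the last factor, one step -/
theorem lf_step (H : KS ds N q w v α β Ds C W) (hQ : 0 < Q) {S : Finset E} {s s' : ℕ}
    (h : s ≤ s') (h2 : s' ≤ 8 * max 1 s) :
    lf N w v α β Q S s ≤ W * lf N w v α β Q S s' := by
  have hW := H.hW
  have h3 := H.hw.pdbl H.hN h h2
  have h4 := H.hv.pdbl H.hN h h2
  unfold lf
  split_ifs
  · nlinarith
  · exact h4
  · exact h4
  · exact h3

/-- START -/
theorem gd_start (H : KS ds N q w v α β Ds C W) (hQ : 0 < Q) (ha1 : 1 ≤ a) (ha : C * W ^ 3 ≤ a)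
    {t k : ℕ} {S R : Finset E}
    (h : Gd ds N q w α β Ds a t k (lf N w v α β Q S (max t (dm ds S))) S R) :
    Gd ds N q w α β Ds a t (k + 1) (lf N w v α β Q S (max (t + 1) (dm ds S))) S R := by
  refine gd_step H ha1 h ?_
  have hC := H.hC
  have hW := H.hW
  have hW3 : W ≤ W ^ 3 := by
    have : W ^ 1 ≤ W ^ 3 := pow_le_pow_right₀ hW (by norm_num)
    simpa using this
  have hCW : W ≤ a := by nlinarith
  refine (lf_step H hQ (s' := max (t + 1) (dm ds S)) (by omega) (by omega)).trans ?_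
  exact mul_le_mul_of_nonneg_right hCW (lf_pos H hQ _ _).le

/-- the comparison of the products, one factor `psi w` -/
theorem merge_psi (H : KS ds N q w v α β Ds C W) (hQ : 0 < Q) {t : ℕ} {U R : Finset E} {b u : E}
    (hu : u ∈ U) (hb : b ∈ R) (hbu : ds b u ≤ t + 1) (hR : R ∩ {α, β} = ∅) :
    lf N w v α β Q U (max (t + 1) (dm ds U)) * psi w N (max t (dm ds R)) ≤
      W ^ 3 * (psi w N (ds b u) * lf N w v α β Q (U ∪ R) (max (t + 1) (dm ds (U ∪ R)))) := by
  have hW := H.hW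
  have hN := H.hN
  have h1 := dm_union H hu hb hbu
  have h2 : dm ds U ≤ dm ds (U ∪ R) := dm_mono' subset_union_left
  have h3 : dm ds R ≤ dm ds (U ∪ R) := dm_mono' subset_union_right
  have hαR : α ∉ R := by
    intro h
    have : α ∈ R ∩ {α, β} := by simp [h]
    rw [hR] at this
    exact absurd this (notMem_empty _)
  have hβR : β ∉ R := by
    intro h
    have : β ∈ R ∩ {α, β} := by simp [h]
    rw [hR] at this
    exact absurd this (notMem_empty _)
  have hW3 : W ^ 2 ≤ W ^ 3 := pow_le_pow_right₀ hW (by norm_num)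
  have hW2 : W ≤ W ^ 2 := by nlinarith
  have hW1 : 1 ≤ W ^ 3 := one_le_pow₀ hW
  obtain ⟨M, hM⟩ : ∃ M, M = max (t + 1) (dm ds U) := ⟨_, rfl⟩
  obtain ⟨M', hM'⟩ : ∃ M', M' = max (t + 1) (dm ds (U ∪ R)) := ⟨_, rfl⟩
  rw [← hM, ← hM']
  have p1 := H.hw.ppos (N := N) (ds b u)
  have p3 := H.hw.ppos (N := N) (max t (dm ds R))
  -- the factor of `R`
  have e5 : psi w N (max t (dm ds R)) ≤ W * psi w N (ds b u) := by
    have e2 : psi w N (max t (dm ds R)) ≤ psi w N t := H.hw.panti (le_max_left _ _)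
    have e3 : psi w N t ≤ W * psi w N (t + 1) := H.hw.pdbl hN (by omega) (by omega)
    have e4 : psi w N (t + 1) ≤ psi w N (ds b u) := H.hw.panti hbu
    exact (e2.trans e3).trans (mul_le_mul_of_nonneg_left e4 (by linarith))
  -- one weight
  have one : ∀ f : ℕ → ℝ, Wgt f W → (∀ r s, 1 ≤ r → r ≤ s → w s * f r ≤ W * (w r * f s)) →
      psi f N M * psi w N (max t (dm ds R)) ≤ W ^ 3 * (psi w N (ds b u) * psi f N M') := by
    intro f hf hwf
    have p0 := hf.ppos (N := N) M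
    have p2 := hf.ppos (N := N) M'
    rcases le_total (dm ds R) M with hc | hc
    · have e1 : psi f N M ≤ W * psi f N M' := hf.pdbl hN (by omega) (by omega)
      calc psi f N M * psi w N (max t (dm ds R)) ≤ (W * psi f N M') * (W * psi w N (ds b u)) :=
            mul_le_mul e1 e5 p3.le (by positivity)
        _ = W ^ 2 * (psi w N (ds b u) * psi f N M') := by ring
        _ ≤ _ := mul_le_mul_of_nonneg_right hW3 (by positivity)
    · have e0 : max t (dm ds R) = dm ds R := max_eq_right (by omega)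
      rw [e0]
      have e6 : psi w N (dm ds R) * psi f N M ≤ W * (psi w N M * psi f N (dm ds R)) := by
        unfold psi
        exact hwf _ _ (le_max_left _ _) (max_le_max le_rfl (min_le_min hc le_rfl))
      have e4 : psi w N M ≤ psi w N (ds b u) := H.hw.panti (by omega)
      have e7 : psi f N (dm ds R) ≤ W * psi f N M' := hf.pdbl hN (by omega) (by omega)
      calc psi f N M * psi w N (dm ds R) = psi w N (dm ds R) * psi f N M := mul_comm _ _
        _ ≤ W * (psi w N M * psi f N (dm ds R)) := e6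
        _ ≤ W * (psi w N (ds b u) * (W * psi f N M')) := by
            apply mul_le_mul_of_nonneg_left _ (by linarith)
            exact mul_le_mul e4 e7 (hf.ppos _).le p1.le
        _ = W ^ 2 * (psi w N (ds b u) * psi f N M') := by ring
        _ ≤ _ := mul_le_mul_of_nonneg_right hW3 (by positivity)
  have ow := one w H.hw (by
    intro r s h1 h2
    have p1 := H.hw.pos r h1
    have p2 := H.hw.pos s (h1.trans h2)
    nlinarith [mul_pos p1 p2])
  have ov := one v H.hv H.wv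
  have e7 : Q * psi w N (max t (dm ds R)) ≤ W ^ 3 * (psi w N (ds b u) * Q) := by
    have e8 : psi w N (max t (dm ds R)) ≤ W ^ 3 * psi w N (ds b u) :=
      e5.trans (mul_le_mul_of_nonneg_right (hW2.trans hW3) p1.le)
    calc Q * psi w N (max t (dm ds R)) ≤ Q * (W ^ 3 * psi w N (ds b u)) :=
          mul_le_mul_of_nonneg_left e8 hQ.le
      _ = _ := by ring
  have m1 : (α ∈ U ∪ R) ↔ α ∈ U := by simp [hαR]
  have m2 : (β ∈ U ∪ R) ↔ β ∈ U := by simp [hβR]
  unfold lf
  simp only [m1, m2]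
  split_ifs
  · exact e7
  · exact ov
  · exact ov
  · exact ow

/-- independence of the events of two groups -/
theorem gd_ind (H : KS ds N q w v α β Ds C W) {t : ℕ} {U R : Finset E}
    (hfar : ∀ v ∈ U, ∀ w ∈ R, t < ds v w) {Ev Ev' : Finset E → Prop}
    (g1 : ∀ F F' : Finset E, (∀ e, (∃ v ∈ U, ds e v ≤ t / 2) → (e ∈ F ↔ e ∈ F')) →
      (Ev F ↔ Ev F'))
    (g1' : ∀ F F' : Finset E, (∀ e, (∃ v ∈ R, ds e v ≤ t / 2) → (e ∈ F ↔ e ∈ F')) →
      (Ev' F ↔ Ev' F')) :
    Pr (fun _ => q) Finset.univ (fun F => Ev F ∧ Ev' F) =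
        Pr (fun _ => q) Finset.univ Ev * Pr (fun _ => q) Finset.univ Ev' := by
  classical
  refine Pr_indep (S := univ.filter fun e => ∃ v ∈ U, ds e v ≤ t / 2)
    (T := univ.filter fun e => ∃ v ∈ R, ds e v ≤ t / 2) (subset_univ _) (subset_univ _)
    ?_ ?_ ?_
  · rw [Finset.disjoint_left]
    intro e he1 he2
    obtain ⟨v, hv, h1⟩ := (mem_filter.mp he1).2
    obtain ⟨y, hy, h2⟩ := (mem_filter.mp he2).2
    have h3 := hfar v hv y hy
    have h4 := H.dt v e y
    rw [H.dc v e] at h4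
    omega
  · intro F _
    refine g1 _ _ fun e he => ?_
    rw [mem_inter, mem_filter]
    exact ⟨fun h => ⟨h, mem_univ _, he⟩, fun h => h.1⟩
  · intro F _
    refine g1' _ _ fun e he => ?_
    rw [mem_inter, mem_filter]
    exact ⟨fun h => ⟨h, mem_univ _, he⟩, fun h => h.1⟩

end

end Pool.Agent.H30.PT
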