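import Pool.Agent.H30.PT.Key

/-! Abstract induction over the scales, second part. -/

set_option autoImplicit false
set_option linter.unusedSectionVars false

namespace Pool.Agent.H30.PT

open H974 Finset Pool.Agent.NH39.W

section
variable {E : Type} [DecidableEq E] [Fintype E] {ds : E → E → ℕ} {N : ℕ} {q : ℝ}
  {w v : ℕ → ℝ} {α β : E} {Ds : Finset E → Finset E → Prop} {C W a Q : ℝ}

/-- the event of a union -/
theorem gd_imp (H : KS ds N q w v α β Ds C W) {t : ℕ} {U R : Finset E}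
    (hfar : ∀ v ∈ U, ∀ w ∈ R, t < ds v w) {Ev Ev' : Finset E → Prop}
    (g2 : ∀ S' : Finset E, U ⊆ S' → α ∈ S' → β ∈ S' → (∀ v ∈ U, ∀ w ∈ S' \ U, t < ds v w) →
      ∀ F : Finset E, Ds S' F → Ev F)
    (g2' : ∀ S' : Finset E, R ⊆ S' → α ∈ S' → β ∈ S' → (∀ v ∈ R, ∀ w ∈ S' \ R, t < ds v w) →
      ∀ F : Finset E, Ds S' F → Ev' F) :
    ∀ S' : Finset E, U ∪ R ⊆ S' → α ∈ S' → β ∈ S' →
      (∀ v ∈ U ∪ R, ∀ w ∈ S' \ (U ∪ R), t < ds v w) →
      ∀ F : Finset E, Ds S' F → Ev F ∧ Ev' F := by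
  intro S' hSS' hα hβ hfar' F hF
  constructor
  · refine g2 S' (subset_union_left.trans hSS') hα hβ (fun v hv y hy => ?_) F hF
    obtain ⟨hy1, hy2⟩ := mem_sdiff.mp hy
    by_cases hyR : y ∈ R
    · exact hfar v hv y hyR
    · refine hfar' v (mem_union_left _ hv) y (mem_sdiff.mpr ⟨hy1, ?_⟩)
      rw [mem_union, not_or]
      exact ⟨hy2, hyR⟩
  · refine g2' S' (subset_union_right.trans hSS') hα hβ (fun v hv y hy => ?_) F hF
    obtain ⟨hy1, hy2⟩ := mem_sdiff.mp hy
    by_cases hyU : y ∈ U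
    · rw [H.dc]
      exact hfar y hyU v hv
    · refine hfar' v (mem_union_right _ hv) y (mem_sdiff.mpr ⟨hy1, ?_⟩)
      rw [mem_union, not_or]
      exact ⟨hyU, hy2⟩

theorem gd_loc {t : ℕ} {U R : Finset E} {Ev Ev' : Finset E → Prop}
    (g1 : ∀ F F' : Finset E, (∀ e, (∃ v ∈ U, ds e v ≤ t / 2) → (e ∈ F ↔ e ∈ F')) →
      (Ev F ↔ Ev F'))
    (g1' : ∀ F F' : Finset E, (∀ e, (∃ v ∈ R, ds e v ≤ t / 2) → (e ∈ F ↔ e ∈ F')) →
      (Ev' F ↔ Ev' F')) :
    ∀ F F' : Finset E, (∀ e, (∃ v ∈ U ∪ R, ds e v ≤ t / 2) → (e ∈ F ↔ e ∈ F')) →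
      ((Ev F ∧ Ev' F) ↔ (Ev F' ∧ Ev' F')) := by
  intro F F' hFF
  refine and_congr (g1 F F' fun e he => hFF e ?_) (g1' F F' fun e he => hFF e ?_)
  · obtain ⟨v, hv, h⟩ := he
    exact ⟨v, mem_union_left _ hv, h⟩
  · obtain ⟨v, hv, h⟩ := he
    exact ⟨v, mem_union_right _ hv, h⟩

/-- MERGE, a group without marked place joins -/
theorem gd_mergeA (H : KS ds N q w v α β Ds C W) (hQ : 0 < Q) (ha1 : 1 ≤ a) (ha : C * W ^ 3 ≤ a)
    {t k k' : ℕ} {U R : Finset E} {x b u : E} (hx : x ∈ U) (hu : u ∈ U) (hb : b ∈ R)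
    (hbu : ds b u ≤ t + 1) (hfar : ∀ v ∈ U, ∀ w ∈ R, t < ds v w) (hR0 : R ∩ {α, β} = ∅)
    (hU : Gd ds N q w α β Ds a t k (lf N w v α β Q U (max (t + 1) (dm ds U))) U (rts α β U x))
    (hR : Gd ds N q w α β Ds a t k' (lf N w v α β Q R (max t (dm ds R))) R (rts α β R b)) :
    Gd ds N q w α β Ds a t (k + k' + 1)
      (lf N w v α β Q (U ∪ R) (max (t + 1) (dm ds (U ∪ R)))) (U ∪ R) (rts α β (U ∪ R) x) := by
  classical
  have hC := H.hC
  have hW := H.hW
  have hαR : α ∉ R := by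
    intro h
    have : α ∈ R ∩ {α, β} := by simp [h]
    rw [hR0] at this
    exact absurd this (notMem_empty _)
  have hβR : β ∉ R := by
    intro h
    have : β ∈ R ∩ {α, β} := by simp [h]
    rw [hR0] at this
    exact absurd this (notMem_empty _)
  have hrR : rts α β R b = {b} := by
    unfold rts
    rw [hR0, if_neg Finset.not_nonempty_empty]
  have hlR : lf N w v α β Q R (max t (dm ds R)) = psi w N (max t (dm ds R)) := by
    unfold lf
    rw [if_neg hαR, if_neg hβR]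
  have hrU : rts α β (U ∪ R) x = rts α β U x := by
    unfold rts
    have : (U ∪ R) ∩ {α, β} = U ∩ {α, β} := by
      rw [union_inter_distrib_right, hR0, union_empty]
    rw [this]
  rw [hrU]
  rw [hrR, hlR] at hR
  obtain ⟨r0, hr0⟩ : ∃ r0, r0 = rts α β U x := ⟨_, rfl⟩
  have hr0U : r0 ⊆ U := by rw [hr0]; exact rts_sub hx
  rw [← hr0] at hU ⊢
  obtain ⟨Ev, par, rk, g1, g2, g3, g4⟩ := hU
  obtain ⟨Ev', par', rk', g1', g2', g3', g4'⟩ := hR
  have hUR : ∀ v ∈ R, v ∉ U := by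
    intro v hv hvU
    have := hfar v hvU v hv
    rw [H.d0] at this
    omega
  have hdisj : Disjoint U R := Finset.disjoint_right.mpr hUR
  have hbU : b ∉ U := hUR b hb
  refine ⟨fun F => Ev F ∧ Ev' F, fun y => if y ∈ U then par y else if y = b then u else par' y,
    fun y => if y ∈ U then rk y else rk u + 1 + rk' y, gd_loc g1 g1', gd_imp H hfar g2 g2', ?_, ?_⟩
  · intro y hy hyx
    by_cases hyU : y ∈ U
    · obtain ⟨e1, e2⟩ := g3 y hyU hyx
      simp only [if_pos hyU, if_pos e1]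
      exact ⟨mem_union_left _ e1, e2⟩
    · have hyR : y ∈ R := (mem_union.mp hy).resolve_left hyU
      by_cases hyb : y = b
      · simp only [if_neg hyU, if_pos hyb, if_pos hu]
        exact ⟨mem_union_left _ hu, by omega⟩
      · obtain ⟨e1, e2⟩ := g3' y hyR (by rw [mem_singleton]; exact hyb)
        simp only [if_neg hyU, if_neg hyb, if_neg (hUR _ e1)]
        exact ⟨mem_union_right _ e1, by omega⟩
  · rw [gd_ind H hfar g1 g1']
    have hprod : ∏ y ∈ (U ∪ R) \ r0,
        psi w N (ds y (if y ∈ U then par y else if y = b then u else par' y)) =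
        (∏ y ∈ U \ r0, psi w N (ds y (par y))) *
          (psi w N (ds b u) * ∏ y ∈ R \ {b}, psi w N (ds y (par' y))) := by
      have e1 : (U ∪ R) \ r0 = (U \ r0) ∪ R := by
        ext y
        simp only [mem_sdiff, mem_union]
        constructor
        · rintro ⟨h2 | h2, h1⟩
          · exact Or.inl ⟨h2, h1⟩
          · exact Or.inr h2
        · rintro (⟨h1, h2⟩ | h2)
          · exact ⟨Or.inl h1, h2⟩
          · exact ⟨Or.inr h2, fun h => hUR y h2 (hr0U h)⟩
      rw [e1, Finset.prod_union (hdisj.mono_left sdiff_subset)]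
      congr 1
      · refine Finset.prod_congr rfl fun y hy => ?_
        rw [if_pos (mem_sdiff.1 hy).1]
      · rw [sdiff_singleton_eq_erase, ← Finset.mul_prod_erase R _ hb]
        congr 1
        · rw [if_neg hbU, if_pos rfl]
        · refine Finset.prod_congr rfl fun y hy => ?_
          rw [mem_erase] at hy
          rw [if_neg (hUR y hy.2), if_neg hy.1]
    rw [hprod]
    have hm := merge_psi H hQ hu hb hbu hR0
    obtain ⟨P1, hP1⟩ : ∃ P, P = ∏ y ∈ U \ r0, psi w N (ds y (par y)) := ⟨_, rfl⟩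
    obtain ⟨P2, hP2⟩ : ∃ P, P = ∏ y ∈ R \ {b}, psi w N (ds y (par' y)) := ⟨_, rfl⟩
    have n1 := H.prod_nn ha1 k (U \ r0) fun y => ds y (par y)
    have n2 := H.prod_nn ha1 k' (R \ {b}) fun y => ds y (par' y)
    rw [← hP1] at g4 n1 ⊢
    rw [← hP2] at g4' n2 ⊢
    have h5 : W ^ 3 ≤ a := by
      refine le_trans ?_ ha
      nlinarith [one_le_pow₀ hW (n := 3)]
    have p1 := H.hw.ppos (N := N) (ds b u)
    have p2 := lf_pos H hQ (U ∪ R) (max (t + 1) (dm ds (U ∪ R)))
    have p3 := lf_pos H hQ U (max (t + 1) (dm ds U))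
    calc Pr (fun _ => q) Finset.univ Ev * Pr (fun _ => q) Finset.univ Ev'
        ≤ (a ^ k * P1 * lf N w v α β Q U (max (t + 1) (dm ds U))) *
          (a ^ k' * P2 * psi w N (max t (dm ds R))) :=
          mul_le_mul g4 g4' (Pr_nonneg H.ok _ _) (mul_nonneg n1 p3.le)
      _ = (a ^ k * P1) * (a ^ k' * P2) *
          (lf N w v α β Q U (max (t + 1) (dm ds U)) * psi w N (max t (dm ds R))) := by ring
      _ ≤ (a ^ k * P1) * (a ^ k' * P2) *
          (W ^ 3 * (psi w N (ds b u) * lf N w v α β Q (U ∪ R) (max (t + 1) (dm ds (U ∪ R))))) :=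
          mul_le_mul_of_nonneg_left hm (mul_nonneg n1 n2)
      _ ≤ (a ^ k * P1) * (a ^ k' * P2) *
          (a * (psi w N (ds b u) * lf N w v α β Q (U ∪ R) (max (t + 1) (dm ds (U ∪ R))))) := by
          refine mul_le_mul_of_nonneg_left ?_ (mul_nonneg n1 n2)
          exact mul_le_mul_of_nonneg_right h5 (by positivity)
      _ = _ := by rw [pow_succ, pow_add]; ring

/-- MERGE, the groups of the two marked places -/
theorem gd_mergeB (H : KS ds N q w v α β Ds C W) (ha1 : 1 ≤ a) {K : ℕ}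
    (hQdef : Q = W ^ (2 * K + 2) * (psi v N (ds α β) * psi v N (ds α β)))
    {t k k' : ℕ} {U R : Finset E} {x b : E}
    (hfar : ∀ v ∈ U, ∀ w ∈ R, t < ds v w) (hU0 : (U ∩ {α, β}).Nonempty)
    (hR0 : (R ∩ {α, β}).Nonempty) (hK : ds α β ≤ K * (t + 1))
    (hU : Gd ds N q w α β Ds a t k (lf N w v α β Q U (max (t + 1) (dm ds U))) U (rts α β U x))
    (hR : Gd ds N q w α β Ds a t k' (lf N w v α β Q R (max t (dm ds R))) R (rts α β R b)) :
    Gd ds N q w α β Ds a t (k + k' + 1)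
      (lf N w v α β Q (U ∪ R) (max (t + 1) (dm ds (U ∪ R)))) (U ∪ R) (rts α β (U ∪ R) x) := by
  classical
  have hC := H.hC
  have hW := H.hW
  have hN := H.hN
  have hUR : ∀ v ∈ R, v ∉ U := by
    intro v hv hvU
    have := hfar v hvU v hv
    rw [H.d0] at this
    omega
  have hdisj : Disjoint U R := Finset.disjoint_right.mpr hUR
  have hcase : (α ∈ U ∧ β ∉ U ∧ α ∉ R ∧ β ∈ R) ∨ (α ∉ U ∧ β ∈ U ∧ α ∈ R ∧ β ∉ R) := by
    obtain ⟨y, hy⟩ := hU0
    obtain ⟨z, hz⟩ := hR0
    rw [mem_inter, mem_insert, mem_singleton] at hy hz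
    obtain ⟨hy1, hy2⟩ := hy
    obtain ⟨hz1, hz2⟩ := hz
    rcases hy2 with rfl | rfl
    · rcases hz2 with rfl | rfl
      · exact absurd hy1 (hUR _ hz1)
      · exact Or.inl ⟨hy1, hUR _ hz1, fun h => hUR _ h hy1, hz1⟩
    · rcases hz2 with rfl | rfl
      · exact Or.inr ⟨hUR _ hz1, hy1, hz1, fun h => hUR _ h hy1⟩
      · exact absurd hy1 (hUR _ hz1)
  have hlU : lf N w v α β Q U (max (t + 1) (dm ds U)) = psi v N (max (t + 1) (dm ds U)) := by
    unfold lf
    rcases hcase with ⟨h1, h2, -, -⟩ | ⟨h1, h2, -, -⟩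
    · rw [if_pos h1, if_neg h2]
    · rw [if_neg h1, if_pos h2]
  have hlR : lf N w v α β Q R (max t (dm ds R)) = psi v N (max t (dm ds R)) := by
    unfold lf
    rcases hcase with ⟨-, -, h1, h2⟩ | ⟨-, -, h1, h2⟩
    · rw [if_neg h1, if_pos h2]
    · rw [if_pos h1, if_neg h2]
  have hαUR : α ∈ U ∪ R := by
    rw [mem_union]
    rcases hcase with ⟨h1, h2, h3, h4⟩ | ⟨h1, h2, h3, h4⟩
    · exact Or.inl h1
    · exact Or.inr h3
  have hβUR : β ∈ U ∪ R := by
    rw [mem_union]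
    rcases hcase with ⟨h1, h2, h3, h4⟩ | ⟨h1, h2, h3, h4⟩
    · exact Or.inr h4
    · exact Or.inl h2
  have hlUR : lf N w v α β Q (U ∪ R) (max (t + 1) (dm ds (U ∪ R))) = Q := by
    unfold lf
    rw [if_pos hαUR, if_pos hβUR]
  rw [hlUR]
  rw [hlU] at hU
  rw [hlR] at hR
  have r1 : rts α β U x = U ∩ {α, β} := by unfold rts; rw [if_pos hU0]
  have r2 : rts α β R b = R ∩ {α, β} := by unfold rts; rw [if_pos hR0]
  have r3 : rts α β (U ∪ R) x = (U ∪ R) ∩ {α, β} := by
    unfold rts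
    rw [if_pos ⟨α, by simp [mem_union.1 hαUR]⟩]
  rw [r1] at hU
  rw [r2] at hR
  rw [r3]
  obtain ⟨Ev, par, rk, g1, g2, g3, g4⟩ := hU
  obtain ⟨Ev', par', rk', g1', g2', g3', g4'⟩ := hR
  refine ⟨fun F => Ev F ∧ Ev' F, fun y => if y ∈ U then par y else par' y,
    fun y => if y ∈ U then rk y else rk' y, gd_loc g1 g1', gd_imp H hfar g2 g2', ?_, ?_⟩
  · intro y hy hyx
    have hyx' : y ∉ ({α, β} : Finset E) := fun h => hyx (mem_inter.2 ⟨hy, h⟩)
    by_cases hyU : y ∈ U
    · obtain ⟨e1, e2⟩ := g3 y hyU (fun h => hyx' (mem_inter.1 h).2)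
      simp only [if_pos hyU, if_pos e1]
      exact ⟨mem_union_left _ e1, e2⟩
    · have hyR : y ∈ R := (mem_union.mp hy).resolve_left hyU
      obtain ⟨e1, e2⟩ := g3' y hyR (fun h => hyx' (mem_inter.1 h).2)
      simp only [if_neg hyU, if_neg (hUR _ e1)]
      exact ⟨mem_union_right _ e1, e2⟩
  · rw [gd_ind H hfar g1 g1']
    have hprod : ∏ y ∈ (U ∪ R) \ ((U ∪ R) ∩ {α, β}),
        psi w N (ds y (if y ∈ U then par y else par' y)) =
        (∏ y ∈ U \ (U ∩ {α, β}), psi w N (ds y (par y))) *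
          (∏ y ∈ R \ (R ∩ {α, β}), psi w N (ds y (par' y))) := by
      rw [sdiff_inter_self_left, sdiff_inter_self_left, sdiff_inter_self_left,
        union_sdiff_distrib, Finset.prod_union
          ((hdisj.mono_left sdiff_subset).mono_right sdiff_subset)]
      congr 1
      · refine Finset.prod_congr rfl fun y hy => ?_
        rw [if_pos (mem_sdiff.1 hy).1]
      · refine Finset.prod_congr rfl fun y hy => ?_
        rw [if_neg (hUR y (mem_sdiff.1 hy).1)]
    rw [hprod]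
    obtain ⟨P1, hP1⟩ : ∃ P, P = ∏ y ∈ U \ (U ∩ {α, β}), psi w N (ds y (par y)) := ⟨_, rfl⟩
    obtain ⟨P2, hP2⟩ : ∃ P, P = ∏ y ∈ R \ (R ∩ {α, β}), psi w N (ds y (par' y)) := ⟨_, rfl⟩
    have n1 := H.prod_nn ha1 k (U \ (U ∩ {α, β})) fun y => ds y (par y)
    have n2 := H.prod_nn ha1 k' (R \ (R ∩ {α, β})) fun y => ds y (par' y)
    rw [← hP1] at g4 n1 ⊢
    rw [← hP2] at g4' n2 ⊢
    -- the comparison
    have hKp : K < 8 ^ K := Nat.lt_pow_self (by norm_num)
    have i1 : psi v N (t + 1) ≤ W ^ K * psi v N (ds α β) := by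
      apply H.hv.piter hW hN K (t + 1) (ds α β) (by omega)
      exact hK.trans (Nat.mul_le_mul_right _ hKp.le)
    have i2 : psi v N (max (t + 1) (dm ds U)) ≤ W ^ (K + 1) * psi v N (ds α β) := by
      refine ((H.hv.panti (le_max_left _ _)).trans i1).trans ?_
      apply mul_le_mul_of_nonneg_right _ (H.hv.ppos _).le
      exact pow_le_pow_right₀ hW (by omega)
    have i3 : psi v N (max t (dm ds R)) ≤ W ^ (K + 1) * psi v N (ds α β) := by
      have e2 : psi v N (max t (dm ds R)) ≤ psi v N t := H.hv.panti (le_max_left _ _)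
      have e3 : psi v N t ≤ W * psi v N (t + 1) := H.hv.pdbl hN (by omega) (by omega)
      refine (e2.trans e3).trans ((mul_le_mul_of_nonneg_left i1 (by linarith)).trans (le_of_eq ?_))
      rw [pow_succ]; ring
    have hm : psi v N (max (t + 1) (dm ds U)) * psi v N (max t (dm ds R)) ≤ Q := by
      rw [hQdef]
      have pd := H.hv.ppos (N := N) (ds α β)
      calc psi v N (max (t + 1) (dm ds U)) * psi v N (max t (dm ds R)) ≤
          (W ^ (K + 1) * psi v N (ds α β)) * (W ^ (K + 1) * psi v N (ds α β)) :=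
            mul_le_mul i2 i3 (H.hv.ppos _).le (by positivity)
        _ = _ := by ring
    have hQ0 : 0 ≤ Q := by
      rw [hQdef]
      have pd := H.hv.ppos (N := N) (ds α β)
      positivity
    calc Pr (fun _ => q) Finset.univ Ev * Pr (fun _ => q) Finset.univ Ev'
        ≤ (a ^ k * P1 * psi v N (max (t + 1) (dm ds U))) *
          (a ^ k' * P2 * psi v N (max t (dm ds R))) :=
          mul_le_mul g4 g4' (Pr_nonneg H.ok _ _) (mul_nonneg n1 (H.hv.ppos _).le)
      _ = (a ^ k * P1) * (a ^ k' * P2) *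
          (psi v N (max (t + 1) (dm ds U)) * psi v N (max t (dm ds R))) := by ring
      _ ≤ (a ^ k * P1) * (a ^ k' * P2) * Q :=
          mul_le_mul_of_nonneg_left hm (mul_nonneg n1 n2)
      _ ≤ (a ^ k * P1) * (a ^ k' * P2) * (a * Q) := by
          refine mul_le_mul_of_nonneg_left ?_ (mul_nonneg n1 n2)
          nlinarith
      _ = _ := by rw [pow_succ, pow_add]; ring

/-- OUT -/
theorem gd_out (H : KS ds N q w v α β Ds C W) (hQ : 0 < Q) (ha1 : 1 ≤ a) (ha : C * W ^ 3 ≤ a)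
    {t t' k : ℕ} {S R : Finset E} {x : E} (htt : t + 1 ≤ t') (ht' : t' ≤ N) (hx : x ∈ S)
    (hG : Gd ds N q w α β Ds a t k (lf N w v α β Q S (max (t + 1) (dm ds S))) S R) :
    Gd ds N q w α β Ds a t' (k + 1) (lf N w v α β Q S (max t' (dm ds S))) S R := by
  classical
  have hC := H.hC
  have hW := H.hW
  have hW2 : W ^ 2 ≤ W ^ 3 := pow_le_pow_right₀ hW (by norm_num)
  have hWW : W ≤ W ^ 2 := by nlinarith
  have hCW2 : C * W ^ 2 ≤ a := (mul_le_mul_of_nonneg_left hW2 (by linarith)).trans ha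
  have hWa : W ≤ a := by nlinarith
  have hhann := fun h => hann (Q := Q) H hx (h : ¬ (α ∈ S ∧ β ∈ S))
  have hlfs : ∀ s s' : ℕ, s ≤ s' → s' ≤ 8 * max 1 s → lf N w v α β Q S s ≤
      W * lf N w v α β Q S s' := fun s s' h1 h2 => lf_step H hQ h1 h2
  obtain ⟨Ev, par, rk, g1, g2, g3, g4⟩ := hG
  obtain ⟨s, hs⟩ : ∃ s, s = max (t + 1) (dm ds S) := ⟨_, rfl⟩
  obtain ⟨r, hr⟩ : ∃ r, r = dm ds S + t / 2 + 1 := ⟨_, rfl⟩
  obtain ⟨D, hD⟩ : ∃ D, D = t' / 2 := ⟨_, rfl⟩
  rw [← hs] at g4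
  have hloc : ∀ F F' : Finset E, (∀ e, (∃ v ∈ S, ds e v ≤ t' / 2) → (e ∈ F ↔ e ∈ F')) →
      (Ev F ↔ Ev F') := by
    intro F F' hFF
    refine g1 F F' fun e he => hFF e ?_
    obtain ⟨v, hv, h⟩ := he
    exact ⟨v, hv, by omega⟩
  have hEv : ∀ S' : Finset E, S ⊆ S' → α ∈ S' → β ∈ S' → (∀ v ∈ S, ∀ w ∈ S' \ S, t' < ds v w) →
      ∀ F : Finset E, Ds S' F → Ev F := by
    intro S' hSS' hα hβ hfar F hF
    refine g2 S' hSS' hα hβ (fun v hv y hy => ?_) F hF
    have := hfar v hv y hy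
    omega
  by_cases hboth : α ∈ S ∧ β ∈ S
  · -- nothing to gain
    refine ⟨Ev, par, rk, hloc, hEv, g3, ?_⟩
    have e1 : lf N w v α β Q S s = Q := by unfold lf; rw [if_pos hboth.1, if_pos hboth.2]
    have e2 : lf N w v α β Q S (max t' (dm ds S)) = Q := by
      unfold lf; rw [if_pos hboth.1, if_pos hboth.2]
    rw [e1] at g4
    rw [e2]
    have n1 := H.prod_nn ha1 k (S \ R) fun y => ds y (par y)
    calc Pr (fun _ => q) Finset.univ Ev ≤ a ^ k * (∏ y ∈ S \ R, psi w N (ds y (par y))) * Q := g4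
      _ ≤ a ^ k * (∏ y ∈ S \ R, psi w N (ds y (par y))) * (a * Q) := by
          refine mul_le_mul_of_nonneg_left ?_ n1
          nlinarith
      _ = _ := by rw [pow_succ]; ring
  rcases le_or_gt r D with hrD | hrD
  · obtain ⟨u, hu, hlf, hCh⟩ := hhann hboth
    obtain ⟨Ch, c1, c2, c3⟩ := hCh t' r D (by omega) (by omega) hrD (by omega) (by omega)
    refine ⟨fun F => Ev F ∧ Ch F, par, rk, ?_, ?_, g3, ?_⟩
    · intro F F' hFF
      exact and_congr (hloc F F' hFF) (c1 F F' fun e _ he' => hFF e ⟨x, hx, by omega⟩)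
    · intro S' hSS' hα hβ hfar F hF
      exact ⟨hEv S' hSS' hα hβ hfar F hF, c2 S' F hSS' hα hβ hfar hF⟩
    · have hind : Pr (fun _ => q) Finset.univ (fun F => Ev F ∧ Ch F) =
          Pr (fun _ => q) Finset.univ Ev * Pr (fun _ => q) Finset.univ Ch := by
        refine Pr_indep (S := univ.filter fun e => ∃ v ∈ S, ds e v ≤ t / 2)
          (T := univ.filter fun e => r ≤ ds e x ∧ ds e x ≤ D) (subset_univ _) (subset_univ _)
          ?_ ?_ ?_
        · rw [Finset.disjoint_left]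
          intro e he1 he2
          obtain ⟨v, hv, h1⟩ := (mem_filter.mp he1).2
          have h2 := (mem_filter.mp he2).2
          have h3 := H.dt e v x
          have h4 := ds_le_dm' (ds := ds) hv hx
          omega
        · intro F _
          refine g1 _ _ fun e he => ?_
          rw [mem_inter, mem_filter]
          exact ⟨fun h => ⟨h, mem_univ _, he⟩, fun h => h.1⟩
        · intro F _
          refine c1 _ _ fun e he he' => ?_
          rw [mem_inter, mem_filter]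
          exact ⟨fun h => ⟨h, mem_univ _, he, he'⟩, fun h => h.1⟩
      rw [hind]
      have hmax : max t' (dm ds S) = t' := by omega
      rw [hmax, hlf, Wgt.pmid (by omega) ht']
      rw [hlf, Wgt.pmid (s := s) (by omega) (by omega)] at g4
      have zr := hu.pos r (by omega)
      have zs := hu.pos s (by omega)
      have zD := hu.pos D (by omega)
      have zt := hu.pos t' (by omega)
      have u1 : u s ≤ W * u r := by
        rcases le_total s r with h | h
        · exact hu.dbl s r (by omega) h (by omega)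
        · refine (hu.anti r s (by omega) h).trans ?_
          nlinarith
      have u2 : u D ≤ W * u t' := hu.dbl D t' (by omega) (by omega) (by omega)
      have u3 : u s * (C * (u D / u r)) ≤ a * u t' := by
        calc u s * (C * (u D / u r)) ≤ (W * u r) * (C * (u D / u r)) :=
              mul_le_mul_of_nonneg_right u1 (by positivity)
          _ = C * W * u D := by field_simp
          _ ≤ C * W * (W * u t') := mul_le_mul_of_nonneg_left u2 (by positivity)
          _ = (C * W ^ 2) * u t' := by ring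
          _ ≤ a * u t' := mul_le_mul_of_nonneg_right hCW2 zt.le
      have hprod := H.prod_nn ha1 k (S \ R) fun y => ds y (par y)
      calc Pr (fun _ => q) Finset.univ Ev * Pr (fun _ => q) Finset.univ Ch
          ≤ (a ^ k * (∏ y ∈ S \ R, psi w N (ds y (par y))) * u s) * (C * (u D / u r)) :=
            mul_le_mul g4 c3 (Pr_nonneg H.ok _ _) (mul_nonneg hprod zs.le)
        _ = a ^ k * (∏ y ∈ S \ R, psi w N (ds y (par y))) * (u s * (C * (u D / u r))) := by
            ring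
        _ ≤ a ^ k * (∏ y ∈ S \ R, psi w N (ds y (par y))) * (a * u t') :=
            mul_le_mul_of_nonneg_left u3 hprod
        _ = _ := by rw [pow_succ]; ring
  · refine gd_step H ha1 ⟨Ev, par, rk, hloc, hEv, g3, g4⟩ ?_
    refine (hlfs s (max t' (dm ds S)) (by omega) (by omega)).trans ?_
    exact mul_le_mul_of_nonneg_right hWa (lf_pos H hQ _ _).le

end

end Pool.Agent.H30.PT
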