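import Pool.Agent.H30.PT.Key2

/-! Abstract induction over the scales, third part. -/

set_option autoImplicit false
set_option linter.unusedSectionVars false

namespace Pool.Agent.H30.PT

open H974 Finset Pool.Agent.NH39.W

section
variable {E : Type} [DecidableEq E] [Fintype E] {ds : E → E → ℕ} {N : ℕ} {q : ℝ}
  {w v : ℕ → ℝ} {α β : E} {Ds : Finset E → Finset E → Prop} {C W a Q : ℝ}

/-! ### components -/

theorem kcmp_conn2 (hdc : ∀ a b, ds a b = ds b a) {t : ℕ} {S : Finset E} {y : E} (hy : y ∈ S) :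
    conn ds t (kcmp ds t S y) := by
  intro A hA hne hne'
  by_contra hcon
  push Not at hcon
  by_cases hyA : y ∈ A
  · obtain ⟨z, hz⟩ := hne'
    rw [Finset.mem_sdiff] at hz
    refine hz.2 (kcmp_ind hy (P := fun z => z ∈ A) hyA ?_ z hz.1)
    intro u hu v hv huA huv
    by_contra hvA
    have := hcon u huA v (Finset.mem_sdiff.2 ⟨hv, hvA⟩)
    omega
  · obtain ⟨z, hz⟩ := hne
    refine kcmp_ind hy (P := fun z => z ∉ A) hyA ?_ z (hA hz) hz
    intro u hu v hv huA huv hvA
    have := hcon v hvA u (Finset.mem_sdiff.2 ⟨hu, huA⟩)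
    rw [hdc] at this
    omega

/-- a `0`-connected set lies at one position -/
theorem conn_zero2 (H : KS ds N q w v α β Ds C W) {S : Finset E} {x : E} (hx : x ∈ S)
    (hc : conn ds 0 S) : ∀ y ∈ S, ds y x = 0 := by
  by_contra hcon
  push Not at hcon
  obtain ⟨z, hz, hzx⟩ := hcon
  obtain ⟨u, hu, v, hv, huv⟩ := hc (S.filter (fun y => ds y x = 0)) (Finset.filter_subset _ _)
    ⟨x, Finset.mem_filter.2 ⟨hx, H.d0 x⟩⟩
    ⟨z, Finset.mem_sdiff.2 ⟨hz, fun h => hzx (Finset.mem_filter.1 h).2⟩⟩
  rw [Finset.mem_filter] at hu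
  rw [Finset.mem_sdiff, Finset.mem_filter] at hv
  refine hv.2 ⟨hv.1, ?_⟩
  have h1 := H.dt v u x
  rw [H.dc v u] at h1
  omega

/-- distances in a connected set -/
theorem conn_dist (H : KS ds N q w v α β Ds C W) {S : Finset E} {t : ℕ} (hc : conn ds t S)
    {x y : E} (hx : x ∈ S) (hy : y ∈ S) : ds x y ≤ S.card * t := by
  have key : ∀ j : ℕ, j ≤ S.card → j ≤ (S.filter (fun z => ds x z ≤ j * t)).card := by
    intro j
    induction j with
    | zero => intro _; exact Nat.zero_le _
    | succ j ih =>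
      intro hj
      have h1 := ih (by omega)
      obtain ⟨A, hA⟩ : ∃ A, A = S.filter (fun z => ds x z ≤ j * t) := ⟨_, rfl⟩
      rw [← hA] at h1
      have hsub : A ⊆ S.filter (fun z => ds x z ≤ (j + 1) * t) := by
        intro z hz
        rw [hA, mem_filter] at hz
        rw [mem_filter]
        refine ⟨hz.1, hz.2.trans (Nat.mul_le_mul_right _ (by omega))⟩
      by_cases hAS : A = S
      · have := card_le_card hsub
        rw [hAS] at this
        omega
      · have hAsub : A ⊆ S := by rw [hA]; exact filter_subset _ _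
        have hxA : x ∈ A := by
          rw [hA, mem_filter, H.d0]
          exact ⟨hx, Nat.zero_le _⟩
        have hne : (S \ A).Nonempty := by
          rw [Finset.sdiff_nonempty]
          intro h
          exact hAS (Finset.Subset.antisymm hAsub h)
        obtain ⟨a1, ha1, b1, hb1, hab⟩ := hc A hAsub ⟨x, hxA⟩ hne
        have hb2 : b1 ∈ S.filter (fun z => ds x z ≤ (j + 1) * t) := by
          rw [mem_filter]
          refine ⟨(mem_sdiff.1 hb1).1, ?_⟩
          have h2 := H.dt x a1 b1
          rw [hA, mem_filter] at ha1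
          have h3 := ha1.2
          rw [Nat.succ_mul]
          omega
        have h4 : A.card < (S.filter (fun z => ds x z ≤ (j + 1) * t)).card := by
          apply card_lt_card
          rw [Finset.ssubset_iff_of_subset hsub]
          exact ⟨b1, hb2, (mem_sdiff.1 hb1).2⟩
        omega
  have h1 := key S.card le_rfl
  have h2 : S.filter (fun z => ds x z ≤ S.card * t) = S :=
    Finset.eq_of_subset_of_card_le (filter_subset _ _) h1
  rw [← h2, mem_filter] at hy
  exact hy.2

/-- the growth of the component of `x` by merging the other components -/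
theorem gd_grow (H : KS ds N q w v α β Ds C W) (ha1 : 1 ≤ a) (ha : C * W ^ 3 ≤ a) {K : ℕ}
    (hQdef : Q = W ^ (2 * K + 2) * (psi v N (ds α β) * psi v N (ds α β))) (hQ : 0 < Q) {t : ℕ}
    {S : Finset E} {x : E} (hc : conn ds (t + 1) S) (hSK : S.card ≤ K)
    (hcmp : ∀ b ∈ S, Gd ds N q w α β Ds a t (4 * (kcmp ds t S b).card - 3)
      (lf N w v α β Q (kcmp ds t S b) (max t (dm ds (kcmp ds t S b)))) (kcmp ds t S b)
      (rts α β (kcmp ds t S b) b)) :
    ∀ m : ℕ, ∀ U : Finset E, (S \ U).card = m → U ⊆ S → U ≠ S → x ∈ U →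
      ((S ∩ {α, β}).Nonempty → (U ∩ {α, β}).Nonempty) →
      (∀ y ∈ U, ∀ z ∈ S, z ∉ U → t < ds y z) →
      Gd ds N q w α β Ds a t (4 * U.card - 2) (lf N w v α β Q U (max (t + 1) (dm ds U))) U
        (rts α β U x) →
      Gd ds N q w α β Ds a t (4 * S.card - 4) (lf N w v α β Q S (max (t + 1) (dm ds S))) S
        (rts α β S x) := by
  intro m
  induction m using Nat.strong_induction_on with
  | _ m ihm =>
    intro U hUm hUS hUne hxU hUsp hcl hG
    have hne : (S \ U).Nonempty := by
      rw [Finset.sdiff_nonempty]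
      intro h
      exact hUne (Finset.Subset.antisymm hUS h)
    obtain ⟨u, hu, b, hb', hub⟩ := hc U hUS ⟨x, hxU⟩ hne
    obtain ⟨hbS, hbU⟩ := Finset.mem_sdiff.1 hb'
    have hRS := kcmp_sub (ds := ds) t S b
    have hbR : b ∈ kcmp ds t S b := self_kcmp hbS
    have hRU : ∀ z ∈ kcmp ds t S b, z ∉ U := by
      refine kcmp_ind hbS hbU ?_
      intro v hv w hw hvU hvw hwU
      have := hcl w hwU v (hRS hv) hvU
      rw [H.dc] at this
      omega
    have hdisj : Disjoint U (kcmp ds t S b) := by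
      rw [Finset.disjoint_right]
      exact hRU
    have hfar : ∀ v ∈ U, ∀ w ∈ kcmp ds t S b, t < ds v w := fun v hv w hw =>
      hcl v hv w (hRS hw) (hRU w hw)
    have hM : Gd ds N q w α β Ds a t (4 * U.card - 2 + (4 * (kcmp ds t S b).card - 3) + 1)
        (lf N w v α β Q (U ∪ kcmp ds t S b) (max (t + 1) (dm ds (U ∪ kcmp ds t S b))))
        (U ∪ kcmp ds t S b) (rts α β (U ∪ kcmp ds t S b) x) := by
      by_cases hR0 : kcmp ds t S b ∩ {α, β} = ∅
      · exact gd_mergeA H hQ ha1 ha hxU hu hbR (by rw [H.dc]; exact hub) hfar hR0 hG (hcmp b hbS)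
      · have hR0' : (kcmp ds t S b ∩ {α, β}).Nonempty := Finset.nonempty_iff_ne_empty.2 hR0
        have hU0 : (U ∩ {α, β}).Nonempty := by
          apply hUsp
          obtain ⟨z, hz⟩ := hR0'
          exact ⟨z, mem_inter.2 ⟨hRS (mem_inter.1 hz).1, (mem_inter.1 hz).2⟩⟩
        have hαβ : ds α β ≤ K * (t + 1) := by
          have hSab : α ∈ S ∧ β ∈ S := by
            obtain ⟨y, hy⟩ := hU0
            obtain ⟨z, hz⟩ := hR0'
            rw [mem_inter, mem_insert, mem_singleton] at hy hz
            obtain ⟨hy1, hy2⟩ := hy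
            obtain ⟨hz1, hz2⟩ := hz
            rcases hy2 with rfl | rfl
            · rcases hz2 with rfl | rfl
              · exact absurd hy1 (hRU _ hz1)
              · exact ⟨hUS hy1, hRS hz1⟩
            · rcases hz2 with rfl | rfl
              · exact ⟨hRS hz1, hUS hy1⟩
              · exact absurd hy1 (hRU _ hz1)
          refine (conn_dist H hc hSab.1 hSab.2).trans ?_
          exact Nat.mul_le_mul_right _ hSK
        exact gd_mergeB H ha1 hQdef hfar hU0 hR0' hαβ hG (hcmp b hbS)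
    have hcard : (U ∪ kcmp ds t S b).card = U.card + (kcmp ds t S b).card :=
      Finset.card_union_of_disjoint hdisj
    have hc1 : 1 ≤ U.card := Finset.card_pos.2 ⟨x, hxU⟩
    have hc2 : 1 ≤ (kcmp ds t S b).card := Finset.card_pos.2 ⟨b, hbR⟩
    have e : 4 * U.card - 2 + (4 * (kcmp ds t S b).card - 3) + 1 =
        4 * (U ∪ kcmp ds t S b).card - 4 := by omega
    rw [e] at hM
    have hU'S : U ∪ kcmp ds t S b ⊆ S := Finset.union_subset hUS hRS
    by_cases hfin : U ∪ kcmp ds t S b = S
    · rw [hfin] at hM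
      exact hM
    · refine ihm (S \ (U ∪ kcmp ds t S b)).card ?_ (U ∪ kcmp ds t S b) rfl hU'S hfin
        (Finset.mem_union_left _ hxU) ?_ ?_
        (gd_mono H hM le_rfl (lf_pos H hQ _ _).le (by omega) ha1)
      · rw [← hUm]
        apply Finset.card_lt_card
        rw [Finset.ssubset_iff_of_subset
          (Finset.sdiff_subset_sdiff (Finset.Subset.refl S) Finset.subset_union_left)]
        exact ⟨b, hb', fun h => (Finset.mem_sdiff.1 h).2 (Finset.mem_union_right _ hbR)⟩
      · intro h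
        obtain ⟨z, hz⟩ := hUsp h
        exact ⟨z, mem_inter.2 ⟨mem_union_left _ (mem_inter.1 hz).1, (mem_inter.1 hz).2⟩⟩
      · intro y hy z hz hzn
        rw [Finset.mem_union, not_or] at hzn
        rcases Finset.mem_union.1 hy with hy | hy
        · exact hcl y hy z hz hzn.1
        · exact kcmp_far hy hz hzn.2

/-- the roots do not depend on the base point when there is a marked place -/
theorem rts_change {S : Finset E} {x y : E} (h : (S ∩ {α, β}).Nonempty) :
    rts α β S x = rts α β S y := by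
  unfold rts
  rw [if_pos h, if_pos h]

/-- the whole set from its components -/
theorem gd_whole (H : KS ds N q w v α β Ds C W) (ha1 : 1 ≤ a) (ha : C * W ^ 3 ≤ a) {K : ℕ}
    (hQdef : Q = W ^ (2 * K + 2) * (psi v N (ds α β) * psi v N (ds α β))) (hQ : 0 < Q) {t : ℕ}
    {S : Finset E} {x : E} (hx : x ∈ S) (hc : conn ds (t + 1) S) (hSK : S.card ≤ K)
    (hall : ∀ y ∈ S, kcmp ds t S y ≠ S)
    (hcmp : ∀ b ∈ S, Gd ds N q w α β Ds a t (4 * (kcmp ds t S b).card - 3)
      (lf N w v α β Q (kcmp ds t S b) (max t (dm ds (kcmp ds t S b)))) (kcmp ds t S b)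
      (rts α β (kcmp ds t S b) b)) :
    Gd ds N q w α β Ds a t (4 * S.card - 4) (lf N w v α β Q S (max (t + 1) (dm ds S))) S
        (rts α β S x) := by
  -- start at a marked place if there is one
  have main : ∀ y ∈ S, ((S ∩ {α, β}).Nonempty → y ∈ ({α, β} : Finset E)) →
      Gd ds N q w α β Ds a t (4 * S.card - 4) (lf N w v α β Q S (max (t + 1) (dm ds S))) S
        (rts α β S y) := by
    intro y hy hsp
    have h1 := gd_start H hQ ha1 ha (hcmp y hy)
    have hc1 : 1 ≤ (kcmp ds t S y).card := Finset.card_pos.2 ⟨y, self_kcmp hy⟩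
    have e1 : 4 * (kcmp ds t S y).card - 3 + 1 = 4 * (kcmp ds t S y).card - 2 := by omega
    rw [e1] at h1
    exact gd_grow H ha1 ha hQdef hQ hc hSK hcmp _ (kcmp ds t S y) rfl (kcmp_sub t S y)
      (hall y hy) (self_kcmp hy) (fun h => ⟨y, mem_inter.2 ⟨self_kcmp hy, hsp h⟩⟩)
      (fun y' hy' z hz hzn => kcmp_far hy' hz hzn) h1
  by_cases hsp : (S ∩ {α, β}).Nonempty
  · obtain ⟨y, hy⟩ := hsp
    rw [mem_inter] at hy
    rw [rts_change (y := y) ⟨y, mem_inter.2 hy⟩]
    exact main y hy.1 (fun _ => hy.2)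
  · exact main x hx (fun h => absurd h hsp)

/-- KEY' -/
theorem gd_key (H : KS ds N q w v α β Ds C W) (ha1 : 1 ≤ a) (ha : C * W ^ 3 ≤ a) {K : ℕ}
    (hQdef : Q = W ^ (2 * K + 2) * (psi v N (ds α β) * psi v N (ds α β))) (hQ : 0 < Q) :
    ∀ (t t' : ℕ) (S : Finset E) (x : E), t ≤ t' → t' ≤ N → x ∈ S → conn ds t S → S.card ≤ K →
      Gd ds N q w α β Ds a t' (4 * S.card - 3) (lf N w v α β Q S (max t' (dm ds S))) S
        (rts α β S x) := by
  intro t
  induction t with
  | zero =>
    intro t' S x _ ht' hx hc _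
    have h0 := conn_zero2 H hx hc
    have hcard : 1 ≤ S.card := Finset.card_pos.2 ⟨x, hx⟩
    exact gd_mono H (gd_base (Q := Q) H ha ht' hx h0) le_rfl (lf_pos H hQ _ _).le (by omega) ha1
  | succ t ih =>
    intro t' S x htt' ht' hx hc hSK
    by_cases hall : ∃ y ∈ S, kcmp ds t S y = S
    · obtain ⟨y, hy, hyS⟩ := hall
      have hct : conn ds t S := by
        rw [← hyS]
        exact kcmp_conn2 H.dc hy
      exact ih t' S x (by omega) ht' hx hct hSK
    · push Not at hall
      have hcmp : ∀ b ∈ S, Gd ds N q w α β Ds a t (4 * (kcmp ds t S b).card - 3)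
          (lf N w v α β Q (kcmp ds t S b) (max t (dm ds (kcmp ds t S b)))) (kcmp ds t S b)
          (rts α β (kcmp ds t S b) b) := by
        intro b hb'
        exact ih t (kcmp ds t S b) b le_rfl (by omega) (self_kcmp hb') (kcmp_conn2 H.dc hb')
          ((card_le_card (kcmp_sub t S b)).trans hSK)
      have h2 := gd_whole H ha1 ha hQdef hQ hx hc hSK hall hcmp
      have h3 := gd_out H hQ ha1 ha htt' ht' hx h2
      have hc3 : 1 ≤ S.card := Finset.card_pos.2 ⟨x, hx⟩
      exact gd_mono H h3 le_rfl (lf_pos H hQ _ _).le (by omega) ha1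

/-- **KEY**: the probability that all the elements of `S` matter together for a two-point
function. -/
theorem key (H : KS ds N q w v α β Ds C W) (hds : ∀ a b, ds a b ≤ N) {S : Finset E}
    (hα : α ∈ S) (hβ : β ∈ S) :
    ∃ (par : E → E) (rk : E → ℕ),
      (∀ y ∈ S, y ∉ ({α, β} : Finset E) → par y ∈ S ∧ rk (par y) < rk y) ∧
      Pr (fun _ => q) Finset.univ (Ds S) ≤
        (C * W ^ 3) ^ (4 * S.card) * (∏ y ∈ S \ {α, β}, psi w N (ds y (par y))) *
          (W ^ (2 * S.card + 2) * (psi v N (ds α β) * psi v N (ds α β))) := by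
  have hC := H.hC
  have hW := H.hW
  have ha1 : 1 ≤ C * W ^ 3 := by nlinarith [one_le_pow₀ hW (n := 3)]
  obtain ⟨Q, hQdef⟩ : ∃ Q, Q = W ^ (2 * S.card + 2) * (psi v N (ds α β) * psi v N (ds α β)) :=
    ⟨_, rfl⟩
  have hpd := H.hv.ppos (N := N) (ds α β)
  have hQ : 0 < Q := by rw [hQdef]; positivity
  have hc : conn ds N S := by
    rintro A _ ⟨a, ha⟩ ⟨b, hb⟩
    exact ⟨a, ha, b, hb, hds a b⟩
  have h := gd_key H ha1 le_rfl hQdef hQ N N S α le_rfl le_rfl hα hc le_rfl
  have hne : (S ∩ {α, β}).Nonempty := ⟨α, by simp [hα]⟩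
  have e1 : rts α β S α = {α, β} := by
    unfold rts
    rw [if_pos hne]
    ext y
    rw [mem_inter, mem_insert, mem_singleton]
    constructor
    · exact fun h => h.2
    · rintro (rfl | rfl)
      · exact ⟨hα, Or.inl rfl⟩
      · exact ⟨hβ, Or.inr rfl⟩
  have e2 : lf N w v α β Q S (max N (dm ds S)) = Q := by
    unfold lf
    rw [if_pos hα, if_pos hβ]
  rw [e1, e2] at h
  obtain ⟨Ev, par, rk, -, g2, g3, g4⟩ := h
  refine ⟨par, rk, g3, ?_⟩
  rw [← hQdef]
  refine (Pr_mono H.ok (B := Ev) fun F _ hF => ?_).trans (g4.trans ?_)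
  · refine g2 S (Finset.Subset.refl S) hα hβ (fun v _ y hy => ?_) F hF
    rw [Finset.sdiff_self] at hy
    exact absurd hy (Finset.notMem_empty y)
  · refine mul_le_mul_of_nonneg_right ?_ hQ.le
    refine mul_le_mul_of_nonneg_right ?_ (Finset.prod_nonneg fun _ _ => (H.hw.ppos _).le)
    exact pow_le_pow_right₀ ha1 (by omega)

end

end Pool.Agent.H30.PT
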