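import Pool.Agent.H30.PT.Gen

/-! The derivatives of the square of the percolation probability and of the mean cluster size. -/

set_option autoImplicit false

namespace Pool.Agent.H30.PT

open H974 Finset Pool.Agent.NH39 Pool.Agent.NH39.GC Pool.Agent.NH39.W Pool.Agent.H160R2.CV
open MeasureTheory Filter Topology
open scoped ContDiff Nat

/-- The percolation probability as a function of a real parameter. -/
noncomputable def thR (p : ℝ) : ℝ := theta (Set.projIcc 0 1 zero_le_one p)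

/-- The mean cluster size as a function of a real parameter. -/
noncomputable def sgR (p : ℝ) : ℝ := (sigma (Set.projIcc 0 1 zero_le_one p)).toReal

theorem thR_eq {p : ℝ} (p0 : 0 ≤ p) (p1 : p ≤ 1) : thR p = theta ⟨p, p0, p1⟩ := by
  unfold thR
  rw [Set.projIcc_of_mem zero_le_one (⟨p0, p1⟩ : p ∈ Set.Icc (0:ℝ) 1)]

theorem sgR_eq {p : ℝ} (p0 : 0 ≤ p) (p1 : p ≤ 1) : sgR p = (sigma ⟨p, p0, p1⟩).toReal := by
  unfold sgR
  rw [Set.projIcc_of_mem zero_le_one (⟨p0, p1⟩ : p ∈ Set.Icc (0:ℝ) 1)]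

/-! ### scales -/

theorem nv_ax (m : ℕ) : nv (((m:ℕ) : ℤ), (0:ℤ)) = m := by
  unfold nv
  simp

theorem scale_tendsto (C : ℝ) : Tendsto (fun m : ℕ => C * (1 / ((m : ℝ) + 1))) atTop (𝓝 0) := by
  have h := (tendsto_one_div_add_atTop_nhds_zero_nat (𝕜 := ℝ)).const_mul C
  rwa [mul_zero] at h

theorem pow_scale (m : ℕ) : (((m + 1 : ℕ) : ℝ) / (((m + 1) ^ 4 : ℕ) : ℝ)) ^ (5/4 : ℝ) ≤
    (1 / ((m:ℝ) + 1)) ^ 3 := by
  have hm : (0:ℝ) < (m:ℝ) + 1 := by positivity
  have e1 : ((m + 1 : ℕ) : ℝ) / (((m + 1) ^ 4 : ℕ) : ℝ) = (1 / ((m:ℝ) + 1)) ^ 3 := by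
    push_cast
    field_simp
  rw [e1]
  have h0 : 0 < 1 / ((m:ℝ) + 1) := by positivity
  have h1 : 1 / ((m:ℝ) + 1) ≤ 1 := by
    rw [div_le_one hm]
    have : (0:ℝ) ≤ m := Nat.cast_nonneg _
    linarith
  calc ((1 / ((m:ℝ) + 1)) ^ 3) ^ (5/4 : ℝ) ≤ ((1 / ((m:ℝ) + 1)) ^ 3) ^ (1 : ℝ) :=
        Real.rpow_le_rpow_of_exponent_ge (by positivity) (pow_le_one₀ h0.le h1) (by norm_num)
    _ = _ := Real.rpow_one _

/-! ### the percolation probability -/

theorem tau_ax {p : unitInterval} (hp : (1/2 : ℝ) < p) :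
    Tendsto (fun m : ℕ => H31K.tau p (((m + 1 : ℕ) : ℤ), 0)) atTop (𝓝 (theta p ^ 2)) := by
  obtain ⟨c, C, hc, hC, h⟩ := Q291.TT.up_tau
  have h1 : Tendsto (fun m : ℕ => C * ((((m + 1 : ℕ) : ℝ)) + 1) ^ (-(5/24) : ℝ)) atTop (𝓝 0) := by
    have a1 : Tendsto (fun m : ℕ => (((m + 1 : ℕ) : ℝ)) + 1) atTop atTop :=
      tendsto_atTop_add_const_right _ _ (tendsto_natCast_atTop_atTop.comp (tendsto_add_atTop_nat 1))
    have a2 := (tendsto_rpow_neg_atTop (show (0:ℝ) < 5/24 by norm_num)).comp a1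
    have a3 := a2.const_mul C
    rw [mul_zero] at a3
    exact a3
  rw [← tendsto_sub_nhds_zero_iff]
  apply squeeze_zero _ _ h1
  · intro m
    have a1 := Q291.TT.theta_sq_le p hp.le (((m + 1 : ℕ) : ℤ), 0)
    have a2 := Q291.TT.tau_split p (((m + 1 : ℕ) : ℤ), 0)
    have a3 : 0 ≤ Q291.TT.tauf p (((m + 1 : ℕ) : ℤ), 0) := measureReal_nonneg
    linarith
  · intro m
    have a1 := h p hp.le (((m + 1 : ℕ) : ℤ), 0)
    rw [nv_ax] at a1
    refine a1.trans ?_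
    have a2 : Real.exp (-(c * (((m + 1 : ℕ) : ℝ) * ((p:ℝ) - 1/2) ^ (4/3 : ℝ)))) ≤ 1 := by
      apply Real.exp_le_one_iff.2
      have : 0 < (p:ℝ) - 1/2 := by linarith
      have : 0 ≤ c * (((m + 1 : ℕ) : ℝ) * ((p:ℝ) - 1/2) ^ (4/3 : ℝ)) := by positivity
      linarith
    calc C * ((((m + 1 : ℕ) : ℝ)) + 1) ^ (-(5/24) : ℝ) *
          Real.exp (-(c * (((m + 1 : ℕ) : ℝ) * ((p:ℝ) - 1/2) ^ (4/3 : ℝ)))) ≤
          C * ((((m + 1 : ℕ) : ℝ)) + 1) ^ (-(5/24) : ℝ) * 1 :=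
          mul_le_mul_of_nonneg_left a2 (by positivity)
      _ = _ := mul_one _

/-- **The derivatives of the square of the percolation probability.** -/
theorem th_der : ∃ A : ℝ, 1 ≤ A ∧ ∀ p : ℝ, 1/2 < p → p < 1 →
    ContDiffAt ℝ ∞ (fun y => thR y ^ 2) p ∧ ∀ k, |iteratedDeriv k (fun y => thR y ^ 2) p| ≤
      A ^ (k + 1) * k ! * (|p - 1/2|⁻¹) ^ k * (|p - 1/2| ^ (5/36 : ℝ)) ^ 2 := by
  obtain ⟨A, hA, h⟩ := T2_bd
  obtain ⟨C, hC, hinf⟩ := tor_inf
  refine ⟨A, hA, ?_⟩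
  intro p hp p1
  refine gen (a := 1/2) (b := 1)
    (f := fun m => T2 (2 * (m + 1) ^ 4 + 1) (0, 0)
      (rv (2 * (m + 1) ^ 4 + 1) 0 0 (((m + 1 : ℕ) : ℤ), 0)))
    (B := fun m y => (vP y (m + 1)) ^ 2) (B' := fun y => (|y - 1/2| ^ (5/36 : ℝ)) ^ 2) hA
    (fun y hy => hy.1.ne')
    (fun m => T2_smooth _ _ _) ?_ ?_ ?_ ?_ ⟨hp, p1⟩
  · intro y hy
    have y0 : 0 ≤ y := by linarith [hy.1]
    have y1 : y ≤ 1 := hy.2.le
    have l1 := tau_ax (p := ⟨y, y0, y1⟩) hy.1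
    have e1 : (fun y => thR y ^ 2) y = theta ⟨y, y0, y1⟩ ^ 2 := by
      show thR y ^ 2 = _
      rw [thR_eq y0 y1]
    show Tendsto _ atTop (𝓝 (thR y ^ 2))
    rw [thR_eq y0 y1]
    have l2 : Tendsto (fun m : ℕ => T2 (2 * (m + 1) ^ 4 + 1) (0, 0)
        (rv (2 * (m + 1) ^ 4 + 1) 0 0 (((m + 1 : ℕ) : ℤ), 0)) y -
        H31K.tau ⟨y, y0, y1⟩ (((m + 1 : ℕ) : ℤ), 0)) atTop (𝓝 0) := by
      apply squeeze_zero_norm _ (scale_tendsto C)
      intro m
      rw [Real.norm_eq_abs]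
      have hm1 : m + 1 ≤ (m + 1) ^ 4 := Nat.le_self_pow (by norm_num) _
      have hI : InB (0, 0) (m + 1) (((m + 1 : ℕ) : ℤ), (0:ℤ)) := by
        have := InB_nv (((m + 1 : ℕ) : ℤ), (0:ℤ))
        rwa [nv_ax] at this
      refine (hinf ⟨y, y0, y1⟩ (m + 1) ((m + 1) ^ 4) (2 * (m + 1) ^ 4 + 1) rfl (by omega) hm1 _
        hI).trans ?_
      apply mul_le_mul_of_nonneg_left _ (by linarith)
      refine (pow_scale m).trans ?_
      have h0 : 0 < 1 / ((m:ℝ) + 1) := by positivity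
      have h1 : 1 / ((m:ℝ) + 1) ≤ 1 := by
        rw [div_le_one (by positivity)]
        have : (0:ℝ) ≤ m := Nat.cast_nonneg _
        linarith
      exact pow_le_of_le_one h0.le h1 (by norm_num)
    have l3 := l2.add l1
    rw [zero_add] at l3
    refine l3.congr (fun m => ?_)
    ring
  · intro m y hy k
    have y0 : 0 ≤ y := by linarith [hy.1]
    have hm1 : m + 1 ≤ (m + 1) ^ 4 := Nat.le_self_pow (by norm_num) _
    have h1 := h ((m + 1) ^ 4) (2 * (m + 1) ^ 4 + 1) rfl y y0 hy.2.le hy.1.ne'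
      (((m + 1 : ℕ) : ℤ), (0:ℤ)) (by
        intro hc
        rw [Prod.mk.injEq] at hc
        omega) (by rw [nv_ax]; exact hm1) k
    rw [nv_ax] at h1
    have e : vv y = vP y := by
      unfold vv
      rw [if_neg (by linarith [hy.1])]
    rw [e] at h1
    exact h1
  · intro y hy
    apply Tendsto.pow
    have a1 : Tendsto (fun m : ℕ => (((m + 1 : ℕ) : ℝ)) ^ (-(5/48) : ℝ)) atTop (𝓝 0) :=
      (tendsto_rpow_neg_atTop (show (0:ℝ) < 5/48 by norm_num)).comp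
        (tendsto_natCast_atTop_atTop.comp (tendsto_add_atTop_nat 1))
    have a2 := a1.max (tendsto_const_nhds (x := |y - 1/2| ^ (5/36 : ℝ)) (f := atTop))
    have hp : 0 ≤ |y - 1/2| ^ (5/36 : ℝ) := by positivity
    rw [max_eq_right hp] at a2
    exact a2
  · intro δ _
    refine ⟨1, zero_le_one, ?_⟩
    intro m y hy _
    have y0 : 0 ≤ y := by linarith [hy.1]
    have hv := vP_wgt y0 hy.2.le
    have h1 : vP y (m + 1) ≤ 1 := by
      rw [← hv.one]
      exact hv.anti 1 (m + 1) le_rfl (by omega)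
    exact pow_le_one₀ (hv.pos (m + 1) (by omega)).le h1

/-! ### the mean cluster size -/

theorem sigma_tsum (p : unitInterval) :
    sigma p = ∑' x : Vtx, ENNReal.ofReal (H31K.tau p x) := by
  have h1 : ∀ w : sqLattice.edgeSet → Bool, ((cluster0 w).encard : ENNReal) =
      ∑' x : Vtx, Set.indicator {w | x ∈ cluster0 w} (fun _ => (1 : ENNReal)) w := by
    intro w
    rw [← ENNReal.tsum_set_one, tsum_subtype (cluster0 w) (fun _ => (1 : ENNReal))]
    rfl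
  unfold sigma
  rw [lintegral_congr h1, lintegral_tsum]
  · refine (tsum_congr fun x => ?_)
    have h2 : ∫⁻ w, Set.indicator {w | x ∈ cluster0 w} (fun _ => (1 : ENNReal)) w ∂(bondLaw p) =
        (bondLaw p) {w | x ∈ cluster0 w} := lintegral_indicator_one (H31K.t10_meas x)
    rw [h2]
    unfold H31K.tau
    rw [measureReal_def, ENNReal.ofReal_toReal (measure_ne_top _ _)]
  · intro x
    exact (measurable_one.indicator (H31K.t10_meas x)).aemeasurable

theorem tau_nonneg (p : unitInterval) (x : Vtx) : 0 ≤ H31K.tau p x := measureReal_nonneg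

theorem tau_zero (p : unitInterval) : H31K.tau p (0, 0) = 1 := by
  unfold H31K.tau
  have : {w : sqLattice.edgeSet → Bool | ((0, 0) : Vtx) ∈ cluster0 w} = Set.univ := by
    ext w
    simp only [Set.mem_setOf_eq, Set.mem_univ, iff_true]
    exact SimpleGraph.Reachable.refl _
  rw [this]
  simp

theorem sigma_sum {p : unitInterval} (hp : (p:ℝ) < 1/2) :
    Tendsto (fun m : ℕ => ∑ x ∈ bx (m + 1), H31K.tau p x) atTop (𝓝 (sigma p).toReal) := by
  obtain ⟨C, hC, h⟩ := Pool.Agent.W424.NC.sigma_upper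
  have hfin : sigma p ≠ ⊤ := ne_top_of_le_ne_top ENNReal.ofReal_ne_top (h p hp)
  have hs : ∑' x : Vtx, ENNReal.ofReal (H31K.tau p x) ≠ ⊤ := by rw [← sigma_tsum]; exact hfin
  have hsum : Summable (fun x : Vtx => H31K.tau p x) := by
    have h1 := ENNReal.summable_toReal hs
    refine h1.congr (fun x => ?_)
    exact ENNReal.toReal_ofReal (tau_nonneg p x)
  have h2 : (sigma p).toReal = ∑' x : Vtx, H31K.tau p x := by
    rw [sigma_tsum, ENNReal.tsum_toReal_eq (fun x => ENNReal.ofReal_ne_top)]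
    apply tsum_congr
    intro x
    exact ENNReal.toReal_ofReal (tau_nonneg p x)
  rw [h2]
  have hbx : Tendsto (fun m : ℕ => bx (m + 1)) atTop atTop := by
    apply tendsto_atTop_finset_of_monotone
    · intro m m' hm x hx
      unfold bx at hx ⊢
      rw [mem_product, mem_Icc, mem_Icc] at hx ⊢
      have : (m:ℤ) ≤ m' := by exact_mod_cast hm
      push_cast at hx ⊢
      omega
    · intro x
      refine ⟨nv x, ?_⟩
      unfold bx nv
      rw [mem_product, mem_Icc, mem_Icc]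
      omega
  exact hsum.hasSum.comp hbx

theorem bx_card (m : ℕ) : ((bx (m + 1)).card : ℝ) ≤ 9 * ((m:ℝ) + 1) ^ 2 := by
  unfold bx
  rw [card_product, Int.card_Icc]
  have e : Int.toNat (((m + 1 : ℕ) : ℤ) + 1 - -((m + 1 : ℕ) : ℤ)) = 2 * m + 3 := by
    push_cast; omega
  rw [e]
  push_cast
  have : (0:ℝ) ≤ m := Nat.cast_nonneg _
  nlinarith

/-- The approximations of the mean cluster size. -/
noncomputable def sT (m : ℕ) (p : ℝ) : ℝ :=
  1 + ∑ x ∈ (bx (m + 1)).erase (0, 0),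
    T2 (2 * (m + 1) ^ 4 + 1) (0, 0) (rv (2 * (m + 1) ^ 4 + 1) 0 0 x) p

theorem nv_le_of_mem {m : ℕ} {x : Vtx} (hx : x ∈ bx m) : nv x ≤ m := by
  unfold bx at hx
  unfold nv
  rw [mem_product, mem_Icc, mem_Icc] at hx
  omega

/-- **The derivatives of the mean cluster size.** -/
theorem sg_der : ∃ A : ℝ, 1 ≤ A ∧ ∀ p : ℝ, 0 < p → p < 1/2 →
    ContDiffAt ℝ ∞ sgR p ∧ ∀ k, |iteratedDeriv k sgR p| ≤
      A ^ (k + 1) * k ! * (|p - 1/2|⁻¹) ^ k * (577 * |p - 1/2| ^ (-(43/18) : ℝ)) := by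
  obtain ⟨A, hA, h⟩ := T2_bd
  obtain ⟨C, hC, hinf⟩ := tor_inf
  refine ⟨A, hA, ?_⟩
  intro p p0 p1
  refine gen (a := 0) (b := 1/2) (f := sT)
    (B := fun _ y => 577 * |y - 1/2| ^ (-(43/18) : ℝ))
    (B' := fun y => 577 * |y - 1/2| ^ (-(43/18) : ℝ)) hA
    (fun y hy => hy.2.ne) ?_ ?_ ?_ (fun y _ => tendsto_const_nhds) ?_ ⟨p0, p1⟩
  · intro m
    unfold sT
    apply contDiff_const.add
    apply ContDiff.sum
    intro x _
    exact T2_smooth _ _ _
  · intro y hy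
    have y0 : 0 ≤ y := hy.1.le
    have y1 : y ≤ 1 := by linarith [hy.2]
    rw [sgR_eq y0 y1]
    have l1 := sigma_sum (p := ⟨y, y0, y1⟩) hy.2
    have l2 : Tendsto (fun m : ℕ => sT m y - ∑ x ∈ bx (m + 1), H31K.tau ⟨y, y0, y1⟩ x) atTop
        (𝓝 0) := by
      apply squeeze_zero_norm _ (scale_tendsto (9 * C))
      intro m
      rw [Real.norm_eq_abs]
      have hm1 : m + 1 ≤ (m + 1) ^ 4 := Nat.le_self_pow (by norm_num) _
      have hmem : ((0, 0) : Vtx) ∈ bx (m + 1) := by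
        unfold bx
        rw [mem_product, mem_Icc]
        simp only
        omega
      have e1 : sT m y - ∑ x ∈ bx (m + 1), H31K.tau ⟨y, y0, y1⟩ x =
          ∑ x ∈ (bx (m + 1)).erase (0, 0),
            (T2 (2 * (m + 1) ^ 4 + 1) (0, 0) (rv (2 * (m + 1) ^ 4 + 1) 0 0 x) y -
              H31K.tau ⟨y, y0, y1⟩ x) := by
        rw [← Finset.add_sum_erase _ _ hmem, tau_zero, Finset.sum_sub_distrib]
        unfold sT
        ring
      rw [e1]
      have hm : (0:ℝ) < (m:ℝ) + 1 := by positivity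
      calc |∑ x ∈ (bx (m + 1)).erase (0, 0),
            (T2 (2 * (m + 1) ^ 4 + 1) (0, 0) (rv (2 * (m + 1) ^ 4 + 1) 0 0 x) y -
              H31K.tau ⟨y, y0, y1⟩ x)|
          ≤ ∑ x ∈ (bx (m + 1)).erase (0, 0),
            |T2 (2 * (m + 1) ^ 4 + 1) (0, 0) (rv (2 * (m + 1) ^ 4 + 1) 0 0 x) y -
              H31K.tau ⟨y, y0, y1⟩ x| := Finset.abs_sum_le_sum_abs _ _
        _ ≤ ∑ x ∈ (bx (m + 1)).erase (0, 0), C * (1 / ((m:ℝ) + 1)) ^ 3 := by
            apply Finset.sum_le_sum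
            intro x hx
            have hx1 := nv_le_of_mem (mem_of_mem_erase hx)
            refine (hinf ⟨y, y0, y1⟩ (m + 1) ((m + 1) ^ 4) (2 * (m + 1) ^ 4 + 1) rfl (by omega)
              hm1 x (InB_mono hx1 (InB_nv x))).trans ?_
            exact mul_le_mul_of_nonneg_left (pow_scale m) (by linarith)
        _ ≤ 9 * ((m:ℝ) + 1) ^ 2 * (C * (1 / ((m:ℝ) + 1)) ^ 3) := by
            rw [Finset.sum_const, nsmul_eq_mul]
            apply mul_le_mul_of_nonneg_right _ (by positivity)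
            refine le_trans ?_ (bx_card m)
            exact_mod_cast card_le_card (erase_subset _ _)
        _ = 9 * C * (1 / ((m:ℝ) + 1)) := by field_simp
    have l3 := l2.add l1
    rw [zero_add] at l3
    refine l3.congr (fun m => ?_)
    ring
  · intro m y hy k
    have y0 : 0 ≤ y := hy.1.le
    have y1 : y ≤ 1 := by linarith [hy.2]
    have hs0 : 0 < |y - 1/2| := abs_pos.2 (by linarith [hy.2])
    have hs1 : |y - 1/2| ≤ 1 := by rw [abs_le]; constructor <;> linarith [hy.2]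
    have hm1 : m + 1 ≤ (m + 1) ^ 4 := Nat.le_self_pow (by norm_num) _
    obtain ⟨Q, hQ⟩ : ∃ Q : ℝ, Q = A ^ (k + 1) * k ! * (|y - 1/2|⁻¹) ^ k := ⟨_, rfl⟩
    have hQ1 : 1 ≤ Q := by
      rw [hQ]
      apply one_le_mul_of_one_le_of_one_le
      · apply one_le_mul_of_one_le_of_one_le (one_le_pow₀ hA)
        exact_mod_cast Nat.one_le_iff_ne_zero.2 (Nat.factorial_ne_zero k)
      · exact one_le_pow₀ ((one_le_inv₀ hs0).2 hs1)
    have e : vv y = vS y := by
      unfold vv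
      rw [if_pos hy.2.le]
    have hsplit : iteratedDeriv k (sT m) y = iteratedDeriv k (fun _ : ℝ => (1:ℝ)) y +
        ∑ x ∈ (bx (m + 1)).erase (0, 0),
          iteratedDeriv k (T2 (2 * (m + 1) ^ 4 + 1) (0, 0) (rv (2 * (m + 1) ^ 4 + 1) 0 0 x)) y := by
      have e1 : sT m = fun y => (fun _ : ℝ => (1:ℝ)) y + (fun z => ∑ x ∈ (bx (m + 1)).erase (0, 0),
        T2 (2 * (m + 1) ^ 4 + 1) (0, 0) (rv (2 * (m + 1) ^ 4 + 1) 0 0 x) z) y := rfl
      rw [e1, iteratedDeriv_fun_add, iteratedDeriv_fun_sum]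
      · intro x _
        exact ((T2_smooth _ _ _).of_le (by exact_mod_cast le_top)).contDiffAt
      · exact contDiffAt_const
      · apply ContDiff.contDiffAt
        apply ContDiff.sum
        intro x _
        exact (T2_smooth _ _ _).of_le (by exact_mod_cast le_top)
    rw [hsplit]
    have b1 : |iteratedDeriv k (fun _ : ℝ => (1:ℝ)) y| ≤ 1 := by
      rw [iteratedDeriv_const]
      split_ifs <;> simp
    have b2 : |∑ x ∈ (bx (m + 1)).erase (0, 0),
        iteratedDeriv k (T2 (2 * (m + 1) ^ 4 + 1) (0, 0) (rv (2 * (m + 1) ^ 4 + 1) 0 0 x)) y| ≤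
        Q * (576 * |y - 1/2| ^ (-(43/18) : ℝ)) := by
      calc |∑ x ∈ (bx (m + 1)).erase (0, 0),
          iteratedDeriv k (T2 (2 * (m + 1) ^ 4 + 1) (0, 0) (rv (2 * (m + 1) ^ 4 + 1) 0 0 x)) y|
          ≤ ∑ x ∈ (bx (m + 1)).erase (0, 0), |iteratedDeriv k
            (T2 (2 * (m + 1) ^ 4 + 1) (0, 0) (rv (2 * (m + 1) ^ 4 + 1) 0 0 x)) y| :=
            Finset.abs_sum_le_sum_abs _ _
        _ ≤ ∑ x ∈ (bx (m + 1)).erase (0, 0), Q * vS y (nv x) ^ 2 := by
            apply Finset.sum_le_sum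
            intro x hx
            have hx1 := nv_le_of_mem (mem_of_mem_erase hx)
            have h1 := h ((m + 1) ^ 4) (2 * (m + 1) ^ 4 + 1) rfl y y0 y1 hy.2.ne x
              (ne_of_mem_erase hx) (hx1.trans hm1) k
            rw [e, ← hQ] at h1
            exact h1
        _ ≤ _ := by
            rw [← Finset.mul_sum]
            exact mul_le_mul_of_nonneg_left (vS_sum y0 hy.2 (m + 1)) (by linarith)
    have b3 : 1 ≤ |y - 1/2| ^ (-(43/18) : ℝ) :=
      Real.one_le_rpow_of_pos_of_le_one_of_nonpos hs0 hs1 (by norm_num)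
    refine (abs_add_le _ _).trans ?_
    rw [← hQ]
    nlinarith
  · intro δ hδ
    refine ⟨577 * δ ^ (-(43/18) : ℝ), by positivity, ?_⟩
    intro m y hy hd
    apply mul_le_mul_of_nonneg_left _ (by norm_num)
    exact Real.rpow_le_rpow_of_nonpos hδ hd (by norm_num)

end Pool.Agent.H30.PT
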