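import Pool.Agent.H30.PT.Dec

/-! Sums of functions with bounds for the derivatives of all orders; the moments of the connected
two-point function. -/

set_option autoImplicit false

namespace Pool.Agent.H30.PT

open Set Filter Topology
open H974 (Vtx theta sigma)
open Pool.Agent.H160R2.CV (nv)
open scoped ContDiff Nat

open Sect (K K_near K_real K_diff' sec sec_open sec_mono real_deriv)

/-- Derivatives of smooth functions on an open set. -/
theorem hasD' {f : ℝ → ℝ} {U : Set ℝ} (hU : IsOpen U) (hf : ContDiffOn ℝ ∞ f U) (m : ℕ) {x : ℝ}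
    (hx : x ∈ U) : HasDerivAt (iteratedDeriv m f) (iteratedDeriv (m + 1) f x) x := by
  have h1 : DifferentiableOn ℝ (iteratedDerivWithin m f U) U :=
    hf.differentiableOn_iteratedDerivWithin (by exact_mod_cast (WithTop.coe_lt_top m)) hU.uniqueDiffOn
  have h2 : DifferentiableOn ℝ (iteratedDeriv m f) U :=
    h1.congr (fun y hy => (iteratedDerivWithin_of_isOpen hU hy).symm)
  have h3 : DifferentiableAt ℝ (iteratedDeriv m f) x := h2.differentiableAt (hU.mem_nhds hx)
  rw [iteratedDeriv_succ]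
  exact h3.hasDerivAt

/-- A sum of functions with bounds for the derivatives of all orders. -/
theorem sum_hyp {ι : Type} {f : ι → ℝ → ℝ} {a b A : ℝ} {V : ι → ℝ → ℝ} {W : ℝ → ℝ}
    (hA : 1 ≤ A) (ha : 0 ≤ a) (hb : b ≤ 1) (hh : ∀ p ∈ Ioo a b, p ≠ 1/2)
    (H : ∀ i, Sect.Hyp (f i) a b A (V i))
    (hu : ∀ δ : ℝ, 0 < δ → ∃ u : ι → ℝ, Summable u ∧ ∀ i, ∀ p ∈ Ioo a b, δ ≤ |p - 1/2| →
      V i p ≤ u i)
    (hW : ∀ p ∈ Ioo a b, ∑' i, V i p ≤ W p)
    (hloc : ∀ δ : ℝ, 0 < δ → ∃ M : ℝ, 0 ≤ M ∧ ∀ p ∈ Ioo a b, δ ≤ |p - 1/2| → W p ≤ M) :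
    Sect.Hyp (fun p => ∑' i, f i p) a b A W := by
  -- the sums of the derivatives near a point
  have key : ∀ x ∈ Ioo a b, ContDiffAt ℝ ∞ (fun p => ∑' i, f i p) x ∧
      ∀ k, iteratedDeriv k (fun p => ∑' i, f i p) x = ∑' i, iteratedDeriv k (f i) x := by
    intro x hx
    have hx12 := hh x hx
    obtain ⟨δ, hδ⟩ : ∃ δ : ℝ, δ = |x - 1/2| / 2 := ⟨_, rfl⟩
    have hs : 0 < |x - 1/2| := abs_pos.2 (sub_ne_zero.2 hx12)
    have hδ0 : 0 < δ := by rw [hδ]; positivity
    obtain ⟨u, hu1, hu2⟩ := hu δ hδ0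
    obtain ⟨a', ha'⟩ : ∃ a' : ℝ, a' = max a (x - δ) := ⟨_, rfl⟩
    obtain ⟨b', hb'⟩ : ∃ b' : ℝ, b' = min b (x + δ) := ⟨_, rfl⟩
    have hx' : x ∈ Ioo a' b' := by
      rw [ha', hb']
      exact ⟨max_lt hx.1 (by linarith), lt_min hx.2 (by linarith)⟩
    have hsub : Ioo a' b' ⊆ Ioo a b := by
      rw [ha', hb']
      exact Ioo_subset_Ioo (le_max_left _ _) (min_le_left _ _)
    have hfar : ∀ y ∈ Ioo a' b', δ ≤ |y - 1/2| := by
      intro y hy
      have h1 : x - δ < y := lt_of_le_of_lt (by rw [ha']; exact le_max_right _ _) hy.1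
      have h2 : y < x + δ := lt_of_lt_of_le hy.2 (by rw [hb']; exact min_le_right _ _)
      have h3 : |x - y| < δ := by rw [abs_lt]; constructor <;> linarith
      have h4 : |x - 1/2| ≤ |x - y| + |y - 1/2| := abs_sub_le _ _ _
      linarith
    have hbd : ∀ k i, ∀ y ∈ Ioo a' b', |iteratedDeriv k (f i) y| ≤
        A ^ k * k ! * (δ⁻¹) ^ k * u i := by
      intro k i y hy
      have h1 := (H i).bd y (hsub hy) k
      have h2 := hu2 i y (hsub hy) (hfar y hy)
      have h3 : (|y - 1/2|⁻¹) ^ k ≤ (δ⁻¹) ^ k :=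
        pow_le_pow_left₀ (inv_nonneg.2 (abs_nonneg _)) (inv_anti₀ hδ0 (hfar y hy)) k
      have h4 := (H i).vnn (hsub hy)
      calc _ ≤ _ := h1
        _ ≤ A ^ k * k ! * (δ⁻¹) ^ k * V i y := by
            apply mul_le_mul_of_nonneg_right _ h4
            exact mul_le_mul_of_nonneg_left h3 (by positivity)
        _ ≤ _ := mul_le_mul_of_nonneg_left h2 (by positivity)
    have hsm : ∀ k, ∀ y ∈ Ioo a' b', Summable fun i => iteratedDeriv k (f i) y := by
      intro k y hy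
      exact Summable.of_norm_bounded (hu1.mul_left _) (fun i => hbd k i y hy)
    have hder : ∀ k, ∀ y ∈ Ioo a' b', HasDerivAt (fun z => ∑' i, iteratedDeriv k (f i) z)
        (∑' i, iteratedDeriv (k + 1) (f i) y) y := by
      intro k y hy
      refine hasDerivAt_tsum_of_isPreconnected
        (u := fun i => A ^ (k + 1) * (k + 1)! * (δ⁻¹) ^ (k + 1) * u i)
        (hu1.mul_left _) isOpen_Ioo isPreconnected_Ioo ?_ ?_ hx' (hsm k x hx') hy
      · intro i z hz
        have h1 : ContDiffOn ℝ ∞ (f i) (Ioo a b) := fun y hy =>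
          ((H i).smooth y hy).contDiffWithinAt
        exact hasD' isOpen_Ioo h1 k (hsub hz)
      · intro i z hz
        exact hbd (k + 1) i z hz
    have hit : ∀ k, ∀ y ∈ Ioo a' b', iteratedDeriv k (fun p => ∑' i, f i p) y =
        ∑' i, iteratedDeriv k (f i) y := by
      intro k
      induction k with
      | zero =>
        intro y _
        simp only [iteratedDeriv_zero]
      | succ k ih =>
        intro y hy
        rw [iteratedDeriv_succ]
        have h1 : iteratedDeriv k (fun p => ∑' i, f i p) =ᶠ[𝓝 y]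
            fun z => ∑' i, iteratedDeriv k (f i) z := by
          filter_upwards [isOpen_Ioo.mem_nhds hy] with z hz
          exact ih z hz
        rw [h1.deriv_eq]
        exact (hder k y hy).deriv
    refine ⟨?_, fun k => hit k x hx'⟩
    have hon : ContDiffOn ℝ ∞ (fun p => ∑' i, f i p) (Ioo a' b') := by
      rw [contDiffOn_infty]
      intro n
      apply contDiffOn_of_differentiableOn_deriv
      intro m _
      have h1 : EqOn (iteratedDerivWithin m (fun p => ∑' i, f i p) (Ioo a' b'))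
          (fun z => ∑' i, iteratedDeriv m (f i) z) (Ioo a' b') := by
        intro y hy
        rw [iteratedDerivWithin_of_isOpen isOpen_Ioo hy]
        exact hit m y hy
      apply DifferentiableOn.congr _ h1
      intro y hy
      exact (hder m y hy).differentiableAt.differentiableWithinAt
    exact hon.contDiffAt (isOpen_Ioo.mem_nhds hx')
  refine ⟨hA, ha, hb, hh, fun p hp => (key p hp).1, ?_, hloc⟩
  intro p hp k
  rw [(key p hp).2 k]
  have hs : 0 < |p - 1/2| := abs_pos.2 (sub_ne_zero.2 (hh p hp))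
  obtain ⟨u, hu1, hu2⟩ := hu |p - 1/2| hs
  have hV : Summable fun i => V i p :=
    Summable.of_nonneg_of_le (fun i => (H i).vnn hp) (fun i => hu2 i p hp le_rfl) hu1
  have h1 := tsum_of_norm_bounded (f := fun i => iteratedDeriv k (f i) p)
    (hV.hasSum.mul_left (A ^ k * k ! * (|p - 1/2|⁻¹) ^ k)) (fun i => (H i).bd p hp k)
  rw [Real.norm_eq_abs] at h1
  exact h1.trans (mul_le_mul_of_nonneg_left (hW p hp) (by positivity))

/-- A constant multiple. -/
theorem hyp_mul {f : ℝ → ℝ} {a b A : ℝ} {V : ℝ → ℝ} (H : Sect.Hyp f a b A V) {m : ℝ}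
    (hm : 0 ≤ m) : Sect.Hyp (fun p => m * f p) a b A (fun p => m * V p) := by
  refine ⟨H.hC, H.ha, H.hb, H.hh, fun p hp => contDiffAt_const.mul (H.smooth p hp), ?_, ?_⟩
  · intro p hp k
    have e : iteratedDeriv k (fun p => m * f p) p = m * iteratedDeriv k f p :=
      iteratedDeriv_const_mul m ((H.smooth p hp).of_le (by exact_mod_cast le_top))
    rw [e, abs_mul, abs_of_nonneg hm]
    calc m * |iteratedDeriv k f p| ≤ m * (A ^ k * k ! * (|p - 1/2|⁻¹) ^ k * V p) :=
          mul_le_mul_of_nonneg_left (H.bd p hp k) hm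
      _ = _ := by ring
  · intro δ hδ
    obtain ⟨M, hM0, hM⟩ := H.loc δ hδ
    refine ⟨m * M, by positivity, ?_⟩
    intro p hp hd
    exact mul_le_mul_of_nonneg_left (hM p hp hd) hm

theorem sum_of_enn {ι : Type} {f : ι → ℝ} (hf : ∀ i, 0 ≤ f i) {B : ℝ} (hB : 0 ≤ B)
    (h : ∑' i, ENNReal.ofReal (f i) ≤ ENNReal.ofReal B) : Summable f ∧ ∑' i, f i ≤ B := by
  have hfin : ∑' i, ENNReal.ofReal (f i) ≠ ⊤ := ne_top_of_le_ne_top ENNReal.ofReal_ne_top h
  have hs : Summable f := by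
    have h1 := ENNReal.summable_toReal hfin
    refine h1.congr (fun i => ?_)
    exact ENNReal.toReal_ofReal (hf i)
  refine ⟨hs, ?_⟩
  have h2 := ENNReal.ofReal_tsum_of_nonneg hf hs
  rw [← h2] at h
  exact (ENNReal.ofReal_le_ofReal_iff hB).1 h

/-- The sum of the weights. -/
theorem wx_sum (j : ℕ) {c : ℝ} (hc : 0 < c) : ∃ D : ℝ, 0 < D ∧ ∀ p : ℝ, p ≠ 1/2 →
    |p - 1/2| ≤ 1 → (Summable fun x : Vtx => (nv x : ℝ) ^ j * wx c x p) ∧
      ∑' x : Vtx, (nv x : ℝ) ^ j * wx c x p ≤ D * |p - 1/2| ^ (-(43/18 + 4/3 * j) : ℝ) := by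
  obtain ⟨D, hD, h⟩ := Q291.TT.sum_up j (a := 5/24) (c := c) (C := 1) (by norm_num) (by norm_num)
    hc one_pos
  refine ⟨D, hD, ?_⟩
  intro p ph hp
  have hs : 0 < |p - 1/2| := abs_pos.2 (sub_ne_zero.2 ph)
  obtain ⟨t, ht⟩ : ∃ t : ℝ, t = |p - 1/2| ^ (4/3 : ℝ) := ⟨_, rfl⟩
  have ht0 : 0 < t := by rw [ht]; positivity
  have ht1 : t ≤ 1 := by rw [ht]; exact Real.rpow_le_one hs.le hp (by norm_num)
  have h1 := h t 1 ht0 ht1 zero_le_one (fun x => wx c x p) (by
    intro x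
    unfold wx
    rw [← ht, one_mul, mul_one])
  have e : t ^ (-(2 + (j:ℝ) - 5/24)) = |p - 1/2| ^ (-(43/18 + 4/3 * j) : ℝ) := by
    rw [ht, ← Real.rpow_mul hs.le]
    congr 1
    ring
  rw [one_mul, e] at h1
  exact sum_of_enn (fun x => mul_nonneg (by positivity) (wx_pos c x p).le) (by positivity) h1

/-- The moments of the connected two-point function. -/
noncomputable def mR (j : ℕ) (p : ℝ) : ℝ := ∑' x : Vtx, (nv x : ℝ) ^ j * gR x p

/-- The derivatives of the moments. -/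
theorem m_hyp (j : ℕ) : ∃ D A : ℝ, 0 < D ∧ 0 < A ∧
    Sect.Hyp (mR j) 0 (1/2) A (fun p => D * |p - 1/2| ^ (-(43/18 + 4/3 * j) : ℝ)) ∧
    Sect.Hyp (mR j) (1/2) 1 A (fun p => D * |p - 1/2| ^ (-(43/18 + 4/3 * j) : ℝ)) := by
  obtain ⟨c, A, hc, hA, H⟩ := g_hyp
  obtain ⟨D, hD, hsum⟩ := wx_sum j hc
  have hA1 : 1 ≤ A := (H (0, 0)).1.hC
  refine ⟨A * D, A, by positivity, hA, ?_⟩
  have hej : (-(43/18 + 4/3 * j) : ℝ) ≤ 0 := by
    have : (0:ℝ) ≤ j := Nat.cast_nonneg _
    linarith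
  have main : ∀ a b : ℝ, 0 ≤ a → b ≤ 1 → (∀ p ∈ Ioo a b, p ≠ 1/2) →
      (∀ x, Sect.Hyp (gR x) a b A (fun p => A * wx c x p)) →
      Sect.Hyp (mR j) a b A (fun p => A * D * |p - 1/2| ^ (-(43/18 + 4/3 * j) : ℝ)) := by
    intro a b ha hb hab Hx
    apply sum_hyp (f := fun x p => (nv x : ℝ) ^ j * gR x p)
      (V := fun x p => (nv x : ℝ) ^ j * (A * wx c x p)) hA1 ha hb hab
    · intro x
      exact hyp_mul (Hx x) (by positivity)
    · intro δ hδ
      obtain ⟨d, hd⟩ : ∃ d : ℝ, d = min δ 1 := ⟨_, rfl⟩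
      have hd0 : 0 < d := by rw [hd]; exact lt_min hδ one_pos
      have hd1 : d ≤ 1 := by rw [hd]; exact min_le_right _ _
      have hdδ : d ≤ δ := by rw [hd]; exact min_le_left _ _
      have e1 : |(1/2 + d) - 1/2| = d := by rw [add_sub_cancel_left, abs_of_pos hd0]
      have h1 := (hsum (1/2 + d) (by linarith) (by rw [e1]; exact hd1)).1
      refine ⟨fun x => A * ((nv x : ℝ) ^ j * wx c x (1/2 + d)), h1.mul_left A, ?_⟩
      intro x p hp hpd
      have h2 : wx c x p ≤ wx c x (1/2 + d) := by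
        unfold wx
        apply mul_le_mul_of_nonneg_left _ (by positivity)
        apply Real.exp_le_exp.2
        rw [e1]
        have h3 : d ^ (4/3 : ℝ) ≤ |p - 1/2| ^ (4/3 : ℝ) :=
          Real.rpow_le_rpow hd0.le (hdδ.trans hpd) (by norm_num)
        have h4 : (nv x : ℝ) * d ^ (4/3 : ℝ) ≤ nv x * |p - 1/2| ^ (4/3 : ℝ) :=
          mul_le_mul_of_nonneg_left h3 (by positivity)
        have := mul_le_mul_of_nonneg_left h4 hc.le
        linarith
      calc (nv x : ℝ) ^ j * (A * wx c x p) ≤ (nv x : ℝ) ^ j * (A * wx c x (1/2 + d)) := by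
            apply mul_le_mul_of_nonneg_left _ (by positivity)
            exact mul_le_mul_of_nonneg_left h2 hA.le
        _ = _ := by ring
    · intro p hp
      have hp1 : |p - 1/2| ≤ 1 := by rw [abs_le]; constructor <;> linarith [hp.1, hp.2]
      have h1 := hsum p (hab p hp) hp1
      have e2 : (fun x : Vtx => (nv x : ℝ) ^ j * (A * wx c x p)) =
          fun x : Vtx => A * ((nv x : ℝ) ^ j * wx c x p) := by funext x; ring
      rw [e2, tsum_mul_left, mul_assoc]
      exact mul_le_mul_of_nonneg_left h1.2 hA.le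
    · intro δ hδ
      refine ⟨A * D * δ ^ (-(43/18 + 4/3 * j) : ℝ), by positivity, ?_⟩
      intro p hp hd
      apply mul_le_mul_of_nonneg_left _ (by positivity)
      exact Real.rpow_le_rpow_of_nonpos hδ hd hej
  exact ⟨main 0 (1/2) le_rfl (by norm_num) (fun p hp => hp.2.ne) (fun x => (H x).1),
    main (1/2) 1 (by norm_num) le_rfl (fun p hp => hp.1.ne') (fun x => (H x).2)⟩

end Pool.Agent.H30.PT
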