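import Pool.Agent.H30.PT.Key
import Pool.Graph.R_pool_sql_team_seeded_b0a926ef.R960.OneArm
import Pool.Graph.R_seed8.W424.NC.Win

/-! The probability of one arm in an annulus, for all parameters and all radii. -/

set_option autoImplicit false
set_option linter.unusedVariables false

namespace Pool.Agent.H30.PT

open H974 Finset Pool.Agent.W424.NC

/-! ### the weights -/

/-- The weight below the critical point. -/
noncomputable def vS (q : ℝ) (s : ℕ) : ℝ :=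
  (s:ℝ) ^ (-(5/48) : ℝ) * ((1 + |q - 1/2| ^ (4/3 : ℝ)) / (1 + |q - 1/2| ^ (4/3 : ℝ) * s))

/-- The weight above the critical point. -/
noncomputable def vP (q : ℝ) (s : ℕ) : ℝ :=
  max ((s:ℝ) ^ (-(5/48) : ℝ)) (|q - 1/2| ^ (5/36 : ℝ))

theorem vS_pos (q : ℝ) {r : ℕ} (hr : 1 ≤ r) : 0 < vS q r := by
  have h : 0 ≤ |q - 1/2| ^ (4/3 : ℝ) := by positivity
  have hr0 : (0:ℝ) < r := by exact_mod_cast hr
  unfold vS
  positivity

theorem vP_pos (q : ℝ) {r : ℕ} (hr : 1 ≤ r) : 0 < vP q r := by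
  have hr0 : (0:ℝ) < r := by exact_mod_cast hr
  exact lt_of_lt_of_le (by positivity) (le_max_left _ _)

theorem vS_ratio {q : ℝ} {r D : ℕ} (hr : 1 ≤ r) (hD : r ≤ D) :
    vS q D / vS q r = ((r:ℝ) / D) ^ (5/48 : ℝ) *
      ((1 + |q - 1/2| ^ (4/3 : ℝ) * r) / (1 + |q - 1/2| ^ (4/3 : ℝ) * D)) := by
  have hr0 : (0:ℝ) < r := by exact_mod_cast hr
  have hD0 : (0:ℝ) < D := by exact_mod_cast (by omega : 0 < D)
  obtain ⟨l, hl⟩ : ∃ l : ℝ, l = |q - 1/2| ^ (4/3 : ℝ) := ⟨_, rfl⟩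
  have hl0 : 0 ≤ l := by rw [hl]; positivity
  unfold vS
  rw [← hl, Real.div_rpow hr0.le hD0.le, Real.rpow_neg hr0.le, Real.rpow_neg hD0.le]
  have a1 : 0 < (r:ℝ) ^ (5/48 : ℝ) := by positivity
  have a2 : 0 < (D:ℝ) ^ (5/48 : ℝ) := by positivity
  have a3 : 0 < 1 + l * r := by positivity
  have a4 : 0 < 1 + l * D := by positivity
  have a5 : 0 < 1 + l := by positivity
  field_simp

/-- `s ^ (-e)` at scales which differ by a factor at most `8`. -/
theorem pow_dbl {e : ℝ} (he : 0 ≤ e) {r s : ℕ} (hr : 1 ≤ r) (hs : r ≤ s) (h8 : s ≤ 8 * r) :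
    (r:ℝ) ^ (-e) ≤ (8:ℝ) ^ e * (s:ℝ) ^ (-e) := by
  have hr0 : (0:ℝ) < r := by exact_mod_cast hr
  have hs0 : (0:ℝ) < s := by exact_mod_cast (by omega : 0 < s)
  have hrs : (s:ℝ) ≤ 8 * r := by exact_mod_cast h8
  have h1 : ((s:ℝ) / 8) ^ e ≤ (r:ℝ) ^ e :=
    Real.rpow_le_rpow (by positivity) (by linarith) he
  rw [Real.div_rpow hs0.le (by norm_num), div_le_iff₀ (by positivity)] at h1
  rw [Real.rpow_neg hr0.le, Real.rpow_neg hs0.le, ← div_eq_mul_inv, inv_eq_one_div,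
    div_le_div_iff₀ (by positivity) (by positivity)]
  linarith

/-- The constant of the doubling property. -/
noncomputable def WV : ℝ := (8:ℝ) ^ (5/4 : ℝ) * 8

theorem WV_one : 1 ≤ WV := by
  unfold WV
  have : (1:ℝ) ≤ (8:ℝ) ^ (5/4 : ℝ) := Real.one_le_rpow (by norm_num) (by norm_num)
  linarith

theorem WV_ge : (8:ℝ) ^ (5/48 : ℝ) * 8 ≤ WV := by
  unfold WV
  apply mul_le_mul_of_nonneg_right _ (by norm_num)
  exact Real.rpow_le_rpow_of_exponent_le (by norm_num) (by norm_num)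

theorem vS_wgt (q : ℝ) : Wgt (vS q) WV := by
  obtain ⟨l, hl⟩ : ∃ l : ℝ, l = |q - 1/2| ^ (4/3 : ℝ) := ⟨_, rfl⟩
  have hl0 : 0 ≤ l := by rw [hl]; positivity
  refine ⟨?_, fun r hr => vS_pos q hr, ?_, ?_⟩
  · unfold vS
    rw [Nat.cast_one, Real.one_rpow, mul_one, div_self (by positivity), one_mul]
  · intro r s hr hs
    have hr0 : (0:ℝ) < r := by exact_mod_cast hr
    have hrs : (r:ℝ) ≤ s := by exact_mod_cast hs
    unfold vS
    rw [← hl]
    apply mul_le_mul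
    · exact Real.rpow_le_rpow_of_nonpos hr0 hrs (by norm_num)
    · apply div_le_div_of_nonneg_left (by positivity) (by positivity)
      have := mul_le_mul_of_nonneg_left hrs hl0
      linarith
    · positivity
    · positivity
  · intro r s hr hs h8
    have hr0 : (0:ℝ) < r := by exact_mod_cast hr
    have hs0 : (0:ℝ) < s := by exact_mod_cast (by omega : 0 < s)
    have hrs : (s:ℝ) ≤ 8 * r := by exact_mod_cast h8
    have e1 := pow_dbl (e := 5/48) (by norm_num) hr hs h8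
    have e2 : (1 + l) / (1 + l * r) ≤ 8 * ((1 + l) / (1 + l * s)) := by
      rw [← mul_div_assoc, div_le_div_iff₀ (by positivity) (by positivity)]
      have h1 : 1 + l * s ≤ 8 * (1 + l * r) := by
        have := mul_le_mul_of_nonneg_left hrs hl0
        nlinarith
      have h2 : 0 ≤ 1 + l := by positivity
      nlinarith
    unfold vS
    rw [← hl]
    have hpos : 0 ≤ (s:ℝ) ^ (-(5/48) : ℝ) * ((1 + l) / (1 + l * s)) := by positivity
    calc (r:ℝ) ^ (-(5/48) : ℝ) * ((1 + l) / (1 + l * r)) ≤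
          ((8:ℝ) ^ (5/48 : ℝ) * (s:ℝ) ^ (-(5/48) : ℝ)) * (8 * ((1 + l) / (1 + l * s))) :=
          mul_le_mul e1 e2 (by positivity) (by positivity)
      _ = ((8:ℝ) ^ (5/48 : ℝ) * 8) * ((s:ℝ) ^ (-(5/48) : ℝ) * ((1 + l) / (1 + l * s))) := by ring
      _ ≤ _ := mul_le_mul_of_nonneg_right WV_ge hpos

theorem half_pow_le {q : ℝ} (q0 : 0 ≤ q) (q1 : q ≤ 1) : |q - 1/2| ^ (5/36 : ℝ) ≤ 1 :=
  Real.rpow_le_one (abs_nonneg _) (by rw [abs_le]; constructor <;> linarith) (by norm_num)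

theorem vP_wgt {q : ℝ} (q0 : 0 ≤ q) (q1 : q ≤ 1) : Wgt (vP q) WV := by
  refine ⟨?_, fun r hr => vP_pos q hr, ?_, ?_⟩
  · unfold vP
    rw [Nat.cast_one, Real.one_rpow]
    exact max_eq_left (half_pow_le q0 q1)
  · intro r s hr hs
    have hr0 : (0:ℝ) < r := by exact_mod_cast hr
    have hrs : (r:ℝ) ≤ s := by exact_mod_cast hs
    unfold vP
    exact max_le_max (Real.rpow_le_rpow_of_nonpos hr0 hrs (by norm_num)) le_rfl
  · intro r s hr hs h8
    have e1 := pow_dbl (e := 5/48) (by norm_num) hr hs h8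
    have hW := WV_one
    have hW2 := WV_ge
    have hs0 : (0:ℝ) < s := by exact_mod_cast (by omega : 0 < s)
    unfold vP
    apply max_le
    · have h1 : (8:ℝ) ^ (5/48 : ℝ) ≤ WV := by
        have : 0 < (8:ℝ) ^ (5/48 : ℝ) := by positivity
        linarith
      refine (e1.trans (mul_le_mul_of_nonneg_right h1 (by positivity))).trans ?_
      exact mul_le_mul_of_nonneg_left (le_max_left _ _) (by linarith)
    · have h1 : |q - 1/2| ^ (5/36 : ℝ) ≤
        max ((s:ℝ) ^ (-(5/48) : ℝ)) (|q - 1/2| ^ (5/36 : ℝ)) := le_max_right _ _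
      have h2 : 0 ≤ max ((s:ℝ) ^ (-(5/48) : ℝ)) (|q - 1/2| ^ (5/36 : ℝ)) :=
        le_trans (by positivity) h1
      nlinarith

/-- The ratio of the four-arm weights is at most the one of the one-arm weights. -/
theorem wvS (q : ℝ) {r s : ℕ} (hr : 1 ≤ r) (hs : r ≤ s) :
    Pool.Agent.NH39.W.wt q s * vS q r ≤ WV * (Pool.Agent.NH39.W.wt q r * vS q s) := by
  obtain ⟨l, hl⟩ : ∃ l : ℝ, l = |q - 1/2| ^ (4/3 : ℝ) := ⟨_, rfl⟩
  have hl0 : 0 ≤ l := by rw [hl]; positivity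
  have hr0 : (0:ℝ) < r := by exact_mod_cast hr
  have hs0 : (0:ℝ) < s := by exact_mod_cast (by omega : 0 < s)
  have hrs : (r:ℝ) ≤ s := by exact_mod_cast hs
  have hW := WV_one
  unfold Pool.Agent.NH39.W.wt vS
  rw [← hl]
  obtain ⟨A, hA⟩ : ∃ A : ℝ, A = (1 + l) / (1 + l * s) := ⟨_, rfl⟩
  obtain ⟨B, hB⟩ : ∃ B : ℝ, B = (1 + l) / (1 + l * r) := ⟨_, rfl⟩
  rw [← hA, ← hB]
  have hA0 : 0 < A := by rw [hA]; positivity
  have hB0 : 0 < B := by rw [hB]; positivity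
  have key : (s:ℝ) ^ (-(5/4) : ℝ) * (r:ℝ) ^ (-(5/48) : ℝ) ≤
      (r:ℝ) ^ (-(5/4) : ℝ) * (s:ℝ) ^ (-(5/48) : ℝ) := by
    have e1 : (s:ℝ) ^ (-(5/4) : ℝ) = (s:ℝ) ^ (-(55/48) : ℝ) * (s:ℝ) ^ (-(5/48) : ℝ) := by
      rw [← Real.rpow_add hs0]; norm_num
    have e2 : (r:ℝ) ^ (-(5/4) : ℝ) = (r:ℝ) ^ (-(55/48) : ℝ) * (r:ℝ) ^ (-(5/48) : ℝ) := by
      rw [← Real.rpow_add hr0]; norm_num
    rw [e1, e2]
    have h1 : (s:ℝ) ^ (-(55/48) : ℝ) ≤ (r:ℝ) ^ (-(55/48) : ℝ) :=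
      Real.rpow_le_rpow_of_nonpos hr0 hrs (by norm_num)
    have h2 : 0 ≤ (s:ℝ) ^ (-(5/48) : ℝ) * (r:ℝ) ^ (-(5/48) : ℝ) := by positivity
    nlinarith
  have hAB : 0 < A * B := by positivity
  have h3 : 0 ≤ (r:ℝ) ^ (-(5/4) : ℝ) * (s:ℝ) ^ (-(5/48) : ℝ) * (A * B) := by positivity
  calc (s:ℝ) ^ (-(5/4) : ℝ) * A * ((r:ℝ) ^ (-(5/48) : ℝ) * B) =
        ((s:ℝ) ^ (-(5/4) : ℝ) * (r:ℝ) ^ (-(5/48) : ℝ)) * (A * B) := by ring
    _ ≤ ((r:ℝ) ^ (-(5/4) : ℝ) * (s:ℝ) ^ (-(5/48) : ℝ)) * (A * B) :=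
        mul_le_mul_of_nonneg_right key hAB.le
    _ ≤ WV * ((r:ℝ) ^ (-(5/4) : ℝ) * (s:ℝ) ^ (-(5/48) : ℝ) * (A * B)) := by nlinarith
    _ = _ := by ring

theorem wvP (q : ℝ) {r s : ℕ} (hr : 1 ≤ r) (hs : r ≤ s) :
    Pool.Agent.NH39.W.wt q s * vP q r ≤ WV * (Pool.Agent.NH39.W.wt q r * vP q s) := by
  obtain ⟨l, hl⟩ : ∃ l : ℝ, l = |q - 1/2| ^ (4/3 : ℝ) := ⟨_, rfl⟩
  have hl0 : 0 ≤ l := by rw [hl]; positivity
  have hr0 : (0:ℝ) < r := by exact_mod_cast hr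
  have hs0 : (0:ℝ) < s := by exact_mod_cast (by omega : 0 < s)
  have hrs : (r:ℝ) ≤ s := by exact_mod_cast hs
  have hW := WV_one
  have wr := Pool.Agent.NH39.W.wt_pos q hr
  have ws := Pool.Agent.NH39.W.wt_pos q (hr.trans hs)
  have vs := vP_pos q (hr.trans hs)
  -- it is enough to have the inequality without the constant
  suffices h : Pool.Agent.NH39.W.wt q s * vP q r ≤ Pool.Agent.NH39.W.wt q r * vP q s by
    refine h.trans ?_
    have : 0 < Pool.Agent.NH39.W.wt q r * vP q s := by positivity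
    nlinarith
  unfold vP
  rw [mul_max_of_nonneg _ _ ws.le]
  apply max_le
  · have key : Pool.Agent.NH39.W.wt q s * (r:ℝ) ^ (-(5/48) : ℝ) ≤
        Pool.Agent.NH39.W.wt q r * (s:ℝ) ^ (-(5/48) : ℝ) := by
      unfold Pool.Agent.NH39.W.wt
      rw [← hl]
      have hAB : (1 + l) / (1 + l * s) ≤ (1 + l) / (1 + l * r) := by
        apply div_le_div_of_nonneg_left (by positivity) (by positivity)
        have := mul_le_mul_of_nonneg_left hrs hl0
        linarith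
      have hA0 : 0 < (1 + l) / (1 + l * s) := by positivity
      have k2 : (s:ℝ) ^ (-(5/4) : ℝ) * (r:ℝ) ^ (-(5/48) : ℝ) ≤
          (r:ℝ) ^ (-(5/4) : ℝ) * (s:ℝ) ^ (-(5/48) : ℝ) := by
        have e1 : (s:ℝ) ^ (-(5/4) : ℝ) = (s:ℝ) ^ (-(55/48) : ℝ) * (s:ℝ) ^ (-(5/48) : ℝ) := by
          rw [← Real.rpow_add hs0]; norm_num
        have e2 : (r:ℝ) ^ (-(5/4) : ℝ) = (r:ℝ) ^ (-(55/48) : ℝ) * (r:ℝ) ^ (-(5/48) : ℝ) := by
          rw [← Real.rpow_add hr0]; norm_num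
        rw [e1, e2]
        have h1 : (s:ℝ) ^ (-(55/48) : ℝ) ≤ (r:ℝ) ^ (-(55/48) : ℝ) :=
          Real.rpow_le_rpow_of_nonpos hr0 hrs (by norm_num)
        have h2 : 0 ≤ (s:ℝ) ^ (-(5/48) : ℝ) * (r:ℝ) ^ (-(5/48) : ℝ) := by positivity
        nlinarith
      calc (s:ℝ) ^ (-(5/4) : ℝ) * ((1 + l) / (1 + l * s)) * (r:ℝ) ^ (-(5/48) : ℝ) =
            ((s:ℝ) ^ (-(5/4) : ℝ) * (r:ℝ) ^ (-(5/48) : ℝ)) * ((1 + l) / (1 + l * s)) := by ring
        _ ≤ ((r:ℝ) ^ (-(5/4) : ℝ) * (s:ℝ) ^ (-(5/48) : ℝ)) * ((1 + l) / (1 + l * r)) :=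
            mul_le_mul k2 hAB hA0.le (by positivity)
        _ = _ := by ring
    exact key.trans (mul_le_mul_of_nonneg_left (le_max_left _ _) wr.le)
  · have h1 := Pool.Agent.NH39.W.wt_anti q hr hs
    have h2 : (0:ℝ) ≤ |q - 1/2| ^ (5/36 : ℝ) := by positivity
    exact (mul_le_mul_of_nonneg_right h1 h2).trans
      (mul_le_mul_of_nonneg_left (le_max_right _ _) wr.le)

/-! ### above the critical point -/

/-- One arm above the critical point. -/
theorem barm_sup : ∃ C : ℝ, 1 ≤ C ∧ ∀ q : ℝ, 1/2 ≤ q → q ≤ 1 → ∀ r D : ℕ, 1 ≤ r → r ≤ D →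
    barm q r D ≤ C * (vP q D / vP q r) := by
  obtain ⟨c, hc, hlow⟩ := Pool.Agent.R960.arm_sup_lower
  obtain ⟨C, hC, hup⟩ := Pool.Agent.R960.arm_sup_upper
  have hW := WV_one
  refine ⟨WV + 2 ^ 188 * (C / c) * WV, by
    have : 0 < 2 ^ 188 * (C / c) * WV := by positivity
    linarith, ?_⟩
  intro q q0 q1 r D hr hrD
  have h0 : 0 ≤ q := by linarith
  have hv := vP_wgt h0 q1
  have vr := hv.pos r hr
  have vD := hv.pos D (hr.trans hrD)
  have hq0 : 0 < vP q D / vP q r := by positivity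
  have habs : |q - 1/2| = q - 1/2 := abs_of_nonneg (by linarith)
  by_cases h3 : 3 * r ≤ D
  · have g := arm_glue q0 q1 (by omega : 0 < r) h3
    have hb := barm_nonneg h0 q1 r D
    have a1 : c * vP q (3 * r) ≤ arm q (3 * r) := by
      obtain ⟨k1, k2⟩ := hlow q q0 q1 (3 * r)
      have k3 := k2 (by omega)
      unfold vP
      rw [mul_max_of_nonneg _ _ hc.le, habs]
      exact max_le k3 k1
    have a2 : arm q D ≤ C * vP q D := by
      have := hup q q0 q1 D (by omega)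
      unfold vP
      rw [habs]
      exact this
    have v3 := hv.pos (3 * r) (by omega)
    have v3' : vP q r ≤ WV * vP q (3 * r) := hv.dbl r (3 * r) hr (by omega) (by omega)
    have h1 : barm q r D * (c * vP q (3 * r)) ≤ 2 ^ 188 * (C * vP q D) := by
      have e : (1/2 : ℝ)^188 * (arm q (3 * r) * barm q r D) ≤ C * vP q D := g.trans a2
      have e2 : barm q r D * (c * vP q (3 * r)) ≤ arm q (3 * r) * barm q r D := by
        rw [mul_comm]
        exact mul_le_mul_of_nonneg_right a1 hb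
      have e3 : (2:ℝ)^188 * (1/2)^188 = 1 := by rw [← mul_pow]; norm_num
      calc barm q r D * (c * vP q (3 * r)) ≤ arm q (3 * r) * barm q r D := e2
        _ = (2:ℝ)^188 * (1/2)^188 * (arm q (3 * r) * barm q r D) := by rw [e3, one_mul]
        _ = 2 ^ 188 * ((1/2 : ℝ)^188 * (arm q (3 * r) * barm q r D)) := by ring
        _ ≤ _ := mul_le_mul_of_nonneg_left e (by positivity)
    have h2 : barm q r D ≤ 2 ^ 188 * (C / c) * WV * (vP q D / vP q r) := by
      have e4 : barm q r D * (c * vP q r) ≤ WV * (2 ^ 188 * (C * vP q D)) := by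
        calc barm q r D * (c * vP q r) ≤ barm q r D * (c * (WV * vP q (3 * r))) := by
              apply mul_le_mul_of_nonneg_left _ hb
              exact mul_le_mul_of_nonneg_left v3' hc.le
          _ = WV * (barm q r D * (c * vP q (3 * r))) := by ring
          _ ≤ _ := mul_le_mul_of_nonneg_left h1 (by linarith)
      have e5 : 2 ^ 188 * (C / c) * WV * (vP q D / vP q r) =
          (WV * (2 ^ 188 * (C * vP q D))) / (c * vP q r) := by
        field_simp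
      rw [e5, le_div_iff₀ (by positivity)]
      exact e4
    refine h2.trans (mul_le_mul_of_nonneg_right ?_ hq0.le)
    linarith
  · have h1 : vP q r ≤ WV * vP q D := hv.dbl r D hr hrD (by omega)
    have h2 : 1 ≤ WV * (vP q D / vP q r) := by
      rw [← mul_div_assoc, le_div_iff₀ vr, one_mul]
      exact h1
    refine (barm_le_one h0 q1 _ _).trans (h2.trans (mul_le_mul_of_nonneg_right ?_ hq0.le))
    have : 0 < 2 ^ 188 * (C / c) * WV := by positivity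
    linarith

/-! ### below the critical point -/

/-- A crossing of an annulus from inside prevents the closed dual circuit. -/
theorem not_blk_of_barm {F : Finset Edg} {R1 R2 : ℤ} (h1 : 0 ≤ R1) (h2 : R1 < R2) {u v : Vtx}
    (hu : inR (-R1) R1 (-R1) R1 u)
    (h : Reach (↑F : Set Edg) u v) (hv : v.1 ≤ -R2 ∨ R2 ≤ v.1 ∨ v.2 ≤ -R2 ∨ R2 ≤ v.2) :
    ¬ Blk R1 R2 F := by
  unfold inR at hu
  obtain ⟨w, k1, k2, k3⟩ := first_exit (a := -R2) (b := R2) (c := -R2) (d := R2)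
    (by unfold inR; omega) h hv
  rintro ⟨hb1, hb2⟩
  rcases k2 with k2 | k2 | k2 | k2
  · apply hb1
    right
    obtain ⟨y1, y2, m1, m2, m3, -⟩ := sub_LR (a := -R2) (b := -R1) (c := -R2) (d := R2) (by omega)
      (by rintro x y ⟨-, h⟩ _ _; simp only [mem_coe, mem_RE_true] at h; omega)
      (by rintro x y ⟨-, h⟩ _ _; simp only [mem_coe, mem_RE_false] at h; omega)
      k3.symm k2.le (show -R1 ≤ u.1 by omega)
    exact ⟨y1, y2, m1, m2, m3.mono (by rintro e ⟨⟨h4, -⟩, h5⟩; exact ⟨h4, h5⟩)⟩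
  · apply hb1
    left
    obtain ⟨y1, y2, m1, m2, m3, -⟩ := sub_LR (a := R1) (b := R2) (c := -R2) (d := R2) (by omega)
      (by rintro x y ⟨-, h⟩ _ _; simp only [mem_coe, mem_RE_true] at h; omega)
      (by rintro x y ⟨-, h⟩ _ _; simp only [mem_coe, mem_RE_false] at h; omega)
      k3 (show u.1 ≤ R1 by omega) k2.ge
    exact ⟨y1, y2, m1, m2, m3.mono (by rintro e ⟨⟨h4, -⟩, h5⟩; exact ⟨h4, h5⟩)⟩
  · apply hb2
    right
    obtain ⟨y1, y2, m1, m2, m3, -⟩ := sub_TB (a := -R2) (b := R2) (c := -R2) (d := -R1) (by omega)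
      (by rintro x y ⟨-, h⟩ _ _; simp only [mem_coe, mem_RE_false] at h; omega)
      (by rintro x y ⟨-, h⟩ _ _; simp only [mem_coe, mem_RE_true] at h; omega)
      k3.symm k2.le (show -R1 ≤ u.2 by omega)
    exact ⟨y1, y2, m1, m2, m3.mono (by rintro e ⟨⟨h4, -⟩, h5⟩; exact ⟨h4, h5⟩)⟩
  · apply hb2
    left
    obtain ⟨y1, y2, m1, m2, m3, -⟩ := sub_TB (a := -R2) (b := R2) (c := R1) (d := R2) (by omega)
      (by rintro x y ⟨-, h⟩ _ _; simp only [mem_coe, mem_RE_false] at h; omega)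
      (by rintro x y ⟨-, h⟩ _ _; simp only [mem_coe, mem_RE_true] at h; omega)
      k3 (show u.2 ≤ R1 by omega) k2.ge
    exact ⟨y1, y2, m1, m2, m3.mono (by rintro e ⟨⟨h4, -⟩, h5⟩; exact ⟨h4, h5⟩)⟩

/-- The decay of the probability that there is no closed dual circuit. -/
theorem nblk_exp : ∃ c C : ℝ, 0 < c ∧ 0 < C ∧ ∀ p : ℝ, 0 ≤ p → p ≤ 1/2 → ∀ M : ℕ, 1 ≤ M →
    ∀ S : Finset Edg, annE M (2 * M) ⊆ S →
    Pr (fun _ => p) S (fun F => ¬ Blk ((M : ℕ) : ℤ) ((2 * M : ℕ) : ℤ) F) ≤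
      C * Real.exp (-(c * (M * (1/2 - p)^(4/3 : ℝ)))) := by
  obtain ⟨c, C, hc, hC, h⟩ := win_upper 4 (by norm_num)
  refine ⟨c, 4 * C, hc, by positivity, ?_⟩
  intro p h0 h1 M hM S hS
  have ok := okq h0 (by linarith : p ≤ 1)
  have hM' : (1:ℤ) ≤ M := by exact_mod_cast hM
  obtain ⟨n, hn⟩ : ∃ n : ℤ, n = (M:ℤ) := ⟨_, rfl⟩
  obtain ⟨s1, s2, s3, s4⟩ := ann_sub (n := M) (m := 2 * M) (by omega)
  have c2 : ((2 * M : ℕ) : ℤ) = 2 * n := by push_cast; rw [hn]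
  have hn1 : 1 ≤ n := by omega
  rw [c2, ← hn] at s1 s2 s3 s4 ⊢
  have e1 : Pr (fun _ => p) S (LRc n (2 * n) (-(2 * n)) (2 * n)) = hh p n (4 * n) := by
    rw [pr_LRc p (s1.trans hS)]
    congr 1 <;> ring
  have e2 : Pr (fun _ => p) S (LRc (-(2 * n)) (-n) (-(2 * n)) (2 * n)) = hh p n (4 * n) := by
    rw [pr_LRc p (s2.trans hS)]
    congr 1 <;> ring
  have e3 : Pr (fun _ => p) S (TBc (-(2 * n)) (2 * n) n (2 * n)) = hh p n (4 * n) := by
    rw [pr_TBc p (s3.trans hS)]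
    congr 1 <;> ring
  have e4 : Pr (fun _ => p) S (TBc (-(2 * n)) (2 * n) (-(2 * n)) (-n)) = hh p n (4 * n) := by
    rw [pr_TBc p (s4.trans hS)]
    congr 1 <;> ring
  have i1 : Pr (fun _ => p) S (fun F => ¬ Blk n (2 * n) F) ≤
      Pr (fun _ => p) S (fun F =>
      ((LRc n (2 * n) (-(2 * n)) (2 * n) F ∨
        LRc (-(2 * n)) (-n) (-(2 * n)) (2 * n) F)) ∨
      (TBc (-(2 * n)) (2 * n) n (2 * n) F ∨
        TBc (-(2 * n)) (2 * n) (-(2 * n)) (-n) F)) := by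
    apply Pr_mono ok
    intro F _ h
    unfold Blk at h
    tauto
  have i2 := Pr_or_le ok S (fun F => LRc n (2 * n) (-(2 * n)) (2 * n) F ∨
        LRc (-(2 * n)) (-n) (-(2 * n)) (2 * n) F)
      (fun F => TBc (-(2 * n)) (2 * n) n (2 * n) F ∨
        TBc (-(2 * n)) (2 * n) (-(2 * n)) (-n) F)
  have i3 := Pr_or_le ok S (LRc n (2 * n) (-(2 * n)) (2 * n))
    (LRc (-(2 * n)) (-n) (-(2 * n)) (2 * n))
  have i4 := Pr_or_le ok S (TBc (-(2 * n)) (2 * n) n (2 * n))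
    (TBc (-(2 * n)) (2 * n) (-(2 * n)) (-n))
  rw [e1, e2] at i3
  rw [e3, e4] at i4
  have h5 := h p h0 h1 M (4 * M) hM (by omega) (by omega)
  have c3 : ((4 * M : ℕ) : ℤ) = 4 * n := by push_cast; rw [hn]
  rw [c3, ← hn] at h5
  linarith

/-- Splitting at the scale `M`. -/
theorem barm_split {p : ℝ} (h0 : 0 ≤ p) (h1 : p ≤ 1) {r M D : ℕ} (hM : 1 ≤ M) (hrM : r ≤ M)
    (hD : 2 * M ≤ D) : barm p r D ≤ barm p r M *
      Pr (fun _ => p) (annE M (2 * M)) (fun F => ¬ Blk ((M : ℕ) : ℤ) ((2 * M : ℕ) : ℤ) F) := by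
  have ok := okq h0 h1
  have s1 : boxE M ⊆ boxE D := boxE_mono (by omega)
  have s2 : annE M (2 * M) ⊆ boxE D := (annE_sub _ _).trans (boxE_mono hD)
  have hd : Disjoint (boxE M) (annE M (2 * M)) := by
    unfold annE
    exact Finset.disjoint_sdiff
  have h4 := Pr_indep (p := fun _ => p) s1 s2 hd (A := BArm r M)
    (B := fun F => ¬ Blk ((M : ℕ) : ℤ) ((2 * M : ℕ) : ℤ) F)
    (fun F _ => BArm_local (Finset.Subset.refl _))
    (fun F _ => Blk_loc (by omega) (Finset.Subset.refl _) F)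
  have h5 : Pr (fun _ => p) (boxE D) (fun F => ¬ Blk ((M : ℕ) : ℤ) ((2 * M : ℕ) : ℤ) F) =
      Pr (fun _ => p) (annE M (2 * M))
        (fun F => ¬ Blk ((M : ℕ) : ℤ) ((2 * M : ℕ) : ℤ) F) :=
    Pr_local s2 (fun F _ => Blk_loc (by omega) (Finset.Subset.refl _) F)
  rw [pr_BArm p s1, h5] at h4
  rw [← h4]
  unfold barm
  apply Pr_mono ok
  rintro F _ ⟨u, v, hu, hv, hr⟩
  have hrM' : (r:ℤ) ≤ M := by exact_mod_cast hrM
  have hD' : (2:ℤ) * M ≤ D := by exact_mod_cast hD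
  constructor
  · obtain ⟨w, k1, k2, k3⟩ := first_exit (a := -(M:ℤ)) (b := M) (c := -(M:ℤ)) (d := M)
      (by unfold inR at hu ⊢; omega) hr (by unfold onB at hv; omega)
    refine ⟨u, w, hu, ⟨k1, k2⟩, k3.mono ?_⟩
    rintro e ⟨⟨k4, -⟩, k5⟩
    exact ⟨k4, k5⟩
  · apply not_blk_of_barm (u := u) (v := v) (by positivity) (by push_cast; omega) _
      (hr.mono Set.inter_subset_left)
    · unfold onB at hv
      push_cast
      omega
    · unfold inR at hu ⊢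
      omega

/-- One arm below the critical point. -/
theorem barm_sub : ∃ C : ℝ, 1 ≤ C ∧ ∀ q : ℝ, 0 ≤ q → q ≤ 1/2 → ∀ r D : ℕ, 1 ≤ r → r ≤ D →
    barm q r D ≤ C * (vS q D / vS q r) := by
  obtain ⟨C1, hC1, hcr⟩ := barm_sup
  obtain ⟨c2, C2, hc2, hC2, hdec⟩ := nblk_exp
  obtain ⟨K, hK, hKe⟩ := Pool.Agent.NH39.W.cube_exp (c := c2 / 3) (by positivity)
  have hW := WV_one
  refine ⟨WV + C1 * WV * (C2 * K), by
    have : 0 < C1 * WV * (C2 * K) := by positivity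
    linarith, ?_⟩
  intro q q0 q1 r D hr hrD
  have q1' : q ≤ 1 := by linarith
  have hv := vS_wgt q
  have vr := hv.pos r hr
  have vD := hv.pos D (hr.trans hrD)
  have hq0 : 0 < vS q D / vS q r := by positivity
  have habs : |q - 1/2| = 1/2 - q := by rw [abs_sub_comm, abs_of_nonneg (by linarith)]
  obtain ⟨l, hl⟩ : ∃ l : ℝ, l = |q - 1/2| ^ (4/3 : ℝ) := ⟨_, rfl⟩
  have hl0 : 0 ≤ l := by rw [hl]; positivity
  have hl' : l = (1/2 - q) ^ (4/3 : ℝ) := by rw [hl, habs]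
  by_cases h3 : 2 * r ≤ D
  · obtain ⟨M, hM⟩ : ∃ M : ℕ, M = D / 2 := ⟨_, rfl⟩
    have hM1 : 1 ≤ M := by omega
    have hrM : r ≤ M := by omega
    have hMD : 2 * M ≤ D := by omega
    have hDM : D ≤ 3 * M := by omega
    have g1 := barm_split q0 q1' hM1 hrM hMD
    have g2 := hdec q q0 q1 M hM1 (annE M (2 * M)) (Finset.Subset.refl _)
    have g3 : barm q r M ≤ C1 * ((r:ℝ) / M) ^ (5/48 : ℝ) := by
      refine (barm_mono_param q0 q1 (by norm_num) r M).trans ((hcr (1/2) le_rfl (by norm_num) r M hr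
        hrM).trans (le_of_eq ?_))
      have hr0 : (0:ℝ) < r := by exact_mod_cast hr
      have hM0 : (0:ℝ) < M := by exact_mod_cast hM1
      congr 1
      unfold vP
      rw [sub_self, abs_zero, Real.zero_rpow (by norm_num), max_eq_left (by positivity),
        max_eq_left (by positivity), Real.div_rpow hr0.le hM0.le, Real.rpow_neg hr0.le,
        Real.rpow_neg hM0.le]
      field_simp
    have hr0 : (0:ℝ) < r := by exact_mod_cast hr
    have hM0 : (0:ℝ) < M := by exact_mod_cast hM1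
    have hD0 : (0:ℝ) < D := by exact_mod_cast (by omega : 0 < D)
    have hDM' : (D:ℝ) ≤ 3 * M := by exact_mod_cast hDM
    have g4 : ((r:ℝ) / M) ^ (5/48 : ℝ) ≤ WV * ((r:ℝ) / D) ^ (5/48 : ℝ) := by
      have e1 : (r:ℝ) / M ≤ 8 * ((r:ℝ) / D) := by
        rw [← mul_div_assoc, div_le_div_iff₀ hM0 hD0]
        nlinarith
      have e2 : ((r:ℝ) / M) ^ (5/48 : ℝ) ≤ (8 * ((r:ℝ) / D)) ^ (5/48 : ℝ) :=
        Real.rpow_le_rpow (by positivity) e1 (by norm_num)
      rw [Real.mul_rpow (by norm_num) (by positivity)] at e2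
      refine e2.trans (mul_le_mul_of_nonneg_right ?_ (by positivity))
      have := WV_ge
      have h8 : 0 < (8:ℝ) ^ (5/48 : ℝ) := by positivity
      linarith
    have g5 : Real.exp (-(c2 * (M * (1/2 - q)^(4/3 : ℝ)))) ≤
        K * ((1 + l * r) / (1 + l * D)) := by
      rw [← hl']
      have e1 : Real.exp (-(c2 * (M * l))) ≤ Real.exp (-(c2 / 3 * (l * D))) := by
        apply Real.exp_le_exp.2
        have : l * D ≤ l * (3 * M) := mul_le_mul_of_nonneg_left hDM' hl0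
        nlinarith
      have e2 := hKe (l * D) (by positivity)
      refine (e1.trans e2).trans ?_
      rw [div_eq_mul_one_div]
      apply mul_le_mul_of_nonneg_left _ hK.le
      rw [div_le_div_iff₀ (by positivity) (by positivity), one_mul]
      have e3 : 1 ≤ 1 + l * D := by
        have : 0 ≤ l * D := by positivity
        linarith
      have e4 : 1 + l * D ≤ (1 + l * D) ^ 3 := by
        have := pow_le_pow_right₀ e3 (show 1 ≤ 3 by norm_num)
        simpa using this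
      have e5 : 0 ≤ l * r * (1 + l * D) ^ 3 := by positivity
      nlinarith
    have hP0 : 0 ≤ Pr (fun _ => q) (annE M (2 * M))
        (fun F => ¬ Blk ((M : ℕ) : ℤ) ((2 * M : ℕ) : ℤ) F) := Pr_nonneg (okq q0 q1') _ _
    have g6 : barm q r D ≤ C1 * WV * (C2 * K) * (vS q D / vS q r) := by
      rw [vS_ratio hr hrD, ← hl]
      calc barm q r D ≤ _ := g1
        _ ≤ (C1 * (WV * ((r:ℝ) / D) ^ (5/48 : ℝ))) *
            (C2 * (K * ((1 + l * r) / (1 + l * D)))) := by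
            apply mul_le_mul (g3.trans (mul_le_mul_of_nonneg_left g4 (by linarith))) _ hP0
              (by positivity)
            exact g2.trans (mul_le_mul_of_nonneg_left g5 hC2.le)
        _ = _ := by ring
    refine g6.trans (mul_le_mul_of_nonneg_right ?_ hq0.le)
    linarith
  · have h1 : vS q r ≤ WV * vS q D := hv.dbl r D hr hrD (by omega)
    have h2 : 1 ≤ WV * (vS q D / vS q r) := by
      rw [← mul_div_assoc, le_div_iff₀ vr, one_mul]
      exact h1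
    refine (barm_le_one q0 q1' _ _).trans (h2.trans (mul_le_mul_of_nonneg_right ?_ hq0.le))
    have : 0 < C1 * WV * (C2 * K) := by positivity
    linarith

end Pool.Agent.H30.PT
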