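import Pool.Graph.R_pool_sql_team_seeded_3dad9d7b.NH39.W.SecA

/-!
Analytic continuation to a sector of a real function with bounds for its derivatives of all orders
on an interval which does not contain `1/2` (complex analysis only).
-/

set_option autoImplicit false

namespace Pool.Agent.H30.PT.Sect

open Set Filter Topology
open Pool.Agent.NH39.W.SecA (co G tay G_diff G_sum norm_sub_re)
open scoped ContDiff Nat

/-- The hypotheses. -/
structure Hyp (f : ℝ → ℝ) (a b C : ℝ) (V : ℝ → ℝ) : Prop where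
  hC : 1 ≤ C
  ha : 0 ≤ a
  hb : b ≤ 1
  hh : ∀ p ∈ Ioo a b, p ≠ 1/2
  smooth : ∀ p ∈ Ioo a b, ContDiffAt ℝ ∞ f p
  bd : ∀ p ∈ Ioo a b, ∀ k : ℕ, |iteratedDeriv k f p| ≤ C ^ k * k ! * (|p - 1/2|⁻¹) ^ k * V p
  loc : ∀ δ : ℝ, 0 < δ → ∃ M : ℝ, 0 ≤ M ∧ ∀ p ∈ Ioo a b, δ ≤ |p - 1/2| → V p ≤ M

variable {f : ℝ → ℝ} {a b C : ℝ} {V : ℝ → ℝ}

theorem Hyp.vnn (H : Hyp f a b C V) {p : ℝ} (hp : p ∈ Ioo a b) : 0 ≤ V p := by
  have h := (abs_nonneg _).trans (H.bd p hp 0)
  simpa using h

theorem Hyp.spos (H : Hyp f a b C V) {p : ℝ} (hp : p ∈ Ioo a b) : 0 < |p - 1/2| :=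
  abs_pos.2 (sub_ne_zero.2 (H.hh p hp))

theorem Hyp.cpos (H : Hyp f a b C V) : 0 < C := lt_of_lt_of_le one_pos H.hC

theorem co_all (H : Hyp f a b C V) {p : ℝ} (hp : p ∈ Ioo a b) (k : ℕ) :
    |co f p k| ≤ V p * (C / |p - 1/2|) ^ k := by
  have hs := H.spos hp
  have hf : (0 : ℝ) < k ! := by exact_mod_cast Nat.factorial_pos k
  unfold co
  rw [abs_div, abs_of_pos hf, div_le_iff₀ hf]
  refine (H.bd p hp k).trans (le_of_eq ?_)
  rw [div_pow, inv_pow]
  field_simp

theorem G_hol (H : Hyp f a b C V) {p : ℝ} (hp : p ∈ Ioo a b) :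
    DifferentiableOn ℂ (G f p) (Metric.ball (p : ℂ) (|p - 1/2| / (4 * C))) := by
  have hs := H.spos hp
  have hC := H.cpos
  refine (G_diff (div_pos hC hs) (co_all H hp)).mono (Metric.ball_subset_ball ?_)
  generalize |p - 1/2| = s at hs
  rw [div_le_div_iff₀ (by positivity) (by positivity)]
  field_simp
  norm_num

/-- `G f p` extends `f` -/
theorem G_real (H : Hyp f a b C V) {p : ℝ} (hp : p ∈ Ioo a b) {x : ℝ}
    (hx0 : x ∈ Ioo a b) (hx : |x - p| < |p - 1/2| / (4 * C)) : G f p x = f x := by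
  have hs := H.spos hp
  have hC := H.cpos
  have hC1 := H.hC
  have hB := co_all H hp
  set s := |p - 1/2| with hsdef
  have hx4 : |x - p| < s / 4 := by
    refine lt_of_lt_of_le hx ?_
    rw [div_le_div_iff₀ (by positivity) (by norm_num)]
    nlinarith
  have hbet : ∀ y ∈ uIcc p x, y ∈ Ioo a b ∧ s / 2 ≤ |y - 1/2| := by
    intro y hy
    have hy1 : |y - p| ≤ |x - p| := abs_sub_left_of_mem_uIcc hy
    have hy2 : s ≤ |y - 1/2| + |y - p| := by
      rw [hsdef]
      calc |p - 1/2| = |(y - 1/2) - (y - p)| := by ring_nf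
        _ ≤ _ := abs_sub _ _
    refine ⟨⟨?_, ?_⟩, by linarith⟩
    · exact lt_of_lt_of_le (lt_min hp.1 hx0.1) hy.1
    · exact lt_of_le_of_lt hy.2 (max_lt hp.2 hx0.2)
  obtain ⟨M, hM0, hM⟩ := H.loc (s / 2) (by positivity)
  have hsum : Summable fun k : ℕ => co f p k * (x - p) ^ k := by
    have h3 := G_sum (z := (x : ℂ)) (div_pos hC hs) hB (by
      rw [← Complex.ofReal_sub, Complex.norm_real, Real.norm_eq_abs]
      refine hx.le.trans ?_
      rw [div_le_div_iff₀ (by positivity) (by positivity)]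
      field_simp
      norm_num)
    rw [← Complex.summable_ofReal]
    refine h3.congr fun k => ?_
    push_cast
    rfl
  have hlim : Tendsto (fun n => ∑ k ∈ Finset.range (n + 1), co f p k * (x - p) ^ k) atTop
      (𝓝 (f x)) := by
    by_cases hpx : p = x
    · subst hpx
      have : ∀ n, ∑ k ∈ Finset.range (n + 1), co f p k * (p - p) ^ k = f p := by
        intro n
        rw [Finset.sum_range_succ']
        simp [co]
      simp only [this]
      exact tendsto_const_nhds
    · have hbd : ∀ n : ℕ, |∑ k ∈ Finset.range (n + 1), co f p k * (x - p) ^ k - f x| ≤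
          M * (1 / 2) ^ (n + 1) := by
        intro n
        obtain ⟨y, hy, h⟩ := tay hpx (fun y hy => H.smooth y (hbet y hy).1) n
        have hyI : y ∈ uIcc p x := uIoo_subset_uIcc_self hy
        obtain ⟨hy0, hy2⟩ := hbet y hyI
        rw [abs_sub_comm, h, abs_mul, abs_pow]
        have h3 := co_all H hy0 (n + 1)
        have h5 := hM y hy0 hy2
        have h6 : (C / |y - 1/2|) * |x - p| ≤ 1 / 2 := by
          have h7 : 0 < |y - 1/2| := by linarith
          rw [div_mul_eq_mul_div, div_le_iff₀ h7]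
          have h8 : |x - p| * (4 * C) < s := (lt_div_iff₀ (by positivity)).1 hx
          nlinarith
        calc |co f y (n + 1)| * |x - p| ^ (n + 1)
            ≤ (V y * (C / |y - 1/2|) ^ (n + 1)) * |x - p| ^ (n + 1) :=
              mul_le_mul_of_nonneg_right h3 (by positivity)
          _ = V y * ((C / |y - 1/2|) * |x - p|) ^ (n + 1) := by
              rw [mul_assoc, mul_pow]
          _ ≤ M * (1 / 2) ^ (n + 1) := by
              apply mul_le_mul h5 (pow_le_pow_left₀ (by positivity) h6 _) (by positivity) hM0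
      rw [tendsto_iff_norm_sub_tendsto_zero]
      refine squeeze_zero (fun n => norm_nonneg _) hbd ?_
      have h3 : Tendsto (fun n : ℕ => ((1 : ℝ) / 2) ^ (n + 1)) atTop (𝓝 0) :=
        (tendsto_pow_atTop_nhds_zero_of_lt_one (by norm_num) (by norm_num)).comp
          (tendsto_add_atTop_nat 1)
      have h4 := h3.const_mul M
      rwa [mul_zero] at h4
  have hval : ∑' k : ℕ, co f p k * (x - p) ^ k = f x := by
    have h3 := hsum.hasSum.tendsto_sum_nat
    have h4 := h3.comp (tendsto_add_atTop_nat 1)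
    exact tendsto_nhds_unique h4 hlim
  unfold G
  rw [← hval, Complex.ofReal_tsum]
  refine tsum_congr fun k => ?_
  push_cast
  rfl

/-- two series agree -/
theorem G_agree (H : Hyp f a b C V) {p q : ℝ} (hp : p ∈ Ioo a b) (hq : q ∈ Ioo a b)
    (hpq : |p - q| < |q - 1/2| / (4 * C)) {z : ℂ}
    (hz : z ∈ Metric.ball (p : ℂ) (|p - 1/2| / (4 * C)))
    (hz' : z ∈ Metric.ball (q : ℂ) (|q - 1/2| / (4 * C))) : G f p z = G f q z := by
  have hs := H.spos hp
  have hC := H.cpos
  set U := Metric.ball (p : ℂ) (|p - 1/2| / (4 * C)) ∩ Metric.ball (q : ℂ) (|q - 1/2| / (4 * C))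
    with hU
  have hUo : IsOpen U := Metric.isOpen_ball.inter Metric.isOpen_ball
  have hUc : IsPreconnected U := ((convex_ball _ _).inter (convex_ball _ _)).isPreconnected
  have hpU : (p : ℂ) ∈ U := by
    refine ⟨Metric.mem_ball_self (by positivity), ?_⟩
    rw [Metric.mem_ball, dist_eq_norm, ← Complex.ofReal_sub, Complex.norm_real, Real.norm_eq_abs]
    exact hpq
  have hA : AnalyticOnNhd ℂ (G f p) U :=
    ((G_hol H hp).mono inter_subset_left).analyticOnNhd hUo
  have hB : AnalyticOnNhd ℂ (G f q) U :=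
    ((G_hol H hq).mono inter_subset_right).analyticOnNhd hUo
  refine hA.eqOn_of_preconnected_of_frequently_eq hB hUc hpU ?_ ⟨hz, hz'⟩
  have ht : Tendsto (fun x : ℝ => (x : ℂ)) (𝓝[≠] p) (𝓝[≠] (p : ℂ)) := by
    apply tendsto_nhdsWithin_of_tendsto_nhds_of_eventually_within
    · exact (Complex.continuous_ofReal.tendsto p).mono_left nhdsWithin_le_nhds
    · filter_upwards [self_mem_nhdsWithin] with x hx
      intro h
      exact hx (Complex.ofReal_injective h)
  refine ht.frequently ?_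
  refine Eventually.frequently ?_
  have e0 : ∀ᶠ x : ℝ in 𝓝[≠] p, x ∈ Ioo a b := nhdsWithin_le_nhds (isOpen_Ioo.mem_nhds hp)
  have e2 : ∀ᶠ x : ℝ in 𝓝[≠] p, |x - p| < |p - 1/2| / (4 * C) := by
    apply nhdsWithin_le_nhds
    have hc : Continuous fun x : ℝ => |x - p| := by fun_prop
    apply (hc.tendsto p).eventually_lt_const
    rw [sub_self, abs_zero]
    positivity
  have e3 : ∀ᶠ x : ℝ in 𝓝[≠] p, |x - q| < |q - 1/2| / (4 * C) := by
    apply nhdsWithin_le_nhds
    have hc : Continuous fun x : ℝ => |x - q| := by fun_prop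
    exact (hc.tendsto p).eventually_lt_const hpq
  filter_upwards [e0, e2, e3] with x x0 x2 x3
  rw [G_real H hp x0 x2, G_real H hq x0 x3]

/-- The sector over an interval. -/
def sec (a b c : ℝ) : Set ℂ := {z | |z.im| < c * |z.re - 1/2| ∧ a < z.re ∧ z.re < b}

theorem sec_open (a b c : ℝ) : IsOpen (sec a b c) := by
  have c1 : Continuous fun z : ℂ => |z.im| := by fun_prop
  have c2 : Continuous fun z : ℂ => c * |z.re - 1/2| := by fun_prop
  have c3 : Continuous fun z : ℂ => z.re := Complex.continuous_re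
  exact (isOpen_lt c1 c2).inter ((isOpen_lt continuous_const c3).inter
    (isOpen_lt c3 continuous_const))

/-- the continuation -/
noncomputable def K (f : ℝ → ℝ) (z : ℂ) : ℂ := G f z.re z

theorem K_diff (H : Hyp f a b C V) : DifferentiableOn ℂ (K f) (sec a b (1 / (8 * C))) := by
  have hC := H.cpos
  intro w hw
  obtain ⟨hw1, hw3, hw4⟩ := hw
  have hwI : w.re ∈ Ioo a b := ⟨hw3, hw4⟩
  have hs := H.spos hwI
  have hlt : (1 / (8 * C)) * |w.re - 1/2| < |w.re - 1/2| / (4 * C) := by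
    rw [div_mul_eq_mul_div, one_mul, div_lt_div_iff₀ (by positivity) (by positivity)]
    nlinarith
  have hwb : w ∈ Metric.ball (w.re : ℂ) (|w.re - 1/2| / (4 * C)) := by
    rw [Metric.mem_ball, dist_eq_norm, norm_sub_re]
    exact hw1.trans hlt
  have hd : DifferentiableAt ℂ (G f w.re) w :=
    (G_hol H hwI).differentiableAt (Metric.isOpen_ball.mem_nhds hwb)
  refine DifferentiableAt.differentiableWithinAt (hd.congr_of_eventuallyEq ?_)
  have e1 : ∀ᶠ z in 𝓝 w, z ∈ sec a b (1 / (8 * C)) :=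
    (sec_open a b (1 / (8 * C))).mem_nhds ⟨hw1, hw3, hw4⟩
  have e4 : ∀ᶠ z in 𝓝 w, z ∈ Metric.ball (w.re : ℂ) (|w.re - 1/2| / (4 * C)) :=
    Metric.isOpen_ball.mem_nhds hwb
  have e5 : ∀ᶠ z : ℂ in 𝓝 w, |z.re - w.re| < |w.re - 1/2| / (4 * C) := by
    have hc : Continuous fun z : ℂ => |z.re - w.re| := by fun_prop
    apply (hc.tendsto w).eventually_lt_const
    simp only [sub_self, abs_zero]
    positivity
  filter_upwards [e1, e4, e5] with z hz z4 z5
  obtain ⟨z1, z2, z3⟩ := hz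
  have hsz := H.spos (⟨z2, z3⟩ : z.re ∈ Ioo a b)
  refine G_agree H ⟨z2, z3⟩ hwI z5 ?_ z4
  rw [Metric.mem_ball, dist_eq_norm, norm_sub_re]
  refine z1.trans ?_
  rw [div_mul_eq_mul_div, one_mul, div_lt_div_iff₀ (by positivity) (by positivity)]
  nlinarith

theorem K_real (H : Hyp f a b C V) {p : ℝ} (hp : p ∈ Ioo a b) : K f p = f p := by
  have hs := H.spos hp
  have hC := H.cpos
  unfold K
  rw [Complex.ofReal_re]
  apply G_real H hp hp
  rw [sub_self, abs_zero]
  positivity

/-- The value of the local series is close to the value at the centre. -/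
theorem G_near (H : Hyp f a b C V) {ε : ℝ} (hε : 0 < ε) (hε1 : ε ≤ 1/8) {p : ℝ}
    (hp : p ∈ Ioo a b) {z : ℂ} (hz : ‖z - p‖ ≤ ε * |p - 1/2| / C) :
    ‖G f p z - f p‖ ≤ 2 * ε * V p := by
  have hC := H.cpos
  have hC1 := H.hC
  have hs := H.spos hp
  have hV := H.vnn hp
  set s := |p - 1/2| with hsdef
  set u : ℂ := z - p with hu
  have hB := co_all H hp
  have hsum : Summable fun k : ℕ => (co f p k : ℂ) * (z - p) ^ k := by
    apply G_sum (div_pos hC hs) hB
    rw [← hu]
    refine hz.trans ?_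
    rw [div_le_div_iff₀ (by positivity) (by positivity)]
    field_simp
    linarith
  have hsplit : G f p z - f p = ∑' k : ℕ, (co f p (k + 1) : ℂ) * u ^ (k + 1) := by
    unfold G
    rw [hsum.tsum_eq_zero_add]
    simp [co, ← hu]
  rw [hsplit]
  have hb : ∀ k : ℕ, ‖(co f p (k + 1) : ℂ) * u ^ (k + 1)‖ ≤ V p * ε * (1 / 2) ^ k := by
    intro k
    rw [norm_mul, norm_pow, Complex.norm_real, Real.norm_eq_abs]
    have h4 : (C / s) * ‖u‖ ≤ ε := by
      rw [div_mul_eq_mul_div, div_le_iff₀ hs]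
      have h5 : ‖u‖ * C ≤ ε * s := (le_div_iff₀ hC).1 hz
      linarith
    calc |co f p (k + 1)| * ‖u‖ ^ (k + 1) ≤ (V p * (C / s) ^ (k + 1)) * ‖u‖ ^ (k + 1) :=
          mul_le_mul_of_nonneg_right (hB (k + 1)) (by positivity)
      _ = V p * ((C / s) * ‖u‖) ^ (k + 1) := by rw [mul_assoc, mul_pow]
      _ ≤ V p * ε ^ (k + 1) := by
          apply mul_le_mul_of_nonneg_left _ hV
          exact pow_le_pow_left₀ (by positivity) h4 _
      _ = V p * ε * ε ^ k := by ring
      _ ≤ V p * ε * (1 / 2) ^ k := by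
          apply mul_le_mul_of_nonneg_left _ (by positivity)
          exact pow_le_pow_left₀ hε.le (by linarith) k
  have ht := tsum_of_norm_bounded (hasSum_geometric_two.mul_left (V p * ε)) hb
  linarith

/-- The value of the continuation is close to the value at the real part. -/
theorem K_near (H : Hyp f a b C V) {ε : ℝ} (hε : 0 < ε) (hε1 : ε ≤ 1/8) {z : ℂ}
    (hz : z ∈ sec a b (ε / C)) : ‖K f z - f z.re‖ ≤ 2 * ε * V z.re := by
  obtain ⟨z1, z2, z3⟩ := hz
  unfold K
  apply G_near H hε hε1 ⟨z2, z3⟩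
  rw [norm_sub_re]
  refine z1.le.trans (le_of_eq ?_)
  ring

theorem sec_mono {a b c c' : ℝ} (h : c ≤ c') : sec a b c ⊆ sec a b c' := by
  rintro z ⟨h1, h2⟩
  exact ⟨lt_of_lt_of_le h1 (mul_le_mul_of_nonneg_right h (abs_nonneg _)), h2⟩

theorem K_diff' (H : Hyp f a b C V) {ε : ℝ} (hε1 : ε ≤ 1/8) :
    DifferentiableOn ℂ (K f) (sec a b (ε / C)) := by
  have hC := H.cpos
  refine (K_diff H).mono (sec_mono ?_)
  rw [div_le_div_iff₀ hC (by positivity)]
  nlinarith

/-! ### real and complex derivatives -/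

/-- The real and the complex derivatives of a real function with a holomorphic extension. -/
theorem real_deriv {F : ℂ → ℂ} {U : Set ℂ} (hU : IsOpen U) (hF : DifferentiableOn ℂ F U)
    {f : ℝ → ℝ} {I : Set ℝ} (hI : IsOpen I) (hIU : ∀ x ∈ I, (x : ℂ) ∈ U)
    (hf : ∀ x ∈ I, F x = f x) (k : ℕ) :
    ∀ x ∈ I, iteratedDeriv k F x = iteratedDeriv k f x := by
  induction k with
  | zero =>
    intro x hx
    rw [iteratedDeriv_zero, iteratedDeriv_zero]
    exact hf x hx
  | succ k ih =>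
    intro x hx
    rw [iteratedDeriv_succ, iteratedDeriv_succ]
    have hA : AnalyticOnNhd ℂ (iteratedDeriv k F) U := by
      rw [iteratedDeriv_eq_iterate]
      exact (hF.analyticOnNhd hU).iterated_deriv k
    have hd : HasDerivAt (iteratedDeriv k F) (deriv (iteratedDeriv k F) x) (x : ℂ) :=
      (hA x (hIU x hx)).differentiableAt.hasDerivAt
    have h1 := hd.real_of_complex
    have e1 : (fun y : ℝ => (iteratedDeriv k F y).re) =ᶠ[𝓝 x] iteratedDeriv k f := by
      filter_upwards [hI.mem_nhds hx] with y hy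
      rw [ih y hy, Complex.ofReal_re]
    have h2 : HasDerivAt (iteratedDeriv k f) (deriv (iteratedDeriv k F) x).re x :=
      h1.congr_of_eventuallyEq e1.symm
    rw [h2.deriv]
    have h3 := hd.comp_ofReal
    have h4 : HasDerivAt (fun y : ℝ => ((iteratedDeriv k f y : ℝ) : ℂ))
        (((deriv (iteratedDeriv k F) x).re : ℝ) : ℂ) x := h2.ofReal_comp
    have e2 : (fun y : ℝ => iteratedDeriv k F (y : ℂ)) =ᶠ[𝓝 x]
        fun y : ℝ => ((iteratedDeriv k f y : ℝ) : ℂ) := by
      filter_upwards [hI.mem_nhds hx] with y hy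
      rw [ih y hy]
    exact (h3.congr_of_eventuallyEq e2.symm).unique h4

/-- A real function with a holomorphic extension is smooth. -/
theorem real_smooth {F : ℂ → ℂ} {U : Set ℂ} (hU : IsOpen U) (hF : DifferentiableOn ℂ F U)
    {f : ℝ → ℝ} {I : Set ℝ} (hI : IsOpen I) (hIU : ∀ x ∈ I, (x : ℂ) ∈ U)
    (hf : ∀ x ∈ I, F x = f x) {x : ℝ} (hx : x ∈ I) : AnalyticAt ℝ f x := by
  have hA : AnalyticAt ℂ F x := (hF.analyticOnNhd hU) x (hIU x hx)
  have h1 : AnalyticAt ℝ (fun y : ℝ => (F y).re) x := by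
    have h2 : AnalyticAt ℝ F (x : ℂ) := hA.restrictScalars
    have h3 : AnalyticAt ℝ (fun y : ℝ => (y : ℂ)) x := Complex.ofRealCLM.analyticAt x
    have h4 : AnalyticAt ℝ (fun y : ℝ => F (y : ℂ)) x := h2.fun_comp h3
    exact (Complex.reCLM.analyticAt _).fun_comp h4
  refine h1.congr ?_
  filter_upwards [hI.mem_nhds hx] with y hy
  rw [hf y hy, Complex.ofReal_re]

end Pool.Agent.H30.PT.Sect
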