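import Pool.Agent.H30.PT.Inf
import Pool.Graph.R_pool_sql_team_seeded_3997aac3.Q291.TT.Lo
import Pool.Graph.R_pool_sql_team_seeded_3dad9d7b.NH39.W.Lim
import Pool.Graph.R_seed8.Y554.NC.Theta

/-! The sum of the squares of the one-arm weights over the plane. -/

set_option autoImplicit false

namespace Pool.Agent.H30.PT

open H974 Finset Pool.Agent.H160R2.CV

/-! ### one-dimensional sums -/

theorem tel524 {k : ℕ} (hk : 1 ≤ k) : ((k:ℝ) + 1) ^ (-(29/24) : ℝ) ≤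
    24/5 * ((k:ℝ) ^ (-(5/24) : ℝ) - ((k:ℝ) + 1) ^ (-(5/24) : ℝ)) := by
  have hk0 : (0:ℝ) < k := by exact_mod_cast hk
  have hk1 : (0:ℝ) < (k:ℝ) + 1 := by linarith
  have hk1' : (1:ℝ) ≤ k := by exact_mod_cast hk
  obtain ⟨y, hy⟩ : ∃ y : ℝ, y = 5 / (24 * ((k:ℝ) + 1)) := ⟨_, rfl⟩
  have hy0 : 0 < y := by rw [hy]; positivity
  have hy1 : y < 1 := by
    rw [hy, div_lt_one (by positivity)]; linarith
  have h1 : (1 + -(1 / ((k:ℝ) + 1))) ^ (5/24 : ℝ) ≤ 1 + 5/24 * -(1 / ((k:ℝ) + 1)) :=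
    rpow_one_add_le_one_add_mul_self (by
      rw [neg_le_neg_iff, div_le_one hk1]; linarith) (by norm_num) (by norm_num)
  have e1 : 1 + -(1 / ((k:ℝ) + 1)) = (k:ℝ) / ((k:ℝ) + 1) := by field_simp; ring
  have e2 : 1 + 5/24 * -(1 / ((k:ℝ) + 1)) = 1 - y := by rw [hy]; field_simp; ring
  rw [e1, e2, Real.div_rpow hk0.le hk1.le, div_le_iff₀ (by positivity)] at h1
  have a1 : 0 < (k:ℝ) ^ (5/24 : ℝ) := by positivity
  have a2 : 0 < ((k:ℝ) + 1) ^ (5/24 : ℝ) := by positivity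
  have h2 : (1 + y) * (((k:ℝ) + 1) ^ (5/24 : ℝ))⁻¹ ≤ ((k:ℝ) ^ (5/24 : ℝ))⁻¹ := by
    rw [← div_eq_mul_inv, inv_eq_one_div, div_le_div_iff₀ a2 a1]
    have h3 : (1 + y) * ((k:ℝ) ^ (5/24 : ℝ)) ≤ (1 + y) * ((1 - y) * ((k:ℝ) + 1) ^ (5/24 : ℝ)) :=
      mul_le_mul_of_nonneg_left h1 (by linarith)
    have h4 : (1 + y) * ((1 - y) * ((k:ℝ) + 1) ^ (5/24 : ℝ)) ≤ 1 * ((k:ℝ) + 1) ^ (5/24 : ℝ) := by
      have : (1 + y) * ((1 - y) * ((k:ℝ) + 1) ^ (5/24 : ℝ)) =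
        (1 - y ^ 2) * ((k:ℝ) + 1) ^ (5/24 : ℝ) := by ring
      rw [this]
      apply mul_le_mul_of_nonneg_right _ a2.le
      nlinarith
    linarith
  have e3 : ((k:ℝ) + 1) ^ (-(29/24) : ℝ) = 24/5 * (y * (((k:ℝ) + 1) ^ (5/24 : ℝ))⁻¹) := by
    rw [show (-(29/24) : ℝ) = -1 + -(5/24) by norm_num, Real.rpow_add hk1, Real.rpow_neg_one,
      Real.rpow_neg hk1.le, hy]
    field_simp
  rw [e3, Real.rpow_neg hk0.le, Real.rpow_neg hk1.le]
  nlinarith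

theorem tail524 {T : ℕ} (hT : 1 ≤ T) (m : ℕ) :
    ∑ k ∈ range m, (if T ≤ k then ((k:ℝ) + 1) ^ (-(29/24) : ℝ) else 0) ≤
      24/5 * (T:ℝ) ^ (-(5/24) : ℝ) := by
  have key : ∀ m : ℕ, ∑ k ∈ range m, (if T ≤ k then ((k:ℝ) + 1) ^ (-(29/24) : ℝ) else 0) ≤
      if T ≤ m then 24/5 * ((T:ℝ) ^ (-(5/24) : ℝ) - (m:ℝ) ^ (-(5/24) : ℝ)) else 0 := by
    intro m
    induction m with
    | zero => rw [if_neg (by omega)]; simp
    | succ m ih =>
      rw [Finset.sum_range_succ]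
      by_cases h : T ≤ m
      · rw [if_pos h] at ih ⊢
        rw [if_pos (by omega)]
        have := tel524 (hT.trans h)
        push_cast
        linarith
      · rw [if_neg h] at ih ⊢
        rw [add_zero]
        refine ih.trans ?_
        split_ifs with h2
        · have : T = m + 1 := by omega
          rw [this]; simp
        · exact le_rfl
  refine (key m).trans ?_
  split_ifs
  · have : (0:ℝ) ≤ (m:ℝ) ^ (-(5/24) : ℝ) := by positivity
    linarith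
  · positivity

theorem one_dim {l : ℝ} (hl : 0 < l) (hl1 : l ≤ 1) (m : ℕ) :
    ∑ k ∈ range m, ((k:ℝ) + 1) ^ (19/24 : ℝ) / (1 + l * ((k:ℝ) + 1)) ^ 2 ≤
      9 * l ^ (-(43/24) : ℝ) := by
  obtain ⟨T, hT⟩ : ∃ T : ℕ, T = ⌈1 / l⌉₊ := ⟨_, rfl⟩
  have h1l : 1 ≤ 1 / l := by rw [le_div_iff₀ hl]; linarith
  have hT1 : 1 / l ≤ T := by rw [hT]; exact Nat.le_ceil _
  have hT0 : 1 ≤ T := by
    have : (1:ℝ) ≤ T := h1l.trans hT1
    exact_mod_cast this
  have hT2 : (T:ℝ) ≤ 2 / l := by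
    have : (T:ℝ) < 1 / l + 1 := by rw [hT]; exact Nat.ceil_lt_add_one (by positivity)
    have h2 : 2 / l = 1 / l + 1 / l := by ring
    linarith
  have hTp : (0:ℝ) < T := by exact_mod_cast hT0
  have b1 : ∀ k ∈ range m, ((k:ℝ) + 1) ^ (19/24 : ℝ) / (1 + l * ((k:ℝ) + 1)) ^ 2 ≤
      (if k < T then (T:ℝ) ^ (19/24 : ℝ) else 0) +
        l ^ (-2 : ℝ) * (if T ≤ k then ((k:ℝ) + 1) ^ (-(29/24) : ℝ) else 0) := by
    intro k _
    have hk0 : (0:ℝ) < (k:ℝ) + 1 := by positivity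
    by_cases h : k < T
    · rw [if_pos h, if_neg (by omega), mul_zero, add_zero]
      have h2 : 1 ≤ (1 + l * ((k:ℝ) + 1)) ^ 2 := by
        apply one_le_pow₀
        have : 0 < l * ((k:ℝ) + 1) := by positivity
        linarith
      have h3 : ((k:ℝ) + 1) ^ (19/24 : ℝ) ≤ (T:ℝ) ^ (19/24 : ℝ) := by
        apply Real.rpow_le_rpow hk0.le _ (by norm_num)
        exact_mod_cast h
      rw [div_le_iff₀ (by positivity)]
      have h4 : 0 ≤ (T:ℝ) ^ (19/24 : ℝ) := by positivity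
      nlinarith
    · rw [if_neg h, if_pos (by omega), zero_add]
      have h2 : (l * ((k:ℝ) + 1)) ^ 2 ≤ (1 + l * ((k:ℝ) + 1)) ^ 2 := by
        apply pow_le_pow_left₀ (by positivity)
        linarith
      calc ((k:ℝ) + 1) ^ (19/24 : ℝ) / (1 + l * ((k:ℝ) + 1)) ^ 2 ≤
          ((k:ℝ) + 1) ^ (19/24 : ℝ) / (l * ((k:ℝ) + 1)) ^ 2 := by
            apply div_le_div_of_nonneg_left (by positivity) (by positivity) h2
        _ = l ^ (-2 : ℝ) * ((k:ℝ) + 1) ^ (-(29/24) : ℝ) := by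
            rw [show (-(29/24) : ℝ) = 19/24 - (2:ℕ) by norm_num, Real.rpow_sub_natCast hk0.ne',
              show (-2 : ℝ) = -((2:ℕ):ℝ) by norm_num, Real.rpow_neg hl.le, Real.rpow_natCast]
            field_simp
  have b2 : ∑ k ∈ range m, (if k < T then (T:ℝ) ^ (19/24 : ℝ) else 0) ≤ 4 * l ^ (-(43/24) : ℝ) := by
    rw [← Finset.sum_filter, Finset.sum_const, nsmul_eq_mul]
    have h1 : (((range m).filter (fun k => k < T)).card : ℝ) ≤ T := by
      have : ((range m).filter (fun k => k < T)) ⊆ range T := by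
        intro k hk
        rw [mem_filter] at hk
        exact mem_range.2 hk.2
      have h2 := card_le_card this
      rw [card_range] at h2
      exact_mod_cast h2
    calc (((range m).filter (fun k => k < T)).card : ℝ) * (T:ℝ) ^ (19/24 : ℝ) ≤
          T * (T:ℝ) ^ (19/24 : ℝ) := mul_le_mul_of_nonneg_right h1 (by positivity)
      _ = (T:ℝ) ^ (43/24 : ℝ) := by
          nth_rewrite 1 [← Real.rpow_one (T:ℝ)]
          rw [← Real.rpow_add hTp]; norm_num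
      _ ≤ (2 / l) ^ (43/24 : ℝ) := Real.rpow_le_rpow hTp.le hT2 (by norm_num)
      _ = (2:ℝ) ^ (43/24 : ℝ) * l ^ (-(43/24) : ℝ) := by
          rw [Real.div_rpow (by norm_num) hl.le, Real.rpow_neg hl.le, div_eq_mul_inv]
      _ ≤ 4 * l ^ (-(43/24) : ℝ) := by
          apply mul_le_mul_of_nonneg_right _ (by positivity)
          calc (2:ℝ) ^ (43/24 : ℝ) ≤ 2 ^ (2:ℝ) :=
                Real.rpow_le_rpow_of_exponent_le (by norm_num) (by norm_num)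
            _ = 4 := by norm_num
  have b3 : l ^ (-2 : ℝ) * ∑ k ∈ range m, (if T ≤ k then ((k:ℝ) + 1) ^ (-(29/24) : ℝ) else 0) ≤
      24/5 * l ^ (-(43/24) : ℝ) := by
    calc l ^ (-2 : ℝ) * ∑ k ∈ range m, (if T ≤ k then ((k:ℝ) + 1) ^ (-(29/24) : ℝ) else 0) ≤
          l ^ (-2 : ℝ) * (24/5 * (T:ℝ) ^ (-(5/24) : ℝ)) :=
          mul_le_mul_of_nonneg_left (tail524 hT0 m) (by positivity)
      _ ≤ l ^ (-2 : ℝ) * (24/5 * (1 / l) ^ (-(5/24) : ℝ)) := by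
          apply mul_le_mul_of_nonneg_left _ (by positivity)
          apply mul_le_mul_of_nonneg_left _ (by norm_num)
          exact Real.rpow_le_rpow_of_nonpos (by positivity) hT1 (by norm_num)
      _ = 24/5 * (l ^ (-2 : ℝ) * l ^ (5/24 : ℝ)) := by
          rw [one_div, Real.inv_rpow hl.le, ← Real.rpow_neg hl.le, neg_neg]
          ring
      _ = _ := by rw [← Real.rpow_add hl]; norm_num
  have hp : 0 < l ^ (-(43/24) : ℝ) := by positivity
  calc ∑ k ∈ range m, ((k:ℝ) + 1) ^ (19/24 : ℝ) / (1 + l * ((k:ℝ) + 1)) ^ 2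
      ≤ ∑ k ∈ range m, ((if k < T then (T:ℝ) ^ (19/24 : ℝ) else 0) +
        l ^ (-2 : ℝ) * (if T ≤ k then ((k:ℝ) + 1) ^ (-(29/24) : ℝ) else 0)) :=
        Finset.sum_le_sum b1
    _ ≤ 4 * l ^ (-(43/24) : ℝ) + 24/5 * l ^ (-(43/24) : ℝ) := by
        rw [Finset.sum_add_distrib, ← Finset.mul_sum]
        exact add_le_add b2 b3
    _ ≤ _ := by linarith

/-- Sum over the shells of the box. -/
theorem shell_sum (m : ℕ) (f : ℕ → ℝ) (hf : ∀ s, 0 ≤ f s) :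
    ∑ x ∈ (bx m).erase (0, 0), f (nv x) ≤ ∑ k ∈ range m, 16 * ((k:ℝ) + 1) * f (k + 1) := by
  classical
  have hmaps : ∀ x ∈ (bx m).erase (0, 0), nv x - 1 ∈ range m := by
    rintro ⟨a, b⟩ hx
    rw [mem_erase] at hx
    obtain ⟨h1, h2⟩ := hx
    unfold bx at h2
    rw [mem_product, mem_Icc, mem_Icc] at h2
    unfold nv
    rw [mem_range]
    simp only [ne_eq, Prod.mk.injEq, not_and] at h1
    simp only at h2 ⊢
    omega
  rw [← Finset.sum_fiberwise_of_maps_to hmaps]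
  apply Finset.sum_le_sum
  intro k _
  have e1 : ∀ x ∈ ((bx m).erase (0, 0)).filter (fun x => nv x - 1 = k), nv x = k + 1 := by
    rintro ⟨a, b⟩ hx
    rw [mem_filter, mem_erase] at hx
    obtain ⟨⟨h1, h2⟩, h3⟩ := hx
    unfold nv at h3 ⊢
    simp only [ne_eq, Prod.mk.injEq, not_and] at h1
    simp only at h3 ⊢
    omega
  have e2 : ∑ x ∈ ((bx m).erase (0, 0)).filter (fun x => nv x - 1 = k), f (nv x) =
      ∑ x ∈ ((bx m).erase (0, 0)).filter (fun x => nv x - 1 = k), f (k + 1) :=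
    Finset.sum_congr rfl (fun x hx => by rw [e1 x hx])
  rw [e2, Finset.sum_const, nsmul_eq_mul]
  apply mul_le_mul_of_nonneg_right _ (hf _)
  have h1 : ((bx m).erase (0, 0)).filter (fun x => nv x - 1 = k) ⊆ H31K.t10_T (k + 1) := by
    intro x hx
    have := H31K.t10_T_mem x
    have h2 := e1 x hx
    unfold nv at h2
    rw [h2] at this
    exact this
  have h2 : ((((bx m).erase (0, 0)).filter (fun x => nv x - 1 = k)).card : ℝ) ≤
      ((H31K.t10_T (k + 1)).card : ℝ) := by exact_mod_cast card_le_card h1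
  have h3 := H31K.t10_T_card (k + 1)
  push_cast at h3
  have : (0:ℝ) ≤ k := Nat.cast_nonneg _
  linarith

/-- The sum of the squares of the weights below the critical point. -/
theorem vS_sum {q : ℝ} (q0 : 0 ≤ q) (q1 : q < 1/2) (m : ℕ) :
    ∑ x ∈ (bx m).erase (0, 0), vS q (nv x) ^ 2 ≤ 576 * |q - 1/2| ^ (-(43/18) : ℝ) := by
  have hs0 : 0 < |q - 1/2| := abs_pos.2 (by linarith)
  have hs1 : |q - 1/2| ≤ 1 := by rw [abs_le]; constructor <;> linarith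
  obtain ⟨l, hl⟩ : ∃ l : ℝ, l = |q - 1/2| ^ (4/3 : ℝ) := ⟨_, rfl⟩
  have hl0 : 0 < l := by rw [hl]; positivity
  have hl1 : l ≤ 1 := by rw [hl]; exact Real.rpow_le_one hs0.le hs1 (by norm_num)
  have e1 : l ^ (-(43/24) : ℝ) = |q - 1/2| ^ (-(43/18) : ℝ) := by
    rw [hl, ← Real.rpow_mul hs0.le]; norm_num
  refine (shell_sum m (fun s => vS q s ^ 2) (fun s => sq_nonneg _)).trans ?_
  have b1 : ∀ k ∈ range m, 16 * ((k:ℝ) + 1) * vS q (k + 1) ^ 2 ≤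
      64 * (((k:ℝ) + 1) ^ (19/24 : ℝ) / (1 + l * ((k:ℝ) + 1)) ^ 2) := by
    intro k _
    have hk0 : (0:ℝ) < (k:ℝ) + 1 := by positivity
    have e2 : vS q (k + 1) = ((k:ℝ) + 1) ^ (-(5/48) : ℝ) * ((1 + l) / (1 + l * ((k:ℝ) + 1))) := by
      unfold vS
      rw [← hl]
      push_cast
      rfl
    have e3 : ((k:ℝ) + 1) * (((k:ℝ) + 1) ^ (-(5/48) : ℝ)) ^ 2 = ((k:ℝ) + 1) ^ (19/24 : ℝ) := by
      rw [← Real.rpow_natCast, ← Real.rpow_mul hk0.le]
      nth_rewrite 1 [← Real.rpow_one ((k:ℝ) + 1)]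
      rw [← Real.rpow_add hk0]; norm_num
    rw [e2, mul_pow, div_pow]
    have e4 : 16 * ((k:ℝ) + 1) * ((((k:ℝ) + 1) ^ (-(5/48) : ℝ)) ^ 2 *
        ((1 + l) ^ 2 / (1 + l * ((k:ℝ) + 1)) ^ 2)) =
        (16 * (1 + l) ^ 2) * (((k:ℝ) + 1) ^ (19/24 : ℝ) / (1 + l * ((k:ℝ) + 1)) ^ 2) := by
      rw [← e3]; ring
    rw [e4]
    apply mul_le_mul_of_nonneg_right _ (by positivity)
    nlinarith
  calc ∑ k ∈ range m, 16 * ((k:ℝ) + 1) * vS q (k + 1) ^ 2
      ≤ ∑ k ∈ range m, 64 * (((k:ℝ) + 1) ^ (19/24 : ℝ) / (1 + l * ((k:ℝ) + 1)) ^ 2) :=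
        Finset.sum_le_sum b1
    _ ≤ 64 * (9 * l ^ (-(43/24) : ℝ)) := by
        rw [← Finset.mul_sum]
        exact mul_le_mul_of_nonneg_left (one_dim hl0 hl1 m) (by norm_num)
    _ = _ := by rw [e1]; ring

end Pool.Agent.H30.PT
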