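import Pool.Agent.H30.PT.Thm

/-! Holomorphic extension of the two-point function. -/

set_option autoImplicit false

namespace Pool.Agent.H30.PT

open Set Filter Topology
open H974 (Vtx theta sigma)
open Pool.Agent.H160R2.CV (nv)
open scoped ContDiff Nat

open Sect (K K_near K_real K_diff' sec sec_open sec_mono real_deriv)

theorem tau_hyp : ∃ A : ℝ, ∀ x : Vtx, x ≠ (0, 0) →
    Sect.Hyp (tauR x) 0 (1/2) A (fun p => A * (vv p (nv x)) ^ 2) ∧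
    Sect.Hyp (tauR x) (1/2) 1 A (fun p => A * (vv p (nv x)) ^ 2) := by
  obtain ⟨A, hA, h⟩ := tau_der
  refine ⟨A, ?_⟩
  intro x hx
  have hx1 := nv_pos hx
  have hloc : ∀ p : ℝ, 0 ≤ p → p ≤ 1 → A * (vv p (nv x)) ^ 2 ≤ A := by
    intro p p0 p1
    have h1 := vv_le_one p0 p1 hx1
    have h2 := (vv_pos p0 p1 hx1).le
    have h3 : (vv p (nv x)) ^ 2 ≤ 1 := pow_le_one₀ h2 h1
    nlinarith
  constructor
  · refine ⟨hA, le_rfl, by norm_num, fun p hp => hp.2.ne,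
      fun p hp => (h x hx p hp.1 (by linarith [hp.2]) hp.2.ne).1, ?_, ?_⟩
    · intro p hp k
      refine ((h x hx p hp.1 (by linarith [hp.2]) hp.2.ne).2 k).trans (le_of_eq ?_)
      ring
    · intro δ _
      exact ⟨A, by linarith, fun p hp _ => hloc p hp.1.le (by linarith [hp.2])⟩
  · refine ⟨hA, by norm_num, le_rfl, fun p hp => hp.1.ne',
      fun p hp => (h x hx p (by linarith [hp.1]) hp.2 hp.1.ne').1, ?_, ?_⟩
    · intro p hp k
      refine ((h x hx p (by linarith [hp.1]) hp.2 hp.1.ne').2 k).trans (le_of_eq ?_)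
      ring
    · intro δ _
      exact ⟨A, by linarith, fun p hp _ => hloc p (by linarith [hp.1]) hp.2.le⟩

/-- The bound for the two-point function: `‖x‖ ^ (-5/24) (1 + ‖x‖ |p - 1/2| ^ (4/3)) ^ (-2)` below
and `‖x‖ ^ (-5/24) + |p - 1/2| ^ (5/18)` above the critical point. -/
noncomputable def tb (p : ℝ) (s : ℕ) : ℝ :=
  if p ≤ 1/2 then (s:ℝ) ^ (-(5/24) : ℝ) / (1 + s * |p - 1/2| ^ (4/3 : ℝ)) ^ 2
  else (s:ℝ) ^ (-(5/24) : ℝ) + |p - 1/2| ^ (5/18 : ℝ)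

theorem vv_tb {p : ℝ} (p0 : 0 ≤ p) (p1 : p ≤ 1) {s : ℕ} (hs : 1 ≤ s) :
    (vv p s) ^ 2 ≤ 4 * tb p s := by
  have hs0 : (0:ℝ) < s := by exact_mod_cast hs
  have e1 : ((s:ℝ) ^ (-(5/48) : ℝ)) ^ 2 = (s:ℝ) ^ (-(5/24) : ℝ) := by
    rw [← Real.rpow_natCast, ← Real.rpow_mul hs0.le]; norm_num
  have e2 : (|p - 1/2| ^ (5/36 : ℝ)) ^ 2 = |p - 1/2| ^ (5/18 : ℝ) := by
    rw [← Real.rpow_natCast, ← Real.rpow_mul (abs_nonneg _)]; norm_num
  unfold vv tb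
  split_ifs with h
  · obtain ⟨l, hl⟩ : ∃ l : ℝ, l = |p - 1/2| ^ (4/3 : ℝ) := ⟨_, rfl⟩
    have hl0 : 0 ≤ l := by rw [hl]; positivity
    have hl1 : l ≤ 1 := by
      rw [hl]
      exact Real.rpow_le_one (abs_nonneg _) (by rw [abs_le]; constructor <;> linarith)
        (by norm_num)
    unfold vS
    rw [← hl, mul_pow, e1, div_pow]
    have h1 : 0 < (s:ℝ) ^ (-(5/24) : ℝ) := by positivity
    have h2 : (1 + l) ^ 2 ≤ 4 := by nlinarith
    have h3 : (s:ℝ) ^ (-(5/24) : ℝ) * ((1 + l) ^ 2 / (1 + l * s) ^ 2) =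
        (1 + l) ^ 2 * ((s:ℝ) ^ (-(5/24) : ℝ) / (1 + s * l) ^ 2) := by
      rw [mul_comm l (s:ℝ)]; ring
    rw [h3]
    exact mul_le_mul_of_nonneg_right h2 (by positivity)
  · unfold vP
    have h1 : 0 < (s:ℝ) ^ (-(5/48) : ℝ) := by positivity
    have h2 : 0 ≤ |p - 1/2| ^ (5/36 : ℝ) := by positivity
    have h3 : (max ((s:ℝ) ^ (-(5/48) : ℝ)) (|p - 1/2| ^ (5/36 : ℝ))) ^ 2 ≤
        ((s:ℝ) ^ (-(5/48) : ℝ)) ^ 2 + (|p - 1/2| ^ (5/36 : ℝ)) ^ 2 := by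
      rcases max_cases ((s:ℝ) ^ (-(5/48) : ℝ)) (|p - 1/2| ^ (5/36 : ℝ)) with ⟨h, -⟩ | ⟨h, -⟩
      · rw [h]; nlinarith
      · rw [h]; nlinarith
    rw [e1, e2] at h3
    have h4 : 0 < (s:ℝ) ^ (-(5/24) : ℝ) := by positivity
    have h5 : 0 ≤ |p - 1/2| ^ (5/18 : ℝ) := by positivity
    linarith

theorem tb_nonneg (p : ℝ) (s : ℕ) : 0 ≤ tb p s := by
  unfold tb
  split_ifs <;> positivity

/-- **The two-point function**: holomorphic extension to a double sector and derivatives. -/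
theorem ta_main : ∃ c C : ℝ, 0 < c ∧ 1 ≤ C ∧ ∀ x : Vtx, x ≠ (0, 0) →
    (∃ F : ℂ → ℂ, DifferentiableOn ℂ F (sec 0 (1/2) c ∪ sec (1/2) 1 c) ∧
      (∀ p : ℝ, 0 < p → p < 1 → p ≠ 1/2 → F p = tauR x p) ∧
      ∀ z ∈ sec 0 (1/2) c ∪ sec (1/2) 1 c, ‖F z‖ ≤ C * tb z.re (nv x)) ∧
    ∀ p : ℝ, 0 < p → p < 1 → p ≠ 1/2 → AnalyticAt ℝ (tauR x) p ∧
      ∀ k : ℕ, |iteratedDeriv k (tauR x) p| ≤
        C ^ (k + 1) * k ! * (|p - 1/2| ^ k)⁻¹ * tb p (nv x) := by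
  obtain ⟨A, H⟩ := tau_hyp
  have hA : 1 ≤ A := (H (1, 0) (by simp)).1.hC
  have hA0 : 0 < A := by linarith
  refine ⟨(1/8) / A, 8 * A, by positivity, by linarith, ?_⟩
  intro x hx
  obtain ⟨H1, H2⟩ := H x hx
  have hx1 := nv_pos hx
  have hdiff : DifferentiableOn ℂ (K (tauR x)) (sec 0 (1/2) ((1/8) / A) ∪
      sec (1/2) 1 ((1/8) / A)) :=
    (K_diff' H1 le_rfl).union_of_isOpen (K_diff' H2 le_rfl) (sec_open _ _ _) (sec_open _ _ _)
  have hreal : ∀ p : ℝ, 0 < p → p < 1 → p ≠ 1/2 → K (tauR x) p = tauR x p := by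
    intro p p0 p1 ph
    rcases lt_or_gt_of_ne ph with h | h
    · exact K_real H1 ⟨p0, h⟩
    · exact K_real H2 ⟨h, p1⟩
  have hbd : ∀ p : ℝ, 0 < p → p < 1 → p ≠ 1/2 → ∀ k : ℕ, |iteratedDeriv k (tauR x) p| ≤
      A ^ k * k ! * (|p - 1/2|⁻¹) ^ k * (A * (vv p (nv x)) ^ 2) := by
    intro p p0 p1 ph k
    rcases lt_or_gt_of_ne ph with h | h
    · exact H1.bd p ⟨p0, h⟩ k
    · exact H2.bd p ⟨h, p1⟩ k
  have hnear : ∀ z ∈ sec 0 (1/2) ((1/8) / A) ∪ sec (1/2) 1 ((1/8) / A),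
      ‖K (tauR x) z - tauR x z.re‖ ≤ 2 * (1/8) * (A * (vv z.re (nv x)) ^ 2) ∧
        (0 < z.re ∧ z.re < 1 ∧ z.re ≠ 1/2) := by
    rintro z (hz | hz)
    · refine ⟨K_near H1 (by norm_num) le_rfl hz, hz.2.1, ?_, hz.2.2.ne⟩
      linarith [hz.2.2]
    · refine ⟨K_near H2 (by norm_num) le_rfl hz, ?_, hz.2.2, hz.2.1.ne'⟩
      linarith [hz.2.1]
  refine ⟨⟨K (tauR x), hdiff, hreal, ?_⟩, ?_⟩
  · intro z hz
    obtain ⟨h1, z0, z1, zh⟩ := hnear z hz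
    have h2 := hbd z.re z0 z1 zh 0
    simp only [iteratedDeriv_zero, pow_zero, Nat.factorial_zero, Nat.cast_one, one_mul] at h2
    have h3 : ‖K (tauR x) z‖ ≤ ‖K (tauR x) z - ((tauR x z.re : ℝ) : ℂ)‖ +
        ‖((tauR x z.re : ℝ) : ℂ)‖ := by
      calc ‖K (tauR x) z‖ = ‖(K (tauR x) z - ((tauR x z.re : ℝ) : ℂ)) +
            ((tauR x z.re : ℝ) : ℂ)‖ := by rw [sub_add_cancel]
        _ ≤ _ := norm_add_le _ _
    rw [Complex.norm_real, Real.norm_eq_abs] at h3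
    have h4 := vv_tb z0.le z1.le hx1
    have h5 := tb_nonneg z.re (nv x)
    nlinarith
  · intro p p0 p1 ph
    have h4 := vv_tb p0.le p1.le hx1
    have h5 := tb_nonneg p (nv x)
    have hs : 0 < |p - 1/2| := abs_pos.2 (sub_ne_zero.2 ph)
    constructor
    · have hI : IsOpen (Ioo (0:ℝ) (1/2) ∪ Ioo (1/2 : ℝ) 1) := isOpen_Ioo.union isOpen_Ioo
      refine Sect.real_smooth ((sec_open 0 (1/2) ((1/8) / A)).union (sec_open (1/2) 1 ((1/8) / A)))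
        hdiff hI ?_ ?_ (x := p) ?_
      · intro y hy
        have hmem : ∀ a b : ℝ, y ∈ Ioo a b → y ≠ 1/2 → (y : ℂ) ∈ sec a b ((1/8) / A) := by
          intro a b h h2
          refine ⟨?_, ?_, ?_⟩
          · rw [Complex.ofReal_im, Complex.ofReal_re, abs_zero]
            have : 0 < |y - 1/2| := abs_pos.2 (sub_ne_zero.2 h2)
            positivity
          · rw [Complex.ofReal_re]; exact h.1
          · rw [Complex.ofReal_re]; exact h.2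
        rcases hy with h | h
        · exact Or.inl (hmem 0 (1/2) h h.2.ne)
        · exact Or.inr (hmem (1/2) 1 h h.1.ne')
      · rintro y (h | h)
        · exact hreal y h.1 (by linarith [h.2]) h.2.ne
        · exact hreal y (by linarith [h.1]) h.2 h.1.ne'
      · rcases lt_or_gt_of_ne ph with h | h
        · exact Or.inl ⟨p0, h⟩
        · exact Or.inr ⟨h, p1⟩
    · intro k
      refine (hbd p p0 p1 ph k).trans ?_
      have e : (|p - 1/2|⁻¹) ^ k = (|p - 1/2| ^ k)⁻¹ := inv_pow _ _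
      rw [e]
      have h6 : 0 ≤ A ^ k * (k ! : ℝ) * (|p - 1/2| ^ k)⁻¹ := by positivity
      calc A ^ k * (k ! : ℝ) * (|p - 1/2| ^ k)⁻¹ * (A * (vv p (nv x)) ^ 2)
          ≤ A ^ k * (k ! : ℝ) * (|p - 1/2| ^ k)⁻¹ * (A * (4 * tb p (nv x))) := by
            apply mul_le_mul_of_nonneg_left _ h6
            exact mul_le_mul_of_nonneg_left h4 hA0.le
        _ = (A ^ k * (4 * A)) * ((k ! : ℝ) * (|p - 1/2| ^ k)⁻¹ * tb p (nv x)) := by ring
        _ ≤ ((8 * A) ^ k * (8 * A)) * ((k ! : ℝ) * (|p - 1/2| ^ k)⁻¹ * tb p (nv x)) := by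
            apply mul_le_mul_of_nonneg_right _ (by positivity)
            apply mul_le_mul _ (by linarith) (by positivity) (by positivity)
            exact pow_le_pow_left₀ hA0.le (by linarith) k
        _ = _ := by rw [pow_succ]; ring

end Pool.Agent.H30.PT
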