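import Pool.Agent.H30.PT.Lms
import Pool.Agent.H30.PT.Sect

/-! Holomorphic extensions and derivatives of all orders. -/

set_option autoImplicit false

namespace Pool.Agent.H30.PT

open Set Filter Topology
open H974 (Vtx theta sigma)
open Pool.Agent.H160R2.CV (nv)
open scoped ContDiff Nat

open Sect (K K_near K_real K_diff' G_near G_hol G_real sec sec_open sec_mono real_deriv)
open Pool.Agent.NH39.W.SecA (G)

/-- In a thin sector the distance to the vertex is comparable with the distance of the real part. -/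
theorem sec_dist {a b c : ℝ} (hc : c ≤ 1) {z : ℂ} (hz : z ∈ sec a b c) :
    |z.re - 1/2| ≤ ‖z - 1/2‖ ∧ ‖z - 1/2‖ ≤ 2 * |z.re - 1/2| := by
  have e1 : (z - 1/2).re = z.re - 1/2 := by
    rw [Complex.sub_re]; norm_num
  have e2 : (z - 1/2).im = z.im := by
    rw [Complex.sub_im]; norm_num
  constructor
  · rw [← e1]; exact Complex.abs_re_le_norm _
  · refine (Complex.norm_le_abs_re_add_abs_im _).trans ?_
    rw [e1, e2]
    have h1 := hz.1.le
    have h2 : c * |z.re - 1/2| ≤ 1 * |z.re - 1/2| :=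
      mul_le_mul_of_nonneg_right hc (abs_nonneg _)
    linarith

/-! ### the percolation probability -/

theorem thR_bd : ∃ c C : ℝ, 0 < c ∧ 0 < C ∧ ∀ p : ℝ, 1/2 < p → p < 1 →
    c * |p - 1/2| ^ (5/36 : ℝ) ≤ thR p ∧ thR p ≤ C * |p - 1/2| ^ (5/36 : ℝ) := by
  obtain ⟨c, C, hc, hC, h⟩ := Pool.Agent.R960.theta_sharp
  refine ⟨c, C, hc, hC, ?_⟩
  intro p hp p1
  have p0 : 0 ≤ p := by linarith
  rw [thR_eq p0 p1.le, abs_of_pos (by linarith : 0 < p - 1/2)]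
  exact h ⟨p, p0, p1.le⟩ hp.le

/-- The square root. -/
noncomputable def rt (z : ℂ) : ℂ := z ^ (((2:ℕ) : ℂ)⁻¹)

theorem rt_sq (z : ℂ) : rt z ^ 2 = z := Complex.cpow_nat_inv_pow z two_ne_zero

theorem rt_real {x : ℝ} (hx : 0 ≤ x) : rt ((x ^ 2 : ℝ) : ℂ) = x := by
  unfold rt
  have h1 : (((2:ℕ) : ℂ)⁻¹) = ((((2:ℕ) : ℝ)⁻¹ : ℝ) : ℂ) := by push_cast; rfl
  rw [h1, ← Complex.ofReal_cpow (sq_nonneg x), Real.pow_rpow_inv_natCast hx two_ne_zero]

theorem rt_diff {F : ℂ → ℂ} {U : Set ℂ} (hF : DifferentiableOn ℂ F U)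
    (h : ∀ z ∈ U, 0 < (F z).re) : DifferentiableOn ℂ (fun z => rt (F z)) U :=
  hF.cpow (differentiableOn_const _) (fun z hz => Or.inl (h z hz))

/-- The square root of a number close to the square of a positive real number. -/
theorem rt_near {w : ℂ} {t : ℝ} (ht : 0 < t) (h : ‖w - ((t ^ 2 : ℝ) : ℂ)‖ ≤ t ^ 2 / 4) :
    0 < w.re ∧ t / 2 ≤ ‖rt w‖ ∧ ‖rt w‖ ≤ 2 * t := by
  have h1 := (Complex.abs_re_le_norm _).trans h
  rw [Complex.sub_re, Complex.ofReal_re, abs_le] at h1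
  have h2 : ‖rt w‖ ^ 2 = ‖w‖ := by rw [← norm_pow, rt_sq]
  have h3 : ‖w‖ ≤ ‖w - ((t ^ 2 : ℝ) : ℂ)‖ + ‖((t ^ 2 : ℝ) : ℂ)‖ := by
    calc ‖w‖ = ‖(w - ((t ^ 2 : ℝ) : ℂ)) + ((t ^ 2 : ℝ) : ℂ)‖ := by rw [sub_add_cancel]
      _ ≤ _ := norm_add_le _ _
  have h4 : ‖((t ^ 2 : ℝ) : ℂ)‖ ≤ ‖w - ((t ^ 2 : ℝ) : ℂ)‖ + ‖w‖ := by
    calc ‖((t ^ 2 : ℝ) : ℂ)‖ = ‖w - (w - ((t ^ 2 : ℝ) : ℂ))‖ := by rw [sub_sub_cancel]
      _ ≤ ‖w‖ + ‖w - ((t ^ 2 : ℝ) : ℂ)‖ := norm_sub_le _ _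
      _ = _ := add_comm _ _
  have h5 : ‖((t ^ 2 : ℝ) : ℂ)‖ = t ^ 2 := by
    rw [Complex.norm_real, Real.norm_eq_abs, abs_of_nonneg (sq_nonneg _)]
  rw [h5] at h3 h4
  have h6 := norm_nonneg (rt w)
  refine ⟨?_, ?_, ?_⟩
  · have : 0 < t ^ 2 := by positivity
    linarith [h1.1]
  · nlinarith
  · nlinarith

theorem th_hyp : ∃ A : ℝ, Sect.Hyp (fun y => thR y ^ 2) (1/2) 1 A
    (fun p => A * (|p - 1/2| ^ (5/36 : ℝ)) ^ 2) := by
  obtain ⟨A, hA, h⟩ := th_der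
  refine ⟨A, hA, by norm_num, le_rfl, fun p hp => hp.1.ne', fun p hp => (h p hp.1 hp.2).1, ?_, ?_⟩
  · intro p hp k
    refine ((h p hp.1 hp.2).2 k).trans (le_of_eq ?_)
    ring
  · intro δ _
    refine ⟨A, by linarith, ?_⟩
    intro p hp _
    have h1 : |p - 1/2| ^ (5/36 : ℝ) ≤ 1 :=
      Real.rpow_le_one (abs_nonneg _) (by rw [abs_le]; constructor <;> linarith [hp.1, hp.2])
        (by norm_num)
    have h2 : 0 ≤ |p - 1/2| ^ (5/36 : ℝ) := by positivity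
    have h3 : (|p - 1/2| ^ (5/36 : ℝ)) ^ 2 ≤ 1 := pow_le_one₀ h2 h1
    nlinarith

/-- **The percolation probability**: holomorphic extension to a sector and derivatives. -/
theorem th_main : ∃ (c C : ℝ) (F : ℂ → ℂ), 0 < c ∧ 1 ≤ C ∧
    DifferentiableOn ℂ F (sec (1/2) 1 c) ∧
    (∀ p : ℝ, 1/2 < p → p < 1 → F p = thR p) ∧
    (∀ z ∈ sec (1/2) 1 c, C⁻¹ * ‖z - 1/2‖ ^ (5/36 : ℝ) ≤ ‖F z‖ ∧
      ‖F z‖ ≤ C * ‖z - 1/2‖ ^ (5/36 : ℝ)) ∧
    (∀ p : ℝ, 1/2 < p → p < 1 → AnalyticAt ℝ thR p ∧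
      ∀ k : ℕ, |iteratedDeriv k thR p| ≤ C ^ (k + 1) * k ! * (p - 1/2) ^ ((5:ℝ)/36 - k)) := by
  obtain ⟨A, H⟩ := th_hyp
  obtain ⟨c0, C0, hc0, hC0, hb⟩ := thR_bd
  have hA := H.hC
  have hA0 := H.cpos
  obtain ⟨ε, hε⟩ : ∃ ε : ℝ, ε = min (1/8) (c0 ^ 2 / (8 * A)) := ⟨_, rfl⟩
  have hε0 : 0 < ε := by rw [hε]; positivity
  have hε1 : ε ≤ 1/8 := by rw [hε]; exact min_le_left _ _
  have hε2 : ε * (8 * A) ≤ c0 ^ 2 := by
    rw [← le_div_iff₀ (by positivity), hε]; exact min_le_right _ _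
  have hpos : ∀ p : ℝ, 1/2 < p → p < 1 → 0 < thR p := by
    intro p hp p1
    have hs : 0 < |p - 1/2| := abs_pos.2 (by linarith)
    exact lt_of_lt_of_le (by positivity) (hb p hp p1).1
  have hsm : ∀ p : ℝ, 1/2 < p → p < 1 →
      2 * ε * (A * (|p - 1/2| ^ (5/36 : ℝ)) ^ 2) ≤ thR p ^ 2 / 4 := by
    intro p hp p1
    have hs : 0 < |p - 1/2| := abs_pos.2 (by linarith)
    have h1 := (hb p hp p1).1
    have h2 : (c0 * |p - 1/2| ^ (5/36 : ℝ)) ^ 2 ≤ thR p ^ 2 :=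
      pow_le_pow_left₀ (by positivity) h1 2
    rw [mul_pow] at h2
    have h3 : 0 ≤ (|p - 1/2| ^ (5/36 : ℝ)) ^ 2 := sq_nonneg _
    nlinarith [mul_le_mul_of_nonneg_right hε2 h3]
  have hεA : ε / A ≤ 1 := by
    rw [div_le_one hA0]; linarith
  -- the values in the sector
  have hval : ∀ z ∈ sec (1/2) 1 (ε / A), 0 < (K (fun y => thR y ^ 2) z).re ∧
      thR z.re / 2 ≤ ‖rt (K (fun y => thR y ^ 2) z)‖ ∧
      ‖rt (K (fun y => thR y ^ 2) z)‖ ≤ 2 * thR z.re := by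
    intro z hz
    have h1 := K_near H hε0 hε1 hz
    have hz2 := hz.2
    exact rt_near (hpos _ hz2.1 hz2.2) (h1.trans (hsm _ hz2.1 hz2.2))
  obtain ⟨C, hC⟩ : ∃ C : ℝ, C = 1 + 2 * c0⁻¹ * 2 + 2 * C0 + A / ε := ⟨_, rfl⟩
  have hC1 : 1 ≤ C := by
    rw [hC]
    have h1 : 0 < c0⁻¹ := by positivity
    have h2 : 0 < A / ε := by positivity
    linarith
  refine ⟨ε / A, C, fun z => rt (K (fun y => thR y ^ 2) z), by positivity, hC1, ?_, ?_, ?_, ?_⟩
  · exact rt_diff (K_diff' H hε1) (fun z hz => (hval z hz).1)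
  · intro p hp p1
    show rt (K (fun y => thR y ^ 2) (p : ℂ)) = _
    rw [K_real H ⟨hp, p1⟩]
    exact rt_real (hpos p hp p1).le
  · intro z hz
    obtain ⟨-, h1, h2⟩ := hval z hz
    obtain ⟨h3, h4⟩ := sec_dist hεA hz
    obtain ⟨-, hz1, hz2⟩ := hz
    have hs : 0 < |z.re - 1/2| := abs_pos.2 (by linarith)
    obtain ⟨h5, h6⟩ := hb z.re hz1 hz2
    constructor
    · have h7 : ‖z - 1/2‖ ^ (5/36 : ℝ) ≤ 2 * |z.re - 1/2| ^ (5/36 : ℝ) := by
        calc ‖z - 1/2‖ ^ (5/36 : ℝ) ≤ (2 * |z.re - 1/2|) ^ (5/36 : ℝ) :=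
              Real.rpow_le_rpow (norm_nonneg _) h4 (by norm_num)
          _ = (2:ℝ) ^ (5/36 : ℝ) * |z.re - 1/2| ^ (5/36 : ℝ) := Real.mul_rpow (by norm_num) hs.le
          _ ≤ 2 * |z.re - 1/2| ^ (5/36 : ℝ) := by
              apply mul_le_mul_of_nonneg_right _ (by positivity)
              calc (2:ℝ) ^ (5/36 : ℝ) ≤ 2 ^ (1:ℝ) :=
                    Real.rpow_le_rpow_of_exponent_le (by norm_num) (by norm_num)
                _ = 2 := Real.rpow_one 2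
      have h8 : C⁻¹ ≤ c0 / 4 := by
        rw [inv_le_comm₀ (by linarith) (by positivity)]
        have e : (c0 / 4)⁻¹ = 2 * c0⁻¹ * 2 := by field_simp; norm_num
        rw [e, hC]
        have h2 : 0 < A / ε := by positivity
        linarith
      calc C⁻¹ * ‖z - 1/2‖ ^ (5/36 : ℝ) ≤ c0 / 4 * (2 * |z.re - 1/2| ^ (5/36 : ℝ)) :=
            mul_le_mul h8 h7 (by positivity) (by positivity)
        _ = (c0 * |z.re - 1/2| ^ (5/36 : ℝ)) / 2 := by ring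
        _ ≤ thR z.re / 2 := by linarith
        _ ≤ _ := h1
    · have h7 : |z.re - 1/2| ^ (5/36 : ℝ) ≤ ‖z - 1/2‖ ^ (5/36 : ℝ) :=
        Real.rpow_le_rpow hs.le h3 (by norm_num)
      have h8 : 2 * C0 ≤ C := by
        rw [hC]
        have h1 : 0 < c0⁻¹ := by positivity
        have h2 : 0 < A / ε := by positivity
        linarith
      calc ‖rt (K (fun y => thR y ^ 2) z)‖ ≤ 2 * thR z.re := h2
        _ ≤ 2 * C0 * |z.re - 1/2| ^ (5/36 : ℝ) := by linarith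
        _ ≤ C * ‖z - 1/2‖ ^ (5/36 : ℝ) := mul_le_mul h8 h7 (by positivity) (by linarith)
  · intro p hp p1
    have hpI : p ∈ Ioo (1/2 : ℝ) 1 := ⟨hp, p1⟩
    have hs : 0 < |p - 1/2| := H.spos hpI
    have ht := hpos p hp p1
    obtain ⟨R, hR⟩ : ∃ R : ℝ, R = ε * |p - 1/2| / A := ⟨_, rfl⟩
    have hR0 : 0 < R := by rw [hR]; positivity
    have hR1 : R < |p - 1/2| / (4 * A) := by
      rw [hR, div_lt_div_iff₀ hA0 (by positivity)]
      have : 0 < |p - 1/2| * A := by positivity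
      nlinarith
    have hloc : ∀ z ∈ Metric.closedBall (p : ℂ) R,
        0 < (G (fun y => thR y ^ 2) p z).re ∧ ‖rt (G (fun y => thR y ^ 2) p z)‖ ≤ 2 * thR p := by
      intro z hz
      rw [Metric.mem_closedBall, dist_eq_norm, hR] at hz
      have h1 := G_near H hε0 hε1 hpI hz
      have h2 := rt_near ht (h1.trans (hsm p hp p1))
      exact ⟨h2.1, h2.2.2⟩
    have hd : DifferentiableOn ℂ (fun z => rt (G (fun y => thR y ^ 2) p z))
        (Metric.closedBall (p : ℂ) R) :=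
      rt_diff ((G_hol H hpI).mono (Metric.closedBall_subset_ball hR1)) (fun z hz => (hloc z hz).1)
    have hcl : DiffContOnCl ℂ (fun z => rt (G (fun y => thR y ^ 2) p z)) (Metric.ball (p : ℂ) R) :=
      hd.diffContOnCl_ball subset_rfl
    have hI : IsOpen (Ioo (p - R) (p + R) ∩ Ioo (1/2 : ℝ) 1) := isOpen_Ioo.inter isOpen_Ioo
    have hIU : ∀ x ∈ Ioo (p - R) (p + R) ∩ Ioo (1/2 : ℝ) 1, (x : ℂ) ∈ Metric.ball (p : ℂ) R := by
      rintro x ⟨hx, -⟩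
      rw [Metric.mem_ball, dist_eq_norm, ← Complex.ofReal_sub, Complex.norm_real,
        Real.norm_eq_abs, abs_lt]
      constructor <;> linarith [hx.1, hx.2]
    have hag : ∀ x ∈ Ioo (p - R) (p + R) ∩ Ioo (1/2 : ℝ) 1,
        (fun z => rt (G (fun y => thR y ^ 2) p z)) (x : ℂ) = thR x := by
      rintro x ⟨hx, hx2⟩
      have h1 : |x - p| < |p - 1/2| / (4 * A) := by
        refine lt_trans ?_ hR1
        rw [abs_lt]
        constructor <;> linarith [hx.1, hx.2]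
      show rt (G (fun y => thR y ^ 2) p (x : ℂ)) = _
      rw [G_real H hpI hx2 h1]
      exact rt_real (hpos x hx2.1 hx2.2).le
    have hmem : p ∈ Ioo (p - R) (p + R) ∩ Ioo (1/2 : ℝ) 1 :=
      ⟨⟨by linarith, by linarith⟩, hpI⟩
    have hdb : DifferentiableOn ℂ (fun z => rt (G (fun y => thR y ^ 2) p z))
        (Metric.ball (p : ℂ) R) := hd.mono Metric.ball_subset_closedBall
    refine ⟨Sect.real_smooth Metric.isOpen_ball hdb hI hIU hag hmem, ?_⟩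
    intro k
    have h1 := real_deriv Metric.isOpen_ball hdb hI hIU hag k p hmem
    have h2 := Complex.norm_iteratedDeriv_le_of_forall_mem_sphere_norm_le k hR0 hcl
      (fun z hz => (hloc z (Metric.sphere_subset_closedBall hz)).2)
    rw [h1, Complex.norm_real, Real.norm_eq_abs] at h2
    refine h2.trans ?_
    have hps : 0 < p - 1/2 := by linarith
    have habs : |p - 1/2| = p - 1/2 := abs_of_pos hps
    have h3 : thR p ≤ C0 * (p - 1/2) ^ (5/36 : ℝ) := by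
      have := (hb p hp p1).2
      rwa [habs] at this
    have h4 : 1 / R ^ k = (A / ε) ^ k * ((p - 1/2) ^ k)⁻¹ := by
      rw [hR, habs]
      rw [div_pow, mul_pow, div_pow]
      field_simp
    have h5 : (p - 1/2) ^ ((5:ℝ)/36 - k) = (p - 1/2) ^ (5/36 : ℝ) * ((p - 1/2) ^ k)⁻¹ := by
      rw [Real.rpow_sub_natCast hps.ne', div_eq_mul_inv]
    have hcc : 0 < c0⁻¹ := by positivity
    have hAe : 0 < A / ε := by positivity
    calc (k ! : ℝ) * (2 * thR p) / R ^ k = (k ! : ℝ) * (2 * thR p) * (1 / R ^ k) := by ring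
      _ ≤ (k ! : ℝ) * (2 * (C0 * (p - 1/2) ^ (5/36 : ℝ))) * (1 / R ^ k) := by
          apply mul_le_mul_of_nonneg_right _ (by positivity)
          apply mul_le_mul_of_nonneg_left _ (by positivity)
          linarith
      _ = ((2 * C0) * (A / ε) ^ k) * ((k ! : ℝ) * (p - 1/2) ^ ((5:ℝ)/36 - k)) := by
          rw [h4, h5]; ring
      _ ≤ (C * C ^ k) * ((k ! : ℝ) * (p - 1/2) ^ ((5:ℝ)/36 - k)) := by
          apply mul_le_mul_of_nonneg_right _ (by positivity)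
          apply mul_le_mul _ _ (by positivity) (by linarith)
          · rw [hC]; linarith
          · apply pow_le_pow_left₀ hAe.le
            rw [hC]; linarith
      _ = _ := by rw [pow_succ]; ring

/-! ### the mean cluster size -/

theorem sgR_bd : ∃ c C : ℝ, 0 < c ∧ 0 < C ∧ ∀ p : ℝ, 0 < p → p < 1/2 →
    c * |p - 1/2| ^ (-(43/18) : ℝ) ≤ sgR p ∧ sgR p ≤ C * |p - 1/2| ^ (-(43/18) : ℝ) := by
  obtain ⟨c, hc, hl⟩ := Pool.Agent.Y554.NC.sigma_lower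
  obtain ⟨C, hC, hu⟩ := Pool.Agent.W424.NC.sigma_upper
  refine ⟨c, C, hc, hC, ?_⟩
  intro p p0 p1
  have p2 : p ≤ 1 := by linarith
  have hs : |p - 1/2| = 1/2 - p := by rw [abs_sub_comm, abs_of_pos (by linarith)]
  have hs0 : 0 < 1/2 - p := by linarith
  rw [sgR_eq p0.le p2, hs]
  have h1 := hl ⟨p, p0.le, p2⟩ p1
  have h2 := hu ⟨p, p0.le, p2⟩ p1
  have hfin : sigma ⟨p, p0.le, p2⟩ ≠ ⊤ := ne_top_of_le_ne_top ENNReal.ofReal_ne_top h2
  constructor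
  · exact (ENNReal.ofReal_le_iff_le_toReal hfin).1 h1
  · exact ENNReal.toReal_le_of_le_ofReal (by positivity) h2

theorem sg_hyp : ∃ A : ℝ, Sect.Hyp sgR 0 (1/2) A
    (fun p => A * (577 * |p - 1/2| ^ (-(43/18) : ℝ))) := by
  obtain ⟨A, hA, h⟩ := sg_der
  refine ⟨A, hA, le_rfl, by norm_num, fun p hp => hp.2.ne, fun p hp => (h p hp.1 hp.2).1, ?_, ?_⟩
  · intro p hp k
    refine ((h p hp.1 hp.2).2 k).trans (le_of_eq ?_)
    ring
  · intro δ hδ
    refine ⟨A * (577 * δ ^ (-(43/18) : ℝ)), by positivity, ?_⟩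
    intro p hp hd
    apply mul_le_mul_of_nonneg_left _ (by linarith)
    apply mul_le_mul_of_nonneg_left _ (by norm_num)
    exact Real.rpow_le_rpow_of_nonpos hδ hd (by norm_num)

/-- **The mean cluster size**: holomorphic extension to a sector and derivatives. -/
theorem sg_main : ∃ (c C : ℝ) (F : ℂ → ℂ), 0 < c ∧ 1 ≤ C ∧
    DifferentiableOn ℂ F (sec 0 (1/2) c) ∧
    (∀ p : ℝ, 0 < p → p < 1/2 → F p = sgR p) ∧
    (∀ z ∈ sec 0 (1/2) c, C⁻¹ * ‖z - 1/2‖ ^ (-(43/18) : ℝ) ≤ ‖F z‖ ∧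
      ‖F z‖ ≤ C * ‖z - 1/2‖ ^ (-(43/18) : ℝ)) ∧
    (∀ p : ℝ, 0 < p → p < 1/2 → AnalyticAt ℝ sgR p ∧
      ∀ k : ℕ, |iteratedDeriv k sgR p| ≤ C ^ (k + 1) * k ! * (1/2 - p) ^ (-(43:ℝ)/18 - k)) := by
  obtain ⟨A, H⟩ := sg_hyp
  obtain ⟨c0, C0, hc0, hC0, hb⟩ := sgR_bd
  have hA := H.hC
  have hA0 := H.cpos
  obtain ⟨ε, hε⟩ : ∃ ε : ℝ, ε = min (1/8) (c0 / (4 * (A * 577))) := ⟨_, rfl⟩
  have hε0 : 0 < ε := by rw [hε]; positivity
  have hε1 : ε ≤ 1/8 := by rw [hε]; exact min_le_left _ _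
  have hε2 : ε * (4 * (A * 577)) ≤ c0 := by
    rw [← le_div_iff₀ (by positivity), hε]; exact min_le_right _ _
  have hsm : ∀ p : ℝ, 0 < p → p < 1/2 →
      2 * ε * (A * (577 * |p - 1/2| ^ (-(43/18) : ℝ))) ≤ sgR p / 2 := by
    intro p hp p1
    have hs : 0 < |p - 1/2| := abs_pos.2 (by linarith)
    have h1 := (hb p hp p1).1
    have h3 : 0 ≤ |p - 1/2| ^ (-(43/18) : ℝ) := by positivity
    nlinarith [mul_le_mul_of_nonneg_right hε2 h3]
  have hεA : ε / A ≤ 1 := by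
    rw [div_le_one hA0]; linarith
  obtain ⟨C, hC⟩ : ∃ C : ℝ, C = 1 + 2 * c0⁻¹ + 16 * C0 + 577 * A := ⟨_, rfl⟩
  have hcc : 0 < c0⁻¹ := by positivity
  have hC1 : 1 ≤ C := by rw [hC]; linarith
  refine ⟨ε / A, C, K sgR, by positivity, hC1, K_diff' H hε1, ?_, ?_, ?_⟩
  · intro p hp p1
    exact K_real H ⟨hp, p1⟩
  · intro z hz
    have h0 := K_near H hε0 hε1 hz
    obtain ⟨h3, h4⟩ := sec_dist hεA hz
    obtain ⟨-, hz1, hz2⟩ := hz
    have hs : 0 < |z.re - 1/2| := abs_pos.2 (by linarith)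
    have hs' : 0 < ‖z - 1/2‖ := lt_of_lt_of_le hs h3
    obtain ⟨h5, h6⟩ := hb z.re hz1 hz2
    have h7 := h0.trans (hsm z.re hz1 hz2)
    have hp : 0 < sgR z.re := lt_of_lt_of_le (by positivity) h5
    have hn : ‖((sgR z.re : ℝ) : ℂ)‖ = sgR z.re := by
      rw [Complex.norm_real, Real.norm_eq_abs, abs_of_pos hp]
    have h8 : ‖K sgR z‖ ≤ ‖K sgR z - ((sgR z.re : ℝ) : ℂ)‖ + ‖((sgR z.re : ℝ) : ℂ)‖ := by
      calc ‖K sgR z‖ = ‖(K sgR z - ((sgR z.re : ℝ) : ℂ)) + ((sgR z.re : ℝ) : ℂ)‖ := by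
            rw [sub_add_cancel]
        _ ≤ _ := norm_add_le _ _
    have h9 : ‖((sgR z.re : ℝ) : ℂ)‖ ≤ ‖K sgR z‖ + ‖K sgR z - ((sgR z.re : ℝ) : ℂ)‖ := by
      calc ‖((sgR z.re : ℝ) : ℂ)‖ = ‖K sgR z - (K sgR z - ((sgR z.re : ℝ) : ℂ))‖ := by
            rw [sub_sub_cancel]
        _ ≤ _ := norm_sub_le _ _
    rw [hn] at h8 h9
    constructor
    · have h10 : ‖z - 1/2‖ ^ (-(43/18) : ℝ) ≤ |z.re - 1/2| ^ (-(43/18) : ℝ) :=
        Real.rpow_le_rpow_of_nonpos hs h3 (by norm_num)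
      have h11 : C⁻¹ ≤ c0 / 2 := by
        rw [inv_le_comm₀ (by linarith) (by positivity)]
        have e : (c0 / 2)⁻¹ = 2 * c0⁻¹ := by field_simp
        rw [e, hC]
        linarith
      calc C⁻¹ * ‖z - 1/2‖ ^ (-(43/18) : ℝ) ≤ c0 / 2 * |z.re - 1/2| ^ (-(43/18) : ℝ) :=
            mul_le_mul h11 h10 (by positivity) (by positivity)
        _ ≤ sgR z.re / 2 := by linarith
        _ ≤ _ := by linarith
    · have h10 : |z.re - 1/2| ^ (-(43/18) : ℝ) ≤ 8 * ‖z - 1/2‖ ^ (-(43/18) : ℝ) := by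
        have e1 : ‖z - 1/2‖ / 2 ≤ |z.re - 1/2| := by linarith
        calc |z.re - 1/2| ^ (-(43/18) : ℝ) ≤ (‖z - 1/2‖ / 2) ^ (-(43/18) : ℝ) :=
              Real.rpow_le_rpow_of_nonpos (by positivity) e1 (by norm_num)
          _ = (2:ℝ) ^ (43/18 : ℝ) * ‖z - 1/2‖ ^ (-(43/18) : ℝ) := by
              rw [Real.div_rpow hs'.le (by norm_num), Real.rpow_neg (by norm_num : (0:ℝ) ≤ 2),
                div_inv_eq_mul]
              ring
          _ ≤ 8 * ‖z - 1/2‖ ^ (-(43/18) : ℝ) := by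
              apply mul_le_mul_of_nonneg_right _ (by positivity)
              calc (2:ℝ) ^ (43/18 : ℝ) ≤ 2 ^ (3:ℝ) :=
                    Real.rpow_le_rpow_of_exponent_le (by norm_num) (by norm_num)
                _ = 8 := by norm_num
      have h11 : 0 < ‖z - 1/2‖ ^ (-(43/18) : ℝ) := by positivity
      calc ‖K sgR z‖ ≤ 2 * sgR z.re := by linarith
        _ ≤ 2 * (C0 * |z.re - 1/2| ^ (-(43/18) : ℝ)) := by linarith
        _ ≤ 2 * (C0 * (8 * ‖z - 1/2‖ ^ (-(43/18) : ℝ))) := by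
            apply mul_le_mul_of_nonneg_left _ (by norm_num)
            exact mul_le_mul_of_nonneg_left h10 hC0.le
        _ = 16 * C0 * ‖z - 1/2‖ ^ (-(43/18) : ℝ) := by ring
        _ ≤ C * ‖z - 1/2‖ ^ (-(43/18) : ℝ) := by
            apply mul_le_mul_of_nonneg_right _ h11.le
            rw [hC]; linarith
  · intro p hp p1
    have hps : 0 < 1/2 - p := by linarith
    have habs : |p - 1/2| = 1/2 - p := by rw [abs_sub_comm, abs_of_pos hps]
    constructor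
    · exact Sect.real_smooth (sec_open 0 (1/2) (ε / A)) (K_diff' H hε1) isOpen_Ioo (by
        intro x hx
        refine ⟨?_, ?_, ?_⟩
        · rw [Complex.ofReal_im, Complex.ofReal_re, abs_zero]
          have : 0 < |x - 1/2| := abs_pos.2 (by linarith [hx.2])
          positivity
        · rw [Complex.ofReal_re]; exact hx.1
        · rw [Complex.ofReal_re]; exact hx.2) (fun x hx => K_real H hx)
        (⟨hp, p1⟩ : p ∈ Ioo (0:ℝ) (1/2))
    · intro k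
      refine (H.bd p ⟨hp, p1⟩ k).trans ?_
      have h5 : (1/2 - p) ^ (-(43:ℝ)/18 - k) = (1/2 - p) ^ (-(43/18) : ℝ) * ((1/2 - p) ^ k)⁻¹ := by
        rw [Real.rpow_sub_natCast hps.ne', div_eq_mul_inv, neg_div]
      simp only [habs]
      rw [h5, inv_pow]
      calc A ^ k * (k ! : ℝ) * ((1/2 - p) ^ k)⁻¹ * (A * (577 * (1/2 - p) ^ (-(43/18) : ℝ)))
          = (A ^ k * (577 * A)) * ((k ! : ℝ) * ((1/2 - p) ^ (-(43/18) : ℝ) * ((1/2 - p) ^ k)⁻¹)) := by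
            ring
        _ ≤ (C ^ k * C) * ((k ! : ℝ) * ((1/2 - p) ^ (-(43/18) : ℝ) * ((1/2 - p) ^ k)⁻¹)) := by
            apply mul_le_mul_of_nonneg_right _ (by positivity)
            apply mul_le_mul _ _ (by positivity) (by positivity)
            · apply pow_le_pow_left₀ (by linarith)
              rw [hC]; linarith
            · rw [hC]; linarith
        _ = _ := by rw [pow_succ]; ring

end Pool.Agent.H30.PT
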