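import Pool.Agent.H30.PT.Key3
import Pool.Agent.H30.PT.One

/-! The annuli of the torus for the connection of two vertices. -/

set_option autoImplicit false

namespace Pool.Agent.H30.PT

open H974 H12S H389NS Finset Pool.Agent.NH39 Pool.Agent.NH39.GC Pool.Agent.NH39.W
open Pool.Agent.NH39.NC (hQ hQ_nonneg hQ_le_one le_hQ hQ_anti)

/-- The marked edge of a vertex. -/
def me {n : ℕ} (u : ZMod n × ZMod n) : TE n := (u.1, u.2, true)

theorem tsrc_me {n : ℕ} (u : ZMod n × ZMod n) : tsrc (me u) = u := rfl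

/-- The indicator function of the connection of `u` and `v`. -/
noncomputable def cn {n : ℕ} (u v : ZMod n × ZMod n) (F : Finset (TE n)) : ℝ :=
  ind (GC.GR tsrc ttgt (↑F : Set (TE n)) u v)

/-- All the elements of `G` matter together for the connection of `u` and `v`; the set `S` consists
of `G` and of the two marked places. -/
def Dt {n : ℕ} (u v : ZMod n × ZMod n) (S F : Finset (TE n)) : Prop :=
  ∃ G : Finset (TE n), G ∪ {me u, me v} = S ∧ Dl (cn u v) G F ≠ 0

/-- A far vertex. -/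
theorem far_vtx {n : ℕ} [NeZero n] {N : ℕ} (hN : 2 * N + 1 ≤ n) {x : TE n} {D : ℕ} (hD : D ≤ N)
    {u : ZMod n × ZMod n} (hu : D < tds (me u) x) :
    ∀ w : Vtx, |w.1| < D → |w.2| < D → rv n (cX x) (cY x) w ≠ u :=
  (far_ends hN hD hu).1

/-- A near vertex. -/
theorem near_vtx {n : ℕ} [NeZero n] {x : TE n} {r : ℕ}
    {u : ZMod n × ZMod n} (hu : tds (me u) x < r) :
    ∃ w : Vtx, InB (0, 0) r w ∧ rv n (cX x) (cY x) w = u := by
  unfold tds zd me at hu
  simp only at hu
  refine ⟨((u.1 - x.1).valMinAbs, (u.2 - x.2.1).valMinAbs), ?_, ?_⟩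
  · unfold InB
    simp only [sub_zero]
    rw [Int.abs_eq_natAbs, Int.abs_eq_natAbs]
    omega
  · unfold rv
    apply Prod.ext
    · push_cast
      rw [cX_cast]
      ring
    · push_cast
      rw [cY_cast]
      ring

/-- Without two crossing clusters of the annulus, `x` does not matter for the connection of far
vertices. -/
theorem det2 {n : ℕ} [NeZero n] {x : TE n} {r D : ℕ} (hr : 1 ≤ r)
    (hrD : r ≤ D) {u v : ZMod n × ZMod n}
    (hu : ∀ w : Vtx, |w.1| < D → |w.2| < D → rv n (cX x) (cY x) w ≠ u)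
    (hv : ∀ w : Vtx, |w.1| < D → |w.2| < D → rv n (cX x) (cY x) w ≠ v)
    {H : Finset (TE n)} (hno : ¬ A4a (0, 0) r D (↑(pu x D H) : Set Edg))
    (h : GC.GR tsrc ttgt (insert x (↑H : Set (TE n))) u v) :
    GC.GR tsrc ttgt (↑H : Set (TE n)) u v := by
  have hs : rv n (cX x) (cY x) (src (0, 0, x.2.2)) = tsrc x := by rw [← tsrc_rd, rd_cent]
  have ht : rv n (cX x) (cY x) (tgt (0, 0, x.2.2)) = ttgt x := by rw [← ttgt_rd, rd_cent]
  have hr' : (1:ℤ) ≤ r := by exact_mod_cast hr
  have is : InB (0, 0) r (src (0, 0, x.2.2)) := by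
    unfold InB
    simp only [src_mk, sub_zero, abs_zero]
    omega
  have it : InB (0, 0) r (tgt (0, 0, x.2.2)) := by
    unfold InB
    cases x.2.2
    · simp only [tgt_false, sub_zero, abs_zero, zero_add, abs_one]; omega
    · simp only [tgt_true, sub_zero, abs_zero, zero_add, abs_one]; omega
  -- both ends are joined to far vertices
  have main : ∀ z1 z2 : ZMod n × ZMod n,
      (∀ w : Vtx, |w.1| < D → |w.2| < D → rv n (cX x) (cY x) w ≠ z1) →
      (∀ w : Vtx, |w.1| < D → |w.2| < D → rv n (cX x) (cY x) w ≠ z2) →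
      GC.GR tsrc ttgt (↑H : Set (TE n)) (tsrc x) z1 → GC.GR tsrc ttgt (↑H : Set (TE n)) (ttgt x) z2 →
      GC.GR tsrc ttgt (↑H : Set (TE n)) (tsrc x) (ttgt x) := by
    intro z1 z2 g1 g2 h1 h2
    rw [← hs] at h1
    rw [← ht] at h2
    obtain ⟨v, hv, w, hw, r1, r2⟩ := cross2 hrD is g1 h1
    obtain ⟨v', hv', w', hw', r1', r2'⟩ := cross2 hrD it g2 h2
    have hc : Reach ((↑(pu x D H) : Set Edg) ∩ ↑(blk (0, 0) D \ blk (0, 0) r)) v v' := by
      by_contra hc
      exact hno ⟨v, hv, v', hv', ⟨w, hw, r1⟩, ⟨w', hw', r1'⟩, hc⟩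
    have hw' : Reach (↑(pu x D H) : Set Edg) w w' :=
      (((r1.symm.trans hc).trans r1').mono Set.inter_subset_left)
    have h3 : GC.GR tsrc ttgt (↑H : Set (TE n)) (rv n (cX x) (cY x) w) (rv n (cX x) (cY x) w') := by
      refine reach_rd ?_ hw'
      intro e he
      unfold pu at he
      rw [Finset.mem_coe, Finset.mem_filter] at he
      exact Finset.mem_coe.2 he.2
    rw [hs] at r2
    rw [ht] at r2'
    exact r2.trans (h3.trans r2'.symm)
  rcases GC.GR.insert_cases h with h1 | ⟨h1, h2⟩ | ⟨h1, h2⟩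
  · exact h1
  · exact h1.trans ((main _ _ hu hv h1.symm h2).trans h2)
  · exact h1.trans ((main _ _ hv hu h2 h1.symm).symm.trans h2)

/-- No four arms, no mixed difference. -/
theorem Dl_zero2 {n : ℕ} [NeZero n] {N : ℕ} (hN : 2 * N + 1 ≤ n) {x : TE n} {r D : ℕ} (hr : 1 ≤ r)
    (hrD : r ≤ D) (hD : D ≤ N) {G F : Finset (TE n)} (hx : x ∈ G)
    (hG : ∀ y ∈ G, tds y x < r ∨ D < tds y x) {u v : ZMod n × ZMod n}
    (hu : ∀ w : Vtx, |w.1| < D → |w.2| < D → rv n (cX x) (cY x) w ≠ u)
    (hv : ∀ w : Vtx, |w.1| < D → |w.2| < D → rv n (cX x) (cY x) w ≠ v)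
    (hno : ¬ A4a (0, 0) r D (↑(pu x D F) : Set Edg)) : Dl (cn u v) G F = 0 := by
  rw [Dl_split hx]
  apply Finset.sum_eq_zero
  intro T hT
  rw [Finset.mem_powerset] at hT
  have hTG : T ⊆ G := hT.trans (Finset.erase_subset _ _)
  have h0 : cn u v (insert x ((F \ G) ∪ T)) - cn u v ((F \ G) ∪ T) = 0 := by
    rw [sub_eq_zero]
    unfold cn
    apply ind_congr
    constructor
    · intro h
      rw [Finset.coe_insert] at h
      refine det2 hr hrD hu hv ?_ h
      rw [A4a_congr (pu_congr hN hD (F := (F \ G) ∪ T) (F' := F) (r := r) (D := D) (x := x) ?_)]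
      · exact hno
      · intro e h1 h2
        rw [Finset.mem_union, Finset.mem_sdiff]
        have he : e ∉ G := by
          intro h
          rcases hG e h with h3 | h3 <;> omega
        constructor
        · rintro (h | h)
          · exact h.1
          · exact absurd (hTG h) he
        · intro h
          exact Or.inl ⟨h, he⟩
    · intro h
      refine h.mono ?_
      rw [Finset.coe_insert]
      exact Set.subset_insert _ _
  rw [h0, mul_zero]

/-- An open crossing of the annulus. -/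
def O1 (r D : ℕ) (F : Set Edg) : Prop :=
  ∃ v ∈ bdB (0, 0) r, ∃ w ∈ bdB (0, 0) D, Reach (F ∩ ↑(blk (0, 0) D \ blk (0, 0) r)) v w

theorem O1_congr {r D : ℕ} {F F' : Set Edg}
    (h : F ∩ ↑(blk (0, 0) D \ blk (0, 0) r) = F' ∩ ↑(blk (0, 0) D \ blk (0, 0) r)) :
    O1 r D F ↔ O1 r D F' := by
  unfold O1
  rw [h]

/-- The probability of an open crossing of the annulus. -/
theorem O1_barm {q : ℝ} (q0 : 0 ≤ q) (q1 : q ≤ 1) (r D : ℕ) :
    Pr (fun _ => q) (boxE D) (fun F => O1 r D (↑F : Set Edg)) ≤ barm q r D := by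
  unfold barm
  apply Pr_mono (okq q0 q1)
  rintro F _ ⟨v, hv, w, hw, hr⟩
  obtain ⟨h1, h2, -⟩ := hv
  obtain ⟨h3, h4, h5⟩ := hw
  simp only [sub_zero] at h1 h2 h3 h4 h5
  rw [abs_le] at h1 h2 h3 h4
  refine ⟨v, w, ?_, ?_, hr.mono ?_⟩
  · unfold inR; omega
  · unfold onB inR
    refine ⟨by omega, ?_⟩
    rcases h5 with h5 | h5
    · rcases abs_eq (by positivity : (0:ℤ) ≤ D) |>.1 h5 with h6 | h6
      · exact Or.inr (Or.inl h6)
      · exact Or.inl h6
    · rcases abs_eq (by positivity : (0:ℤ) ≤ D) |>.1 h5 with h6 | h6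
      · exact Or.inr (Or.inr (Or.inr h6))
      · exact Or.inr (Or.inr (Or.inl h6))
  · rintro e ⟨h6, h7⟩
    refine ⟨h6, ?_⟩
    rw [Finset.mem_coe, Finset.mem_sdiff, S4C_blk0] at h7
    exact Finset.mem_coe.2 h7.1

/-- The annulus event in the torus: one arm from a near vertex to a far vertex. -/
theorem one_cross {n : ℕ} [NeZero n] {N : ℕ} (hN : 2 * N + 1 ≤ n) {x : TE n} {r D : ℕ}
    (hrD : r ≤ D) (hD : D ≤ N) {G F : Finset (TE n)}
    (hG : ∀ y ∈ G, tds y x < r ∨ D < tds y x) {u v : ZMod n × ZMod n}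
    (hu : tds (me u) x < r) (hv : D < tds (me v) x) (hne : Dl (cn u v) G F ≠ 0) :
    O1 r D (↑(pu x D F) : Set Edg) := by
  obtain ⟨T, hT, hT2⟩ := Finset.exists_ne_zero_of_sum_ne_zero hne
  rw [Finset.mem_powerset] at hT
  have h1 : cn u v ((F \ G) ∪ T) ≠ 0 := fun h => hT2 (by rw [h, mul_zero])
  have h2 : GC.GR tsrc ttgt (↑((F \ G) ∪ T) : Set (TE n)) u v := by
    by_contra hc
    exact h1 (ind_not_of hc)
  obtain ⟨w, hw, hwu⟩ := near_vtx hu
  rw [← hwu] at h2
  obtain ⟨a, ha, b, hb, hr, -⟩ := cross2 hrD hw (far_vtx hN hD hv) h2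
  rw [O1_congr (pu_congr hN hD (F := F) (F' := (F \ G) ∪ T) (r := r) (D := D) (x := x) ?_)]
  · exact ⟨a, ha, b, hb, hr⟩
  · intro e h1 h2
    rw [Finset.mem_union, Finset.mem_sdiff]
    have he : e ∉ G := by
      intro h
      rcases hG e h with h3 | h3 <;> omega
    constructor
    · intro h
      exact Or.inl ⟨h, he⟩
    · rintro (h | h)
      · exact h.1
      · exact absurd (hT h) he

theorem cn_symm {n : ℕ} (u v : ZMod n × ZMod n) (F : Finset (TE n)) : cn u v F = cn v u F := by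
  unfold cn
  exact ind_congr ⟨fun h => h.symm, fun h => h.symm⟩

/-! ### the weights for all parameters -/

/-- The one-arm weight. -/
noncomputable def vv (q : ℝ) : ℕ → ℝ := if q ≤ 1/2 then vS q else vP q

theorem vv_wgt {q : ℝ} (q0 : 0 ≤ q) (q1 : q ≤ 1) : Wgt (vv q) WV := by
  unfold vv
  split_ifs
  · exact vS_wgt q
  · exact vP_wgt q0 q1

theorem wt_wgt (q : ℝ) : Wgt (wt q) WV :=
  ⟨wt_one q, fun _ hr => wt_pos q hr, fun _ _ h1 h2 => wt_anti q h1 h2,
    fun _ _ h1 h2 h3 => wt_doub q h1 h2 h3⟩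

theorem wvv (q : ℝ) {r s : ℕ} (hr : 1 ≤ r) (hs : r ≤ s) :
    wt q s * vv q r ≤ WV * (wt q r * vv q s) := by
  unfold vv
  split_ifs
  · exact wvS q hr hs
  · exact wvP q hr hs

theorem barm_all : ∃ C : ℝ, 1 ≤ C ∧ ∀ q : ℝ, 0 ≤ q → q ≤ 1 → ∀ r D : ℕ, 1 ≤ r → r ≤ D →
    barm q r D ≤ C * (vv q D / vv q r) := by
  obtain ⟨C1, hC1, h1⟩ := barm_sub
  obtain ⟨C2, hC2, h2⟩ := barm_sup
  refine ⟨C1 + C2, by linarith, ?_⟩
  intro q q0 q1 r D hr hrD
  have hv := vv_wgt q0 q1
  have vr := hv.pos r hr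
  have vD := hv.pos D (hr.trans hrD)
  have hq0 : 0 < vv q D / vv q r := by positivity
  by_cases hq : q ≤ 1/2
  · have h := h1 q q0 hq r D hr hrD
    have e : vv q = vS q := by unfold vv; rw [if_pos hq]
    rw [← e] at h
    exact h.trans (mul_le_mul_of_nonneg_right (by linarith) hq0.le)
  · have h := h2 q (by linarith) q1 r D hr hrD
    have e : vv q = vP q := by unfold vv; rw [if_neg hq]
    rw [← e] at h
    exact h.trans (mul_le_mul_of_nonneg_right (by linarith) hq0.le)

/-! ### the induction on the torus -/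

theorem tds_pos {n : ℕ} [NeZero n] {u v : ZMod n × ZMod n} (h : u ≠ v) :
    1 ≤ tds (me u) (me v) := by
  by_contra hc
  apply h
  have h0 : tds (me u) (me v) = 0 := by omega
  unfold tds zd me at h0
  simp only at h0
  have h1 : (u.1 - v.1).valMinAbs.natAbs = 0 := by omega
  have h2 : (u.2 - v.2).valMinAbs.natAbs = 0 := by omega
  rw [Int.natAbs_eq_zero, ZMod.valMinAbs_eq_zero, sub_eq_zero] at h1 h2
  exact Prod.ext h1 h2

/-- The hypotheses of the induction hold on the torus. -/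
theorem torKS : ∃ C : ℝ, 1 ≤ C ∧ ∀ (N n : ℕ) [NeZero n], n = 2 * N + 1 → 1 ≤ N → ∀ q : ℝ, 0 ≤ q →
    q ≤ 1 → ∀ u v : ZMod n × ZMod n, u ≠ v →
      KS tds N q (wt q) (vv q) (me u) (me v) (Dt u v) C WV := by
  obtain ⟨C1, hC1, hpl⟩ := pl
  obtain ⟨C2, hC2, hone⟩ := barm_all
  refine ⟨C1 + C2, by linarith, ?_⟩
  intro N n _ hn hN1 q q0 q1 u v huv
  have hN : 2 * N + 1 ≤ n := hn.ge
  have hw := wt_wgt q
  have hv := vv_wgt q0 q1
  have hpull : ∀ (x : TE n) (D : ℕ), D ≤ N → ∀ A : Set Edg → Prop,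
      Pr (fun _ => q) (Finset.univ : Finset (TE n)) (fun F => A (↑(pu x D F) : Set Edg)) =
      Pr (fun _ => q) (boxE D) (fun F => A (↑F : Set Edg)) := by
    intro x D hD A
    have hinj : Set.InjOn (rd n (cX x) (cY x)) (boxE D : Set Edg) := rd_inj (by omega)
    exact Pr_pull (q := q) hinj (S := (Finset.univ : Finset (TE n)))
      (Finset.subset_univ _) (fun G => A (↑G : Set Edg))
  refine ⟨tds_self, tds_comm, tds_tri, hN1, q0, q1, hw, hv, fun r s h1 h2 => wvv q h1 h2,
    tds_pos huv, ?_, ?_, by linarith, WV_one⟩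
  · intro x r D hr hrD hD
    refine ⟨fun F => A4a (0, 0) r D (↑(pu x D F) : Set Edg), ?_, ?_, ?_⟩
    · intro F F' hF
      exact A4a_congr (pu_congr hN hD hF)
    · intro S F hx hS hα hβ hDt
      obtain ⟨G, hGS, hne⟩ := hDt
      by_contra hno
      have hxu : x ≠ me u := by
        rintro rfl
        rw [tds_self] at hα
        omega
      have hxv : x ≠ me v := by
        rintro rfl
        rw [tds_self] at hβ
        omega
      have hxG : x ∈ G := by
        rw [← hGS, mem_union, mem_insert, mem_singleton] at hx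
        rcases hx with h | h | h
        · exact h
        · exact absurd h hxu
        · exact absurd h hxv
      refine hne (Dl_zero2 hN hr hrD hD hxG (fun y hy => hS y ?_) (far_vtx hN hD hα)
        (far_vtx hN hD hβ) hno)
      rw [← hGS]
      exact mem_union_left _ hy
    · rw [hpull x D hD (A4a (0, 0) r D)]
      have h1 := hpl q q0 q1 r D hr hrD
      have hp : 0 < wt q D / wt q r := by
        have := hw.pos r hr
        have := hw.pos D (hr.trans hrD)
        positivity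
      have h2 : Pr (fun _ => q) (boxE D) (fun F => A4a (0, 0) r D (↑F : Set Edg)) = hQ q r D := rfl
      rw [h2]
      exact h1.trans (mul_le_mul_of_nonneg_right (by linarith) hp.le)
  · intro x r D hr hrD hD
    refine ⟨fun F => O1 r D (↑(pu x D F) : Set Edg), ?_, ?_, ?_⟩
    · intro F F' hF
      exact O1_congr (pu_congr hN hD hF)
    · intro S F hx hS hcase hDt
      obtain ⟨G, hGS, hne⟩ := hDt
      have hG : ∀ y ∈ G, tds y x < r ∨ D < tds y x := by
        intro y hy
        apply hS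
        rw [← hGS]
        exact mem_union_left _ hy
      rcases hcase with ⟨h1, h2⟩ | ⟨h1, h2⟩
      · exact one_cross hN hrD hD hG h1 h2 hne
      · have e : (cn u v : Finset (TE n) → ℝ) = cn v u := by
          funext F
          exact cn_symm u v F
        rw [e] at hne
        exact one_cross hN hrD hD hG h1 h2 hne
    · rw [hpull x D hD (O1 r D)]
      have h1 := (O1_barm q0 q1 r D).trans (hone q q0 q1 r D hr hrD)
      have hp : 0 < vv q D / vv q r := by
        have := hv.pos r hr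
        have := hv.pos D (hr.trans hrD)
        positivity
      exact h1.trans (mul_le_mul_of_nonneg_right (by linarith) hp.le)

end Pool.Agent.H30.PT
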